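import Pool.Agent.CY.S5.Calc

/-!
Project CY, part S5: the domains of charts are domains in the sense of `Dom`; transition maps.
-/

set_option autoImplicit false
set_option linter.unusedSectionVars false

open scoped ContDiff Manifold
open MeasureTheory Set Filter Topology

namespace Pool.Agent.CY

section doms

variable {n : ℕ}

theorem convex_Hs : Convex ℝ (Hs n) := by
  intro x hx y hy a b ha hb _
  simp only [Hs, mem_ofPred_eq, PiLp.add_apply, PiLp.smul_apply, smul_eq_mul] at *
  positivity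

theorem isOpen_Ho : IsOpen (Ho n) := by
  have : Continuous fun x : V (n + 1) => x 0 := by fun_prop
  exact isOpen_lt continuous_const this

theorem isClosed_Hs : IsClosed (Hs n) := by
  have : Continuous fun x : V (n + 1) => x 0 := by fun_prop
  exact isClosed_le continuous_const this

theorem Ho_subset_Hs : Ho n ⊆ Hs n := fun x hx => le_of_lt (by simpa [Ho] using hx)

theorem Ho_nonempty : (Ho n).Nonempty := ⟨EuclideanSpace.single 0 1, by simp [Ho]⟩

theorem interior_Hs_nonempty : (interior (Hs n)).Nonempty :=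
  Ho_nonempty.mono (interior_maximal Ho_subset_Hs isOpen_Ho)

theorem uniqueDiffOn_Hs : UniqueDiffOn ℝ (Hs n) := uniqueDiffOn_convex convex_Hs interior_Hs_nonempty

theorem Hs_subset_closure : Hs n ⊆ closure (interior (Hs n)) := by
  rw [convex_Hs.closure_interior_eq_closure_of_nonempty_interior interior_Hs_nonempty]
  exact subset_closure

theorem dom_of_open {m : ℕ} {U : Set (V m)} (hU : IsOpen U) : Dom (univ : Set (V m)) U where
  uniq := uniqueDiffOn_univ
  sub := subset_univ _
  nhds := fun y hy => by rw [nhdsWithin_univ]; exact hU.mem_nhds hy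
  clos := fun y _ => by simp

theorem dom_of_open_Hs {U O : Set (V (n + 1))} (hO : IsOpen O) (hU : U = O ∩ Hs n) : Dom (Hs n) U where
  uniq := uniqueDiffOn_Hs
  sub := by rw [hU]; exact inter_subset_right
  nhds := fun y hy => by
    rw [hU] at hy ⊢
    exact inter_mem (mem_nhdsWithin_of_mem_nhds (hO.mem_nhds hy.1)) self_mem_nhdsWithin
  clos := fun y hy => Hs_subset_closure (by rw [hU] at hy; exact hy.2)

/-- Intersection of a domain with an open set. -/
theorem Dom.inter_open {m : ℕ} {S U : Set (V m)} (h : Dom S U) {O : Set (V m)} (hO : IsOpen O) :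
    Dom S (U ∩ O) where
  uniq := h.uniq
  sub := inter_subset_left.trans h.sub
  nhds := fun y hy => inter_mem (h.nhds y hy.1) (mem_nhdsWithin_of_mem_nhds (hO.mem_nhds hy.2))
  clos := fun y hy => h.clos y hy.1

/-- A subset of `U` which is relatively open in `S`. -/
theorem Dom.mono {m : ℕ} {S U : Set (V m)} (h : Dom S U) {W : Set (V m)} (hW : W ⊆ U)
    (hn : ∀ y ∈ W, W ∈ 𝓝[U] y) : Dom S W where
  uniq := h.uniq
  sub := hW.trans h.sub
  nhds := fun y hy => by rw [h.nhds_eq (hW hy)]; exact hn y hy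
  clos := fun y hy => h.clos y (hW hy)

variable {X : Type} [TopologicalSpace X] [ChartedSpace (EuclideanHalfSpace (n + 1)) X]

theorem Hs_eq_range : Hs n = range (𝓡∂ (n + 1)) := by
  rw [range_modelWithCornersEuclideanHalfSpace]; rfl

theorem model_symm_apply {y : V (n + 1)} (hy : y ∈ Hs n) : (𝓡∂ (n + 1)).symm y = ⟨y, hy⟩ := by
  have h1 : (𝓡∂ (n + 1)) ⟨y, hy⟩ = y := rfl
  conv_lhs => rw [← h1]
  exact (𝓡∂ (n + 1)).left_inv _

theorem dom_subset (e : OpenPartialHomeomorph X (EuclideanHalfSpace (n + 1))) : dom e ⊆ Hs n := by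
  rintro _ ⟨y, _, rfl⟩
  exact y.2

theorem dom_open (e : OpenPartialHomeomorph X (EuclideanHalfSpace (n + 1))) :
    ∃ O : Set (V (n + 1)), IsOpen O ∧ dom e = O ∩ Hs n := by
  obtain ⟨O, hO, hO'⟩ := isOpen_induced_iff.1 e.open_target
  refine ⟨O, hO, ?_⟩
  ext y
  constructor
  · rintro ⟨z, hz, rfl⟩
    rw [← hO'] at hz
    exact ⟨hz, z.2⟩
  · rintro ⟨h1, h2⟩
    refine ⟨⟨y, h2⟩, ?_, rfl⟩
    rw [← hO']
    exact h1

theorem dom_chart (e : OpenPartialHomeomorph X (EuclideanHalfSpace (n + 1))) : Dom (Hs n) (dom e) := by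
  obtain ⟨O, hO, h⟩ := dom_open e
  exact dom_of_open_Hs hO h

theorem mem_dom_iff (e : OpenPartialHomeomorph X (EuclideanHalfSpace (n + 1))) {y : V (n + 1)}
    (hy : y ∈ Hs n) : y ∈ dom e ↔ (⟨y, hy⟩ : EuclideanHalfSpace (n + 1)) ∈ e.target := by
  constructor
  · rintro ⟨z, hz, rfl⟩
    exact hz
  · intro h
    exact ⟨_, h, rfl⟩

theorem co_mem_Hs (e : OpenPartialHomeomorph X (EuclideanHalfSpace (n + 1))) (p : X) : co e p ∈ Hs n :=
  (e p).2

theorem co_mem_dom (e : OpenPartialHomeomorph X (EuclideanHalfSpace (n + 1))) {p : X} (hp : p ∈ e.source) :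
    co e p ∈ dom e := ⟨e p, e.map_source hp, rfl⟩

theorem pt_mem_source (e : OpenPartialHomeomorph X (EuclideanHalfSpace (n + 1))) {y : V (n + 1)}
    (hy : y ∈ dom e) : pt e y ∈ e.source := by
  have h1 := dom_subset e hy
  rw [pt, model_symm_apply h1]
  exact e.map_target ((mem_dom_iff e h1).1 hy)

theorem co_pt (e : OpenPartialHomeomorph X (EuclideanHalfSpace (n + 1))) {y : V (n + 1)}
    (hy : y ∈ dom e) : co e (pt e y) = y := by
  have h1 := dom_subset e hy
  rw [co, pt, model_symm_apply h1, e.right_inv ((mem_dom_iff e h1).1 hy)]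

theorem pt_co (e : OpenPartialHomeomorph X (EuclideanHalfSpace (n + 1))) {p : X} (hp : p ∈ e.source) :
    pt e (co e p) = p := by
  rw [pt, model_symm_apply (co_mem_Hs e p)]
  show e.symm (e p) = p
  exact e.left_inv hp

theorem continuousOn_pt (e : OpenPartialHomeomorph X (EuclideanHalfSpace (n + 1))) :
    ContinuousOn (pt e) (dom e) := by
  refine e.continuousOn_symm.comp (𝓡∂ (n + 1)).continuous_symm.continuousOn ?_
  intro y hy
  have h1 := dom_subset e hy
  rw [model_symm_apply h1]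
  exact (mem_dom_iff e h1).1 hy

theorem continuousOn_co (e : OpenPartialHomeomorph X (EuclideanHalfSpace (n + 1))) :
    ContinuousOn (co e) e.source :=
  continuous_subtype_val.comp_continuousOn e.continuousOn

/-- The common domain of two charts, in the coordinates of the first one. -/
def dom2 (e e' : OpenPartialHomeomorph X (EuclideanHalfSpace (n + 1))) : Set (V (n + 1)) :=
  {y | y ∈ dom e ∧ pt e y ∈ e'.source}

theorem dom2_subset (e e' : OpenPartialHomeomorph X (EuclideanHalfSpace (n + 1))) : dom2 e e' ⊆ dom e :=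
  fun _ hy => hy.1

theorem dom_chart2 (e e' : OpenPartialHomeomorph X (EuclideanHalfSpace (n + 1))) :
    Dom (Hs n) (dom2 e e') := by
  refine (dom_chart e).mono (dom2_subset e e') ?_
  intro y hy
  have h1 := continuousOn_pt e y hy.1
  have h2 := h1.preimage_mem_nhdsWithin (e'.open_source.mem_nhds hy.2)
  filter_upwards [h2, self_mem_nhdsWithin] with z hz hz'
  exact ⟨hz', hz⟩

/-- The transition map between two charts. -/
noncomputable def tr (e e' : OpenPartialHomeomorph X (EuclideanHalfSpace (n + 1))) (y : V (n + 1)) : V (n + 1) :=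
  co e' (pt e y)

theorem tr_mem (e e' : OpenPartialHomeomorph X (EuclideanHalfSpace (n + 1))) {y : V (n + 1)}
    (hy : y ∈ dom2 e e') : tr e e' y ∈ dom2 e' e := by
  refine ⟨co_mem_dom e' hy.2, ?_⟩
  show pt e' (co e' (pt e y)) ∈ e.source
  rw [pt_co e' hy.2]
  exact pt_mem_source e hy.1

theorem tr_tr (e e' : OpenPartialHomeomorph X (EuclideanHalfSpace (n + 1))) {y : V (n + 1)}
    (hy : y ∈ dom2 e e') : tr e' e (tr e e' y) = y := by
  show co e (pt e' (co e' (pt e y))) = y
  rw [pt_co e' hy.2, co_pt e hy.1]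

theorem pt_tr (e e' : OpenPartialHomeomorph X (EuclideanHalfSpace (n + 1))) {y : V (n + 1)}
    (hy : y ∈ dom2 e e') : pt e' (tr e e' y) = pt e y := pt_co e' hy.2

/-- Transition maps are smooth. -/
theorem contDiffOn_tr_vec [IsManifold (𝓡∂ (n + 1)) ∞ X]
    {e e' : OpenPartialHomeomorph X (EuclideanHalfSpace (n + 1))}
    (he : e ∈ atlas (EuclideanHalfSpace (n + 1)) X) (he' : e' ∈ atlas (EuclideanHalfSpace (n + 1)) X) :
    ContDiffOn ℝ ∞ (tr e e') (dom2 e e') := by
  have h1 : e.symm.trans e' ∈ contDiffGroupoid ∞ (𝓡∂ (n + 1)) := HasGroupoid.compatible he he'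
  rw [contDiffGroupoid, mem_groupoid_of_pregroupoid] at h1
  have h2 := h1.1
  simp only [contDiffPregroupoid] at h2
  refine h2.mono ?_
  intro y hy
  have hy1 := dom_subset e hy.1
  refine ⟨?_, ⟨⟨y, hy1⟩, rfl⟩⟩
  simp only [mem_preimage]
  rw [model_symm_apply hy1]
  refine ⟨(mem_dom_iff e hy1).1 hy.1, ?_⟩
  have := hy.2
  rw [pt, model_symm_apply hy1] at this
  exact this

theorem contDiffOn_tr [IsManifold (𝓡∂ (n + 1)) ∞ X]
    {e e' : OpenPartialHomeomorph X (EuclideanHalfSpace (n + 1))}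
    (he : e ∈ atlas (EuclideanHalfSpace (n + 1)) X) (he' : e' ∈ atlas (EuclideanHalfSpace (n + 1)) X)
    (k : Fin (n + 1)) : ContDiffOn ℝ ∞ (fun y => tr e e' y k) (dom2 e e') :=
  (EuclideanSpace.proj k : V (n + 1) →L[ℝ] ℝ).contDiff.comp_contDiffOn (contDiffOn_tr_vec he he')

/-- The coordinate expression of a `C^k` function is `C^k`. -/
theorem contDiffOn_loc [IsManifold (𝓡∂ (n + 1)) ∞ X] {k : ℕ∞}
    {e : OpenPartialHomeomorph X (EuclideanHalfSpace (n + 1))}
    (he : e ∈ atlas (EuclideanHalfSpace (n + 1)) X) {u : X → ℝ}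
    (hu : ContMDiff (𝓡∂ (n + 1)) 𝓘(ℝ) k u) : ContDiffOn ℝ k (fun y => u (pt e y)) (dom e) := by
  have hk : (k : WithTop ℕ∞) ≤ ∞ := by exact_mod_cast le_top
  have hm : IsManifold (𝓡∂ (n + 1)) k X := IsManifold.of_le hk
  have he1 : e ∈ IsManifold.maximalAtlas (𝓡∂ (n + 1)) k X := IsManifold.subset_maximalAtlas he
  rw [← contMDiffOn_iff_contDiffOn]
  have h1 := contMDiffOn_symm_of_mem_maximalAtlas he1
  have h2 : ContMDiffOn 𝓘(ℝ, V (n + 1)) (𝓡∂ (n + 1)) k (𝓡∂ (n + 1)).symm (dom e) :=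
    ((𝓡∂ (n + 1)).contMDiffOn_symm (n := k)).mono (by rw [← Hs_eq_range]; exact dom_subset e)
  have h3 := h1.comp h2 (by
    intro y hy
    have hy1 := dom_subset e hy
    simp only [mem_preimage]
    rw [model_symm_apply hy1]
    exact (mem_dom_iff e hy1).1 hy)
  exact hu.comp_contMDiffOn h3

/-- A function whose coordinate expressions are `C^k` is `C^k`. -/
theorem contMDiff_of_loc [IsManifold (𝓡∂ (n + 1)) ∞ X] {k : ℕ∞} {u : X → ℝ}
    (hu : ∀ e ∈ atlas (EuclideanHalfSpace (n + 1)) X, ContDiffOn ℝ k (fun y => u (pt e y)) (dom e)) :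
    ContMDiff (𝓡∂ (n + 1)) 𝓘(ℝ) k u := by
  have hk : (k : WithTop ℕ∞) ≤ ∞ := by exact_mod_cast le_top
  have hm : IsManifold (𝓡∂ (n + 1)) k X := IsManifold.of_le hk
  intro p
  have he : chartAt (EuclideanHalfSpace (n + 1)) p ∈ atlas (EuclideanHalfSpace (n + 1)) X := chart_mem_atlas _ p
  have he1 : chartAt (EuclideanHalfSpace (n + 1)) p ∈ IsManifold.maximalAtlas (𝓡∂ (n + 1)) k X :=
    IsManifold.subset_maximalAtlas he
  have h0 : ContMDiffOn 𝓘(ℝ, V (n + 1)) 𝓘(ℝ) k (fun y => u (pt (chartAt (EuclideanHalfSpace (n + 1)) p) y))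
      (dom (chartAt (EuclideanHalfSpace (n + 1)) p)) :=
    contMDiffOn_iff_contDiffOn.2 (hu _ he)
  have h1 : ContMDiffOn (𝓡∂ (n + 1)) 𝓘(ℝ, V (n + 1)) k
      (co (chartAt (EuclideanHalfSpace (n + 1)) p)) (chartAt (EuclideanHalfSpace (n + 1)) p).source :=
    (𝓡∂ (n + 1)).contMDiff.comp_contMDiffOn (contMDiffOn_of_mem_maximalAtlas he1)
  have h2 := h0.comp h1 (fun q hq => co_mem_dom _ hq)
  have h3 : ContMDiffOn (𝓡∂ (n + 1)) 𝓘(ℝ) k u (chartAt (EuclideanHalfSpace (n + 1)) p).source := by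
    refine h2.congr fun q hq => ?_
    simp only [Function.comp_apply]
    rw [pt_co _ hq]
  exact h3.contMDiffAt ((chartAt (EuclideanHalfSpace (n + 1)) p).open_source.mem_nhds
    (mem_chart_source _ p))

theorem continuous_of_loc {u : X → ℝ}
    (hu : ∀ e ∈ atlas (EuclideanHalfSpace (n + 1)) X, ContinuousOn (fun y => u (pt e y)) (dom e)) :
    Continuous u := by
  rw [continuous_iff_continuousAt]
  intro p
  have h0 := hu _ (chart_mem_atlas (EuclideanHalfSpace (n + 1)) p)
  have h1 := continuousOn_co (chartAt (EuclideanHalfSpace (n + 1)) p)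
  have h2 := h0.comp h1 (fun q hq => co_mem_dom _ hq)
  have h3 : ContinuousOn u (chartAt (EuclideanHalfSpace (n + 1)) p).source := by
    refine h2.congr fun q hq => ?_
    simp only [Function.comp_apply]
    rw [pt_co _ hq]
  exact h3.continuousAt ((chartAt (EuclideanHalfSpace (n + 1)) p).open_source.mem_nhds
    (mem_chart_source _ p))

end doms

end Pool.Agent.CY
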