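import Pool.Agent.CY.S5.Doms

/-!
Project CY, part S5: metrics on a domain of a chart: inverse, Christoffel symbols, metric compatibility.
-/

set_option autoImplicit false

open scoped ContDiff Manifold
open MeasureTheory Set Filter Topology

namespace Pool.Agent.CY

/-- `g` is a metric of class `C^k` on `U`. -/
structure MetOn {m : ℕ} (U : Set (V m)) (g : MF m) (k : WithTop ℕ∞) : Prop where
  pos : ∀ y ∈ U, (g y).PosDef
  smooth : ∀ i j, ContDiffOn ℝ k (fun y => g y i j) U

section met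

variable {m : ℕ} {S U : Set (V m)} {g : MF m} {k : WithTop ℕ∞}

theorem MetOn.of_le (hg : MetOn U g k) {l : WithTop ℕ∞} (h : l ≤ k) : MetOn U g l :=
  ⟨hg.pos, fun i j => (hg.smooth i j).of_le h⟩

theorem MetOn.mono (hg : MetOn U g k) {W : Set (V m)} (h : W ⊆ U) : MetOn W g k :=
  ⟨fun y hy => hg.pos y (h hy), fun i j => (hg.smooth i j).mono h⟩

theorem MetOn.symm (hg : MetOn U g k) {y : V m} (hy : y ∈ U) (i j : Fin m) : g y i j = g y j i := by
  have h := (hg.pos y hy).isHermitian
  have := congrFun (congrFun h j) i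
  simpa [Matrix.conjTranspose_apply] using this

theorem MetOn.det_pos (hg : MetOn U g k) {y : V m} (hy : y ∈ U) : 0 < (g y).det := (hg.pos y hy).det_pos

theorem MetOn.isUnit_det (hg : MetOn U g k) {y : V m} (hy : y ∈ U) : IsUnit (g y).det :=
  (hg.det_pos hy).ne'.isUnit

theorem MetOn.inv_symm (hg : MetOn U g k) {y : V m} (hy : y ∈ U) (i j : Fin m) :
    (g y)⁻¹ i j = (g y)⁻¹ j i := by
  have h := (hg.pos y hy).isHermitian.inv
  have := congrFun (congrFun h j) i
  simpa [Matrix.conjTranspose_apply] using this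

theorem MetOn.mul_inv (hg : MetOn U g k) {y : V m} (hy : y ∈ U) (i j : Fin m) :
    ∑ l, g y i l * (g y)⁻¹ l j = if i = j then 1 else 0 := by
  have h := Matrix.mul_nonsing_inv _ (hg.isUnit_det hy)
  have := congrFun (congrFun h i) j
  rw [Matrix.mul_apply, Matrix.one_apply] at this
  exact this

theorem MetOn.inv_mul (hg : MetOn U g k) {y : V m} (hy : y ∈ U) (i j : Fin m) :
    ∑ l, (g y)⁻¹ i l * g y l j = if i = j then 1 else 0 := by
  have h := Matrix.nonsing_inv_mul _ (hg.isUnit_det hy)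
  have := congrFun (congrFun h i) j
  rw [Matrix.mul_apply, Matrix.one_apply] at this
  exact this

theorem contDiffOn_det {ι : Type} [Fintype ι] [DecidableEq ι] {A : V m → Matrix ι ι ℝ}
    (hA : ∀ i j, ContDiffOn ℝ k (fun y => A y i j) U) : ContDiffOn ℝ k (fun y => (A y).det) U := by
  simp only [Matrix.det_apply]
  refine ContDiffOn.sum fun σ _ => ?_
  refine ContDiffOn.const_smul _ ?_
  exact contDiffOn_prod fun i _ => hA _ _

theorem MetOn.contDiffOn_det (hg : MetOn U g k) : ContDiffOn ℝ k (fun y => (g y).det) U :=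
  Pool.Agent.CY.contDiffOn_det hg.smooth

theorem MetOn.contDiffOn_inv (hg : MetOn U g k) (i j : Fin m) :
    ContDiffOn ℝ k (fun y => (g y)⁻¹ i j) U := by
  have h1 : ∀ y, (g y)⁻¹ i j = (g y).det⁻¹ * (g y).adjugate i j := by
    intro y
    rw [Matrix.inv_def, Ring.inverse_eq_inv', Matrix.smul_apply, smul_eq_mul]
  simp only [h1]
  refine (hg.contDiffOn_det.inv fun y hy => (hg.det_pos hy).ne').mul ?_
  simp only [Matrix.adjugate_apply]
  refine Pool.Agent.CY.contDiffOn_det fun a b => ?_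
  by_cases h : a = j
  · subst h
    simp only [Matrix.updateRow_self]
    exact contDiffOn_const
  · simp only [Matrix.updateRow_ne h]
    exact hg.smooth a b

theorem MetOn.diffOn (hg : MetOn U g k) (hk : 1 ≤ k) (i j : Fin m) :
    DifferentiableOn ℝ (fun y => g y i j) U := ((hg.smooth i j).of_le hk).differentiableOn (by simp)

theorem MetOn.diffOn_inv (hg : MetOn U g k) (hk : 1 ≤ k) (i j : Fin m) :
    DifferentiableOn ℝ (fun y => (g y)⁻¹ i j) U :=
  ((hg.contDiffOn_inv i j).of_le hk).differentiableOn (by simp)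

theorem MetOn.pd_symm (hD : Dom S U) (hg : MetOn U g k) (l i j : Fin m) {y : V m} (hy : y ∈ U) :
    pd S l (fun z => g z i j) y = pd S l (fun z => g z j i) y :=
  hD.pd_congr l (fun z hz => hg.symm hz i j) hy

/-- The Christoffel symbols are symmetric. -/
theorem Gam_symm (hD : Dom S U) (hg : MetOn U g k) (l i j : Fin m) {y : V m} (hy : y ∈ U) :
    Gam S g l i j y = Gam S g l j i y := by
  simp only [Gam]
  congr 1
  refine Finset.sum_congr rfl fun a _ => ?_
  rw [hg.pd_symm hD a i j hy]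
  ring

theorem contDiffOn_Gam (hD : Dom S U) {k l : WithTop ℕ∞} (hkl : k + 1 ≤ l) (hg : MetOn U g l)
    (a i j : Fin m) : ContDiffOn ℝ k (Gam S g a i j) U := by
  have hkl' : k ≤ l := le_trans (by exact le_self_add) hkl
  unfold Gam
  refine contDiffOn_const.mul (ContDiffOn.sum fun b _ => ?_)
  refine ((hg.of_le hkl').contDiffOn_inv a b).mul ?_
  exact ((hD.contDiffOn_pd i hkl (hg.smooth j b)).add (hD.contDiffOn_pd j hkl (hg.smooth i b))).sub
    (hD.contDiffOn_pd b hkl (hg.smooth i j))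

/-- The Christoffel symbols with lowered index. -/
theorem Gam_lower (hg : MetOn U g k) (a i j : Fin m) {y : V m} (hy : y ∈ U) :
    ∑ b, g y a b * Gam S g b i j y = (1 / 2) *
      (pd S i (fun z => g z j a) y + pd S j (fun z => g z i a) y - pd S a (fun z => g z i j) y) := by
  simp only [Gam]
  have h1 : ∀ b, g y a b * ((1 / 2) * ∑ l, (g y)⁻¹ b l *
      (pd S i (fun z => g z j l) y + pd S j (fun z => g z i l) y - pd S l (fun z => g z i j) y)) =
      ∑ l, (g y a b * (g y)⁻¹ b l) * ((1 / 2) *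
      (pd S i (fun z => g z j l) y + pd S j (fun z => g z i l) y - pd S l (fun z => g z i j) y)) := by
    intro b
    rw [Finset.mul_sum, Finset.mul_sum]
    exact Finset.sum_congr rfl fun l _ => by ring
  simp only [h1]
  rw [Finset.sum_comm]
  simp only [← Finset.sum_mul, hg.mul_inv hy]
  simp

/-- Metric compatibility: `∂_l g_{ij} = Γ^a_{li} g_{aj} + Γ^a_{lj} g_{ia}`. -/
theorem pd_met (hD : Dom S U) (hg : MetOn U g k) (l i j : Fin m) {y : V m} (hy : y ∈ U) :
    pd S l (fun z => g z i j) y =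
      ∑ a, (Gam S g a l i y * g y a j + Gam S g a l j y * g y a i) := by
  have h1 := Gam_lower (S := S) hg j l i hy
  have h2 := Gam_lower (S := S) hg i l j hy
  rw [Finset.sum_add_distrib]
  have h3 : ∑ a, Gam S g a l i y * g y a j = ∑ b, g y j b * Gam S g b l i y :=
    Finset.sum_congr rfl fun a _ => by rw [hg.symm hy a j]; ring
  have h4 : ∑ a, Gam S g a l j y * g y a i = ∑ b, g y i b * Gam S g b l j y :=
    Finset.sum_congr rfl fun a _ => by rw [hg.symm hy a i]; ring
  rw [h3, h4, h1, h2, hg.pd_symm hD l j i hy]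
  ring

/-- The matrix of the partial derivatives of a matrix function. -/
noncomputable def pdM {ι ι' : Type} (S : Set (V m)) (l : Fin m) (A : V m → Matrix ι ι' ℝ) (y : V m) :
    Matrix ι ι' ℝ :=
  Matrix.of fun i j => pd S l (fun z => A z i j) y

theorem Dom.pdM_mul {ι ι' ι'' : Type} [Fintype ι'] (hD : Dom S U) (l : Fin m) {A : V m → Matrix ι ι' ℝ}
    {B : V m → Matrix ι' ι'' ℝ} (hA : ∀ i j, DifferentiableOn ℝ (fun y => A y i j) U)
    (hB : ∀ i j, DifferentiableOn ℝ (fun y => B y i j) U) {y : V m} (hy : y ∈ U) :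
    pdM S l (fun z => A z * B z) y = pdM S l A y * B y + A y * pdM S l B y := by
  ext i j
  simp only [pdM, Matrix.of_apply, Matrix.add_apply, Matrix.mul_apply]
  have h1 := hD.pd_sum l Finset.univ (f := fun a z => A z i a * B z a j)
    (fun a _ => (hA i a).mul (hB a j)) hy
  rw [h1, ← Finset.sum_add_distrib]
  exact Finset.sum_congr rfl fun a _ => hD.pd_mul l (hA i a) (hB a j) hy

theorem Dom.pdM_congr {ι ι' : Type} (hD : Dom S U) (l : Fin m) {A B : V m → Matrix ι ι' ℝ}
    (h : ∀ z ∈ U, A z = B z) {y : V m} (hy : y ∈ U) : pdM S l A y = pdM S l B y := by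
  ext i j
  simp only [pdM, Matrix.of_apply]
  exact hD.pd_congr l (fun z hz => by rw [h z hz]) hy

theorem pdM_const {ι ι' : Type} (l : Fin m) (A : Matrix ι ι' ℝ) (y : V m) :
    pdM S l (fun _ => A) y = 0 := by
  ext i j
  simp [pdM, pd_const]

/-- The matrix of Christoffel symbols `(A_l)^k_i = Γ^k_{li}`. -/
noncomputable def GamM (S : Set (V m)) (g : MF m) (l : Fin m) (y : V m) : Matrix (Fin m) (Fin m) ℝ :=
  Matrix.of fun k i => Gam S g k l i y

theorem pdM_met (hD : Dom S U) (hg : MetOn U g k) (l : Fin m) {y : V m} (hy : y ∈ U) :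
    pdM S l g y = (GamM S g l y).transpose * g y + g y * GamM S g l y := by
  ext i j
  simp only [pdM, GamM, Matrix.of_apply, Matrix.add_apply, Matrix.mul_apply, Matrix.transpose_apply]
  rw [pd_met hD hg l i j hy, Finset.sum_add_distrib]
  congr 1
  exact Finset.sum_congr rfl fun a _ => by rw [hg.symm hy a i]; ring

theorem pdM_inv_met (hD : Dom S U) (hg : MetOn U g k) (hk : 1 ≤ k) (l : Fin m) {y : V m} (hy : y ∈ U) :
    pdM S l (fun z => (g z)⁻¹) y = -(GamM S g l y * (g y)⁻¹ + (g y)⁻¹ * (GamM S g l y).transpose) := by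
  have h1 : pdM S l (fun z => (g z)⁻¹) y * g y + (g y)⁻¹ * pdM S l g y = 0 := by
    rw [← hD.pdM_mul l (hg.diffOn_inv hk) (hg.diffOn hk) hy, ← pdM_const (S := S) l (1 : Matrix (Fin m) (Fin m) ℝ) y]
    exact hD.pdM_congr l (fun z hz => Matrix.nonsing_inv_mul _ (hg.isUnit_det hz)) hy
  have h2 : g y * (g y)⁻¹ = 1 := Matrix.mul_nonsing_inv _ (hg.isUnit_det hy)
  have h3 : (g y)⁻¹ * g y = 1 := Matrix.nonsing_inv_mul _ (hg.isUnit_det hy)
  have h4 : pdM S l (fun z => (g z)⁻¹) y * g y = -((g y)⁻¹ * pdM S l g y) := eq_neg_of_add_eq_zero_left h1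
  have h5 : pdM S l (fun z => (g z)⁻¹) y = pdM S l (fun z => (g z)⁻¹) y * g y * (g y)⁻¹ := by
    rw [Matrix.mul_assoc, h2, Matrix.mul_one]
  rw [h5, h4, pdM_met hD hg l hy, Matrix.mul_add, ← Matrix.mul_assoc, ← Matrix.mul_assoc, h3, Matrix.one_mul,
    neg_mul, Matrix.add_mul, Matrix.mul_assoc _ (g y), h2, Matrix.mul_one, add_comm]

/-- Metric compatibility of the inverse: `∂_l g^{ij} = -Γ^i_{la} g^{aj} - Γ^j_{la} g^{ia}`. -/
theorem pd_inv_met (hD : Dom S U) (hg : MetOn U g k) (hk : 1 ≤ k) (l i j : Fin m) {y : V m} (hy : y ∈ U) :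
    pd S l (fun z => (g z)⁻¹ i j) y =
      - ∑ a, (Gam S g i l a y * (g y)⁻¹ a j + Gam S g j l a y * (g y)⁻¹ a i) := by
  have h := congrFun (congrFun (pdM_inv_met hD hg hk l hy) i) j
  simp only [pdM, GamM, Matrix.of_apply, Matrix.neg_apply, Matrix.add_apply, Matrix.mul_apply,
    Matrix.transpose_apply] at h
  rw [h, Finset.sum_add_distrib]
  congr 2
  exact Finset.sum_congr rfl fun a _ => by rw [hg.inv_symm hy a i]; ring

end met

end Pool.Agent.CY
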