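import Pool.Agent.CY.S5.Div

/-!
Project CY, part S5: Green's formula and the energy formula.
-/

set_option autoImplicit false
set_option linter.unusedSectionVars false

open scoped ContDiff Manifold
open MeasureTheory Set Filter Topology

namespace Pool.Agent.CY

section green

variable {n : ℕ} {X : Type} [TopologicalSpace X] [ChartedSpace (EuclideanHalfSpace (n + 1)) X]
  [IsManifold (𝓡∂ (n + 1)) ∞ X]

/-- The field `v ∇u`. -/
noncomputable def vgrad (g : Metric n X) (v u : X → ℝ)
    (e : OpenPartialHomeomorph X (EuclideanHalfSpace (n + 1))) (i : Fin (n + 1)) (y : V (n + 1)) : ℝ :=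
  loc e v y * grd (Hs n) (g.G e) (loc e u) i y

theorem grd_tr (g : Metric n X) {e e' : OpenPartialHomeomorph X (EuclideanHalfSpace (n + 1))}
    (he : e ∈ atlas (EuclideanHalfSpace (n + 1)) X) (he' : e' ∈ atlas (EuclideanHalfSpace (n + 1)) X)
    {u : X → ℝ} (hu : DifferentiableOn ℝ (loc e' u) (dom e')) {y : V (n + 1)} (hy : y ∈ dom2 e e')
    (a : Fin (n + 1)) :
    grd (Hs n) (g.G e') (loc e' u) a (tr e e' y) =
      ∑ i, jac e e' y a i * grd (Hs n) (g.G e) (loc e u) i y := by
  have h1 := g.compat_inv he he' hy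
  have h2 : ∀ k l, (g.G e' (tr e e' y))⁻¹ k l =
      ∑ i, ∑ j, jac e e' y k i * (g.G e y)⁻¹ i j * jac e e' y l j := by
    intro k l
    rw [← h1, Matrix.mul_apply]
    simp only [Matrix.mul_apply, Matrix.transpose_apply, Finset.sum_mul]
    exact Finset.sum_comm
  simp only [grd, h2, pd_loc he he' hu _ hy, Finset.sum_mul, Finset.mul_sum]
  rw [Finset.sum_comm]
  refine Finset.sum_congr rfl fun i _ => ?_
  rw [Finset.sum_comm]
  refine Finset.sum_congr rfl fun j _ => Finset.sum_congr rfl fun k _ => ?_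
  ring

theorem vgrad_isVF (g : Metric n X) {v u : X → ℝ} (hv : ContMDiff (𝓡∂ (n + 1)) 𝓘(ℝ) 1 v)
    (hu : ContMDiff (𝓡∂ (n + 1)) 𝓘(ℝ) 2 u) : IsVF (vgrad g v u) where
  smooth := fun e he i => (contDiffOn_loc he (k := 1) hv).mul
    (contDiffOn_grd (dom_chart e) two_eq_one_add_one (g.metOn1 he) (contDiffOn_loc he (k := 2) hu) i)
  compat := fun e he e' he' y hy a => by
    have h1 : DifferentiableOn ℝ (loc e' u) (dom e') :=
      (contDiffOn_loc he' (k := 2) hu).differentiableOn (by simp)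
    rw [vgrad, grd_tr g he he' h1 hy a, ← loc_eq_tr hy, Finset.mul_sum]
    exact Finset.sum_congr rfl fun i _ => by rw [vgrad]; ring

variable [CompactSpace X] [T2Space X] [MeasurableSpace X] [BorelSpace X]

/-- Green's formula. -/
theorem green_lap (g : Metric n X) {u v : X → ℝ} (hu : ContMDiff (𝓡∂ (n + 1)) 𝓘(ℝ) 2 u)
    (hv : ContMDiff (𝓡∂ (n + 1)) 𝓘(ℝ) 1 v) :
    ∫ p, v p * lapX g u p ∂(vol g) + ∫ p, gipX g v u p ∂(vol g) = ∫ p, v p * nderX g u p ∂(bvol g) := by
  have hu1 : ContMDiff (𝓡∂ (n + 1)) 𝓘(ℝ) 1 u := hu.of_le (by norm_num)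
  have hc1 : Continuous (fun p => v p * lapX g u p) := hv.continuous.mul (continuous_lapX g hu)
  have hc2 : Continuous (gipX g v u) := continuous_gipX g hv hu1
  rw [← integral_add (continuous_integrable_vol g hc1) (continuous_integrable_vol g hc2)]
  refine divergence g (vgrad_isVF g hv hu) (hc1.add hc2)
    (hv.continuous.continuousOn.mul (continuousOn_nderX g hu1)) ?_ ?_
  · intro e he y hy
    have h1 := dvg_mul_grd (dom_chart e) (g.metOn1 he) le_rfl (f := loc e v) (k' := loc e u)
      ((contDiffOn_loc he (k := 1) hv).differentiableOn (by simp)) (contDiffOn_loc he (k := 2) hu) hy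
    rw [lapX_eq g he hu (pt_mem_source e hy), gipX_eq g he hv hu1 (pt_mem_source e hy), co_pt e hy]
    exact h1.symm
  · intro e he z hz
    rw [nderX_eq g he hu1 (pt_mem_source e hz) (pt_bd_mem_boundary he hz), co_pt e hz, tl_bd, nder,
      vgrad, grd, loc]
    ring

/-- Green's formula for the conformal operators. -/
theorem green_LB (g : Metric n X) {u v : X → ℝ} (hu : ContMDiff (𝓡∂ (n + 1)) 𝓘(ℝ) 2 u)
    (hv : ContMDiff (𝓡∂ (n + 1)) 𝓘(ℝ) 1 v) :
    ∫ p, Lop g u p * v p ∂(vol g) + ∫ p, Bop g u p * v p ∂(bvol g) =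
      cn n * ∫ p, gipX g u v p ∂(vol g) + ∫ p, scalX g p * u p * v p ∂(vol g) +
        2 * ∫ p, meanX g p * u p * v p ∂(bvol g) := by
  have hu1 : ContMDiff (𝓡∂ (n + 1)) 𝓘(ℝ) 1 u := hu.of_le (by norm_num)
  have hG := green_lap g hu hv
  have e1 : ∫ p, Lop g u p * v p ∂(vol g) = -cn n * ∫ p, v p * lapX g u p ∂(vol g) +
      ∫ p, scalX g p * u p * v p ∂(vol g) := by
    have i1 : Integrable (fun p => -cn n * (v p * lapX g u p)) (vol g) :=
      continuous_integrable_vol g (continuous_const.mul (hv.continuous.mul (continuous_lapX g hu)))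
    have i2 : Integrable (fun p => scalX g p * u p * v p) (vol g) :=
      continuous_integrable_vol g (((continuous_scalX g).mul hu.continuous).mul hv.continuous)
    rw [← integral_const_mul, ← integral_add i1 i2]
    refine integral_congr_ae (Eventually.of_forall fun p => ?_)
    simp only [Lop]
    ring
  have e2 : ∫ p, Bop g u p * v p ∂(bvol g) = cn n * ∫ p, v p * nderX g u p ∂(bvol g) +
      2 * ∫ p, meanX g p * u p * v p ∂(bvol g) := by
    have i1 : Integrable (fun p => cn n * (v p * nderX g u p)) (bvol g) :=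
      continuousOn_boundary_integrable g (continuousOn_const.mul
        (hv.continuous.continuousOn.mul (continuousOn_nderX g hu1)))
    have i2 : Integrable (fun p => 2 * (meanX g p * u p * v p)) (bvol g) :=
      continuousOn_boundary_integrable g (continuousOn_const.mul
        (((continuousOn_meanX g).mul hu.continuous.continuousOn).mul hv.continuous.continuousOn))
    rw [← integral_const_mul, ← integral_const_mul, ← integral_add i1 i2]
    refine integral_congr_ae (Eventually.of_forall fun p => ?_)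
    simp only [Bop]
    ring
  have e3 : ∫ p, gipX g u v p ∂(vol g) = ∫ p, gipX g v u p ∂(vol g) := by
    refine integral_congr_ae (Eventually.of_forall fun p => ?_)
    exact gip_comm (g.metOn (ch_mem_atlas p)) _ _ (co_ch_mem p)
  rw [e1, e2, e3, ← hG]
  ring

/-- The energy formula. -/
theorem energy_formula (hn : 3 ≤ n) (g h : Metric n X) (f : Frame g) (u : X → ℝ) (hu : u ∈ PosSmooth n X)
    (hh : IsConf (fun p => u p ^ (2 / ((n : ℝ) - 1))) g h) :
    energy h = EE n (vol g) (bvol g) (scalX g) (meanX g) u (f.D u) u ∧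
    (vol h univ).toReal = ∫ x, |u x| ^ pp n ∂(vol g) ∧
    (bvol h univ).toReal = ∫ x, |u x| ^ qq n ∂(bvol g) := by
  obtain ⟨hus, hu0⟩ := hu
  have hn2 : 2 ≤ n := by omega
  have hn1 : (0 : ℝ) < (n : ℝ) - 1 := by
    have : (3 : ℝ) ≤ n := by exact_mod_cast hn
    linarith
  have hu2 : ContMDiff (𝓡∂ (n + 1)) 𝓘(ℝ) 2 u := hus.of_le (WithTop.coe_le_coe.2 le_top :
      ((2 : ℕ∞) : WithTop ℕ∞) ≤ ((⊤ : ℕ∞) : WithTop ℕ∞))
  have hu1 : ContMDiff (𝓡∂ (n + 1)) 𝓘(ℝ) 1 u := hu2.of_le (by norm_num)
  have huc : Continuous (fun p => u p ^ (2 / ((n : ℝ) - 1))) :=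
    hus.continuous.rpow_const fun p => Or.inl (hu0 p).ne'
  have hupos : ∀ p, 0 < u p ^ (2 / ((n : ℝ) - 1)) := fun p => Real.rpow_pos_of_pos (hu0 p) _
  -- powers
  have hpow1 : ∀ p, (u p ^ (2 / ((n : ℝ) - 1))) ^ (n + 1) = u p ^ pp n := by
    intro p
    rw [← Real.rpow_natCast, ← Real.rpow_mul (hu0 p).le, pp]
    congr 1
    push_cast
    field_simp
  have hpow2 : ∀ p, (u p ^ (2 / ((n : ℝ) - 1))) ^ n = u p ^ qq n := by
    intro p
    rw [← Real.rpow_natCast, ← Real.rpow_mul (hu0 p).le, qq]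
    congr 1
    field_simp
  have hvol1 : (vol h univ).toReal = ∫ x, |u x| ^ pp n ∂(vol g) := by
    have h1 := int_vol_conf huc hupos hh (fun _ => 1)
    rw [integral_const, smul_eq_mul, mul_one] at h1
    rw [show (vol h univ).toReal = (vol h).real univ from rfl, h1]
    refine integral_congr_ae (Eventually.of_forall fun p => ?_)
    simp only [one_mul]
    rw [hpow1, abs_of_pos (hu0 p)]
  have hvol2 : (bvol h univ).toReal = ∫ x, |u x| ^ qq n ∂(bvol g) := by
    have h1 := int_bvol_conf huc hupos hh (fun _ => 1)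
    rw [integral_const, smul_eq_mul, mul_one] at h1
    rw [show (bvol h univ).toReal = (bvol h).real univ from rfl, h1]
    refine integral_congr_ae (Eventually.of_forall fun p => ?_)
    simp only [one_mul]
    rw [hpow2, abs_of_pos (hu0 p)]
  refine ⟨?_, hvol1, hvol2⟩
  have e1 : ∫ p, scalX h p ∂(vol h) = ∫ p, Lop g u p * u p ∂(vol g) := by
    rw [int_vol_conf huc hupos hh]
    refine integral_congr_ae (Eventually.of_forall fun p => ?_)
    simp only
    rw [scalX_conf hn2 hus hu0 hh p, hpow1]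
    have h1 : u p ^ (-(((n : ℝ) + 3) / ((n : ℝ) - 1))) * u p ^ pp n = u p := by
      rw [← Real.rpow_add (hu0 p), pp]
      conv_rhs => rw [← Real.rpow_one (u p)]
      congr 1
      field_simp
      ring
    calc u p ^ (-(((n : ℝ) + 3) / ((n : ℝ) - 1))) * Lop g u p * u p ^ pp n
        = Lop g u p * (u p ^ (-(((n : ℝ) + 3) / ((n : ℝ) - 1))) * u p ^ pp n) := by ring
      _ = Lop g u p * u p := by rw [h1]
  have e2 : 2 * ∫ p, meanX h p ∂(bvol h) = ∫ p, Bop g u p * u p ∂(bvol g) := by
    rw [int_bvol_conf huc hupos hh, ← integral_const_mul]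
    refine integral_congr_ae ?_
    filter_upwards [ae_bvol_boundary g] with p hp
    have h0 : co (ch (n := n) p) p 0 = 0 := (mem_boundary_iff (ch_mem_atlas p) (mem_ch_source p)).1 hp
    rw [meanX_conf hn2 hus hu0 hh h0, hpow2]
    have h1 : u p ^ (-(((n : ℝ) + 1) / ((n : ℝ) - 1))) * u p ^ qq n = u p := by
      rw [← Real.rpow_add (hu0 p), qq]
      conv_rhs => rw [← Real.rpow_one (u p)]
      congr 1
      field_simp
      ring
    calc 2 * (u p ^ (-(((n : ℝ) + 1) / ((n : ℝ) - 1))) * (1 / 2 * Bop g u p) * u p ^ qq n)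
        = Bop g u p * (u p ^ (-(((n : ℝ) + 1) / ((n : ℝ) - 1))) * u p ^ qq n) := by ring
      _ = Bop g u p * u p := by rw [h1]
  have hG := green_LB g hu2 hu1
  have e3 : DD (vol g) (f.D u) = ∫ p, gipX g u u p ∂(vol g) := by
    rw [DD]
    refine integral_congr_ae (Eventually.of_forall fun p => ?_)
    exact norm_D g f u hu1 p
  have e4 : ∫ p, scalX g p * u p * u p ∂(vol g) = ∫ p, scalX g p * u p ^ 2 ∂(vol g) :=
    integral_congr_ae (Eventually.of_forall fun p => by simp only; ring)
  have e5 : ∫ p, meanX g p * u p * u p ∂(bvol g) = ∫ p, meanX g p * u p ^ 2 ∂(bvol g) :=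
    integral_congr_ae (Eventually.of_forall fun p => by simp only; ring)
  rw [energy, EE, e1, e2, hG, e3, e4, e5]

end green

end Pool.Agent.CY
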