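import Pool.Agent.CY.S5.Curv

/-!
Project CY, part S5: chart invariance of the mean curvature; continuity on the boundary.
-/

set_option autoImplicit false
set_option linter.unusedSectionVars false

open scoped ContDiff Manifold
open MeasureTheory Set Filter Topology

namespace Pool.Agent.CY

section mean

variable {n : ℕ} {X : Type} [TopologicalSpace X] [ChartedSpace (EuclideanHalfSpace (n + 1)) X]
  [IsManifold (𝓡∂ (n + 1)) ∞ X]
  {e e' : OpenPartialHomeomorph X (EuclideanHalfSpace (n + 1))}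

/-- Second tangential derivatives of the normal component of the transition map vanish. -/
theorem pd_pd_tr_zero (he : e ∈ atlas (EuclideanHalfSpace (n + 1)) X)
    (he' : e' ∈ atlas (EuclideanHalfSpace (n + 1)) X) {z : V n} (hz : bd z ∈ dom2 e e') (a b : Fin n) :
    pd (Hs n) a.succ (pd (Hs n) b.succ (fun y => tr e e' y 0)) (bd z) = 0 := by
  have hD := dom_chart2 e e'
  have h1 : ContDiffOn ℝ 2 (fun z => tr e e' z 0) (dom2 e e') :=
    (contDiffOn_tr he he' 0).of_le (WithTop.coe_le_coe.2 le_top :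
      ((2 : ℕ∞) : WithTop ℕ∞) ≤ ((⊤ : ℕ∞) : WithTop ℕ∞))
  have h2 := hD.diffAt (hD.diffOn_pd b.succ h1) hz
  rw [← pd_bd h2 a]
  have h3 : Dom univ (bdry (dom2 e e')) := dom_bdry hD
  have h4 := h3.pd_congr a (f := fun w => pd (Hs n) b.succ (fun z => tr e e' z 0) (bd w))
    (g := fun _ => 0) (fun w hw => jac_zero_succ he he' hw b) hz
  rw [h4, pd_const]

theorem sum_succ_zero {f : Fin (n + 1) → ℝ} (h : f 0 = 0) : ∑ i, f i = ∑ i : Fin n, f i.succ := by
  rw [Fin.sum_univ_succ, h, zero_add]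

/-- Transformation law of the second fundamental form. -/
theorem Gam_zero_tr (g : Metric n X) (he : e ∈ atlas (EuclideanHalfSpace (n + 1)) X)
    (he' : e' ∈ atlas (EuclideanHalfSpace (n + 1)) X) {z : V n} (hz : bd z ∈ dom2 e e') (a b : Fin n) :
    jac e e' (bd z) 0 0 * Gam (Hs n) (g.G e) 0 a.succ b.succ (bd z) =
      ∑ c, ∑ d, bjac e e' z c a * bjac e e' z d b *
        Gam (Hs n) (g.G e') 0 c.succ d.succ (tr e e' (bd z)) := by
  have h1 := Gam_tr g he he' 0 a.succ b.succ hz
  rw [pd_pd_tr_zero he he' hz a b, zero_add] at h1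
  have h2 : ∑ i, jac e e' (bd z) 0 i * Gam (Hs n) (g.G e) i a.succ b.succ (bd z) =
      jac e e' (bd z) 0 0 * Gam (Hs n) (g.G e) 0 a.succ b.succ (bd z) := by
    rw [Fin.sum_univ_succ]
    have : ∀ i : Fin n, jac e e' (bd z) 0 i.succ * Gam (Hs n) (g.G e) i.succ a.succ b.succ (bd z) = 0 := by
      intro i
      rw [jac_zero_succ he he' hz i, zero_mul]
    simp [this]
  rw [h2] at h1
  rw [h1, sum_succ_zero (by simp [jac_zero_succ he he' hz a])]
  refine Finset.sum_congr rfl fun c _ => ?_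
  rw [sum_succ_zero (by simp [jac_zero_succ he he' hz b])]
  rfl

/-- Chart invariance of the mean curvature. -/
theorem meanCurv_inv (g : Metric n X) (he : e ∈ atlas (EuclideanHalfSpace (n + 1)) X)
    (he' : e' ∈ atlas (EuclideanHalfSpace (n + 1)) X) {z : V n} (hz : bd z ∈ dom2 e e') :
    meanCurv (g.G e) z = meanCurv (g.G e') (tl (tr e e' (bd z))) := by
  have h0 := tr_bd he he' hz
  have hJpos := jac_zero_zero_pos g he he' hz
  have h1 := g.compat_inv he he' hz
  have hz' : z ∈ bdom e := hz.1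
  -- boundary metrics
  have hK := g.tang_compat he he' hz
  have hKpos : (tang (g.G e) z).PosDef := g.tang_posDef he hz'
  have hdetK : IsUnit (tang (g.G e) z).det := hKpos.det_pos.ne'.isUnit
  have hB : IsUnit (bjac e e' z).det := by
    rw [isUnit_iff_ne_zero]
    intro h2
    have h3 := hKpos.det_pos
    rw [hK, Matrix.det_mul, h2, mul_zero] at h3
    exact lt_irrefl _ h3
  have hBt : IsUnit (bjac e e' z).transpose.det := by rw [Matrix.det_transpose]; exact hB
  have hKinv : bjac e e' z * (tang (g.G e) z)⁻¹ * (bjac e e' z).transpose =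
      (tang (g.G e') (tl (tr e e' (bd z))))⁻¹ := by
    rw [hK, Matrix.mul_inv_rev, Matrix.mul_inv_rev, ← Matrix.mul_assoc, ← Matrix.mul_assoc,
      Matrix.mul_nonsing_inv _ hB, Matrix.one_mul, Matrix.mul_assoc, Matrix.nonsing_inv_mul _ hBt,
      Matrix.mul_one]
  have hKinv' : ∀ c d, (tang (g.G e') (tl (tr e e' (bd z))))⁻¹ c d =
      ∑ a, ∑ b, bjac e e' z c a * (tang (g.G e) z)⁻¹ a b * bjac e e' z d b := by
    intro c d
    rw [← hKinv, Matrix.mul_apply]
    simp only [Matrix.mul_apply, Matrix.transpose_apply, Finset.sum_mul]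
    exact Finset.sum_comm
  -- numerator
  have hnum : ∑ c, ∑ d, (tang (g.G e') (tl (tr e e' (bd z))))⁻¹ c d *
        Gam (Hs n) (g.G e') 0 c.succ d.succ (tr e e' (bd z)) =
      jac e e' (bd z) 0 0 * ∑ a, ∑ b, (tang (g.G e) z)⁻¹ a b *
        Gam (Hs n) (g.G e) 0 a.succ b.succ (bd z) := by
    have e1 : jac e e' (bd z) 0 0 * ∑ a, ∑ b, (tang (g.G e) z)⁻¹ a b *
        Gam (Hs n) (g.G e) 0 a.succ b.succ (bd z) =
        ∑ a, ∑ b, ∑ c, ∑ d, bjac e e' z c a * (tang (g.G e) z)⁻¹ a b * bjac e e' z d b *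
          Gam (Hs n) (g.G e') 0 c.succ d.succ (tr e e' (bd z)) := by
      rw [Finset.mul_sum]
      refine Finset.sum_congr rfl fun a _ => ?_
      rw [Finset.mul_sum]
      refine Finset.sum_congr rfl fun b _ => ?_
      rw [mul_left_comm, Gam_zero_tr g he he' hz a b, Finset.mul_sum]
      refine Finset.sum_congr rfl fun c _ => ?_
      rw [Finset.mul_sum]
      exact Finset.sum_congr rfl fun d _ => by ring
    rw [e1]
    simp only [hKinv', Finset.sum_mul]
    calc ∑ c, ∑ d, ∑ a, ∑ b, bjac e e' z c a * (tang (g.G e) z)⁻¹ a b * bjac e e' z d b *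
          Gam (Hs n) (g.G e') 0 c.succ d.succ (tr e e' (bd z))
        = ∑ c, ∑ a, ∑ d, ∑ b, bjac e e' z c a * (tang (g.G e) z)⁻¹ a b * bjac e e' z d b *
          Gam (Hs n) (g.G e') 0 c.succ d.succ (tr e e' (bd z)) :=
          Finset.sum_congr rfl fun c _ => Finset.sum_comm
      _ = ∑ a, ∑ c, ∑ d, ∑ b, bjac e e' z c a * (tang (g.G e) z)⁻¹ a b * bjac e e' z d b *
          Gam (Hs n) (g.G e') 0 c.succ d.succ (tr e e' (bd z)) := Finset.sum_comm
      _ = ∑ a, ∑ c, ∑ b, ∑ d, bjac e e' z c a * (tang (g.G e) z)⁻¹ a b * bjac e e' z d b *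
          Gam (Hs n) (g.G e') 0 c.succ d.succ (tr e e' (bd z)) :=
          Finset.sum_congr rfl fun a _ => Finset.sum_congr rfl fun c _ => Finset.sum_comm
      _ = ∑ a, ∑ b, ∑ c, ∑ d, bjac e e' z c a * (tang (g.G e) z)⁻¹ a b * bjac e e' z d b *
          Gam (Hs n) (g.G e') 0 c.succ d.succ (tr e e' (bd z)) :=
          Finset.sum_congr rfl fun a _ => Finset.sum_comm
  -- denominator
  have hden : (g.G e' (tr e e' (bd z)))⁻¹ 0 0 =
      jac e e' (bd z) 0 0 ^ 2 * (g.G e (bd z))⁻¹ 0 0 := by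
    rw [← h1, Matrix.mul_apply]
    simp only [Matrix.mul_apply, Matrix.transpose_apply]
    rw [Fin.sum_univ_succ, Fin.sum_univ_succ]
    simp only [jac_zero_succ he he' hz, mul_zero, zero_mul, Finset.sum_const_zero, add_zero]
    ring
  simp only [meanCurv]
  rw [h0, hnum, hden, Real.sqrt_mul (sq_nonneg _), Real.sqrt_sq hJpos.le]
  have h5 : Real.sqrt ((g.G e (bd z))⁻¹ 0 0) ≠ 0 :=
    (Real.sqrt_pos.2 (inv00_pos (g.metOn he) hz.1)).ne'
  have h6 := hJpos.ne'
  field_simp

/-- The mean curvature in an arbitrary chart. -/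
theorem meanX_eq (g : Metric n X) (he : e ∈ atlas (EuclideanHalfSpace (n + 1)) X) {p : X}
    (hp : p ∈ e.source) (hb : p ∈ (𝓡∂ (n + 1)).boundary X) :
    meanX g p = meanCurv (g.G e) (tl (co e p)) := by
  have h0 : co (ch (n := n) p) p 0 = 0 := (mem_boundary_iff (ch_mem_atlas p) (mem_ch_source p)).1 hb
  have h2 : bd (tl (co (ch (n := n) p) p)) = co (ch (n := n) p) p := bd_tl h0
  have h3 : bd (tl (co (ch (n := n) p) p)) ∈ dom2 (ch p) e := by
    rw [h2]; exact dom2_co (mem_ch_source p) hp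
  rw [meanX, meanCurv_inv g (ch_mem_atlas p) he h3, h2, tr_co (mem_ch_source p)]

/-- A function with continuous expressions in all boundary charts is continuous on the boundary. -/
theorem continuousOn_of_bchart {F : X → ℝ}
    (Fe : OpenPartialHomeomorph X (EuclideanHalfSpace (n + 1)) → V n → ℝ)
    (hF : ∀ e ∈ atlas (EuclideanHalfSpace (n + 1)) X, ∀ p ∈ e.source, p ∈ (𝓡∂ (n + 1)).boundary X →
      F p = Fe e (tl (co e p)))
    (hc : ∀ e ∈ atlas (EuclideanHalfSpace (n + 1)) X, ContinuousOn (Fe e) (bdom e)) :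
    ContinuousOn F ((𝓡∂ (n + 1)).boundary X) := by
  intro p hp
  have he := ch_mem_atlas (n := n) p
  have h1 : ContinuousOn (fun q => Fe (ch (n := n) p) (tl (co (ch (n := n) p) q)))
      ((ch (n := n) p).source ∩ (𝓡∂ (n + 1)).boundary X) := by
    refine (hc _ he).comp (continuous_tl.comp_continuousOn ((continuousOn_co _).mono inter_subset_left)) ?_
    intro q hq
    show bd (tl (co (ch (n := n) p) q)) ∈ dom (ch (n := n) p)
    rw [bd_tl ((mem_boundary_iff he hq.1).1 hq.2)]
    exact co_mem_dom _ hq.1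
  have h2 : ContinuousOn F ((ch (n := n) p).source ∩ (𝓡∂ (n + 1)).boundary X) :=
    h1.congr fun q hq => hF _ he q hq.1 hq.2
  have h3 := h2 p ⟨mem_ch_source p, hp⟩
  refine h3.mono_of_mem_nhdsWithin ?_
  exact inter_mem (mem_nhdsWithin_of_mem_nhds ((ch (n := n) p).open_source.mem_nhds (mem_ch_source p)))
    self_mem_nhdsWithin

theorem continuousOn_nder {U : Set (V (n + 1))} {g : MF (n + 1)} {f : V (n + 1) → ℝ}
    (hD : Dom (Hs n) U) (hg : MetOn U g 0) (hf : ContDiffOn ℝ 1 f U) :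
    ContinuousOn (nder g f) {z | bd z ∈ U} := by
  have hbd : ContinuousOn (bd : V n → V (n + 1)) {z | bd z ∈ U} := continuous_bd.continuousOn
  have hmaps : MapsTo (bd : V n → V (n + 1)) {z | bd z ∈ U} U := fun z hz => hz
  unfold nder
  refine ContinuousOn.div ?_ ?_ ?_
  · refine (continuousOn_finsetSum _ fun j _ => ?_).neg
    exact ((hg.contDiffOn_inv 0 j).continuousOn.comp hbd hmaps).mul
      ((hD.continuousOn_pd j hf).comp hbd hmaps)
  · exact ((hg.contDiffOn_inv 0 0).continuousOn.comp hbd hmaps).sqrt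
  · intro z hz
    exact (Real.sqrt_pos.2 (inv00_pos hg hz)).ne'

theorem continuousOn_tang_inv {U : Set (V (n + 1))} {g : MF (n + 1)} (hg : MetOn U g 0) (a b : Fin n) :
    ContinuousOn (fun z => (tang g z)⁻¹ a b) {z | bd z ∈ U} := by
  have h1 : CM 0 {z : V n | bd z ∈ U} (tang g) := fun a b => by
    rw [contDiffOn_zero]
    exact (hg.smooth a.succ b.succ).continuousOn.comp continuous_bd.continuousOn (fun z hz => hz)
  exact (h1.inv (fun z hz => (tang_posDef hg hz).det_pos.ne') a b).continuousOn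

theorem continuousOn_meanCurv {U : Set (V (n + 1))} {g : MF (n + 1)}
    (hD : Dom (Hs n) U) (hg : MetOn U g 1) :
    ContinuousOn (meanCurv g) {z | bd z ∈ U} := by
  have hbd : ContinuousOn (bd : V n → V (n + 1)) {z | bd z ∈ U} := continuous_bd.continuousOn
  have hmaps : MapsTo (bd : V n → V (n + 1)) {z | bd z ∈ U} U := fun z hz => hz
  unfold meanCurv
  refine ContinuousOn.div ?_ ?_ ?_
  · refine continuousOn_finsetSum _ fun a _ => continuousOn_finsetSum _ fun b _ => ?_
    exact (continuousOn_tang_inv (hg.of_le (by simp)) a b).mul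
      ((contDiffOn_Gam hD (k := 0) (by simp) hg 0 a.succ b.succ).continuousOn.comp hbd hmaps)
  · exact ((hg.contDiffOn_inv 0 0).continuousOn.comp hbd hmaps).sqrt
  · intro z hz
    exact (Real.sqrt_pos.2 (inv00_pos hg hz)).ne'

theorem continuousOn_nderX (g : Metric n X) {u : X → ℝ} (hu : ContMDiff (𝓡∂ (n + 1)) 𝓘(ℝ) 1 u) :
    ContinuousOn (nderX g u) ((𝓡∂ (n + 1)).boundary X) :=
  continuousOn_of_bchart (fun e => nder (g.G e) (loc e u))
    (fun _ he _ hp hb => nderX_eq g he hu hp hb)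
    (fun _ he => continuousOn_nder (dom_chart _) ((g.metOn he).of_le (by norm_num))
      (contDiffOn_loc he (k := 1) hu))

theorem continuousOn_meanX (g : Metric n X) : ContinuousOn (meanX g) ((𝓡∂ (n + 1)).boundary X) :=
  continuousOn_of_bchart (fun e => meanCurv (g.G e))
    (fun _ he _ hp hb => meanX_eq g he hp hb)
    (fun _ he => continuousOn_meanCurv (dom_chart _) (g.metOn1 he))

theorem continuousOn_Bop (g : Metric n X) {u : X → ℝ} (hu : ContMDiff (𝓡∂ (n + 1)) 𝓘(ℝ) 1 u) :
    ContinuousOn (Bop g u) ((𝓡∂ (n + 1)).boundary X) := by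
  unfold Bop
  exact (continuousOn_const.mul (continuousOn_nderX g hu)).add
    ((continuousOn_const.mul (continuousOn_meanX g)).mul hu.continuous.continuousOn)

end mean

end Pool.Agent.CY
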