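import Pool.Agent.CY.S5.CDef

/-!
CY-S5-C01 (helper90).  Curvature matrices `FM`.
PLAN.  `(GamM l)^k_i = Gam k l i`, symmetric in `l, i` on `U` (`Gam_symm`), so the derivatives may be rewritten with
`Dom.pd_congr`.
* `Ric_eq_FM`: unfold `Ric`, `FM`, `pdM`, `GamM`, and compare term by term (`Finset.sum_congr`), using `Gam_symm` for the
  values and `Dom.pd_congr` + `Gam_symm` for the derivatives.
* `FM_skew`: from `pdM_met` (on all of `U`): `∂_k g = A_k^T g + g A_k`; apply `pdM S j` to both sides (`Dom.pdM_congr`,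
  `Dom.pdM_mul`, `Dom.pdM_add`, `pdM_transpose`), subtract the same with `j, k` exchanged, use `Dom.pdM_comm` for the left
  side, replace `pdM S j g y` by `pdM_met`, and finish with `noncomm_ring`/`abel` after `Matrix.transpose_mul` etc.:
  `0 = g F_jk + F_jk^T g`.
* `FM_cyc`: expand entries; the terms `∂_j Γ^l_{ki}` cancel in pairs by symmetry of `Γ` (use `Dom.pd_congr`), the
  quadratic terms too (`Σ_p Γ^l_{jp} Γ^p_{ki}`).
-/

set_option autoImplicit false

open scoped Manifold ContDiff Topology
open MeasureTheory Set Filter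

namespace Pool.Agent.CY.C

noncomputable section

variable {m : ℕ} {S U : Set (V m)} {g : MF m} {y : V m}

theorem FM_swap (j k : Fin m) : FM S g k j y = -FM S g j k y := by
  unfold FM
  abel

theorem CM_GamM (hD : Dom S U) {k l : WithTop ℕ∞} (hkl : k + 1 ≤ l) (hg : MetOn U g l) (j : Fin m) :
    CM k U (GamM S g j) := fun a b => contDiffOn_Gam hD hkl hg a j b

private theorem FM_entry (j k l i : Fin m) : FM S g j k y l i =
    pd S j (Gam S g l k i) y - pd S k (Gam S g l j i) y +
      (∑ p, Gam S g l j p y * Gam S g p k i y - ∑ p, Gam S g l k p y * Gam S g p j i y) := by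
  unfold FM
  rw [Matrix.sub_apply, Matrix.add_apply, Matrix.sub_apply, Matrix.mul_apply, Matrix.mul_apply,
    add_sub_assoc]
  rfl

theorem Ric_eq_FM (hD : Dom S U) (hg : MetOn U g 1) (hy : y ∈ U) (i j : Fin m) :
    Ric S g i j y = ∑ k, FM S g k j y k i := by
  unfold Ric
  refine Finset.sum_congr rfl fun k _ => ?_
  rw [FM_entry, hD.pd_congr k (f := Gam S g k i j) (g := Gam S g k j i)
    (fun z hz => Gam_symm hD hg k i j hz) hy, hD.pd_congr j (f := Gam S g k i k) (g := Gam S g k k i)
    (fun z hz => Gam_symm hD hg k i k hz) hy, Finset.sum_sub_distrib]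
  congr 2
  · exact Finset.sum_congr rfl fun l _ => by rw [Gam_symm hD hg l i j hy]
  · exact Finset.sum_congr rfl fun l _ => by rw [Gam_symm hD hg l i k hy]

private theorem pdM_pdM (hD : Dom S U) (hg : MetOn U g 2) (hy : y ∈ U) (j k : Fin m) :
    pdM S j (pdM S k g) y = (pdM S j (GamM S g k) y).transpose * g y +
      (GamM S g k y).transpose * ((GamM S g j y).transpose * g y + g y * GamM S g j y) +
      (((GamM S g j y).transpose * g y + g y * GamM S g j y) * GamM S g k y +
        g y * pdM S j (GamM S g k) y) := by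
  have hG : CM 1 U (GamM S g k) := CM_GamM hD (k := 1) (l := 2) (by norm_num [one_add_one_eq_two]) hg k
  have hgM : CM 1 U g := fun a b => (hg.smooth a b).of_le (by norm_num)
  have h1 : pdM S j (pdM S k g) y =
      pdM S j (fun z => (GamM S g k z).transpose * g z + g z * GamM S g k z) y :=
    hD.pdM_congr j (fun z hz => pdM_met hD hg k hz) hy
  rw [h1, hD.pdM_add hy (hG.transpose.mul hgM) (hgM.mul hG),
    hD.pdM_mul j (hG.transpose.dOn le_rfl) (hgM.dOn le_rfl) hy,
    hD.pdM_mul j (hgM.dOn le_rfl) (hG.dOn le_rfl) hy, pdM_transpose, pdM_met hD hg j hy]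

theorem FM_skew (hD : Dom S U) (hg : MetOn U g 2) (hy : y ∈ U) (j k : Fin m) :
    g y * FM S g j k y + (FM S g j k y).transpose * g y = 0 := by
  have hgM : CM 2 U g := fun a b => hg.smooth a b
  have h1 := hD.pdM_comm hy hgM j k
  rw [pdM_pdM hD hg hy j k, pdM_pdM hD hg hy k j] at h1
  unfold FM
  simp only [Matrix.transpose_add, Matrix.transpose_sub, Matrix.transpose_mul]
  have h2 := sub_eq_zero.2 h1
  rw [← h2]
  noncomm_ring

theorem FM_cyc (hD : Dom S U) (hg : MetOn U g 2) (hy : y ∈ U) (i j k l : Fin m) :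
    FM S g j k y l i + FM S g k i y l j + FM S g i j y l k = 0 := by
  have hs : ∀ (a b c d : Fin m), pd S a (Gam S g b c d) y = pd S a (Gam S g b d c) y :=
    fun a b c d => hD.pd_congr a (fun z hz => Gam_symm hD hg b c d hz) hy
  have ht : ∀ (a b c d : Fin m), ∑ p, Gam S g a b p y * Gam S g p c d y =
      ∑ p, Gam S g a b p y * Gam S g p d c y :=
    fun a b c d => Finset.sum_congr rfl fun p _ => by rw [Gam_symm hD hg p c d hy]
  rw [FM_entry, FM_entry, FM_entry, hs j l k i, hs k l j i, hs i l k j, ht l j k i, ht l k j i,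
    ht l i k j]
  ring

end

end Pool.Agent.CY.C
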