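import Pool.Agent.CY.S5.C01RicF

/-!
CY-S5-C02 (helper90).  Pair symmetry of the curvature tensor, symmetry of the Ricci tensor.
PLAN.  Put `R p i j k := (g y * FM S g j k y) p i`.  Then `R p i j k = -R i p j k` (`FM_skew`, symmetry of `g y`),
`R p i j k = -R p i k j` (`FM_swap`), and `R p i j k + R p j k i + R p k i j = 0` (`FM_cyc` multiplied by `g`, sum over
`l`).  The usual algebra (`curv_pair`, a statement about functions `Fin m → Fin m → Fin m → Fin m → ℝ`; octahedron
argument, `linarith` from 4 instances of the cyclic identity and the skew symmetries) gives `R p i j k = R j k p i`.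
`Ric_eq_R`: `Ric i j = Σ_{k,p} g^{kp} R p i k j` (from `Ric_eq_FM` and `g^{-1} (g F) = F`).  `Ric_symm` follows from the
pair symmetry and the symmetry of `g^{-1}`.
-/

set_option autoImplicit false

open scoped Manifold ContDiff Topology
open MeasureTheory Set Filter

namespace Pool.Agent.CY.C

noncomputable section

variable {m : ℕ} {S U : Set (V m)} {g : MF m} {y : V m}

/-- The curvature tensor with lowered index. -/
def Rm (S : Set (V m)) (g : MF m) (p i j k : Fin m) (y : V m) : ℝ := (g y * FM S g j k y) p i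

theorem curv_pair (R : Fin m → Fin m → Fin m → Fin m → ℝ) (h1 : ∀ p i j k, R p i j k = -R i p j k)
    (h2 : ∀ p i j k, R p i j k = -R p i k j) (h3 : ∀ p i j k, R p i j k + R p j k i + R p k i j = 0)
    (p i j k : Fin m) : R p i j k = R j k p i := by
  have a1 := h3 p j k i
  have a2 := h3 j k i p
  have a3 := h3 k i p j
  have a4 := h3 i p j k
  have b1 := h1 p i j k
  have b2 := h2 p i j k
  have b3 := h1 j k p i
  have b4 := h2 j k p i
  have c1 := h1 p j k i
  have c2 := h2 p j k i
  have c3 := h1 j p i k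
  have c4 := h2 j p i k
  have d1 := h1 k i p j
  have d2 := h2 k i p j
  have d3 := h1 i k j p
  have d4 := h2 i k j p
  have e1 := h1 p k i j
  have e2 := h2 p k i j
  have e3 := h1 k p j i
  have e4 := h2 k p j i
  have f1 := h1 j i p k
  have f2 := h2 j i p k
  have f3 := h1 i j k p
  have f4 := h2 i j k p
  have g1 := h1 k j i p
  have g2 := h2 k j i p
  have g3 := h1 i p k j
  have g4 := h2 i p k j
  have k1 := h1 k p i j
  have k2 := h1 k j p i
  have k3 := h1 i p j k
  have k4 := h1 i k p j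
  have k5 := h1 i j p k
  have k6 := h1 j p k i
  linarith

theorem Rm_skew1 (hD : Dom S U) (hg : MetOn U g 2) (hy : y ∈ U) (p i j k : Fin m) :
    Rm S g p i j k y = -Rm S g i p j k y := by
  have h1 := congrFun (congrFun (FM_skew hD hg hy j k) p) i
  rw [Matrix.add_apply, Matrix.zero_apply] at h1
  have h2 : ((FM S g j k y).transpose * g y) p i = (g y * FM S g j k y) i p := by
    rw [Matrix.mul_apply, Matrix.mul_apply]
    refine Finset.sum_congr rfl fun l _ => ?_
    rw [Matrix.transpose_apply, hg.symm hy l i, mul_comm]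
  rw [h2] at h1
  exact eq_neg_of_add_eq_zero_left h1

theorem Rm_skew2 (p i j k : Fin m) : Rm S g p i j k y = -Rm S g p i k j y := by
  rw [Rm, Rm, FM_swap, Matrix.mul_neg, Matrix.neg_apply]

theorem Rm_cyc (hD : Dom S U) (hg : MetOn U g 2) (hy : y ∈ U) (p i j k : Fin m) :
    Rm S g p i j k y + Rm S g p j k i y + Rm S g p k i j y = 0 := by
  simp only [Rm, Matrix.mul_apply]
  rw [← Finset.sum_add_distrib, ← Finset.sum_add_distrib]
  refine Finset.sum_eq_zero fun l _ => ?_
  rw [← mul_add, ← mul_add, FM_cyc hD hg hy i j k l, mul_zero]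

theorem Rm_pair (hD : Dom S U) (hg : MetOn U g 2) (hy : y ∈ U) (p i j k : Fin m) :
    Rm S g p i j k y = Rm S g j k p i y :=
  curv_pair (fun p i j k => Rm S g p i j k y) (Rm_skew1 hD hg hy) Rm_skew2 (Rm_cyc hD hg hy) p i j k

theorem FM_eq_Rm (hg : MetOn U g 2) (hy : y ∈ U) (j k a i : Fin m) :
    FM S g j k y a i = ∑ p, (g y)⁻¹ a p * Rm S g p i j k y := by
  have h1 : (g y)⁻¹ * (g y * FM S g j k y) = FM S g j k y := by
    rw [← Matrix.mul_assoc, Matrix.nonsing_inv_mul _ (hg.isUnit_det hy), Matrix.one_mul]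
  have h2 := congrFun (congrFun h1 a) i
  rw [Matrix.mul_apply] at h2
  exact h2.symm

theorem Ric_eq_Rm (hD : Dom S U) (hg : MetOn U g 2) (hy : y ∈ U) (i j : Fin m) :
    Ric S g i j y = ∑ k, ∑ p, (g y)⁻¹ k p * Rm S g p i k j y := by
  rw [Ric_eq_FM hD (hg.of_le (by norm_num)) hy i j]
  exact Finset.sum_congr rfl fun k _ => FM_eq_Rm hg hy k j k i

theorem Ric_symm (hD : Dom S U) (hg : MetOn U g 2) (hy : y ∈ U) (i j : Fin m) :
    Ric S g i j y = Ric S g j i y := by
  rw [Ric_eq_Rm hD hg hy, Ric_eq_Rm hD hg hy, Finset.sum_comm]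
  refine Finset.sum_congr rfl fun p _ => Finset.sum_congr rfl fun k _ => ?_
  rw [Rm_pair hD hg hy p i k j, hg.inv_symm hy k p]

end

end Pool.Agent.CY.C
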