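import Pool.Agent.CY.S5.CDef

/-!
CY-S5-C09 (helper90).  Smoothness of curvature in charts.
PLAN.  `contDiffOn_Ric`: sums and products of `contDiffOn_Gam` (class `k+1`) and `Dom.contDiffOn_pd`.  `contDiffOn_scal`,
`contDiffOn_hess`, `contDiffOn_gr`, `contDiffOn_gip`, `contDiffOn_lap` likewise; `contDiffOn_GW` (class 1 for a `C^3`
metric and a smooth function).  `inv00_pos`: the inverse matrix is positive definite (also in S5/ConfU.lean).
`tang_metOn`: `tang g` is positive definite (principal block; also `tang_posDef` in S5/ConfU.lean) and `C^k`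
(`contDiffOn_bd`).
-/

set_option autoImplicit false

open scoped Manifold ContDiff Topology
open MeasureTheory Set Filter

namespace Pool.Agent.CY.C

noncomputable section

section local_

variable {m : ℕ} {S U : Set (V m)} {g : MF m}

private theorem le2 {k l : WithTop ℕ∞} (hkl : k + 2 ≤ l) : k + 1 + 1 ≤ l := by
  rwa [add_assoc, one_add_one_eq_two]

private theorem le1 {k l : WithTop ℕ∞} (hkl : k + 2 ≤ l) : k + 1 ≤ l :=
  le_trans le_self_add (le2 hkl)

private theorem le0 {k l : WithTop ℕ∞} (hkl : k + 1 ≤ l) : k ≤ l :=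
  le_trans le_self_add hkl

theorem contDiffOn_Ric (hD : Dom S U) {k l : WithTop ℕ∞} (hkl : k + 2 ≤ l) (hg : MetOn U g l)
    (i j : Fin m) : ContDiffOn ℝ k (Ric S g i j) U := by
  have h1 : ∀ a b c, ContDiffOn ℝ (k + 1) (Gam S g a b c) U :=
    fun a b c => contDiffOn_Gam hD (le2 hkl) hg a b c
  have h0 : ∀ a b c, ContDiffOn ℝ k (Gam S g a b c) U :=
    fun a b c => contDiffOn_Gam hD (le1 hkl) hg a b c
  unfold Ric
  refine ContDiffOn.sum fun a _ => ?_
  refine ((hD.contDiffOn_pd a le_rfl (h1 a i j)).sub (hD.contDiffOn_pd j le_rfl (h1 a i a))).add ?_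
  exact ContDiffOn.sum fun b _ => ((h0 _ _ _).mul (h0 _ _ _)).sub ((h0 _ _ _).mul (h0 _ _ _))

theorem contDiffOn_scal (hD : Dom S U) {k l : WithTop ℕ∞} (hkl : k + 2 ≤ l) (hg : MetOn U g l) :
    ContDiffOn ℝ k (scal S g) U := by
  unfold scal
  refine ContDiffOn.sum fun i _ => ContDiffOn.sum fun j _ => ?_
  exact ((hg.of_le (le0 (le1 hkl))).contDiffOn_inv i j).mul (contDiffOn_Ric hD hkl hg i j)

theorem contDiffOn_hess (hD : Dom S U) {k l : WithTop ℕ∞} (hkl : k + 2 ≤ l) (hg : MetOn U g l)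
    {f : V m → ℝ} (hf : ContDiffOn ℝ l f U) (i j : Fin m) : ContDiffOn ℝ k (hess S g f i j) U := by
  unfold hess
  refine (hD.contDiffOn_pd i le_rfl (hD.contDiffOn_pd j (le2 hkl) hf)).sub ?_
  refine ContDiffOn.sum fun a _ => ?_
  exact (contDiffOn_Gam hD (le1 hkl) hg a i j).mul (hD.contDiffOn_pd a (le1 hkl) hf)

theorem contDiffOn_lap (hD : Dom S U) {k l : WithTop ℕ∞} (hkl : k + 2 ≤ l) (hg : MetOn U g l)
    {f : V m → ℝ} (hf : ContDiffOn ℝ l f U) : ContDiffOn ℝ k (lap S g f) U := by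
  unfold lap
  refine ContDiffOn.sum fun i _ => ContDiffOn.sum fun j _ => ?_
  exact ((hg.of_le (le0 (le1 hkl))).contDiffOn_inv i j).mul (contDiffOn_hess hD hkl hg hf i j)

theorem contDiffOn_gr (hD : Dom S U) {k l : WithTop ℕ∞} (hkl : k + 1 ≤ l) (hg : MetOn U g l)
    {f : V m → ℝ} (hf : ContDiffOn ℝ l f U) (j : Fin m) : ContDiffOn ℝ k (gr S g f j) U := by
  unfold gr
  refine ContDiffOn.sum fun a _ => ?_
  exact ((hg.of_le (le0 hkl)).contDiffOn_inv j a).mul (hD.contDiffOn_pd a hkl hf)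

theorem contDiffOn_gip (hD : Dom S U) {k l : WithTop ℕ∞} (hkl : k + 1 ≤ l) (hg : MetOn U g l)
    {f f' : V m → ℝ} (hf : ContDiffOn ℝ l f U) (hf' : ContDiffOn ℝ l f' U) :
    ContDiffOn ℝ k (gip S g f f') U := by
  unfold gip
  refine ContDiffOn.sum fun i _ => ContDiffOn.sum fun j _ => ?_
  exact ((hg.of_le (le0 hkl)).contDiffOn_inv i j).mul
    ((hD.contDiffOn_pd i hkl hf).mul (hD.contDiffOn_pd j hkl hf'))

theorem contDiffOn_GW (hD : Dom S U) (hg : MetOn U g 3) {f : V m → ℝ} (hf : ContDiffOn ℝ 3 f U)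
    (k : Fin m) : ContDiffOn ℝ 1 (GW S g f k) U := by
  have h3 : (1 : WithTop ℕ∞) + 2 ≤ 3 := by norm_num
  unfold GW
  refine ContDiffOn.sum fun i _ => ?_
  refine ((hg.of_le (le0 (le1 h3))).contDiffOn_inv k i).mul (ContDiffOn.sum fun j _ => ?_)
  refine ContDiffOn.mul ?_ (contDiffOn_gr hD (le1 h3) hg hf j)
  unfold Ein
  refine (contDiffOn_Ric hD h3 hg i j).sub ?_
  exact ((contDiffOn_scal hD h3 hg).div_const 2).mul ((hg.smooth i j).of_le (le0 (le1 h3)))

end local_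

section bdry_

variable {n : ℕ} {U : Set (V (n + 1))} {g : MF (n + 1)} {z : V n}

theorem inv00_pos {k : WithTop ℕ∞} (hg : MetOn U g k) {y : V (n + 1)} (hy : y ∈ U) : 0 < (g y)⁻¹ 0 0 :=
  (hg.pos y hy).inv.diag_pos

theorem mem_bdry : z ∈ bdry U ↔ bd z ∈ U := Iff.rfl

theorem tang_metOn {k : WithTop ℕ∞} (hg : MetOn U g k) : MetOn (bdry U) (tang g) k where
  pos z hz := by
    have h := (hg.pos (bd z) hz).submatrix (Fin.succ_injective n)
    exact h
  smooth i j := contDiffOn_bd (hg.smooth i.succ j.succ)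

end bdry_

end

end Pool.Agent.CY.C
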