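import Pool.Agent.CY.S5.C09Cont

/-!
CY-S5-C10 (helper90).  Divergence of vector and covector fields, gradients.
PLAN.  `divV_sharp`: `∂_k (g^{ki} w_i) = (∂_k g^{ki}) w_i + g^{ki} ∂_k w_i`, insert `pd_inv_met`
(`∂_k g^{ki} = -Γ^k_{ka} g^{ai} - Γ^i_{ka} g^{ak}`); after summing over `k` the first term cancels `Γ^l_{lk} g^{ki} w_i`.
The others: linearity of `pd` (`Dom.pd_mul`, `Dom.pd_add`), `Dom.pd_comm` for `divC_grad`, `mul_inv` for `gr_lower`.
-/

set_option autoImplicit false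

open scoped Manifold ContDiff Topology
open MeasureTheory Set Filter

namespace Pool.Agent.CY.C

noncomputable section

variable {m : ℕ} {S U : Set (V m)} {g : MF m} {y : V m}

theorem gr_lower {k : WithTop ℕ∞} (hg : MetOn U g k) (hy : y ∈ U) (f : V m → ℝ) (i : Fin m) :
    ∑ j, g y i j * gr S g f j y = pd S i f y := by
  simp only [gr, Finset.mul_sum]
  rw [Finset.sum_comm]
  have h1 : ∀ l, ∑ j, g y i j * ((g y)⁻¹ j l * pd S l f y) = (if i = l then 1 else 0) * pd S l f y := by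
    intro l
    rw [← hg.mul_inv hy i l, Finset.sum_mul]
    exact Finset.sum_congr rfl fun j _ => by ring
  simp only [h1]
  simp

theorem gip_eq_gr {k : WithTop ℕ∞} (hg : MetOn U g k) (hy : y ∈ U) (f f' : V m → ℝ) :
    gip S g f f' y = ∑ j, gr S g f j y * pd S j f' y := by
  simp only [gr, gip, Finset.sum_mul]
  rw [Finset.sum_comm]
  refine Finset.sum_congr rfl fun j _ => Finset.sum_congr rfl fun l _ => ?_
  rw [hg.inv_symm hy l j]
  ring

theorem divV_sharp (hD : Dom S U) (hg : MetOn U g 1) {w : Fin m → V m → ℝ}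
    (hw : ∀ i, DifferentiableOn ℝ (w i) U) (hy : y ∈ U) :
    divV S g (fun k z => ∑ i, (g z)⁻¹ k i * w i z) y = divC S g w y := by
  have h1 : ∀ k, pd S k (fun z => ∑ i, (g z)⁻¹ k i * w i z) y =
      ∑ i, ((- ∑ a, (Gam S g k k a y * (g y)⁻¹ a i + Gam S g i k a y * (g y)⁻¹ a k)) * w i y +
        (g y)⁻¹ k i * pd S k (w i) y) := by
    intro k
    rw [hD.pd_sum k Finset.univ (f := fun i z => (g z)⁻¹ k i * w i z)
      (fun i _ => (hg.diffOn_inv le_rfl k i).mul (hw i)) hy]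
    refine Finset.sum_congr rfl fun i _ => ?_
    rw [hD.pd_mul k (hg.diffOn_inv le_rfl k i) (hw i) hy, pd_inv_met hD hg le_rfl k k i hy]
  have e1 : divV S g (fun k z => ∑ i, (g z)⁻¹ k i * w i z) y =
      -(∑ k, ∑ i, ∑ a, Gam S g k k a y * (g y)⁻¹ a i * w i y) -
      (∑ k, ∑ i, ∑ a, Gam S g i k a y * (g y)⁻¹ a k * w i y) + (∑ k, ∑ i, (g y)⁻¹ k i * pd S k (w i) y) +
      ∑ k, ∑ l, ∑ i, Gam S g l l k y * (g y)⁻¹ k i * w i y := by
    have p1 : ∀ k, ∑ i, ((- ∑ a, (Gam S g k k a y * (g y)⁻¹ a i + Gam S g i k a y * (g y)⁻¹ a k)) * w i y +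
        (g y)⁻¹ k i * pd S k (w i) y) = -(∑ i, ∑ a, Gam S g k k a y * (g y)⁻¹ a i * w i y) -
        (∑ i, ∑ a, Gam S g i k a y * (g y)⁻¹ a k * w i y) + ∑ i, (g y)⁻¹ k i * pd S k (w i) y := by
      intro k
      simp only [Finset.sum_add_distrib, neg_mul, add_mul, Finset.sum_neg_distrib, Finset.sum_mul]
      ring
    have p2 : ∀ k, ∑ l, Gam S g l l k y * (∑ i, (g y)⁻¹ k i * w i y) =
        ∑ l, ∑ i, Gam S g l l k y * (g y)⁻¹ k i * w i y := by
      intro k
      refine Finset.sum_congr rfl fun l _ => ?_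
      rw [Finset.mul_sum]
      exact Finset.sum_congr rfl fun i _ => by ring
    have p3 : divV S g (fun k z => ∑ i, (g z)⁻¹ k i * w i z) y =
        ∑ k, (-(∑ i, ∑ a, Gam S g k k a y * (g y)⁻¹ a i * w i y) -
        (∑ i, ∑ a, Gam S g i k a y * (g y)⁻¹ a k * w i y) + ∑ i, (g y)⁻¹ k i * pd S k (w i) y +
        ∑ l, ∑ i, Gam S g l l k y * (g y)⁻¹ k i * w i y) := by
      simp only [divV]
      refine Finset.sum_congr rfl fun k _ => ?_
      rw [h1, p1, p2]
    rw [p3]
    simp only [Finset.sum_add_distrib, Finset.sum_sub_distrib, Finset.sum_neg_distrib]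
  have e2 : divC S g w y = (∑ k, ∑ i, (g y)⁻¹ k i * pd S k (w i) y) -
      ∑ k, ∑ i, ∑ a, Gam S g i k a y * (g y)⁻¹ a k * w i y := by
    simp only [divC, mul_sub, Finset.sum_sub_distrib, Finset.mul_sum]
    congr 1
    · rw [Finset.sum_comm]
      exact Finset.sum_congr rfl fun k _ => Finset.sum_congr rfl fun i _ => by rw [hg.inv_symm hy i k]
    · refine Finset.sum_congr rfl fun k _ => ?_
      rw [Finset.sum_comm]
      refine Finset.sum_congr rfl fun i _ => Finset.sum_congr rfl fun a _ => ?_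
      rw [hg.inv_symm hy k a]
      ring
  have e3 : ∑ k, ∑ l, ∑ i, Gam S g l l k y * (g y)⁻¹ k i * w i y =
      ∑ k, ∑ i, ∑ a, Gam S g k k a y * (g y)⁻¹ a i * w i y := by
    rw [Finset.sum_comm]
    exact Finset.sum_congr rfl fun k _ => Finset.sum_comm
  rw [e1, e2, e3]
  ring

theorem divC_add (hD : Dom S U) {w w' : Fin m → V m → ℝ} (hw : ∀ i, DifferentiableOn ℝ (w i) U)
    (hw' : ∀ i, DifferentiableOn ℝ (w' i) U) (hy : y ∈ U) :
    divC S g (fun i z => w i z + w' i z) y = divC S g w y + divC S g w' y := by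
  simp only [divC, ← Finset.sum_add_distrib]
  refine Finset.sum_congr rfl fun i _ => Finset.sum_congr rfl fun j _ => ?_
  rw [hD.pd_add j (hw i) (hw' i) hy]
  simp only [mul_add, Finset.sum_add_distrib]
  ring

theorem divC_mul (hD : Dom S U) {k : WithTop ℕ∞} (hg : MetOn U g k) {a : V m → ℝ}
    (ha : DifferentiableOn ℝ a U) {w : Fin m → V m → ℝ}
    (hw : ∀ i, DifferentiableOn ℝ (w i) U) (hy : y ∈ U) :
    divC S g (fun i z => a z * w i z) y = a y * divC S g w y + ∑ i, gr S g a i y * w i y := by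
  simp only [divC, gr]
  rw [Finset.mul_sum, ← Finset.sum_add_distrib]
  refine Finset.sum_congr rfl fun i _ => ?_
  rw [Finset.mul_sum, Finset.sum_mul, ← Finset.sum_add_distrib]
  refine Finset.sum_congr rfl fun j _ => ?_
  rw [hD.pd_mul j ha (hw i) hy]
  have h1 : ∑ k, Gam S g k i j y * (a y * w k y) = a y * ∑ k, Gam S g k i j y * w k y := by
    rw [Finset.mul_sum]
    exact Finset.sum_congr rfl fun k _ => by ring
  rw [h1]
  ring

theorem divC_congr (hD : Dom S U) {w w' : Fin m → V m → ℝ} (hw : ∀ i, ∀ z ∈ U, w i z = w' i z)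
    (hy : y ∈ U) : divC S g w y = divC S g w' y := by
  simp only [divC]
  refine Finset.sum_congr rfl fun i _ => Finset.sum_congr rfl fun j _ => ?_
  rw [hD.pd_congr j (hw i) hy, Finset.sum_congr rfl (fun k _ => by rw [hw k y hy])]

theorem divC_grad (hD : Dom S U) (hg : MetOn U g 1) {f : V m → ℝ} (hf : ContDiffOn ℝ 2 f U) (hy : y ∈ U) :
    divC S g (fun i => pd S i f) y = lap S g f y := by
  simp only [divC, lap, hess]
  refine Finset.sum_congr rfl fun i _ => Finset.sum_congr rfl fun j _ => ?_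
  rw [hD.pd_comm j i hf hy]

theorem hess_symm (hD : Dom S U) (hg : MetOn U g 1) {f : V m → ℝ} (hf : ContDiffOn ℝ 2 f U) (hy : y ∈ U)
    (i j : Fin m) : hess S g f i j y = hess S g f j i y := by
  simp only [hess]
  rw [hD.pd_comm i j hf hy]
  congr 1
  exact Finset.sum_congr rfl fun k _ => by rw [Gam_symm hD hg k i j hy]

/-- `∂_i |df|² = 2 (∇²f)_{ij} f^j`. -/
theorem pd_gip (hD : Dom S U) (hg : MetOn U g 1) {f : V m → ℝ} (hf : ContDiffOn ℝ 2 f U) (hy : y ∈ U)
    (i : Fin m) : pd S i (gip S g f f) y = 2 * ∑ j, hess S g f i j y * gr S g f j y := by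
  have hd : ∀ a, DifferentiableOn ℝ (pd S a f) U := fun a => hD.diffOn_pd a hf
  have h1 : pd S i (gip S g f f) y = ∑ a, ∑ b, pd S i (fun z => (g z)⁻¹ a b * (pd S a f z * pd S b f z)) y := by
    have := hD.pd_sum i Finset.univ (f := fun a z => ∑ b, (g z)⁻¹ a b * (pd S a f z * pd S b f z))
      (fun a _ => DifferentiableOn.fun_sum fun b _ => (hg.diffOn_inv le_rfl a b).mul ((hd a).mul (hd b))) hy
    rw [show gip S g f f = fun z => ∑ a, ∑ b, (g z)⁻¹ a b * (pd S a f z * pd S b f z) from rfl, this]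
    refine Finset.sum_congr rfl fun a _ => ?_
    exact hD.pd_sum i Finset.univ (fun b _ => (hg.diffOn_inv le_rfl a b).mul ((hd a).mul (hd b))) hy
  have h2 : ∀ a b, pd S i (fun z => (g z)⁻¹ a b * (pd S a f z * pd S b f z)) y =
      (- ∑ c, (Gam S g a i c y * (g y)⁻¹ c b + Gam S g b i c y * (g y)⁻¹ c a)) * (pd S a f y * pd S b f y) +
      (g y)⁻¹ a b * (pd S i (pd S a f) y * pd S b f y + pd S a f y * pd S i (pd S b f) y) := by
    intro a b
    rw [hD.pd_mul i (f := fun z => (g z)⁻¹ a b) (g := fun z => pd S a f z * pd S b f z)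
      (hg.diffOn_inv le_rfl a b) ((hd a).mul (hd b)) hy, pd_inv_met hD hg le_rfl i a b hy,
      hD.pd_mul i (hd a) (hd b) hy]
  have e1 : ∑ a, ∑ b, (∑ c, Gam S g a i c y * (g y)⁻¹ c b) * (pd S a f y * pd S b f y) =
      ∑ a, ∑ b, ∑ c, Gam S g c i a y * (g y)⁻¹ a b * (pd S c f y * pd S b f y) := by
    simp only [Finset.sum_mul]
    rw [Finset.sum_comm]
    rw [show (∑ a, ∑ b, ∑ c, Gam S g c i a y * (g y)⁻¹ a b * (pd S c f y * pd S b f y)) =
      ∑ b, ∑ a, ∑ c, Gam S g c i a y * (g y)⁻¹ a b * (pd S c f y * pd S b f y) from Finset.sum_comm]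
    exact Finset.sum_congr rfl fun b _ => Finset.sum_comm
  have e2 : ∑ a, ∑ b, (∑ c, Gam S g b i c y * (g y)⁻¹ c a) * (pd S a f y * pd S b f y) =
      ∑ a, ∑ b, ∑ c, Gam S g c i a y * (g y)⁻¹ a b * (pd S c f y * pd S b f y) := by
    rw [← e1, Finset.sum_comm]
    refine Finset.sum_congr rfl fun a _ => Finset.sum_congr rfl fun b _ => ?_
    ring
  have e3 : ∑ a, ∑ b, (g y)⁻¹ a b * (pd S a f y * pd S i (pd S b f) y) =
      ∑ a, ∑ b, (g y)⁻¹ a b * (pd S i (pd S a f) y * pd S b f y) := by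
    rw [Finset.sum_comm]
    refine Finset.sum_congr rfl fun a _ => Finset.sum_congr rfl fun b _ => ?_
    rw [hg.inv_symm hy b a]
    ring
  have e4 : ∑ j, hess S g f i j y * gr S g f j y =
      ∑ a, ∑ b, (g y)⁻¹ a b * (pd S i (pd S a f) y * pd S b f y) -
      ∑ a, ∑ b, ∑ c, Gam S g c i a y * (g y)⁻¹ a b * (pd S c f y * pd S b f y) := by
    simp only [hess, gr, sub_mul, Finset.sum_sub_distrib]
    congr 1
    · refine Finset.sum_congr rfl fun a _ => ?_
      rw [Finset.mul_sum]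
      exact Finset.sum_congr rfl fun b _ => by ring
    · refine Finset.sum_congr rfl fun a _ => ?_
      rw [Finset.mul_sum]
      refine Finset.sum_congr rfl fun b _ => ?_
      rw [Finset.sum_mul]
      exact Finset.sum_congr rfl fun c _ => by ring
  rw [h1, e4]
  simp only [h2, Finset.sum_add_distrib, neg_mul, add_mul, mul_add, Finset.sum_neg_distrib, e1, e2, e3]
  ring

/-- `∇_j f^k = g^{ki} (∇²f)_{ji}`. -/
theorem pd_gr (hD : Dom S U) (hg : MetOn U g 1) {f : V m → ℝ} (hf : ContDiffOn ℝ 2 f U) (hy : y ∈ U)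
    (j k : Fin m) : pd S j (gr S g f k) y =
      ∑ i, (g y)⁻¹ k i * hess S g f j i y - ∑ l, Gam S g k j l y * gr S g f l y := by
  have hd : ∀ a, DifferentiableOn ℝ (pd S a f) U := fun a => hD.diffOn_pd a hf
  have h1 : pd S j (gr S g f k) y = ∑ i, ((- ∑ a, (Gam S g k j a y * (g y)⁻¹ a i + Gam S g i j a y * (g y)⁻¹ a k)) *
      pd S i f y + (g y)⁻¹ k i * pd S j (pd S i f) y) := by
    rw [show gr S g f k = fun z => ∑ i, (g z)⁻¹ k i * pd S i f z from rfl,
      hD.pd_sum j Finset.univ (f := fun i z => (g z)⁻¹ k i * pd S i f z)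
        (fun i _ => (hg.diffOn_inv le_rfl k i).mul (hd i)) hy]
    refine Finset.sum_congr rfl fun i _ => ?_
    rw [hD.pd_mul j (hg.diffOn_inv le_rfl k i) (hd i) hy, pd_inv_met hD hg le_rfl j k i hy]
  have e1 : ∑ l, Gam S g k j l y * gr S g f l y =
      ∑ i, (∑ a, Gam S g k j a y * (g y)⁻¹ a i) * pd S i f y := by
    simp only [gr, Finset.mul_sum, Finset.sum_mul]
    rw [Finset.sum_comm]
    exact Finset.sum_congr rfl fun i _ => Finset.sum_congr rfl fun a _ => by ring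
  have e2 : ∑ i, (g y)⁻¹ k i * hess S g f j i y =
      ∑ i, (g y)⁻¹ k i * pd S j (pd S i f) y - ∑ i, (∑ a, Gam S g i j a y * (g y)⁻¹ a k) * pd S i f y := by
    simp only [hess, mul_sub, Finset.sum_sub_distrib]
    congr 1
    simp only [Finset.mul_sum, Finset.sum_mul]
    rw [Finset.sum_comm]
    refine Finset.sum_congr rfl fun i _ => Finset.sum_congr rfl fun a _ => ?_
    rw [hg.inv_symm hy k a]
    ring
  rw [h1, e1, e2]
  simp only [Finset.sum_add_distrib, neg_mul, add_mul, Finset.sum_neg_distrib]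
  ring

end

end Pool.Agent.CY.C
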