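import Pool.Agent.CY.S5.C10DivCV
import Pool.Agent.CY.S5.C02Pair

/-!
CY-S5-C11 (helper90).  The Bochner formula.
PLAN.  `covH` is `∇_j H_{ik}`, `H = ∇²f`.  `ricci_id`: `H_{ki} = ∂_k v_i - Γ^l_{ki} v_l`, `v = df`; expand
`∇_j H_{ki} - ∇_k H_{ji}` (third derivatives of `f` commute: `Dom.pd_comm` for `v_i` and `Dom.pd_congr`):
`= -Σ_l (F_{jk})^l_i v_l`.  `pd_lap`: `∂_k (g^{ij} H_{ij}) = g^{ij} ∇_k H_{ij}` (`pd_inv_met`).  `bochner`: for
`w_i = Σ_k H_{ik} f^k` use `Dom.pd_mul`, `pd_gr` : `divC w = hess2 + Σ f^k g^{ij} ∇_j H_{ik}`; then `H_{ik} = H_{ki}`,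
`ricci_id`, `pd_lap`, and `Σ_{ij} g^{ij} (F_{jk})^l_i = -Σ_p g^{lp} Ric_{pk}` (`FM_eq_Rm`, `Rm_skew1`, `Ric_eq_Rm`).
-/

set_option autoImplicit false

open scoped Manifold ContDiff Topology
open MeasureTheory Set Filter

namespace Pool.Agent.CY.C

noncomputable section

variable {m : ℕ} {S U : Set (V m)} {g : MF m} {y : V m}

/-- The covariant derivative `∇_j (∇²f)_{ik}`. -/
def covH (S : Set (V m)) (g : MF m) (f : V m → ℝ) (j i k : Fin m) (y : V m) : ℝ :=
  pd S j (hess S g f i k) y - ∑ l, Gam S g l j i y * hess S g f l k y - ∑ l, Gam S g l j k y * hess S g f i l y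

theorem covH_symm (hD : Dom S U) (hg : MetOn U g 1) {f : V m → ℝ} (hf : ContDiffOn ℝ 2 f U)
    (hy : y ∈ U) (j i k : Fin m) : covH S g f j i k y = covH S g f j k i y := by
  simp only [covH]
  rw [hD.pd_congr j (fun z hz => hess_symm hD hg hf hz i k) hy]
  have e1 : ∑ l, Gam S g l j i y * hess S g f l k y = ∑ l, Gam S g l j i y * hess S g f k l y :=
    Finset.sum_congr rfl fun l _ => by rw [hess_symm hD hg hf hy l k]
  have e2 : ∑ l, Gam S g l j k y * hess S g f i l y = ∑ l, Gam S g l j k y * hess S g f l i y :=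
    Finset.sum_congr rfl fun l _ => by rw [hess_symm hD hg hf hy i l]
  rw [e1, e2]
  ring

private theorem two_le_three : (2 : WithTop ℕ∞) ≤ 3 := by exact_mod_cast (by norm_num : (2 : ℕ) ≤ 3)

private theorem diff_Gam (hD : Dom S U) (hg : MetOn U g 2) (a i j : Fin m) :
    DifferentiableOn ℝ (Gam S g a i j) U :=
  (contDiffOn_Gam hD (k := 1) (l := 2) (by norm_num [one_add_one_eq_two]) hg a i j).differentiableOn (by simp)

private theorem diff_hess (hD : Dom S U) (hg : MetOn U g 2) {f : V m → ℝ} (hf : ContDiffOn ℝ 3 f U) (i j : Fin m) :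
    DifferentiableOn ℝ (hess S g f i j) U := by
  have hf2 : ContDiffOn ℝ 2 f U := hf.of_le two_le_three
  have hp : ∀ a, ContDiffOn ℝ 2 (pd S a f) U := fun a => hD.contDiffOn_pd a (k := 2) (l := 3) (by norm_num) hf
  have h1 : DifferentiableOn ℝ (pd S i (pd S j f)) U := hD.diffOn_pd i (hp j)
  show DifferentiableOn ℝ (fun z => pd S i (pd S j f) z - ∑ k, Gam S g k i j z * pd S k f z) U
  exact h1.sub (DifferentiableOn.fun_sum fun k _ => (diff_Gam hD hg k i j).mul (hD.diffOn_pd k hf2))

private theorem pd_hess (hD : Dom S U) (hg : MetOn U g 2) {f : V m → ℝ} (hf : ContDiffOn ℝ 3 f U)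
    (hy : y ∈ U) (j k i : Fin m) :
    pd S j (hess S g f k i) y = pd S j (pd S k (pd S i f)) y -
      ∑ a, (pd S j (Gam S g a k i) y * pd S a f y + Gam S g a k i y * pd S j (pd S a f) y) := by
  have hf2 : ContDiffOn ℝ 2 f U := hf.of_le two_le_three
  have hp : ∀ a, ContDiffOn ℝ 2 (pd S a f) U := fun a => hD.contDiffOn_pd a (k := 2) (l := 3) (by norm_num) hf
  have h1 : DifferentiableOn ℝ (pd S k (pd S i f)) U := hD.diffOn_pd k (hp i)
  have h2 : ∀ a ∈ Finset.univ, DifferentiableOn ℝ (fun z => Gam S g a k i z * pd S a f z) U :=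
    fun a _ => (diff_Gam hD hg a k i).mul (hD.diffOn_pd a hf2)
  have h3 : pd S j (fun z => pd S k (pd S i f) z - ∑ a, Gam S g a k i z * pd S a f z) y = _ :=
    hD.pd_sub j h1 (DifferentiableOn.fun_sum h2) hy
  rw [show hess S g f k i = fun z => pd S k (pd S i f) z - ∑ a, Gam S g a k i z * pd S a f z from rfl, h3,
    hD.pd_sum j Finset.univ h2 hy]
  congr 1
  exact Finset.sum_congr rfl fun a _ => hD.pd_mul j (diff_Gam hD hg a k i) (hD.diffOn_pd a hf2) hy

theorem ricci_id (hD : Dom S U) (hg : MetOn U g 2) {f : V m → ℝ} (hf : ContDiffOn ℝ 3 f U)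
    (hy : y ∈ U) (j k i : Fin m) :
    covH S g f j k i y - covH S g f k j i y = -∑ l, FM S g j k y l i * pd S l f y := by
  have hf2 : ContDiffOn ℝ 2 f U := hf.of_le two_le_three
  have hp : ∀ a, ContDiffOn ℝ 2 (pd S a f) U := fun a => hD.contDiffOn_pd a (k := 2) (l := 3) (by norm_num) hf
  have hF : ∀ l, FM S g j k y l i = pd S j (Gam S g l k i) y - pd S k (Gam S g l j i) y +
      ∑ a, Gam S g l j a y * Gam S g a k i y - ∑ a, Gam S g l k a y * Gam S g a j i y := by
    intro l
    simp only [FM, pdM, GamM, Matrix.of_apply, Matrix.add_apply, Matrix.sub_apply, Matrix.mul_apply]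
  have e0 : pd S j (pd S k (pd S i f)) y = pd S k (pd S j (pd S i f)) y := hD.pd_comm j k (hp i) hy
  have e1 : ∑ l, Gam S g l j k y * hess S g f l i y = ∑ l, Gam S g l k j y * hess S g f l i y :=
    Finset.sum_congr rfl fun l _ => by rw [Gam_symm hD hg l j k hy]
  have e2 : ∀ j k : Fin m, ∑ l, Gam S g l j i y * hess S g f k l y =
      ∑ l, Gam S g l j i y * pd S k (pd S l f) y - ∑ l, (∑ a, Gam S g l k a y * Gam S g a j i y) * pd S l f y := by
    intro j k
    simp only [hess, mul_sub, Finset.sum_sub_distrib]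
    congr 1
    simp only [Finset.mul_sum, Finset.sum_mul]
    rw [Finset.sum_comm]
    exact Finset.sum_congr rfl fun l _ => Finset.sum_congr rfl fun a _ => by ring
  simp only [covH, pd_hess hD hg hf hy, e1, e2, hF]
  rw [e0]
  simp only [Finset.sum_add_distrib, Finset.sum_sub_distrib, add_mul, sub_mul]
  ring

theorem pd_lap (hD : Dom S U) (hg : MetOn U g 2) {f : V m → ℝ} (hf : ContDiffOn ℝ 3 f U)
    (hy : y ∈ U) (k : Fin m) :
    pd S k (lap S g f) y = ∑ i, ∑ j, (g y)⁻¹ i j * covH S g f k i j y := by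
  have hd : ∀ i j, DifferentiableOn ℝ (fun z => (g z)⁻¹ i j * hess S g f i j z) U := fun i j =>
    (hg.diffOn_inv (by norm_num) i j).mul (diff_hess hD hg hf i j)
  have h1 : pd S k (lap S g f) y = ∑ i, ∑ j, pd S k (fun z => (g z)⁻¹ i j * hess S g f i j z) y := by
    rw [show lap S g f = fun z => ∑ i, ∑ j, (g z)⁻¹ i j * hess S g f i j z from rfl,
      hD.pd_sum k Finset.univ (f := fun i z => ∑ j, (g z)⁻¹ i j * hess S g f i j z)
        (fun i _ => DifferentiableOn.fun_sum fun j _ => hd i j) hy]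
    refine Finset.sum_congr rfl fun i _ => ?_
    exact hD.pd_sum k Finset.univ (fun j _ => hd i j) hy
  have h2 : ∀ i j, pd S k (fun z => (g z)⁻¹ i j * hess S g f i j z) y =
      (- ∑ a, (Gam S g i k a y * (g y)⁻¹ a j + Gam S g j k a y * (g y)⁻¹ a i)) * hess S g f i j y +
      (g y)⁻¹ i j * pd S k (hess S g f i j) y := by
    intro i j
    rw [hD.pd_mul k (f := fun z => (g z)⁻¹ i j) (g := hess S g f i j) (hg.diffOn_inv (by norm_num) i j)
      (diff_hess hD hg hf i j) hy, pd_inv_met hD hg (by norm_num) k i j hy]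
  have e1 : ∑ i, ∑ j, (∑ a, Gam S g i k a y * (g y)⁻¹ a j) * hess S g f i j y =
      ∑ i, ∑ j, (g y)⁻¹ i j * ∑ l, Gam S g l k i y * hess S g f l j y := by
    simp only [Finset.sum_mul, Finset.mul_sum]
    rw [Finset.sum_comm]
    rw [show (∑ i, ∑ j, ∑ l, (g y)⁻¹ i j * (Gam S g l k i y * hess S g f l j y)) =
      ∑ j, ∑ i, ∑ l, (g y)⁻¹ i j * (Gam S g l k i y * hess S g f l j y) from Finset.sum_comm]
    refine Finset.sum_congr rfl fun j _ => ?_
    rw [Finset.sum_comm]
    exact Finset.sum_congr rfl fun i _ => Finset.sum_congr rfl fun a _ => by ring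
  have e2 : ∑ i, ∑ j, (∑ a, Gam S g j k a y * (g y)⁻¹ a i) * hess S g f i j y =
      ∑ i, ∑ j, (g y)⁻¹ i j * ∑ l, Gam S g l k j y * hess S g f i l y := by
    simp only [Finset.sum_mul, Finset.mul_sum]
    refine Finset.sum_congr rfl fun i _ => ?_
    rw [Finset.sum_comm]
    refine Finset.sum_congr rfl fun j _ => Finset.sum_congr rfl fun a _ => ?_
    rw [hg.inv_symm hy j i]
    ring
  rw [h1]
  simp only [h2, covH, mul_sub, Finset.sum_sub_distrib, Finset.sum_add_distrib, neg_mul, Finset.sum_neg_distrib,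
    add_mul, e1, e2]
  ring

theorem bochner (hD : Dom S U) (hg : MetOn U g 2) {f : V m → ℝ} (hf : ContDiffOn ℝ 3 f U) (hy : y ∈ U) :
    divC S g (fun i z => ∑ k, hess S g f i k z * gr S g f k z) y =
      hess2 S g f y + ∑ k, gr S g f k y * pd S k (lap S g f) y +
        ∑ i, ∑ j, Ric S g i j y * gr S g f i y * gr S g f j y := by
  have hf2 : ContDiffOn ℝ 2 f U := hf.of_le two_le_three
  have hg1 : MetOn U g 1 := hg.of_le (by norm_num)
  have hp : ∀ a, ContDiffOn ℝ 2 (pd S a f) U := fun a => hD.contDiffOn_pd a (k := 2) (l := 3) (by norm_num) hf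
  have hH : ∀ i j, DifferentiableOn ℝ (hess S g f i j) U := diff_hess hD hg hf
  have hG : ∀ k, DifferentiableOn ℝ (gr S g f k) U := fun k =>
    DifferentiableOn.fun_sum fun l _ => (hg.diffOn_inv (by norm_num) k l).mul (hD.diffOn_pd l hf2)
  have hw : ∀ i j, pd S j (fun z => ∑ k, hess S g f i k z * gr S g f k z) y =
      ∑ k, (pd S j (hess S g f i k) y * gr S g f k y + hess S g f i k y *
        (∑ a, (g y)⁻¹ k a * hess S g f j a y - ∑ l, Gam S g k j l y * gr S g f l y)) := by
    intro i j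
    rw [hD.pd_sum j Finset.univ (f := fun k z => hess S g f i k z * gr S g f k z)
      (fun k _ => (hH i k).mul (hG k)) hy]
    refine Finset.sum_congr rfl fun k _ => ?_
    rw [hD.pd_mul j (hH i k) (hG k) hy, pd_gr hD hg1 hf2 hy j k]
  -- the integrand
  have h1 : ∀ i j, pd S j (fun z => ∑ k, hess S g f i k z * gr S g f k z) y -
      ∑ l, Gam S g l i j y * (∑ k, hess S g f l k y * gr S g f k y) =
      ∑ k, gr S g f k y * covH S g f j i k y + ∑ k, ∑ a, (g y)⁻¹ k a * (hess S g f i k y * hess S g f j a y) := by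
    intro i j
    have a1 : ∑ l, Gam S g l i j y * (∑ k, hess S g f l k y * gr S g f k y) =
        ∑ k, gr S g f k y * ∑ l, Gam S g l j i y * hess S g f l k y := by
      simp only [Finset.mul_sum]
      rw [Finset.sum_comm]
      refine Finset.sum_congr rfl fun k _ => Finset.sum_congr rfl fun l _ => ?_
      rw [Gam_symm hD hg l i j hy]
      ring
    have a2 : ∑ k, hess S g f i k y * (∑ l, Gam S g k j l y * gr S g f l y) =
        ∑ k, gr S g f k y * ∑ l, Gam S g l j k y * hess S g f i l y := by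
      simp only [Finset.mul_sum]
      rw [Finset.sum_comm]
      exact Finset.sum_congr rfl fun k _ => Finset.sum_congr rfl fun l _ => by ring
    have a3 : ∑ k, hess S g f i k y * (∑ a, (g y)⁻¹ k a * hess S g f j a y) =
        ∑ k, ∑ a, (g y)⁻¹ k a * (hess S g f i k y * hess S g f j a y) := by
      simp only [Finset.mul_sum]
      exact Finset.sum_congr rfl fun k _ => Finset.sum_congr rfl fun l _ => by ring
    have a4 : ∑ k, pd S j (hess S g f i k) y * gr S g f k y = ∑ k, gr S g f k y * pd S j (hess S g f i k) y :=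
      Finset.sum_congr rfl fun k _ => mul_comm _ _
    rw [hw i j, a1]
    simp only [covH, mul_sub, Finset.sum_sub_distrib, Finset.sum_add_distrib, a2, a3, a4]
    ring
  have h2 : divC S g (fun i z => ∑ k, hess S g f i k z * gr S g f k z) y =
      (∑ i, ∑ j, (g y)⁻¹ i j * ∑ k, gr S g f k y * covH S g f j i k y) +
      ∑ i, ∑ j, (g y)⁻¹ i j * ∑ k, ∑ a, (g y)⁻¹ k a * (hess S g f i k y * hess S g f j a y) := by
    simp only [divC, ← Finset.sum_add_distrib]
    refine Finset.sum_congr rfl fun i _ => Finset.sum_congr rfl fun j _ => ?_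
    rw [h1 i j]
    ring
  have h3 : ∑ i, ∑ j, (g y)⁻¹ i j * ∑ k, ∑ a, (g y)⁻¹ k a * (hess S g f i k y * hess S g f j a y) =
      hess2 S g f y := by
    simp only [hess2, Finset.mul_sum]
    refine Finset.sum_congr rfl fun i _ => ?_
    rw [Finset.sum_comm]
    refine Finset.sum_congr rfl fun k _ => Finset.sum_congr rfl fun j _ => Finset.sum_congr rfl fun a _ => ?_
    ring
  have h4 : ∀ k, ∑ i, ∑ j, (g y)⁻¹ i j * covH S g f j i k y = pd S k (lap S g f) y +
      ∑ p, Ric S g p k y * gr S g f p y := by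
    intro k
    have b1 : ∀ i j, covH S g f j i k y = covH S g f k j i y - ∑ l, FM S g j k y l i * pd S l f y := by
      intro i j
      have := ricci_id hD hg hf hy j k i
      rw [covH_symm hD hg1 hf2 hy j i k]
      linarith
    have b2 : ∀ l, ∑ i, ∑ j, (g y)⁻¹ i j * FM S g j k y l i = - ∑ p, (g y)⁻¹ l p * Ric S g p k y := by
      intro l
      simp only [FM_eq_Rm hg hy, Ric_eq_Rm hD hg hy, Finset.mul_sum]
      rw [← Finset.sum_neg_distrib]
      have c1 : ∀ i, ∑ j, ∑ p, (g y)⁻¹ i j * ((g y)⁻¹ l p * Rm S g p i j k y) =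
          ∑ p, ∑ j, (g y)⁻¹ i j * ((g y)⁻¹ l p * Rm S g p i j k y) := fun i => Finset.sum_comm
      simp only [c1]
      rw [Finset.sum_comm]
      refine Finset.sum_congr rfl fun p _ => ?_
      rw [Finset.sum_comm, ← Finset.sum_neg_distrib]
      refine Finset.sum_congr rfl fun j _ => ?_
      rw [← Finset.sum_neg_distrib]
      refine Finset.sum_congr rfl fun i _ => ?_
      rw [Rm_skew1 hD hg hy p i j k, hg.inv_symm hy i j]
      ring
    have b3 : ∑ i, ∑ j, (g y)⁻¹ i j * covH S g f k j i y = pd S k (lap S g f) y := by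
      rw [pd_lap hD hg hf hy k, Finset.sum_comm]
      exact Finset.sum_congr rfl fun i _ => Finset.sum_congr rfl fun j _ => by rw [hg.inv_symm hy j i]
    have b4 : ∑ i, ∑ j, (g y)⁻¹ i j * ∑ l, FM S g j k y l i * pd S l f y =
        - ∑ p, Ric S g p k y * gr S g f p y := by
      have c1 : ∑ i, ∑ j, (g y)⁻¹ i j * ∑ l, FM S g j k y l i * pd S l f y =
          ∑ l, (∑ i, ∑ j, (g y)⁻¹ i j * FM S g j k y l i) * pd S l f y := by
        simp only [Finset.mul_sum, Finset.sum_mul]
        have c2 : ∀ i, ∑ j, ∑ l, (g y)⁻¹ i j * (FM S g j k y l i * pd S l f y) =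
            ∑ l, ∑ j, (g y)⁻¹ i j * (FM S g j k y l i * pd S l f y) := fun i => Finset.sum_comm
        simp only [c2]
        rw [Finset.sum_comm]
        exact Finset.sum_congr rfl fun l _ => Finset.sum_congr rfl fun i _ => Finset.sum_congr rfl
          fun j _ => by ring
      rw [c1]
      simp only [b2, gr, neg_mul, Finset.sum_neg_distrib, Finset.sum_mul, Finset.mul_sum]
      rw [Finset.sum_comm]
      congr 1
      refine Finset.sum_congr rfl fun p _ => Finset.sum_congr rfl fun l _ => ?_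
      rw [hg.inv_symm hy l p]
      ring
    simp only [b1, mul_sub, Finset.sum_sub_distrib]
    rw [b3, b4]
    ring
  have h5 : ∑ i, ∑ j, (g y)⁻¹ i j * ∑ k, gr S g f k y * covH S g f j i k y =
      ∑ k, gr S g f k y * ∑ i, ∑ j, (g y)⁻¹ i j * covH S g f j i k y := by
    simp only [Finset.mul_sum]
    have c2 : ∀ i, ∑ j, ∑ k, (g y)⁻¹ i j * (gr S g f k y * covH S g f j i k y) =
        ∑ k, ∑ j, (g y)⁻¹ i j * (gr S g f k y * covH S g f j i k y) := fun i => Finset.sum_comm
    simp only [c2]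
    rw [Finset.sum_comm]
    exact Finset.sum_congr rfl fun l _ => Finset.sum_congr rfl fun i _ => Finset.sum_congr rfl
      fun j _ => by ring
  have h6 : ∑ k, gr S g f k y * (∑ p, Ric S g p k y * gr S g f p y) =
      ∑ i, ∑ j, Ric S g i j y * gr S g f i y * gr S g f j y := by
    simp only [Finset.mul_sum]
    rw [Finset.sum_comm]
    exact Finset.sum_congr rfl fun i _ => Finset.sum_congr rfl fun j _ => by ring
  rw [h2, h3, h5]
  simp only [h4, mul_add, Finset.sum_add_distrib, h6]
  ring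

private theorem cs_aux (B H : Matrix (Fin m) (Fin m) ℝ) :
    (∑ i, ∑ j, (B.transpose * B) i j * H i j) ^ 2 ≤
      (m : ℝ) * ∑ i, ∑ j, ∑ k, ∑ l, (B.transpose * B) i k * (B.transpose * B) j l * H i j * H k l := by
  set P := B.transpose * B with hP
  set M := B * H * B.transpose with hM
  have hPs : ∀ i j, P i j = P j i := by
    intro i j
    have : P.transpose = P := by rw [hP, Matrix.transpose_mul, Matrix.transpose_transpose]
    exact congrFun (congrFun this j) i
  have h1 : ∑ a, M a a = ∑ i, ∑ j, P i j * H i j := by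
    have e1 : ∑ a, M a a = (P * H).trace := by
      show M.trace = _
      rw [hM, Matrix.trace_mul_cycle, hP]
    rw [e1, Matrix.trace]
    simp only [Matrix.diag_apply, Matrix.mul_apply]
    rw [Finset.sum_comm]
    exact Finset.sum_congr rfl fun i _ => Finset.sum_congr rfl fun j _ => by rw [hPs i j]
  have h2 : ∑ a, ∑ b, M a b ^ 2 = ∑ i, ∑ j, ∑ k, ∑ l, P i k * P j l * H i j * H k l := by
    have e1 : ∑ a, ∑ b, M a b ^ 2 = (M * M.transpose).trace := by
      simp only [Matrix.trace, Matrix.diag_apply, Matrix.mul_apply, Matrix.transpose_apply, sq]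
    have e2 : (M * M.transpose).trace = (P * H * P * H.transpose).trace := by
      have : M * M.transpose = B * (H * P * H.transpose * B.transpose) := by
        rw [hM, Matrix.transpose_mul, Matrix.transpose_mul, Matrix.transpose_transpose, hP]
        simp only [Matrix.mul_assoc]
      rw [this, Matrix.trace_mul_comm]
      have : H * P * H.transpose * B.transpose * B = (H * P * H.transpose) * P := by
        rw [hP]; simp only [Matrix.mul_assoc]
      rw [this, Matrix.trace_mul_comm]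
      simp only [Matrix.mul_assoc]
    rw [e1, e2]
    simp only [Matrix.trace, Matrix.diag_apply, Matrix.mul_apply, Matrix.transpose_apply, Finset.sum_mul]
    -- ∑ k, ∑ l, ∑ j, ∑ i, P k i * H i j * P j l * H k l
    have e3 : ∀ k : Fin m, ∑ l, ∑ j, ∑ i, P k i * H i j * P j l * H k l =
        ∑ i, ∑ j, ∑ l, P i k * P j l * H i j * H k l := by
      intro k
      rw [Finset.sum_comm]
      have : ∀ j, ∑ l, ∑ i, P k i * H i j * P j l * H k l = ∑ i, ∑ l, P k i * H i j * P j l * H k l :=
        fun j => Finset.sum_comm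
      simp only [this]
      rw [Finset.sum_comm]
      refine Finset.sum_congr rfl fun i _ => Finset.sum_congr rfl fun j _ => Finset.sum_congr rfl fun l _ => ?_
      rw [hPs k i]
      ring
    simp only [e3]
    rw [Finset.sum_comm]
    refine Finset.sum_congr rfl fun i _ => ?_
    rw [Finset.sum_comm]
  rw [← h1, ← h2]
  have h3 : (∑ a, M a a) ^ 2 ≤ (m : ℝ) * ∑ a, M a a ^ 2 := by
    have := sq_sum_le_card_mul_sum_sq (s := (Finset.univ : Finset (Fin m))) (f := fun a => M a a)
    simpa using this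
  refine h3.trans (mul_le_mul_of_nonneg_left ?_ (Nat.cast_nonneg m))
  refine Finset.sum_le_sum fun a _ => ?_
  exact Finset.single_le_sum (f := fun b => M a b ^ 2) (fun b _ => sq_nonneg _) (Finset.mem_univ a)

open scoped MatrixOrder in
private theorem exists_fac {P : Matrix (Fin m) (Fin m) ℝ} (hP : P.PosDef) :
    ∃ B : Matrix (Fin m) (Fin m) ℝ, B.transpose * B = P := by
  have h0 : 0 ≤ P := hP.posSemidef.nonneg
  have hp : (CFC.sqrt P).PosSemidef := Matrix.nonneg_iff_posSemidef.1 (CFC.sqrt_nonneg P)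
  have hs : CFC.sqrt P * CFC.sqrt P = P := CFC.sqrt_mul_sqrt_self P h0
  have ht : (CFC.sqrt P).transpose = CFC.sqrt P := by
    have := hp.1
    rw [Matrix.IsHermitian, Matrix.conjTranspose_eq_transpose_of_trivial] at this
    exact this
  exact ⟨CFC.sqrt P, by rw [ht, hs]⟩

/-- Cauchy-Schwarz: `(Δf)² ≤ m |∇²f|²`. -/
theorem lap_sq_le {k : WithTop ℕ∞} (hg : MetOn U g k) (hy : y ∈ U) {f : V m → ℝ}
    (hs : ∀ i j, hess S g f i j y = hess S g f j i y) :
    lap S g f y ^ 2 ≤ (m : ℝ) * hess2 S g f y := by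
  obtain ⟨B, hB⟩ := exists_fac (hg.pos y hy).inv
  have := cs_aux B (Matrix.of fun i j => hess S g f i j y)
  rw [hB] at this
  exact this

end

end Pool.Agent.CY.C
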