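import Pool.Agent.CY.S5.C11Boch

/-!
CY-S5-C12 (helper90).  The divergence of `G(∇ρ)` for a compactified Einstein metric.
PLAN.  Write `L = Δρ`, `F = |dρ|²`, `R = scal`, `H = ∇²ρ`, `v = dρ`.  By `e1`, `e2` and `gr_lower`, on `U`
`Σ_j Ein_{ij} ρ^j = -(n-1) ρ⁻¹ Σ_j H_{ij} ρ^j + Q v_i`, `Q = (n-1)/(n+1) L/ρ - (n-1)/(2(n+1)) R`, and
`R = (n(n+1)(F-1) - 2nρL)/ρ²` is of class `C^1`.  `divV (GW) = divC` of this (`divV_sharp`, `divC_congr`), then
`divC_add`, `divC_mul`, `divC_grad`, `bochner`.  With `a = <dF,dρ>`, `b = <dL,dρ>` (`pd_gip`: `Σ ρ^i Σ_j H_ij ρ^j = a/2`):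
`div = -(n-1)/ρ (|H|² + b + Ric(∇ρ,∇ρ)) + (n-1)/(2ρ²) a + <dQ,dρ> + Q L`, `Ric(∇ρ,∇ρ) = ρ⁻¹(-(n-1) a/2 + μ F)`,
`μ = (ρR+(n-1)L)/(n+1)`, `<dQ,dρ> = (n-1)/(n+1) (b/ρ - L F/ρ²) - (n-1)/(2(n+1)) <dR,dρ>`, and differentiating `e2`:
`ρ² <dR,dρ> = n(n+1) a - 2nLF - 2nρ b - 2ρRF`.  Everything cancels (`field_simp; ring`) except
`-(n-1)/ρ |H|² + Q L`.
-/

set_option autoImplicit false

open scoped Manifold ContDiff Topology
open MeasureTheory Set Filter

namespace Pool.Agent.CY.C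

noncomputable section

variable {n : ℕ} {S U : Set (V (n + 1))} {g : MF (n + 1)} {ρ : V (n + 1) → ℝ} {y : V (n + 1)}

/-- The Einstein equation for `ρ⁻² g`, in terms of `g` and `ρ`. -/
structure EinOn (S U : Set (V (n + 1))) (g : MF (n + 1)) (ρ : V (n + 1) → ℝ) : Prop where
  pos : ∀ y ∈ U, 0 < ρ y
  e1 : ∀ y ∈ U, ∀ i j, ρ y * Ric S g i j y = -((n : ℝ) - 1) * hess S g ρ i j y +
    ((ρ y * scal S g y + ((n : ℝ) - 1) * lap S g ρ y) / ((n : ℝ) + 1)) * g y i j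
  e2 : ∀ y ∈ U, ρ y ^ 2 * scal S g y =
    (n : ℝ) * ((n : ℝ) + 1) * (gip S g ρ ρ y - 1) - 2 * (n : ℝ) * ρ y * lap S g ρ y

private theorem gr_comm' {k : WithTop ℕ∞} (hg : MetOn U g k) (hy : y ∈ U) (f h : V (n + 1) → ℝ) :
    ∑ i, gr S g f i y * pd S i h y = ∑ i, gr S g h i y * pd S i f y := by
  simp only [gr, Finset.sum_mul]
  rw [Finset.sum_comm]
  refine Finset.sum_congr rfl fun i _ => Finset.sum_congr rfl fun l _ => ?_
  rw [hg.inv_symm hy l i]
  ring

private theorem sum3 {ι : Type} [Fintype ι] (G A B C : ι → ℝ) (c1 c2 c3 : ℝ) :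
    ∑ i, G i * (c1 * A i + c2 * B i + c3 * C i) =
      c1 * ∑ i, G i * A i + c2 * ∑ i, G i * B i + c3 * ∑ i, G i * C i := by
  simp only [Finset.mul_sum, ← Finset.sum_add_distrib]
  exact Finset.sum_congr rfl fun i _ => by ring

private theorem alg_final {N r L R h2 a b F D : ℝ} (hr : r ≠ 0) (hN : N + 1 ≠ 0)
    (hD : D = N * (N + 1) / r ^ 2 * (2 * a) + -(2 * N * L + 2 * r * R) / r ^ 2 * F +
      -(2 * N) / r * b) :
    (-(N - 1) * r⁻¹ * (h2 + b + (-(N - 1) / r * a + (r * R + (N - 1) * L) / (N + 1) / r * F)) +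
      (N - 1) / r ^ 2 * a) +
    (((N - 1) / (N + 1) * (L * r⁻¹) - (N - 1) / (2 * (N + 1)) * R) * L +
      (-(N - 1) / (2 * (N + 1)) * D + -((N - 1) / (N + 1) * L / r ^ 2) * F +
        (N - 1) / (N + 1) / r * b)) =
      -((N - 1) / r) * (h2 - L ^ 2 / (N + 1)) - (N - 1) / (2 * (N + 1)) * (R * L) := by
  rw [hD]
  field_simp
  ring

theorem div_GW (hD : Dom S U) (hg : MetOn U g 2) (hρ : ContDiffOn ℝ 3 ρ U) (hE : EinOn S U g ρ)
    (hy : y ∈ U) :
    divV S g (GW S g ρ) y =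
      -(((n : ℝ) - 1) / ρ y) * (hess2 S g ρ y - lap S g ρ y ^ 2 / ((n : ℝ) + 1)) -
        ((n : ℝ) - 1) / (2 * ((n : ℝ) + 1)) * (scal S g y * lap S g ρ y) := by
  have hg1 : MetOn U g 1 := hg.of_le (by norm_num)
  have hρ2 : ContDiffOn ℝ 2 ρ U := hρ.of_le (by norm_num)
  have h21 : (1 : WithTop ℕ∞) + 1 ≤ 2 := by norm_num [one_add_one_eq_two]
  have h32 : (2 : WithTop ℕ∞) + 1 ≤ 3 := by norm_num
  have hr0 : ∀ z ∈ U, ρ z ≠ 0 := fun z hz => (hE.pos z hz).ne'
  have hN : (n : ℝ) + 1 ≠ 0 := by positivity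
  -- differentiability
  have dρ : DifferentiableOn ℝ ρ U := hρ.differentiableOn (by norm_num)
  have dv : ∀ i, DifferentiableOn ℝ (pd S i ρ) U := fun i => hD.diffOn_pd i hρ2
  have dG : ∀ a i j, DifferentiableOn ℝ (Gam S g a i j) U := fun a i j =>
    (contDiffOn_Gam hD h21 hg a i j).differentiableOn (by norm_num)
  have di : ∀ i j, DifferentiableOn ℝ (fun z => (g z)⁻¹ i j) U := hg1.diffOn_inv le_rfl
  have dH : ∀ i j, DifferentiableOn ℝ (fun z => hess S g ρ i j z) U := by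
    intro i j
    have h1 : DifferentiableOn ℝ (pd S i (pd S j ρ)) U :=
      hD.diffOn_pd i (hD.contDiffOn_pd j h32 hρ)
    have h2 : DifferentiableOn ℝ (fun z => ∑ k, Gam S g k i j z * pd S k ρ z) U :=
      DifferentiableOn.fun_sum fun k _ => (dG k i j).mul (dv k)
    exact h1.sub h2
  have dgr : ∀ j, DifferentiableOn ℝ (fun z => gr S g ρ j z) U := fun j =>
    DifferentiableOn.fun_sum fun l _ => (di j l).mul (dv l)
  have dL : DifferentiableOn ℝ (fun z => lap S g ρ z) U :=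
    DifferentiableOn.fun_sum fun i _ => DifferentiableOn.fun_sum fun j _ => (di i j).mul (dH i j)
  have dF : DifferentiableOn ℝ (fun z => gip S g ρ ρ z) U :=
    DifferentiableOn.fun_sum fun i _ => DifferentiableOn.fun_sum fun j _ =>
      (di i j).mul ((dv i).mul (dv j))
  have dinv : DifferentiableOn ℝ (fun z => (ρ z)⁻¹) U := dρ.inv hr0
  have dρρ : DifferentiableOn ℝ (fun z => ρ z * ρ z) U := dρ.mul dρ
  have dρL : DifferentiableOn ℝ (fun z => ρ z * lap S g ρ z) U := dρ.mul dL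
  have dLi : DifferentiableOn ℝ (fun z => lap S g ρ z * (ρ z)⁻¹) U := dL.mul dinv
  have dF1 : DifferentiableOn ℝ (fun z => gip S g ρ ρ z + -1) U := dF.add_const _
  have dX1 : DifferentiableOn ℝ (fun z => ((n : ℝ) * ((n : ℝ) + 1)) * (gip S g ρ ρ z + -1)) U :=
    dF1.const_mul _
  have dX2 : DifferentiableOn ℝ (fun z => -(2 * (n : ℝ)) * (ρ z * lap S g ρ z)) U :=
    dρL.const_mul _
  have dQ1 : DifferentiableOn ℝ (fun z => ((n : ℝ) - 1) / ((n : ℝ) + 1) *
      (lap S g ρ z * (ρ z)⁻¹)) U := dLi.const_mul _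
  -- the scalar curvature
  set X : V (n + 1) → ℝ := fun z => ((n : ℝ) * ((n : ℝ) + 1)) * (gip S g ρ ρ z + -1) +
    -(2 * (n : ℝ)) * (ρ z * lap S g ρ z) with hX
  have dX : DifferentiableOn ℝ X U :=
    ((dF.add_const _).const_mul _).add ((dρ.mul dL).const_mul _)
  set R' : V (n + 1) → ℝ := fun z => X z * ((ρ z)⁻¹ * (ρ z)⁻¹) with hR'
  have dR' : DifferentiableOn ℝ R' U := dX.mul (dinv.mul dinv)
  have hRR : ∀ z ∈ U, scal S g z = R' z := by
    intro z hz
    have h1 := hE.e2 z hz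
    have h2 := hr0 z hz
    simp only [hR', hX]
    field_simp
    linarith
  -- the covector field
  set hw : Fin (n + 1) → V (n + 1) → ℝ := fun i z => ∑ k, hess S g ρ i k z * gr S g ρ k z with hhw
  have dhw : ∀ i, DifferentiableOn ℝ (hw i) U := fun i =>
    DifferentiableOn.fun_sum fun k _ => (dH i k).mul (dgr k)
  set al : V (n + 1) → ℝ := fun z => -((n : ℝ) - 1) * (ρ z)⁻¹ with hal
  have dal : DifferentiableOn ℝ al U := dinv.const_mul _
  set Q : V (n + 1) → ℝ := fun z => ((n : ℝ) - 1) / ((n : ℝ) + 1) * (lap S g ρ z * (ρ z)⁻¹) +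
    -(((n : ℝ) - 1) / (2 * ((n : ℝ) + 1))) * R' z with hQ
  have dQ : DifferentiableOn ℝ Q U := ((dL.mul dinv).const_mul _).add (dR'.const_mul _)
  set w : Fin (n + 1) → V (n + 1) → ℝ := fun i z => ∑ j, Ein S g i j z * gr S g ρ j z with hwd
  have hweq : ∀ i, ∀ z ∈ U, w i z = al z * hw i z + Q z * pd S i ρ z := by
    intro i z hz
    have hz0 := hr0 z hz
    have hlow := gr_lower (S := S) hg hz ρ i
    have hEin : ∀ j, Ein S g i j z * gr S g ρ j z = al z * (hess S g ρ i j z * gr S g ρ j z) +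
        Q z * (g z i j * gr S g ρ j z) := by
      intro j
      have h1 := hE.e1 z hz i j
      have h2 : Ric S g i j z = (ρ z)⁻¹ * (-((n : ℝ) - 1) * hess S g ρ i j z +
          ((ρ z * scal S g z + ((n : ℝ) - 1) * lap S g ρ z) / ((n : ℝ) + 1)) * g z i j) := by
        rw [← h1, inv_mul_cancel_left₀ hz0]
      simp only [Ein, hal, hQ]
      rw [h2, hRR z hz]
      field_simp
      ring
    simp only [hwd, hhw]
    rw [Finset.sum_congr rfl fun j _ => hEin j, Finset.sum_add_distrib, ← Finset.mul_sum,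
      ← Finset.mul_sum, hlow]
  have dwr : ∀ i, DifferentiableOn ℝ (fun z => al z * hw i z + Q z * pd S i ρ z) U := fun i =>
    (dal.mul (dhw i)).add (dQ.mul (dv i))
  have dw : ∀ i, DifferentiableOn ℝ (w i) U := fun i => (dwr i).congr (hweq i)
  have e1 : divV S g (GW S g ρ) y = divC S g w y := divV_sharp hD hg1 dw hy
  have e2 : divC S g w y = divC S g (fun i z => al z * hw i z + Q z * pd S i ρ z) y :=
    divC_congr hD hweq hy
  have e3 := divC_add (g := g) hD (w := fun i z => al z * hw i z) (w' := fun i z => Q z * pd S i ρ z)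
    (fun i => dal.mul (dhw i)) (fun i => dQ.mul (dv i)) hy
  have e4 := divC_mul hD hg dal dhw hy
  have e5 := divC_mul hD hg dQ (w := fun i => pd S i ρ) dv hy
  have e6 := bochner hD hg hρ hy
  have e7 := divC_grad hD hg1 hρ2 hy
  rw [e1, e2, e3, e4, e5, e7]
  have e6' : divC S g hw y = hess2 S g ρ y + ∑ k, gr S g ρ k y * pd S k (lap S g ρ) y +
        ∑ i, ∑ j, Ric S g i j y * gr S g ρ i y * gr S g ρ j y := e6
  rw [e6']
  -- values at `y`
  have hy0 := hr0 y hy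
  set r := ρ y with hr
  set L := lap S g ρ y with hL
  set F := gip S g ρ ρ y with hF
  set b := ∑ k, gr S g ρ k y * pd S k (lap S g ρ) y with hb
  set a := ∑ k, gr S g ρ k y * hw k y with ha
  have hFv : ∑ k, gr S g ρ k y * pd S k ρ y = F := (gip_eq_gr hg hy ρ ρ).symm
  have hpF : ∀ k, pd S k (gip S g ρ ρ) y = 2 * hw k y := fun k => pd_gip hD hg1 hρ2 hy k
  -- the Ricci term
  have hRic : ∑ i, ∑ j, Ric S g i j y * gr S g ρ i y * gr S g ρ j y =
      -((n : ℝ) - 1) / r * a + (r * R' y + ((n : ℝ) - 1) * L) / ((n : ℝ) + 1) / r * F := by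
    have h1 : ∀ i, ∑ j, Ric S g i j y * gr S g ρ i y * gr S g ρ j y =
        gr S g ρ i y * ((-((n : ℝ) - 1) / r) * hw i y +
          ((r * R' y + ((n : ℝ) - 1) * L) / ((n : ℝ) + 1) / r) * pd S i ρ y + 0 * 0) := by
      intro i
      rw [← gr_lower (S := S) hg hy ρ i]
      simp only [hhw]
      rw [Finset.mul_sum, Finset.mul_sum, mul_zero, add_zero, ← Finset.sum_add_distrib,
        Finset.mul_sum]
      refine Finset.sum_congr rfl fun j _ => ?_
      have h2 := hE.e1 y hy i j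
      have h3 : Ric S g i j y = r⁻¹ * (-((n : ℝ) - 1) * hess S g ρ i j y +
          ((r * scal S g y + ((n : ℝ) - 1) * L) / ((n : ℝ) + 1)) * g y i j) := by
        rw [hr, hL, ← h2, inv_mul_cancel_left₀ (hr0 y hy)]
      rw [h3, hRR y hy]
      field_simp
    rw [Finset.sum_congr rfl fun i _ => h1 i]
    have h4 := sum3 (fun i => gr S g ρ i y) (fun i => hw i y) (fun i => pd S i ρ y)
      (fun _ => (0 : ℝ)) (-((n : ℝ) - 1) / r)
      ((r * R' y + ((n : ℝ) - 1) * L) / ((n : ℝ) + 1) / r) 0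
    have h5 : ∑ i, gr S g ρ i y * hw i y = a := rfl
    rw [h4, hFv, h5]
    ring
  -- derivative of the scalar curvature
  have hpR : ∀ i, pd S i R' y = (n : ℝ) * ((n : ℝ) + 1) / r ^ 2 * (2 * hw i y) +
      -(2 * (n : ℝ) * L + 2 * r * R' y) / r ^ 2 * pd S i ρ y +
        -(2 * (n : ℝ)) / r * pd S i (lap S g ρ) y := by
    intro i
    have h1 : pd S i (fun z => R' z * (ρ z * ρ z)) y = pd S i X y := by
      refine hD.pd_congr i (fun z hz => ?_) hy
      have hz0 := hr0 z hz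
      simp only [hR']
      field_simp
    have h2 : pd S i (fun z => R' z * (ρ z * ρ z)) y =
        pd S i R' y * (ρ y * ρ y) + R' y * (pd S i ρ y * ρ y + ρ y * pd S i ρ y) := by
      rw [hD.pd_mul i dR' dρρ hy, hD.pd_mul i dρ dρ hy]
    have h3 : pd S i X y = ((n : ℝ) * ((n : ℝ) + 1)) * (2 * hw i y) +
        -(2 * (n : ℝ)) * (pd S i ρ y * lap S g ρ y + ρ y * pd S i (lap S g ρ) y) := by
      rw [hX, hD.pd_add i dX1 dX2 hy,
        hD.pd_const_mul i _ dF1 hy, hD.pd_const_mul i _ dρL hy,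
        hD.pd_add i dF (differentiableOn_const _) hy, hD.pd_mul i dρ dL hy, pd_const, add_zero]
      have h4 : pd S i (fun z => gip S g ρ ρ z) y = 2 * hw i y := hpF i
      rw [h4]
    rw [h2, h3] at h1
    rw [← hr, ← hL] at h1
    field_simp
    linear_combination h1
  have hD1 : ∑ i, gr S g ρ i y * pd S i R' y = (n : ℝ) * ((n : ℝ) + 1) / r ^ 2 * (2 * a) +
      -(2 * (n : ℝ) * L + 2 * r * R' y) / r ^ 2 * F + -(2 * (n : ℝ)) / r * b := by
    rw [Finset.sum_congr rfl fun i _ => by rw [hpR i]]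
    rw [sum3 (fun i => gr S g ρ i y) (fun i => 2 * hw i y) (fun i => pd S i ρ y)
      (fun i => pd S i (lap S g ρ) y), hFv]
    have h8 : ∑ i, gr S g ρ i y * (2 * hw i y) = 2 * a := by
      rw [ha, Finset.mul_sum]
      exact Finset.sum_congr rfl fun i _ => by ring
    rw [h8]
  -- derivative of `Q`
  have hpQ : ∀ i, pd S i Q y = -((n : ℝ) - 1) / (2 * ((n : ℝ) + 1)) * pd S i R' y +
      -(((n : ℝ) - 1) / ((n : ℝ) + 1) * L / r ^ 2) * pd S i ρ y +
        ((n : ℝ) - 1) / ((n : ℝ) + 1) / r * pd S i (lap S g ρ) y := by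
    intro i
    have dQ2 : DifferentiableOn ℝ (fun z => -(((n : ℝ) - 1) / (2 * ((n : ℝ) + 1))) * R' z) U :=
      dR'.const_mul _
    rw [hQ, hD.pd_add i dQ1 dQ2 hy,
      hD.pd_const_mul i _ dLi hy, hD.pd_const_mul i _ dR' hy, hD.pd_mul i dL dinv hy,
      hD.pd_inv i dρ hr0 hy]
    rw [← hr, ← hL]
    field_simp
    ring
  have hQ1 : ∑ i, gr S g Q i y * pd S i ρ y = -((n : ℝ) - 1) / (2 * ((n : ℝ) + 1)) *
      (∑ i, gr S g ρ i y * pd S i R' y) + -(((n : ℝ) - 1) / ((n : ℝ) + 1) * L / r ^ 2) * F +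
        ((n : ℝ) - 1) / ((n : ℝ) + 1) / r * b := by
    rw [gr_comm' hg hy, Finset.sum_congr rfl fun i _ => by rw [hpQ i]]
    rw [sum3 (fun i => gr S g ρ i y) (fun i => pd S i R' y) (fun i => pd S i ρ y)
      (fun i => pd S i (lap S g ρ) y), hFv]
  -- derivative of `al`
  have hal1 : ∑ i, gr S g al i y * hw i y = ((n : ℝ) - 1) / r ^ 2 * a := by
    have h1 : ∀ i, gr S g al i y = ((n : ℝ) - 1) / r ^ 2 * gr S g ρ i y := by
      intro i
      simp only [gr]
      rw [Finset.mul_sum]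
      refine Finset.sum_congr rfl fun l _ => ?_
      rw [hal, hD.pd_const_mul l _ dinv hy, hD.pd_inv l dρ hr0 hy, ← hr]
      field_simp
    rw [ha, Finset.mul_sum]
    exact Finset.sum_congr rfl fun i _ => by rw [h1 i]; ring
  rw [hRic, hQ1, hal1, hRR y hy]
  have hfin := alg_final (N := (n : ℝ)) (r := r) (L := L) (R := R' y) (h2 := hess2 S g ρ y)
    (a := a) (b := b) (F := F) hy0 hN hD1
  rw [← hfin]
  simp only [hal, hQ]
  rw [← hr, ← hL]
  ring

theorem div_GW_le (hn : 1 ≤ n) (hD : Dom S U) (hg : MetOn U g 2) (hρ : ContDiffOn ℝ 3 ρ U)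
    (hE : EinOn S U g ρ) (hy : y ∈ U) :
    divV S g (GW S g ρ) y ≤ -(((n : ℝ) - 1) / (2 * ((n : ℝ) + 1)) * (scal S g y * lap S g ρ y)) := by
  rw [div_GW hD hg hρ hE hy]
  have h1 := lap_sq_le hg hy (f := ρ) (fun i j => hess_symm hD (hg.of_le (by norm_num)) (hρ.of_le (by norm_num)) hy i j)
  have h2 : 0 ≤ ((n : ℝ) - 1) / ρ y := by
    have h3 : (1 : ℝ) ≤ n := by exact_mod_cast hn
    exact div_nonneg (by linarith) (hE.pos y hy).le
  have h4 : 0 ≤ hess2 S g ρ y - lap S g ρ y ^ 2 / ((n : ℝ) + 1) := by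
    have h5 : (0 : ℝ) < (n : ℝ) + 1 := by positivity
    push_cast at h1
    rw [sub_nonneg, div_le_iff₀ h5]
    linarith
  nlinarith [mul_nonneg h2 h4]

end

end Pool.Agent.CY.C
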