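import Pool.Agent.CY.S5.Met
import Pool.Agent.CY.S3.Loc

/-!
Project CY, part S5: restriction to the boundary and matrix valued functions (on top of `Dom`).
-/

set_option autoImplicit false

open scoped Manifold ContDiff Topology
open MeasureTheory Set Filter

namespace Pool.Agent.CY

noncomputable section

variable {m : ℕ} {S U : Set (V m)}

/-- `Function.differentiableOn` from `ContDiffOn`. -/
theorem ContDiffOn.dOn {k : WithTop ℕ∞} {f : V m → ℝ} (hf : ContDiffOn ℝ k f U) (hk : 1 ≤ k) :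
    DifferentiableOn ℝ f U := hf.differentiableOn (lt_of_lt_of_le zero_lt_one hk).ne'

/-! ### The boundary -/

variable {n : ℕ}

theorem bd_mem (z : V n) : bd z ∈ Hs n := by
  have : (0 : ℝ) ≤ bd z 0 := (bd_zero z).ge
  exact this

/-- The part of the boundary contained in `U`. -/
def bdry (U : Set (V (n + 1))) : Set (V n) := {z | bd z ∈ U}

theorem bdry_open {U : Set (V (n + 1))} (h : Dom (Hs n) U) : IsOpen (bdry U) := by
  rw [isOpen_iff_mem_nhds]
  intro z hz
  have h1 := h.nhds (bd z) hz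
  have h2 : Tendsto (bd : V n → V (n + 1)) (𝓝 z) (𝓝[Hs n] (bd z)) :=
    tendsto_nhdsWithin_of_tendsto_nhds_of_eventually_within _ (continuous_bd.tendsto z)
      (Eventually.of_forall fun w => bd_mem w)
  exact h2 h1

theorem dom_bdry {U : Set (V (n + 1))} (h : Dom (Hs n) U) : Dom univ (bdry U) :=
  dom_of_open (bdry_open h)

theorem contDiffOn_bd {k : WithTop ℕ∞} {U : Set (V (n + 1))} {f : V (n + 1) → ℝ}
    (hf : ContDiffOn ℝ k f U) : ContDiffOn ℝ k (fun z => f (bd z)) (bdry U) := by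
  have h1 : ContDiffOn ℝ k (bd : V n → V (n + 1)) (bdry U) := (bdL n).contDiff.contDiffOn
  exact hf.comp h1 (fun z hz => hz)

/-- Tangential derivatives of the restriction to the boundary. -/
theorem pd_bd {f : V (n + 1) → ℝ} {z : V n} (hf : DifferentiableWithinAt ℝ f (Hs n) (bd z)) (a : Fin n) :
    pd univ a (fun w => f (bd w)) z = pd (Hs n) a.succ f (bd z) := by
  have h1 : HasFDerivWithinAt (fun w => f (bd w))
      ((fderivWithin ℝ f (Hs n) (bd z)).comp (bdL n)) univ z := by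
    have h2 : HasFDerivWithinAt (bd : V n → V (n + 1)) (bdL n) univ z :=
      (bdL n).hasFDerivAt.hasFDerivWithinAt
    exact hf.hasFDerivWithinAt.comp z h2 (fun w _ => bd_mem w)
  unfold pd
  rw [h1.fderivWithin uniqueDiffWithinAt_univ]
  simp only [ContinuousLinearMap.comp_apply, bdL_apply]
  congr 1
  ext b
  refine Fin.cases ?_ (fun b => ?_) b
  · rw [bd_zero]
    simp [PiLp.single_apply]
  · rw [bd_succ]
    simp [PiLp.single_apply]

/-! ### Matrix valued functions -/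

/-- The entries of `M` are of class `C^k` on `U`. -/
def CM {ι ι' : Type} (k : WithTop ℕ∞) (U : Set (V m)) (M : V m → Matrix ι ι' ℝ) : Prop :=
  ∀ a b, ContDiffOn ℝ k (fun z => M z a b) U

section matrix

variable {ι ι' ι'' : Type} {M M' : V m → Matrix ι ι' ℝ} {N : V m → Matrix ι' ι'' ℝ}

theorem CM.of_le {k l : WithTop ℕ∞} (hM : CM k U M) (hl : l ≤ k) : CM l U M :=
  fun a b => (hM a b).of_le hl

theorem CM.dOn {k : WithTop ℕ∞} (hM : CM k U M) (hk : 1 ≤ k) (a : ι) (b : ι') :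
    DifferentiableOn ℝ (fun z => M z a b) U := ContDiffOn.dOn (hM a b) hk

theorem CM.mul [Fintype ι'] {k : WithTop ℕ∞} (hM : CM k U M) (hN : CM k U N) :
    CM k U (fun z => M z * N z) := by
  intro a b
  simp only [Matrix.mul_apply]
  exact ContDiffOn.sum fun c _ => (hM a c).mul (hN c b)

theorem CM.add {k : WithTop ℕ∞} (hM : CM k U M) (hN : CM k U M') : CM k U (fun z => M z + M' z) :=
  fun a b => (hM a b).add (hN a b)

theorem CM.sub {k : WithTop ℕ∞} (hM : CM k U M) (hN : CM k U M') : CM k U (fun z => M z - M' z) :=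
  fun a b => (hM a b).sub (hN a b)

theorem CM.transpose {k : WithTop ℕ∞} (hM : CM k U M) : CM k U (fun z => (M z).transpose) :=
  fun a b => hM b a

theorem CM.smul {k : WithTop ℕ∞} {f : V m → ℝ} (hf : ContDiffOn ℝ k f U) (hM : CM k U M) :
    CM k U (fun z => f z • M z) := fun a b => hf.mul (hM a b)

theorem CM.sum {κ : Type} {k : WithTop ℕ∞} {F : κ → V m → Matrix ι ι' ℝ} (s : Finset κ)
    (hM : ∀ c ∈ s, CM k U (F c)) : CM k U (fun z => ∑ c ∈ s, F c z) := by
  intro a b
  simp only [Matrix.sum_apply]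
  exact ContDiffOn.sum fun c hc => hM c hc a b

theorem CM.pdM {k l : WithTop ℕ∞} (h : Dom S U) (hM : CM l U M) (hk : k + 1 ≤ l) (i : Fin m) :
    CM k U (pdM S i M) :=
  fun a b => h.contDiffOn_pd i hk (hM a b)

theorem Dom.pdM_add (h : Dom S U) {y : V m} (hy : y ∈ U) (hM : CM 1 U M) (hN : CM 1 U M') (i : Fin m) :
    pdM S i (fun z => M z + M' z) y = pdM S i M y + pdM S i M' y := by
  ext a b
  exact h.pd_add i (hM.dOn le_rfl a b) (hN.dOn le_rfl a b) hy

theorem Dom.pdM_sub (h : Dom S U) {y : V m} (hy : y ∈ U) (hM : CM 1 U M) (hN : CM 1 U M') (i : Fin m) :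
    pdM S i (fun z => M z - M' z) y = pdM S i M y - pdM S i M' y := by
  ext a b
  exact h.pd_sub i (hM.dOn le_rfl a b) (hN.dOn le_rfl a b) hy

theorem pdM_transpose (y : V m) (i : Fin m) :
    pdM S i (fun z => (M z).transpose) y = (pdM S i M y).transpose := rfl

theorem Dom.pdM_smul (h : Dom S U) {y : V m} (hy : y ∈ U) {f : V m → ℝ} (hf : ContDiffOn ℝ 1 f U)
    (hM : CM 1 U M) (i : Fin m) :
    pdM S i (fun z => f z • M z) y = pd S i f y • M y + f y • pdM S i M y := by
  ext a b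
  exact h.pd_mul i (ContDiffOn.dOn hf le_rfl) (hM.dOn le_rfl a b) hy

theorem Dom.pdM_sum (h : Dom S U) {κ : Type} (s : Finset κ) {F : κ → V m → Matrix ι ι' ℝ}
    (hM : ∀ c ∈ s, CM 1 U (F c)) {y : V m} (hy : y ∈ U) (i : Fin m) :
    pdM S i (fun z => ∑ c ∈ s, F c z) y = ∑ c ∈ s, pdM S i (F c) y := by
  ext a b
  simp only [pdM, Matrix.of_apply, Matrix.sum_apply]
  exact h.pd_sum i s (f := fun c z => F c z a b) (fun c hc => (hM c hc).dOn le_rfl a b) hy

theorem Dom.pdM_comm (h : Dom S U) {y : V m} (hy : y ∈ U) (hM : CM 2 U M) (i j : Fin m) :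
    pdM S i (pdM S j M) y = pdM S j (pdM S i M) y := by
  ext a b
  exact h.pd_comm i j (hM a b) hy

end matrix

theorem CM.inv {k : WithTop ℕ∞} {ι : Type} [Fintype ι] [DecidableEq ι] {M : V m → Matrix ι ι ℝ}
    (hM : CM k U M) (hd : ∀ y ∈ U, (M y).det ≠ 0) : CM k U (fun z => (M z)⁻¹) := by
  intro a b
  have h1 : ContDiffOn ℝ k (fun z => (M z).adjugate a b) U := by
    simp only [Matrix.adjugate_apply]
    apply contDiffOn_det
    intro c d
    by_cases hc : c = b
    · subst hc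
      simp only [Matrix.updateRow_self]
      exact contDiffOn_const
    · simp only [Matrix.updateRow_ne hc]
      exact hM c d
  have h2 : ContDiffOn ℝ k (fun z => ((M z).det)⁻¹ * (M z).adjugate a b) U :=
    ((contDiffOn_det hM).inv hd).mul h1
  refine h2.congr fun y _ => ?_
  show (M y)⁻¹ a b = _
  rw [Matrix.inv_def, Matrix.smul_apply, Ring.inverse_eq_inv', smul_eq_mul]

theorem Dom.pdM_inv (h : Dom S U) {y : V m} (hy : y ∈ U) {ι : Type} [Fintype ι] [DecidableEq ι]
    {M : V m → Matrix ι ι ℝ} (hM : CM 1 U M) (hd : ∀ y ∈ U, (M y).det ≠ 0) (i : Fin m) :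
    pdM S i (fun z => (M z)⁻¹) y = -((M y)⁻¹ * pdM S i M y * (M y)⁻¹) := by
  have h1 : pdM S i (fun z => M z * (M z)⁻¹) y = pdM S i M y * (M y)⁻¹ +
      M y * pdM S i (fun z => (M z)⁻¹) y :=
    h.pdM_mul i (hM.dOn le_rfl) ((hM.inv hd).dOn le_rfl) hy
  have h2 : pdM S i (fun z => M z * (M z)⁻¹) y = 0 := by
    rw [h.pdM_congr i (B := fun _ => (1 : Matrix ι ι ℝ)) ?_ hy, pdM_const]
    intro z hz
    exact Matrix.mul_nonsing_inv _ (isUnit_iff_ne_zero.2 (hd z hz))
  rw [h2] at h1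
  have h3 : (M y)⁻¹ * M y = 1 := Matrix.nonsing_inv_mul _ (isUnit_iff_ne_zero.2 (hd y hy))
  have h4 : (M y)⁻¹ * (pdM S i M y * (M y)⁻¹ + M y * pdM S i (fun z => (M z)⁻¹) y) = 0 := by
    rw [← h1, Matrix.mul_zero]
  rw [Matrix.mul_add, ← Matrix.mul_assoc (M y)⁻¹ (M y), h3, Matrix.one_mul, ← Matrix.mul_assoc] at h4
  exact eq_neg_of_add_eq_zero_right h4

end

end Pool.Agent.CY
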