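import Pool.Agent.CY.S5.ConfU
import Pool.Agent.CY.S5.PdM

/-!
Project CY, part S5: conformal laws on the manifold.
-/

set_option autoImplicit false
set_option linter.unusedSectionVars false

open scoped ContDiff Manifold
open MeasureTheory Set Filter Topology

namespace Pool.Agent.CY

section congr

variable {m : ℕ} {S U : Set (V m)} {g g' : MF m}

theorem Gam_congr (hD : Dom S U) (h : ∀ z ∈ U, g z = g' z) (a i j : Fin m) {y : V m} (hy : y ∈ U) :
    Gam S g a i j y = Gam S g' a i j y := by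
  have h1 : ∀ l i j, pd S l (fun z => g z i j) y = pd S l (fun z => g' z i j) y := fun l i j =>
    hD.pd_congr l (fun z hz => by rw [h z hz]) hy
  simp only [Gam, h1, h y hy]

theorem Ric_congr (hD : Dom S U) (h : ∀ z ∈ U, g z = g' z) (i j : Fin m) {y : V m} (hy : y ∈ U) :
    Ric S g i j y = Ric S g' i j y := by
  have h1 : ∀ l a i j, pd S l (Gam S g a i j) y = pd S l (Gam S g' a i j) y := fun l a i j =>
    hD.pd_congr l (fun z hz => Gam_congr hD h a i j hz) hy
  simp only [Ric, h1, Gam_congr hD h _ _ _ hy]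

theorem scal_congr (hD : Dom S U) (h : ∀ z ∈ U, g z = g' z) {y : V m} (hy : y ∈ U) :
    scal S g y = scal S g' y := by
  simp only [scal, Ric_congr hD h _ _ hy, h y hy]

theorem hess_congr_met (hD : Dom S U) (h : ∀ z ∈ U, g z = g' z) (f : V m → ℝ) (i j : Fin m) {y : V m}
    (hy : y ∈ U) : hess S g f i j y = hess S g' f i j y := by
  simp only [hess, Gam_congr hD h _ _ _ hy]

theorem lap_congr_met (hD : Dom S U) (h : ∀ z ∈ U, g z = g' z) (f : V m → ℝ) {y : V m} (hy : y ∈ U) :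
    lap S g f y = lap S g' f y := by
  simp only [lap, hess_congr_met hD h f _ _ hy, h y hy]

theorem gip_congr_met (h : ∀ z ∈ U, g z = g' z) (f k : V m → ℝ) {y : V m} (hy : y ∈ U) :
    gip S g f k y = gip S g' f k y := by
  simp only [gip, h y hy]

variable {n : ℕ} {W : Set (V (n + 1))} {q q' : MF (n + 1)}

theorem meanCurv_congr (hD : Dom (Hs n) W) (h : ∀ z ∈ W, q z = q' z) {z : V n} (hz : bd z ∈ W) :
    meanCurv q z = meanCurv q' z := by
  have h1 : tang q z = tang q' z := by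
    ext a b; simp only [tang, Matrix.of_apply, h _ hz]
  simp only [meanCurv, Gam_congr hD h _ _ _ hz, h1, h _ hz]

theorem nder_congr_met (h : ∀ z ∈ W, q z = q' z) (f : V (n + 1) → ℝ) {z : V n} (hz : bd z ∈ W) :
    nder q f z = nder q' f z := by
  simp only [nder, h _ hz]

end congr

section confX

variable {n : ℕ} {X : Type} [TopologicalSpace X] [ChartedSpace (EuclideanHalfSpace (n + 1)) X]
  [IsManifold (𝓡∂ (n + 1)) ∞ X]

/-- The components of a metric in a chart form a metric of class `C^3`. -/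
theorem Metric.metOn (g : Metric n X) {e : OpenPartialHomeomorph X (EuclideanHalfSpace (n + 1))}
    (he : e ∈ atlas (EuclideanHalfSpace (n + 1)) X) : MetOn (dom e) (g.G e) 3 where
  pos := g.posDef e he
  smooth := g.smooth e he

theorem Metric.metOn2 (g : Metric n X) {e : OpenPartialHomeomorph X (EuclideanHalfSpace (n + 1))}
    (he : e ∈ atlas (EuclideanHalfSpace (n + 1)) X) : MetOn (dom e) (g.G e) 2 :=
  (g.metOn he).of_le (by norm_num)

theorem Metric.metOn1 (g : Metric n X) {e : OpenPartialHomeomorph X (EuclideanHalfSpace (n + 1))}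
    (he : e ∈ atlas (EuclideanHalfSpace (n + 1)) X) : MetOn (dom e) (g.G e) 1 :=
  (g.metOn he).of_le (by norm_num)

theorem ch_mem_atlas (p : X) : ch p ∈ atlas (EuclideanHalfSpace (n + 1)) X := chart_mem_atlas _ p

theorem mem_ch_source (p : X) : p ∈ (ch (n := n) p).source := mem_chart_source _ p

theorem co_ch_mem (p : X) : co (ch (n := n) p) p ∈ dom (ch (n := n) p) := co_mem_dom _ (mem_ch_source p)

theorem pt_co_ch (p : X) : pt (ch (n := n) p) (co (ch (n := n) p) p) = p := pt_co _ (mem_ch_source p)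

theorem IsConf.eq_cf {u : X → ℝ} {g h : Metric n X} (hh : IsConf u g h)
    {e : OpenPartialHomeomorph X (EuclideanHalfSpace (n + 1))}
    (he : e ∈ atlas (EuclideanHalfSpace (n + 1)) X) :
    ∀ y ∈ dom e, h.G e y = cf (loc e u) (g.G e) y := fun y hy => hh e he y hy

/-- Every positive smooth conformal factor gives a metric (with an explicit construction). -/
theorem exists_conf (g : Metric n X) {u : X → ℝ} (hu : ContMDiff (𝓡∂ (n + 1)) 𝓘(ℝ) ∞ u)
    (h0 : ∀ p, 0 < u p) : ∃ h : Metric n X, IsConf u g h := by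
  refine ⟨{ G := fun e => cf (loc e u) (g.G e), posDef := ?_, smooth := ?_, compat := ?_ }, ?_⟩
  · intro e he y hy
    exact (g.posDef e he y hy).smul (pow_pos (h0 _) 2)
  · intro e he i j
    simp only [cf_apply]
    have h1 : ContDiffOn ℝ ((3 : ℕ∞) : WithTop ℕ∞) (fun y => u (pt e y)) (dom e) :=
      contDiffOn_loc he (hu.of_le (by exact_mod_cast le_top))
    exact (h1.pow 2).mul (g.smooth e he i j)
  · intro e he e' he' y hy hy' i j
    simp only [cf_apply]
    rw [g.compat e he e' he' y hy hy' i j, Finset.mul_sum]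
    refine Finset.sum_congr rfl fun k _ => ?_
    rw [Finset.mul_sum]
    refine Finset.sum_congr rfl fun l _ => ?_
    have h1 : loc e' u (co e' (pt e y)) = loc e u y := by
      simp only [loc]; rw [pt_co e' hy']
    rw [h1]; ring
  · intro e he y hy
    rfl

theorem loc_ch (u : X → ℝ) (p : X) : loc (ch (n := n) p) u (co (ch (n := n) p) p) = u p := by
  rw [loc, pt_co_ch]

theorem Lop_eq (g : Metric n X) (u : X → ℝ) (p : X) : Lop g u p =
    -cn n * lap (Hs n) (g.G (ch p)) (loc (ch p) u) (co (ch p) p) +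
      scal (Hs n) (g.G (ch p)) (co (ch p) p) * loc (ch (n := n) p) u (co (ch (n := n) p) p) := by
  rw [Lop, lapX, scalX, loc_ch]

variable {u : X → ℝ} {g h : Metric n X}

theorem contDiffOn_loc_top {e : OpenPartialHomeomorph X (EuclideanHalfSpace (n + 1))}
    (he : e ∈ atlas (EuclideanHalfSpace (n + 1)) X) (hu : ContMDiff (𝓡∂ (n + 1)) 𝓘(ℝ) ∞ u) (k : ℕ) :
    ContDiffOn ℝ k (loc e u) (dom e) := by
  have h1 : ContMDiff (𝓡∂ (n + 1)) 𝓘(ℝ) ((k : ℕ∞) : WithTop ℕ∞) u := hu.of_le (by exact_mod_cast le_top)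
  exact contDiffOn_loc he h1

/-- `h = u^{4/(n-1)} g`. -/
abbrev IsConfU (u : X → ℝ) (g h : Metric n X) : Prop := IsConf (fun p => u p ^ (2 / ((n : ℝ) - 1))) g h

theorem IsConfU.eq_cf (hh : IsConfU u g h) {e : OpenPartialHomeomorph X (EuclideanHalfSpace (n + 1))}
    (he : e ∈ atlas (EuclideanHalfSpace (n + 1)) X) :
    ∀ y ∈ dom e, h.G e y = cf (fun z => phi n (loc e u z)) (g.G e) y := fun y hy => hh e he y hy

theorem exists_confU (g : Metric n X) (hu : ContMDiff (𝓡∂ (n + 1)) 𝓘(ℝ) ∞ u) (h0 : ∀ p, 0 < u p) :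
    ∃ h : Metric n X, IsConfU u g h := by
  apply exists_conf g _ (fun p => Real.rpow_pos_of_pos (h0 p) _)
  intro p
  have h1 : ContDiffAt ℝ ∞ (fun x : ℝ => x ^ (2 / ((n : ℝ) - 1))) (u p) :=
    Real.contDiffAt_rpow_const_of_ne (h0 p).ne'
  exact h1.contMDiffAt.comp p (hu p)

/-- The scalar curvature in an arbitrary chart. -/
theorem scal_chart_conf (hn : 2 ≤ n) (hu : ContMDiff (𝓡∂ (n + 1)) 𝓘(ℝ) ∞ u) (h0 : ∀ p, 0 < u p)
    (hh : IsConfU u g h) {e : OpenPartialHomeomorph X (EuclideanHalfSpace (n + 1))}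
    (he : e ∈ atlas (EuclideanHalfSpace (n + 1)) X) {y : V (n + 1)} (hy : y ∈ dom e) :
    scal (Hs n) (h.G e) y = loc e u y ^ (-(((n : ℝ) + 3) / ((n : ℝ) - 1))) *
      (-cn n * lap (Hs n) (g.G e) (loc e u) y + scal (Hs n) (g.G e) y * loc e u y) := by
  rw [scal_congr (dom_chart e) (hh.eq_cf he) hy]
  exact scal_u hn (dom_chart e) (g.metOn2 he) (contDiffOn_loc_top he hu 2) (fun z _ => h0 _) hy

theorem scalX_conf (hn : 2 ≤ n) (hu : ContMDiff (𝓡∂ (n + 1)) 𝓘(ℝ) ∞ u) (h0 : ∀ p, 0 < u p)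
    (hh : IsConfU u g h) (p : X) :
    scalX h p = u p ^ (-(((n : ℝ) + 3) / ((n : ℝ) - 1))) * Lop g u p := by
  rw [Lop_eq, scalX, scal_chart_conf hn hu h0 hh (ch_mem_atlas p) (co_ch_mem p)]
  rw [loc_ch]

theorem lapX_conf (hn : 2 ≤ n) (hu : ContMDiff (𝓡∂ (n + 1)) 𝓘(ℝ) ∞ u) (h0 : ∀ p, 0 < u p)
    (hh : IsConfU u g h) (f : X → ℝ) (p : X) :
    lapX h f p = ((u p ^ (2 / ((n : ℝ) - 1))) ^ 2)⁻¹ * (lapX g f p + 2 * (u p)⁻¹ * gipX g u f p) := by
  have e1 : loc (ch (n := n) p) u (co (ch (n := n) p) p) = u p := loc_ch u p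
  rw [lapX, lap_congr_met (dom_chart (ch p)) (hh.eq_cf (ch_mem_atlas p)) _ (co_ch_mem p),
    lap_u hn (dom_chart _) (g.metOn2 (ch_mem_atlas p)) (contDiffOn_loc_top (ch_mem_atlas p) hu 2)
      (fun z _ => h0 _) _ (co_ch_mem p), e1]
  rfl

theorem gipX_conf (h0 : ∀ p, 0 < u p) (hh : IsConfU u g h) (f k : X → ℝ) (p : X) :
    gipX h f k p = ((u p ^ (2 / ((n : ℝ) - 1))) ^ 2)⁻¹ * gipX g f k p := by
  have e1 : loc (ch (n := n) p) u (co (ch (n := n) p) p) = u p := loc_ch u p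
  have e3 := gip_conf (S := Hs n) (φ := fun z => phi n (loc (ch (n := n) p) u z))
    (g.metOn2 (ch_mem_atlas p)) (fun z _ => phi_pos (h0 _)) (loc (ch (n := n) p) f)
    (loc (ch (n := n) p) k) (co_ch_mem p)
  rw [gipX, gip_congr_met (hh.eq_cf (ch_mem_atlas p)) _ _ (co_ch_mem p), e3, e1]
  rfl

/-- the mean curvature in an arbitrary chart -/
theorem meanCurv_chart_conf (hn : 2 ≤ n) (hu : ContMDiff (𝓡∂ (n + 1)) 𝓘(ℝ) ∞ u) (h0 : ∀ p, 0 < u p)
    (hh : IsConfU u g h) {e : OpenPartialHomeomorph X (EuclideanHalfSpace (n + 1))}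
    (he : e ∈ atlas (EuclideanHalfSpace (n + 1)) X) {z : V n} (hz : bd z ∈ dom e) :
    meanCurv (h.G e) z = loc e u (bd z) ^ (-(((n : ℝ) + 1) / ((n : ℝ) - 1))) *
      ((1 / 2) * (cn n * nder (g.G e) (loc e u) z + 2 * meanCurv (g.G e) z * loc e u (bd z))) := by
  rw [meanCurv_congr (dom_chart e) (hh.eq_cf he) hz]
  exact meanCurv_u hn (dom_chart e) (g.metOn1 he) (contDiffOn_loc_top he hu 1) (fun z _ => h0 _) hz

theorem meanX_conf (hn : 2 ≤ n) (hu : ContMDiff (𝓡∂ (n + 1)) 𝓘(ℝ) ∞ u) (h0 : ∀ p, 0 < u p)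
    (hh : IsConfU u g h) {p : X} (hp : co (ch (n := n) p) p 0 = 0) :
    meanX h p = u p ^ (-(((n : ℝ) + 1) / ((n : ℝ) - 1))) * ((1 / 2) * Bop g u p) := by
  have e0 : bd (tl (co (ch (n := n) p) p)) = co (ch (n := n) p) p := bd_tl hp
  have e1 : loc (ch p) u (bd (tl (co (ch (n := n) p) p))) = u p := by rw [e0, loc, pt_co_ch]
  have e2 : bd (tl (co (ch (n := n) p) p)) ∈ dom (ch (n := n) p) := by rw [e0]; exact co_ch_mem p
  rw [meanX, meanCurv_chart_conf hn hu h0 hh (ch_mem_atlas p) e2, e1, Bop]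
  rfl

theorem nderX_conf (h0 : ∀ p, 0 < u p) (hh : IsConfU u g h) (f : X → ℝ) {p : X}
    (hp : co (ch (n := n) p) p 0 = 0) :
    nderX h f p = (u p ^ (2 / ((n : ℝ) - 1)))⁻¹ * nderX g f p := by
  have e0 : bd (tl (co (ch (n := n) p) p)) = co (ch (n := n) p) p := bd_tl hp
  have e1 : loc (ch p) u (bd (tl (co (ch (n := n) p) p))) = u p := by rw [e0, loc, pt_co_ch]
  have e2 : bd (tl (co (ch (n := n) p) p)) ∈ dom (ch (n := n) p) := by rw [e0]; exact co_ch_mem p
  have e3 := nder_conf (φ := fun z => phi n (loc (ch (n := n) p) u z)) (g.metOn2 (ch_mem_atlas p))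
    (fun z _ => phi_pos (h0 _)) (loc (ch (n := n) p) f) e2
  rw [nderX, nder_congr_met (hh.eq_cf (ch_mem_atlas p)) _ e2, e3, e1]
  rfl

/-- Conformally compact Einstein structures: change of the compactification. -/
theorem IsCCE.conf {ρ v : X → ℝ} (hE : IsCCE g ρ) (hv : ContMDiff (𝓡∂ (n + 1)) 𝓘(ℝ) ∞ v)
    (h0 : ∀ p, 0 < v p) (hh : IsConf v g h) : IsCCE h (fun p => v p * ρ p) where
  smooth := hv.mul hE.smooth
  nonneg := fun p => mul_nonneg (h0 p).le (hE.nonneg p)
  zero_iff := fun p => by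
    rw [← hE.zero_iff p]
    constructor
    · intro h1
      rcases mul_eq_zero.1 h1 with h2 | h2
      · exact absurd h2 (h0 p).ne'
      · exact h2
    · intro h1; rw [h1, mul_zero]
  deriv_ne := fun e he y hy hy0 => by
    have hD := dom_chart e
    have h1 : DifferentiableOn ℝ (loc e v) (dom e) := (contDiffOn_loc_top he hv 1).differentiableOn (by simp)
    have h2 : DifferentiableOn ℝ (loc e ρ) (dom e) :=
      (contDiffOn_loc_top he hE.smooth 1).differentiableOn (by simp)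
    have h3 := hD.pd_mul 0 h1 h2 hy
    have h4 : loc e ρ y = 0 := by
      have h5 : pt e y ∈ (𝓡∂ (n + 1)).boundary X := by
        rw [mem_boundary_iff he (pt_mem_source e hy), co_pt e hy]
        exact hy0
      exact (hE.zero_iff _).2 h5
    have h6 : pd (Hs n) 0 (fun z => v (pt e z) * ρ (pt e z)) y =
        v (pt e y) * pd (Hs n) 0 (fun z => ρ (pt e z)) y := by
      refine h3.trans ?_
      rw [h4, mul_zero, zero_add]
      rfl
    rw [h6]
    exact mul_ne_zero (h0 _).ne' (hE.deriv_ne e he y hy hy0)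
  einstein := fun e he y hy hy0 i j => by
    have h1 : ∀ z ∈ dom e, ((v (pt e z) * ρ (pt e z)) ^ 2)⁻¹ • h.G e z = ((ρ (pt e z)) ^ 2)⁻¹ • g.G e z := by
      intro z hz
      rw [hh e he z hz, smul_smul]
      congr 1
      have := (h0 (pt e z)).ne'
      rw [mul_pow, mul_inv]
      field_simp
    rw [Ric_congr (dom_chart e) h1 i j hy, hE.einstein e he y hy hy0 i j, hh e he y hy]
    have := (h0 (pt e y)).ne'
    simp only [Matrix.smul_apply, smul_eq_mul]
    rw [mul_pow, mul_inv]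
    field_simp

end confX

end Pool.Agent.CY
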