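import Pool.Agent.CY.S5.C14Bdy
import Pool.Agent.CY.S5.ConfX

/-!
CY-S5-C13 (helper90).  The Einstein equation in terms of the compactified metric.
-/

set_option autoImplicit false

open scoped Manifold ContDiff Topology
open MeasureTheory Set Filter

namespace Pool.Agent.CY.C

noncomputable section

section local_

variable {n : ℕ} {S U : Set (V (n + 1))} {g : MF (n + 1)} {ρ : V (n + 1) → ℝ}

theorem einOn_of_conf (hD : Dom S U) (hg : MetOn U g 2) (hρ : ContDiffOn ℝ 2 ρ U) (hpos : ∀ y ∈ U, 0 < ρ y)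
    (hE : ∀ y ∈ U, ∀ i j, Ric S (fun z => ((ρ z) ^ 2)⁻¹ • g z) i j y =
      -(n : ℝ) * (((ρ y) ^ 2)⁻¹ * g y i j)) : EinOn S U g ρ := by
  have hcf : (fun z => ((ρ z) ^ 2)⁻¹ • g z) = cf (fun z => ρ z ^ (-1 : ℝ)) g := by
    funext z
    rw [cf, Real.rpow_neg_one, inv_pow]
  have hφ : ContDiffOn ℝ 2 (fun z => ρ z ^ (-1 : ℝ)) U := hρ.rpow_const_of_ne (fun y hy => (hpos y hy).ne')
  have hφ0 : ∀ y ∈ U, 0 < ρ y ^ (-1 : ℝ) := fun y hy => Real.rpow_pos_of_pos (hpos y hy) _
  -- the tensor equation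
  have key : ∀ y ∈ U, ∀ i j, ρ y * Ric S g i j y = -((n : ℝ) - 1) * hess S g ρ i j y +
      (-lap S g ρ y + (n : ℝ) * (gip S g ρ ρ y - 1) / ρ y) * g y i j := by
    intro y hy i j
    have h1 := hE y hy i j
    rw [hcf, Ric_conf hD hg hφ hφ0 i j hy] at h1
    have hr := (hpos y hy).ne'
    have hρ1 : ContDiffOn ℝ 1 ρ U := hρ.of_le (by norm_num)
    have h2 : hess S g (lg fun z => ρ z ^ (-1 : ℝ)) i j y =
        (ρ y ^ 2)⁻¹ * (pd S i ρ y * pd S j ρ y) - (ρ y)⁻¹ * hess S g ρ i j y := by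
      have e1 : hess S g (lg fun z => ρ z ^ (-1 : ℝ)) i j y =
          hess S g (fun z => (fun x : ℝ => -1 * Real.log x) (ρ z)) i j y := by
        have h3 : ∀ i, ∀ z ∈ U, pd S i (lg fun z => ρ z ^ (-1 : ℝ)) z =
            pd S i (fun z => (fun x : ℝ => -1 * Real.log x) (ρ z)) z := fun i z hz =>
          hD.pd_congr i (fun w hw => lg_rpow hpos (-1) hw) hz
        simp only [hess]
        rw [hD.pd_congr i (h3 j) hy]
        congr 1
        exact Finset.sum_congr rfl fun a _ => by rw [h3 a y hy]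
      rw [e1, hess_comp (g := g) hD hρ (F := fun x => -1 * Real.log x) (F' := fun x => -1 * x⁻¹)
        (F'' := fun x => -1 * (-(x ^ 2)⁻¹)) (hasDerivAt_slog hpos (-1)) (hasDerivAt_sinv hpos (-1)) i j hy]
      ring
    rw [h2, pd_lg_rpow hD hρ1 hpos (-1) i hy, pd_lg_rpow hD hρ1 hpos (-1) j hy,
      lap_lg_rpow hD hρ hpos (-1) hy, gip_lg_rpow hD hρ1 hpos (-1) hy] at h1
    push_cast at h1
    field_simp at h1 ⊢
    linarith
  -- the trace
  have htr : ∀ y ∈ U, ρ y * scal S g y = -((n : ℝ) - 1) * lap S g ρ y +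
      (-lap S g ρ y + (n : ℝ) * (gip S g ρ ρ y - 1) / ρ y) * ((n : ℝ) + 1) := by
    intro y hy
    have h1 := trace_met hg hy
    push_cast at h1
    rw [← h1]
    simp only [scal, lap, Finset.mul_sum]
    rw [← Finset.sum_add_distrib]
    refine Finset.sum_congr rfl fun i _ => ?_
    rw [← Finset.sum_add_distrib]
    refine Finset.sum_congr rfl fun j _ => ?_
    have h2 := key y hy i j
    simp only [lap] at h2
    linear_combination ((g y)⁻¹ i j) * h2
  have e2 : ∀ y ∈ U, ρ y ^ 2 * scal S g y =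
      (n : ℝ) * ((n : ℝ) + 1) * (gip S g ρ ρ y - 1) - 2 * (n : ℝ) * ρ y * lap S g ρ y := by
    intro y hy
    have h1 := htr y hy
    have hr := (hpos y hy).ne'
    field_simp at h1
    linarith
  refine ⟨hpos, ?_, e2⟩
  intro y hy i j
  rw [key y hy i j]
  have h1 := htr y hy
  have hr := (hpos y hy).ne'
  have hn : (n : ℝ) + 1 ≠ 0 := by positivity
  have h3 : -lap S g ρ y + (n : ℝ) * (gip S g ρ ρ y - 1) / ρ y =
      (ρ y * scal S g y + ((n : ℝ) - 1) * lap S g ρ y) / ((n : ℝ) + 1) := by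
    rw [eq_div_iff hn]
    linarith
  rw [h3]

end local_

section global_

variable {n : ℕ} {X : Type} [TopologicalSpace X] [ChartedSpace (EuclideanHalfSpace (n + 1)) X]
  [IsManifold (𝓡∂ (n + 1)) ∞ X]

/-- The local data of a conformally compact Einstein manifold in a chart. -/
theorem cceOn {g : Metric n X} {ρ : X → ℝ} (hE : IsCCE g ρ)
    {e : OpenPartialHomeomorph X (EuclideanHalfSpace (n + 1))}
    (he : e ∈ atlas (EuclideanHalfSpace (n + 1)) X) : CCEOn (dom e) (g.G e) (loc e ρ) := by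
  have hD := dom_chart e
  have hs : ContDiffOn ℝ ∞ (loc e ρ) (dom e) := contDiffOn_loc he hE.smooth
  have hz : ∀ y ∈ dom e, y 0 = 0 → loc e ρ y = 0 := by
    intro y hy h0
    have h1 : pt e y ∈ (𝓡∂ (n + 1)).boundary X := by
      rw [mem_boundary_iff he (pt_mem_source e hy), co_pt e hy]
      exact h0
    exact (hE.zero_iff _).2 h1
  have hDo : Dom (Hs n) (dom e ∩ Ho n) := hD.inter_open isOpen_Ho
  have h2top : (2 : WithTop ℕ∞) ≤ ∞ := WithTop.coe_le_coe.2 (le_top : (2 : ℕ∞) ≤ ⊤)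
  have hp : ∀ y ∈ dom e ∩ Ho n, 0 < loc e ρ y := by
    intro y hy
    refine lt_of_le_of_ne (hE.nonneg _) (fun h => ?_)
    have h1 := (hE.zero_iff (pt e y)).1 h.symm
    rw [mem_boundary_iff he (pt_mem_source e hy.1), co_pt e hy.1] at h1
    have h2 : 0 < y 0 := hy.2
    rw [h1] at h2
    exact lt_irrefl _ h2
  refine ⟨hD, g.metOn he, hs, ?_, hz, ?_⟩
  · apply einOn_of_conf hDo ((g.metOn2 he).mono inter_subset_left)
      ((hs.of_le h2top).mono inter_subset_left) hp
    intro y hy i j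
    exact hE.einstein e he y hy.1 hy.2 i j
  · intro y hy h0
    refine lt_of_le_of_ne ?_ (hE.deriv_ne e he y hy h0).symm
    have hb : bd (tl y) = y := bd_tl h0
    rw [← hb]
    exact pd_zero_nonneg hD (hs.differentiableOn (by norm_num)) (fun w _ => hE.nonneg _) (by rw [hb]; exact hy)
      (by rw [hb]; exact hz y hy h0)

end global_

end

end Pool.Agent.CY.C
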