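import Pool.Agent.CY.S5.C12EinAlg

/-!
CY-S5-C14 (helper90).  A compactified Einstein metric at the boundary.
PLAN.  `eqOn_of_Ho`: two functions which are continuous on `U` and agree on `U ∩ Ho n` agree on `U` (every point of `U` is
a limit of points of `U ∩ Ho n`: move in the direction `e_0`; `Hs_subset_closure`, `Dom.nhds`).  Apply it to both sides of
`e1` and `e2` (continuity: `contDiffOn_Ric` etc. with `k = 0`), and put `ρ = 0`: `gip_one`, `hess_bd` (`n ≥ 2`).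
`pd_rho_succ`: `ρ ∘ bd = 0` near `z`, `pd_bd`.  `pd_rho_zero`: `gip = g^{00} (∂_0 ρ)² = 1`, `∂_0 ρ > 0`.
`gr_rho_bd`.  `Gam0_bd`: `hess ρ_{ab} = ∂_a ∂_b ρ - Γ^0_{ab} ∂_0 ρ` and `∂_a ∂_b ρ = 0` at the boundary (the function
`pd (Hs n) b.succ ρ` vanishes on the boundary; `pd_bd`).  `mean_bd`: `Σ k^{ab} k_{ab} = n`.
-/

set_option autoImplicit false

open scoped Manifold ContDiff Topology
open MeasureTheory Set Filter

namespace Pool.Agent.CY.C

noncomputable section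

variable {n : ℕ} {U : Set (V (n + 1))} {g : MF (n + 1)} {ρ : V (n + 1) → ℝ} {z : V n}

theorem c14_mem_closure_Ho {y : V (n + 1)} (hy : y ∈ Hs n) : y ∈ closure (Ho n) := by
  have h1 : Tendsto (fun t : ℝ => y + t • (EuclideanSpace.single 0 1 : V (n + 1))) (𝓝[>] 0) (𝓝 y) := by
    have h2 : Tendsto (fun t : ℝ => y + t • (EuclideanSpace.single 0 1 : V (n + 1))) (𝓝 0)
        (𝓝 (y + (0:ℝ) • (EuclideanSpace.single 0 1 : V (n + 1)))) :=
      (Continuous.tendsto (by fun_prop) 0)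
    rw [zero_smul, add_zero] at h2
    exact h2.mono_left nhdsWithin_le_nhds
  refine mem_closure_of_tendsto h1 ?_
  filter_upwards [self_mem_nhdsWithin] with t ht
  have hy0 : 0 ≤ y 0 := hy
  have ht0 : (0:ℝ) < t := ht
  show 0 < (y + t • (EuclideanSpace.single 0 1 : V (n + 1))) 0
  simp
  linarith

theorem eqOn_of_Ho (hD : Dom (Hs n) U) {f f' : V (n + 1) → ℝ} (hf : ContinuousOn f U)
    (hf' : ContinuousOn f' U) (h : ∀ y ∈ U ∩ Ho n, f y = f' y) : ∀ y ∈ U, f y = f' y := by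
  intro y hy
  have hne : (𝓝[Ho n] y).NeBot := mem_closure_iff_nhdsWithin_neBot.1 (c14_mem_closure_Ho (hD.sub hy))
  have hle : 𝓝[Ho n] y ≤ 𝓝[U] y := by
    rw [← hD.nhds_eq hy]
    exact nhdsWithin_mono y Ho_subset_Hs
  have h1 : Tendsto f (𝓝[Ho n] y) (𝓝 (f y)) := (hf y hy).mono_left hle
  have h2 : Tendsto f' (𝓝[Ho n] y) (𝓝 (f' y)) := (hf' y hy).mono_left hle
  refine tendsto_nhds_unique_of_eventuallyEq h1 h2 ?_
  have hU : U ∈ 𝓝[Ho n] y := hle self_mem_nhdsWithin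
  filter_upwards [hU, self_mem_nhdsWithin] with x hx hx'
  exact h x ⟨hx, hx'⟩

/-- Local data of a conformally compact Einstein metric. -/
structure CCEOn (U : Set (V (n + 1))) (g : MF (n + 1)) (ρ : V (n + 1) → ℝ) : Prop where
  dom : Dom (Hs n) U
  met : MetOn U g 3
  smooth : ContDiffOn ℝ ∞ ρ U
  ein : EinOn (Hs n) (U ∩ Ho n) g ρ
  zero : ∀ y ∈ U, y 0 = 0 → ρ y = 0
  d0 : ∀ y ∈ U, y 0 = 0 → 0 < pd (Hs n) 0 ρ y

theorem c14_smooth (h : CCEOn U g ρ) (k : ℕ) : ContDiffOn ℝ k ρ U :=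
  h.smooth.of_le (by exact_mod_cast le_top)

theorem c14_rho (h : CCEOn U g ρ) (hz : bd z ∈ U) : ρ (bd z) = 0 := h.zero _ hz (bd_zero z)

theorem c14_cont_scal (h : CCEOn U g ρ) : ContinuousOn (scal (Hs n) g) U :=
  (contDiffOn_scal h.dom (k := 0) (l := 3) (by norm_num) h.met).continuousOn

theorem c14_cont_lap (h : CCEOn U g ρ) : ContinuousOn (lap (Hs n) g ρ) U :=
  (contDiffOn_lap h.dom (k := 0) (l := 3) (by norm_num) h.met (c14_smooth h 3)).continuousOn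

theorem c14_cont_gip (h : CCEOn U g ρ) : ContinuousOn (gip (Hs n) g ρ ρ) U :=
  (contDiffOn_gip h.dom (k := 0) (l := 3) (by norm_num) h.met (c14_smooth h 3) (c14_smooth h 3)).continuousOn

theorem gip_one (hn : 1 ≤ n) (h : CCEOn U g ρ) (hz : bd z ∈ U) : gip (Hs n) g ρ ρ (bd z) = 1 := by
  have hρ : ContinuousOn ρ U := (c14_smooth h 0).continuousOn
  have h1 := eqOn_of_Ho h.dom (f := fun y => ρ y ^ 2 * scal (Hs n) g y)
    (f' := fun y => (n : ℝ) * ((n : ℝ) + 1) * (gip (Hs n) g ρ ρ y - 1) -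
      2 * (n : ℝ) * ρ y * lap (Hs n) g ρ y)
    ((hρ.pow 2).mul (c14_cont_scal h))
    ((continuousOn_const.mul ((c14_cont_gip h).sub continuousOn_const)).sub
      ((continuousOn_const.mul hρ).mul (c14_cont_lap h)))
    (fun y hy => h.ein.e2 y hy) (bd z) hz
  simp only [c14_rho h hz] at h1
  have hn' : (0:ℝ) < n := by exact_mod_cast hn
  have h2 : (n : ℝ) * ((n : ℝ) + 1) ≠ 0 := by positivity
  have h3 : (n : ℝ) * ((n : ℝ) + 1) * (gip (Hs n) g ρ ρ (bd z) - 1) = 0 := by linarith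
  rcases mul_eq_zero.1 h3 with h4 | h4
  · exact absurd h4 h2
  · linarith

theorem hess_bd (hn : 2 ≤ n) (h : CCEOn U g ρ) (hz : bd z ∈ U) (i j : Fin (n + 1)) :
    hess (Hs n) g ρ i j (bd z) = lap (Hs n) g ρ (bd z) / ((n : ℝ) + 1) * g (bd z) i j := by
  have hρ : ContinuousOn ρ U := (c14_smooth h 0).continuousOn
  have hR : ContinuousOn (Ric (Hs n) g i j) U :=
    (contDiffOn_Ric h.dom (k := 0) (l := 3) (by norm_num) h.met i j).continuousOn
  have hH : ContinuousOn (hess (Hs n) g ρ i j) U :=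
    (contDiffOn_hess h.dom (k := 0) (l := 3) (by norm_num) h.met (c14_smooth h 3) i j).continuousOn
  have h1 := eqOn_of_Ho h.dom (f := fun y => ρ y * Ric (Hs n) g i j y)
    (f' := fun y => -((n : ℝ) - 1) * hess (Hs n) g ρ i j y +
      ((ρ y * scal (Hs n) g y + ((n : ℝ) - 1) * lap (Hs n) g ρ y) / ((n : ℝ) + 1)) * g y i j)
    (hρ.mul hR)
    ((continuousOn_const.mul hH).add ((((hρ.mul (c14_cont_scal h)).add
      (continuousOn_const.mul (c14_cont_lap h))).div_const _).mul (h.met.smooth i j).continuousOn))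
    (fun y hy => h.ein.e1 y hy i j) (bd z) hz
  simp only [c14_rho h hz] at h1
  have hn' : (2:ℝ) ≤ n := by exact_mod_cast hn
  have h2 : (n : ℝ) - 1 ≠ 0 := by linarith
  have h3 : ((n : ℝ) - 1) * (hess (Hs n) g ρ i j (bd z) -
      lap (Hs n) g ρ (bd z) / ((n : ℝ) + 1) * g (bd z) i j) = 0 := by
    have : (n : ℝ) + 1 ≠ 0 := by positivity
    field_simp at h1 ⊢
    linarith
  rcases mul_eq_zero.1 h3 with h4 | h4
  · exact absurd h4 h2
  · linarith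

theorem pd_rho_succ (h : CCEOn U g ρ) (hz : bd z ∈ U) (a : Fin n) : pd (Hs n) a.succ ρ (bd z) = 0 := by
  have hd : DifferentiableOn ℝ ρ U := (c14_smooth h 1).differentiableOn (by simp)
  rw [← pd_bd (h.dom.diffAt hd hz) a,
    (dom_bdry h.dom).pd_congr a (g := fun _ => 0) (fun w hw => c14_rho h hw) hz, pd_const]

theorem pd_pd_rho_succ (h : CCEOn U g ρ) (hz : bd z ∈ U) (a b : Fin n) :
    pd (Hs n) a.succ (pd (Hs n) b.succ ρ) (bd z) = 0 := by
  have hd : DifferentiableOn ℝ (pd (Hs n) b.succ ρ) U := h.dom.diffOn_pd _ (c14_smooth h 2)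
  rw [← pd_bd (h.dom.diffAt hd hz) a,
    (dom_bdry h.dom).pd_congr a (g := fun _ => 0) (fun w hw => pd_rho_succ h hw b) hz, pd_const]

theorem c14_gip (h : CCEOn U g ρ) (hz : bd z ∈ U) :
    gip (Hs n) g ρ ρ (bd z) = (g (bd z))⁻¹ 0 0 * pd (Hs n) 0 ρ (bd z) ^ 2 := by
  unfold gip
  rw [Fin.sum_univ_succ]
  have h1 : ∑ i : Fin n, ∑ j, (g (bd z))⁻¹ i.succ j * (pd (Hs n) i.succ ρ (bd z) * pd (Hs n) j ρ (bd z)) = 0 := by
    refine Finset.sum_eq_zero fun i _ => Finset.sum_eq_zero fun j _ => ?_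
    rw [pd_rho_succ h hz]; ring
  rw [h1, Fin.sum_univ_succ]
  have h2 : ∑ j : Fin n, (g (bd z))⁻¹ 0 j.succ * (pd (Hs n) 0 ρ (bd z) * pd (Hs n) j.succ ρ (bd z)) = 0 := by
    refine Finset.sum_eq_zero fun j _ => ?_
    rw [pd_rho_succ h hz]; ring
  rw [h2]; ring

theorem pd_rho_zero (hn : 1 ≤ n) (h : CCEOn U g ρ) (hz : bd z ∈ U) :
    pd (Hs n) 0 ρ (bd z) = 1 / Real.sqrt ((g (bd z))⁻¹ 0 0) := by
  have h1 := gip_one hn h hz
  rw [c14_gip h hz] at h1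
  have h2 := inv00_pos h.met hz
  have h3 := h.d0 _ hz (bd_zero z)
  have h4 : Real.sqrt ((g (bd z))⁻¹ 0 0) ^ 2 = (g (bd z))⁻¹ 0 0 := Real.sq_sqrt h2.le
  have h5 : 0 < Real.sqrt ((g (bd z))⁻¹ 0 0) := Real.sqrt_pos.2 h2
  rw [eq_div_iff h5.ne']
  have h6 : (pd (Hs n) 0 ρ (bd z) * Real.sqrt ((g (bd z))⁻¹ 0 0)) ^ 2 = 1 := by
    rw [mul_pow, h4, mul_comm]; exact h1
  have h7 : 0 ≤ pd (Hs n) 0 ρ (bd z) * Real.sqrt ((g (bd z))⁻¹ 0 0) := by positivity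
  nlinarith

theorem gr_rho_bd (hn : 1 ≤ n) (h : CCEOn U g ρ) (hz : bd z ∈ U) (j : Fin (n + 1)) :
    gr (Hs n) g ρ j (bd z) = (g (bd z))⁻¹ j 0 / Real.sqrt ((g (bd z))⁻¹ 0 0) := by
  unfold gr
  rw [Fin.sum_univ_succ, pd_rho_zero hn h hz]
  have h2 : ∑ i : Fin n, (g (bd z))⁻¹ j i.succ * pd (Hs n) i.succ ρ (bd z) = 0 := by
    refine Finset.sum_eq_zero fun i _ => ?_
    rw [pd_rho_succ h hz]; ring
  rw [h2]; ring

theorem nder_rho (hn : 1 ≤ n) (h : CCEOn U g ρ) (hz : bd z ∈ U) : nder g ρ z = -1 := by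
  have h1 := gr_rho_bd hn h hz 0
  unfold gr at h1
  unfold nder
  rw [h1]
  have h2 := inv00_pos h.met hz
  have h5 : 0 < Real.sqrt ((g (bd z))⁻¹ 0 0) := Real.sqrt_pos.2 h2
  have h4 : Real.sqrt ((g (bd z))⁻¹ 0 0) * Real.sqrt ((g (bd z))⁻¹ 0 0) = (g (bd z))⁻¹ 0 0 :=
    Real.mul_self_sqrt h2.le
  rw [neg_div, div_div, h4, div_self h2.ne']

theorem Gam0_bd (hn : 2 ≤ n) (h : CCEOn U g ρ) (hz : bd z ∈ U) (a b : Fin n) :
    Gam (Hs n) g 0 a.succ b.succ (bd z) =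
      -(Real.sqrt ((g (bd z))⁻¹ 0 0) * (lap (Hs n) g ρ (bd z) / ((n : ℝ) + 1))) * tang g z a b := by
  have h1 := hess_bd hn h hz a.succ b.succ
  unfold hess at h1
  rw [pd_pd_rho_succ h hz, Fin.sum_univ_succ, pd_rho_zero (by omega) h hz] at h1
  have h2 : ∑ i : Fin n, Gam (Hs n) g i.succ a.succ b.succ (bd z) * pd (Hs n) i.succ ρ (bd z) = 0 := by
    refine Finset.sum_eq_zero fun i _ => ?_
    rw [pd_rho_succ h hz]; ring
  rw [h2] at h1
  have h3 := inv00_pos h.met hz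
  have h5 : 0 < Real.sqrt ((g (bd z))⁻¹ 0 0) := Real.sqrt_pos.2 h3
  have h6 : tang g z a b = g (bd z) a.succ b.succ := rfl
  rw [h6]
  generalize lap (Hs n) g ρ (bd z) / ((n : ℝ) + 1) = L at h1 ⊢
  field_simp at h1
  linarith

theorem c14_trace (h : CCEOn U g ρ) (hz : bd z ∈ U) :
    ∑ a, ∑ b, (tang g z)⁻¹ a b * tang g z a b = (n : ℝ) := by
  have hm : MetOn (bdry U) (tang g) 3 := tang_metOn h.met
  have hz' : z ∈ bdry U := hz
  have h1 : ∀ a : Fin n, ∑ b, (tang g z)⁻¹ a b * tang g z a b = 1 := by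
    intro a
    have h2 := hm.inv_mul hz' a a
    rw [if_pos rfl] at h2
    rw [← h2]
    exact Finset.sum_congr rfl fun b _ => by rw [hm.symm hz' a b]
  simp only [h1, Finset.sum_const, Finset.card_univ, Fintype.card_fin, nsmul_eq_mul, mul_one]

theorem mean_bd (hn : 2 ≤ n) (h : CCEOn U g ρ) (hz : bd z ∈ U) :
    meanCurv g z = -((n : ℝ) * (lap (Hs n) g ρ (bd z) / ((n : ℝ) + 1))) := by
  unfold meanCurv
  have h1 : ∑ a, ∑ b, (tang g z)⁻¹ a b * Gam (Hs n) g 0 a.succ b.succ (bd z) =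
      -(Real.sqrt ((g (bd z))⁻¹ 0 0) * (lap (Hs n) g ρ (bd z) / ((n : ℝ) + 1))) *
        ∑ a, ∑ b, (tang g z)⁻¹ a b * tang g z a b := by
    rw [Finset.mul_sum]
    refine Finset.sum_congr rfl fun a _ => ?_
    rw [Finset.mul_sum]
    refine Finset.sum_congr rfl fun b _ => ?_
    rw [Gam0_bd hn h hz]; ring
  rw [h1, c14_trace h hz]
  have h3 := inv00_pos h.met hz
  have h5 : 0 < Real.sqrt ((g (bd z))⁻¹ 0 0) := Real.sqrt_pos.2 h3
  generalize lap (Hs n) g ρ (bd z) / ((n : ℝ) + 1) = L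
  field_simp

/-- The boundary is umbilic. -/
theorem umbilic (hn : 2 ≤ n) (h : CCEOn U g ρ) (hz : bd z ∈ U) (a b : Fin n) :
    Gam (Hs n) g 0 a.succ b.succ (bd z) =
      Real.sqrt ((g (bd z))⁻¹ 0 0) * (meanCurv g z / (n : ℝ)) * tang g z a b := by
  rw [Gam0_bd hn h hz, mean_bd hn h hz]
  have hn' : (0:ℝ) < n := by exact_mod_cast (by omega : 0 < n)
  generalize lap (Hs n) g ρ (bd z) / ((n : ℝ) + 1) = L
  field_simp

end

end Pool.Agent.CY.C
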