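import Pool.Agent.CY.S5.C02Pair

/-!
CY-S5-C15 (helper90).  The curvature tensor through the Christoffel symbols with lowered index.
PLAN.  `ChL p i j = Σ_l g_{pl} Γ^l_{ij}`.  `pd_ChL`: `Σ_l g_{pl} ∂_j Γ^l_{ki} = ∂_j (ChL p k i) - Σ_l (∂_j g_{pl}) Γ^l_{ki}`
(`Dom.pd_sum`, `Dom.pd_mul`), with `∂_j g_{pl} = ChL l j p + ChL p j l` (`pd_met`).  Hence
`Rm p i j k = ∂_j ChL_{p,ki} - ∂_k ChL_{p,ji} - Σ_l ChL_{l,jp} Γ^l_{ki} + Σ_l ChL_{l,kp} Γ^l_{ji}`, and
`Γ^l_{ki} = Σ_q g^{lq} ChL_{q,ki}`.  `ChL_eq` is `Gam_lower`.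
-/

set_option autoImplicit false

open scoped Manifold ContDiff Topology
open MeasureTheory Set Filter

namespace Pool.Agent.CY.C

noncomputable section

variable {m : ℕ} {S U : Set (V m)} {g : MF m} {y : V m}

/-- The Christoffel symbols with lowered index. -/
def ChL (S : Set (V m)) (g : MF m) (p i j : Fin m) (y : V m) : ℝ :=
  (1 / 2) * (pd S i (fun z => g z j p) y + pd S j (fun z => g z i p) y - pd S p (fun z => g z i j) y)

theorem ChL_eq {k : WithTop ℕ∞} (hg : MetOn U g k) (hy : y ∈ U) (p i j : Fin m) :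
    ∑ l, g y p l * Gam S g l i j y = ChL S g p i j y := Gam_lower hg p i j hy

theorem Gam_eq_ChL {k : WithTop ℕ∞} (hD : Dom S U) (hg : MetOn U g k) (hy : y ∈ U) (l i j : Fin m) :
    Gam S g l i j y = ∑ q, (g y)⁻¹ l q * ChL S g q i j y := by
  simp only [Gam, ChL, Finset.mul_sum]
  exact Finset.sum_congr rfl fun a _ => by ring

theorem pd_met_ChL {k : WithTop ℕ∞} (hD : Dom S U) (hg : MetOn U g k) (hy : y ∈ U) (j p l : Fin m) :
    pd S j (fun z => g z p l) y = ChL S g l j p y + ChL S g p j l y := by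
  rw [pd_met hD hg j p l hy, Finset.sum_add_distrib, ← ChL_eq hg hy l j p, ← ChL_eq hg hy p j l]
  congr 1
  · exact Finset.sum_congr rfl fun a _ => by rw [hg.symm hy a l]; ring
  · exact Finset.sum_congr rfl fun a _ => by rw [hg.symm hy a p]; ring

theorem pd_ChL (hD : Dom S U) (hg : MetOn U g 2) (hy : y ∈ U) (p i j k : Fin m) :
    ∑ l, g y p l * pd S j (Gam S g l k i) y = pd S j (ChL S g p k i) y -
      ∑ l, (ChL S g l j p y + ChL S g p j l y) * Gam S g l k i y := by
  have hG : ∀ l, DifferentiableOn ℝ (Gam S g l k i) U := fun l =>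
    (contDiffOn_Gam hD (k := 1) (l := 2) (by norm_num [one_add_one_eq_two]) hg l k i).differentiableOn
      (by simp)
  have hg1 : ∀ l, DifferentiableOn ℝ (fun z => g z p l) U := fun l => hg.diffOn (by norm_num) p l
  have h1 : pd S j (ChL S g p k i) y = pd S j (fun z => ∑ l, g z p l * Gam S g l k i z) y :=
    hD.pd_congr j (fun z hz => (ChL_eq hg hz p k i).symm) hy
  have h2 : pd S j (fun z => ∑ l, g z p l * Gam S g l k i z) y =
      ∑ l, pd S j (fun z => g z p l * Gam S g l k i z) y :=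
    hD.pd_sum j Finset.univ (f := fun l z => g z p l * Gam S g l k i z)
      (fun l _ => (hg1 l).mul (hG l)) hy
  rw [h1, h2, ← Finset.sum_sub_distrib]
  refine Finset.sum_congr rfl fun l _ => ?_
  rw [hD.pd_mul j (hg1 l) (hG l) hy, pd_met_ChL hD hg hy j p l]
  ring

theorem Rm_eq_Gam (hD : Dom S U) (hg : MetOn U g 2) (hy : y ∈ U) (p i j k : Fin m) :
    Rm S g p i j k y = pd S j (ChL S g p k i) y - pd S k (ChL S g p j i) y -
      ∑ l, ChL S g l j p y * Gam S g l k i y + ∑ l, ChL S g l k p y * Gam S g l j i y := by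
  have hq : ∀ j k : Fin m, ∑ l, g y p l * (GamM S g j y * GamM S g k y) l i =
      ∑ a, ChL S g p j a y * Gam S g a k i y := by
    intro j k
    have h0 : ∀ l, (GamM S g j y * GamM S g k y) l i = ∑ a, Gam S g l j a y * Gam S g a k i y :=
      fun l => by rw [Matrix.mul_apply]; rfl
    simp only [h0, Finset.mul_sum]
    rw [Finset.sum_comm]
    refine Finset.sum_congr rfl fun a _ => ?_
    rw [← ChL_eq hg hy p j a, Finset.sum_mul]
    exact Finset.sum_congr rfl fun l _ => by ring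
  have hR : Rm S g p i j k y = ∑ l, g y p l * pd S j (Gam S g l k i) y -
      ∑ l, g y p l * pd S k (Gam S g l j i) y +
      ∑ l, g y p l * (GamM S g j y * GamM S g k y) l i -
      ∑ l, g y p l * (GamM S g k y * GamM S g j y) l i := by
    rw [Rm, Matrix.mul_apply, ← Finset.sum_sub_distrib, ← Finset.sum_add_distrib,
      ← Finset.sum_sub_distrib]
    refine Finset.sum_congr rfl fun l _ => ?_
    simp only [FM, Matrix.sub_apply, Matrix.add_apply]
    have e1 : pdM S j (GamM S g k) y l i = pd S j (Gam S g l k i) y := rfl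
    have e2 : pdM S k (GamM S g j) y l i = pd S k (Gam S g l j i) y := rfl
    rw [e1, e2]
    ring
  rw [hR, pd_ChL hD hg hy, pd_ChL hD hg hy, hq, hq]
  simp only [add_mul, Finset.sum_add_distrib]
  ring

theorem Rm_eq_ChL (hD : Dom S U) (hg : MetOn U g 2) (hy : y ∈ U) (p i j k : Fin m) :
    Rm S g p i j k y = pd S j (ChL S g p k i) y - pd S k (ChL S g p j i) y -
      ∑ l, ∑ q, (g y)⁻¹ l q * (ChL S g l j p y * ChL S g q k i y - ChL S g l k p y * ChL S g q j i y) := by
  have h1 : ∑ l, ∑ q, (g y)⁻¹ l q *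
      (ChL S g l j p y * ChL S g q k i y - ChL S g l k p y * ChL S g q j i y) =
      ∑ l, ChL S g l j p y * Gam S g l k i y - ∑ l, ChL S g l k p y * Gam S g l j i y := by
    rw [← Finset.sum_sub_distrib]
    refine Finset.sum_congr rfl fun l _ => ?_
    rw [Gam_eq_ChL hD hg hy l k i, Gam_eq_ChL hD hg hy l j i, Finset.mul_sum, Finset.mul_sum,
      ← Finset.sum_sub_distrib]
    exact Finset.sum_congr rfl fun q _ => by ring
  rw [Rm_eq_Gam hD hg hy, h1]
  ring

end

end Pool.Agent.CY.C
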