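import Pool.Agent.CY.S5.C15RmLow

import Pool.Agent.CY.S5.C09Cont
set_option autoImplicit false

open scoped Manifold ContDiff Topology
open MeasureTheory Set Filter

namespace Pool.Agent.CY.C

noncomputable section

variable {n : ℕ} {U : Set (V (n + 1))} {g : MF (n + 1)} {z : V n}

private theorem i16_pos {k : WithTop ℕ∞} (hg : MetOn U g k) (hz : bd z ∈ U) :
    0 < (g (bd z))⁻¹ 0 0 := (hg.pos _ hz).inv.diag_pos

theorem inv_block {k : WithTop ℕ∞} (hg : MetOn U g k) (hz : bd z ∈ U) (a b : Fin n) :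
    (tang g z)⁻¹ a b = (g (bd z))⁻¹ a.succ b.succ -
      (g (bd z))⁻¹ a.succ 0 * (g (bd z))⁻¹ b.succ 0 / (g (bd z))⁻¹ 0 0 := by
  have h00 := (i16_pos hg hz).ne'
  have key : (Matrix.of fun a b : Fin n => (g (bd z))⁻¹ a.succ b.succ -
      (g (bd z))⁻¹ a.succ 0 * (g (bd z))⁻¹ b.succ 0 / (g (bd z))⁻¹ 0 0) * tang g z = 1 := by
    ext a c
    rw [Matrix.mul_apply]
    simp only [Matrix.of_apply, tang, sub_mul, Finset.sum_sub_distrib]
    have h1 := hg.inv_mul hz a.succ c.succ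
    have h2 := hg.inv_mul hz 0 c.succ
    rw [Fin.sum_univ_succ] at h1 h2
    rw [if_neg (Fin.succ_ne_zero c).symm] at h2
    have h3 : ∑ x : Fin n, (g (bd z))⁻¹ a.succ 0 * (g (bd z))⁻¹ x.succ 0 / (g (bd z))⁻¹ 0 0 *
        g (bd z) x.succ c.succ = (g (bd z))⁻¹ a.succ 0 / (g (bd z))⁻¹ 0 0 *
        ∑ x : Fin n, (g (bd z))⁻¹ 0 x.succ * g (bd z) x.succ c.succ := by
      rw [Finset.mul_sum]
      refine Finset.sum_congr rfl fun x _ => ?_
      rw [hg.inv_symm hz x.succ 0]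
      ring
    have h4 : ∑ x : Fin n, (g (bd z))⁻¹ 0 x.succ * g (bd z) x.succ c.succ =
        -((g (bd z))⁻¹ 0 0 * g (bd z) 0 c.succ) := by linarith
    have h5 : ∑ x : Fin n, (g (bd z))⁻¹ a.succ x.succ * g (bd z) x.succ c.succ =
        (if a.succ = c.succ then 1 else 0) - (g (bd z))⁻¹ a.succ 0 * g (bd z) 0 c.succ := by linarith
    rw [h3, h4, h5, Matrix.one_apply]
    have h6 : (if a.succ = c.succ then (1 : ℝ) else 0) = if a = c then 1 else 0 := by
      simp [Fin.succ_inj]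
    rw [h6]
    field_simp
    ring
  rw [Matrix.inv_eq_left_inv key]
  rfl

theorem ChL_tang (hD : Dom (Hs n) U) (hg : MetOn U g 1) (hz : bd z ∈ U) (p i j : Fin n) :
    ChL univ (tang g) p i j z = ChL (Hs n) g p.succ i.succ j.succ (bd z) := by
  have h : ∀ a b c : Fin n, pd univ a (fun w => tang g w b c) z =
      pd (Hs n) a.succ (fun y => g y b.succ c.succ) (bd z) := by
    intro a b c
    exact pd_bd (hD.diffAt (hg.diffOn le_rfl b.succ c.succ) hz) a
  unfold ChL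
  rw [h, h, h]

private theorem quad_block {k : WithTop ℕ∞} (hg : MetOn U g k) (hz : bd z ∈ U)
    (x x' : Fin (n + 1) → ℝ) :
    ∑ l, ∑ q, (g (bd z))⁻¹ l q * (x l * x' q) =
      ∑ a : Fin n, ∑ b : Fin n, (tang g z)⁻¹ a b * (x a.succ * x' b.succ) +
        (∑ l, (g (bd z))⁻¹ 0 l * x l) * (∑ q, (g (bd z))⁻¹ 0 q * x' q) / (g (bd z))⁻¹ 0 0 := by
  have h00 := (i16_pos hg hz).ne'
  simp only [inv_block hg hz, sub_mul, Finset.sum_sub_distrib]
  have h1 : ∑ a : Fin n, ∑ b : Fin n, (g (bd z))⁻¹ a.succ 0 * (g (bd z))⁻¹ b.succ 0 /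
      (g (bd z))⁻¹ 0 0 * (x a.succ * x' b.succ) =
      (∑ a : Fin n, (g (bd z))⁻¹ 0 a.succ * x a.succ) *
      (∑ b : Fin n, (g (bd z))⁻¹ 0 b.succ * x' b.succ) / (g (bd z))⁻¹ 0 0 := by
    rw [Finset.sum_mul_sum, Finset.sum_div]
    refine Finset.sum_congr rfl fun a _ => ?_
    rw [Finset.sum_div]
    refine Finset.sum_congr rfl fun b _ => ?_
    rw [hg.inv_symm hz a.succ 0, hg.inv_symm hz b.succ 0]
    ring
  rw [h1]
  simp only [Fin.sum_univ_succ (f := fun l => (g (bd z))⁻¹ 0 l * x l),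
    Fin.sum_univ_succ (f := fun l => (g (bd z))⁻¹ 0 l * x' l)]
  rw [Fin.sum_univ_succ]
  simp only [Fin.sum_univ_succ (n := n), Finset.sum_add_distrib]
  have h2 : ∑ b : Fin n, (g (bd z))⁻¹ 0 b.succ * (x 0 * x' b.succ) =
      x 0 * ∑ b : Fin n, (g (bd z))⁻¹ 0 b.succ * x' b.succ := by
    rw [Finset.mul_sum]
    exact Finset.sum_congr rfl fun b _ => by ring
  have h3 : ∑ a : Fin n, (g (bd z))⁻¹ a.succ 0 * (x a.succ * x' 0) =
      x' 0 * ∑ a : Fin n, (g (bd z))⁻¹ 0 a.succ * x a.succ := by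
    rw [Finset.mul_sum]
    exact Finset.sum_congr rfl fun b _ => by rw [hg.inv_symm hz b.succ 0]; ring
  rw [h2, h3]
  field_simp
  ring

private theorem diffOn_ChL (hD : Dom (Hs n) U) (hg : MetOn U g 2) (p i j : Fin (n + 1)) :
    DifferentiableOn ℝ (ChL (Hs n) g p i j) U := by
  unfold ChL
  exact (((hD.diffOn_pd i (hg.smooth j p)).add (hD.diffOn_pd j (hg.smooth i p))).sub
    (hD.diffOn_pd p (hg.smooth i j))).const_mul _

/-- The Gauss equation. -/
theorem gauss_low (hD : Dom (Hs n) U) (hg : MetOn U g 2) (hz : bd z ∈ U) (e d a b : Fin n) :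
    Rm univ (tang g) e d a b z = Rm (Hs n) g e.succ d.succ a.succ b.succ (bd z) +
      (Gam (Hs n) g 0 a.succ e.succ (bd z) * Gam (Hs n) g 0 b.succ d.succ (bd z) -
        Gam (Hs n) g 0 b.succ e.succ (bd z) * Gam (Hs n) g 0 a.succ d.succ (bd z)) /
        (g (bd z))⁻¹ 0 0 := by
  have hg1 : MetOn U g 1 := hg.of_le (by norm_num)
  have hz' : z ∈ bdry U := hz
  have hpd : ∀ c p i j : Fin n, pd univ c (ChL univ (tang g) p i j) z =
      pd (Hs n) c.succ (ChL (Hs n) g p.succ i.succ j.succ) (bd z) := by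
    intro c p i j
    rw [(dom_bdry hD).pd_congr c (g := fun w => ChL (Hs n) g p.succ i.succ j.succ (bd w))
      (fun w hw => ChL_tang hD hg1 hw p i j) hz']
    exact pd_bd (hD.diffAt (diffOn_ChL hD hg p.succ i.succ j.succ) hz) c
  rw [Rm_eq_ChL (dom_bdry hD) (tang_metOn hg) hz', Rm_eq_ChL hD hg hz, hpd, hpd]
  simp only [ChL_tang hD hg1 hz]
  simp only [mul_sub, Finset.sum_sub_distrib]
  rw [quad_block hg hz (fun l => ChL (Hs n) g l a.succ e.succ (bd z))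
      (fun q => ChL (Hs n) g q b.succ d.succ (bd z)),
    quad_block hg hz (fun l => ChL (Hs n) g l b.succ e.succ (bd z))
      (fun q => ChL (Hs n) g q a.succ d.succ (bd z)),
    ← Gam_eq_ChL hD hg hz, ← Gam_eq_ChL hD hg hz, ← Gam_eq_ChL hD hg hz, ← Gam_eq_ChL hD hg hz]
  ring

private theorem gauss_contr (A : Matrix (Fin (n + 1)) (Fin (n + 1)) ℝ) (h0 : A 0 0 ≠ 0)
    (hs : ∀ i j, A i j = A j i)
    (R : Fin (n + 1) → Fin (n + 1) → Fin (n + 1) → Fin (n + 1) → ℝ)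
    (R1 : ∀ p i j k, R p i j k = -R i p j k) (R2 : ∀ p i j k, R p i j k = -R p i k j)
    (R4 : ∀ p i j k, R p i j k = R j k p i) (Ri : Fin (n + 1) → Fin (n + 1) → ℝ)
    (hRi : ∀ i j, Ri i j = ∑ k, ∑ p, A k p * R p i k j) :
    ∑ i : Fin n, ∑ j : Fin n, (A i.succ j.succ - A i.succ 0 * A j.succ 0 / A 0 0) *
      ∑ c : Fin n, ∑ p : Fin n, (A c.succ p.succ - A c.succ 0 * A p.succ 0 / A 0 0) *
        R p.succ i.succ c.succ j.succ =
    ∑ i, ∑ j, A i j * Ri i j - 2 * (∑ i, ∑ j, A i 0 * A j 0 * Ri i j) / A 0 0 := by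
  set h : Fin (n + 1) → Fin (n + 1) → ℝ := fun i j => A i j - A i 0 * A j 0 / A 0 0 with hh
  have hl : ∀ j, h 0 j = 0 := by
    intro j
    simp only [hh]
    rw [hs 0 j]
    field_simp
    ring
  have hr : ∀ i, h i 0 = 0 := by
    intro i
    simp only [hh]
    field_simp
    ring
  have e1 : ∀ i j : Fin (n + 1), ∑ c : Fin n, ∑ p : Fin n, h c.succ p.succ *
      R p.succ i c.succ j = ∑ c, ∑ p, h c p * R p i c j := by
    intro i j
    rw [Fin.sum_univ_succ]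
    simp only [Fin.sum_univ_succ (n := n), hl, hr, zero_mul, Finset.sum_const_zero, zero_add]
  have e2 : ∑ i : Fin n, ∑ j : Fin n, h i.succ j.succ *
      ∑ c : Fin n, ∑ p : Fin n, h c.succ p.succ * R p.succ i.succ c.succ j.succ =
      ∑ i, ∑ j, h i j * ∑ c, ∑ p, h c p * R p i c j := by
    simp only [e1]
    rw [Fin.sum_univ_succ (f := fun i => ∑ j, h i j * ∑ c, ∑ p, h c p * R p i c j)]
    simp only [hl, zero_mul, Finset.sum_const_zero, zero_add]
    refine Finset.sum_congr rfl fun i _ => ?_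
    rw [Fin.sum_univ_succ (f := fun j => h i.succ j * ∑ c, ∑ p, h c p * R p i.succ c j)]
    simp only [hr, zero_mul, zero_add]
  have e3 : ∀ i j, ∑ c, ∑ p, h c p * R p i c j =
      Ri i j - (∑ c, ∑ p, A c 0 * A p 0 * R p i c j) / A 0 0 := by
    intro i j
    rw [hRi, Finset.sum_div, ← Finset.sum_sub_distrib]
    refine Finset.sum_congr rfl fun c _ => ?_
    rw [Finset.sum_div, ← Finset.sum_sub_distrib]
    refine Finset.sum_congr rfl fun p _ => ?_
    simp only [hh]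
    ring
  have e4 : ∑ i, ∑ j, A i j * ∑ c, ∑ p, A c 0 * A p 0 * R p i c j =
      ∑ i, ∑ j, A i 0 * A j 0 * Ri i j := by
    have e5 : ∀ c p, A c 0 * A p 0 * Ri c p = ∑ i, ∑ j, A i j * (A c 0 * A p 0 * R p i c j) := by
      intro c p
      rw [hRi, Finset.mul_sum]
      refine Finset.sum_congr rfl fun i _ => ?_
      rw [Finset.mul_sum]
      refine Finset.sum_congr rfl fun j _ => ?_
      rw [R4 p i c j, R1 c j p i, R2 j c p i]
      ring
    simp only [e5, Finset.mul_sum]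
    calc ∑ i, ∑ j, ∑ c, ∑ p, A i j * (A c 0 * A p 0 * R p i c j)
        = ∑ i, ∑ c, ∑ j, ∑ p, A i j * (A c 0 * A p 0 * R p i c j) :=
          Finset.sum_congr rfl fun i _ => Finset.sum_comm
      _ = ∑ c, ∑ i, ∑ j, ∑ p, A i j * (A c 0 * A p 0 * R p i c j) := Finset.sum_comm
      _ = ∑ c, ∑ i, ∑ p, ∑ j, A i j * (A c 0 * A p 0 * R p i c j) :=
          Finset.sum_congr rfl fun c _ => Finset.sum_congr rfl fun i _ => Finset.sum_comm
      _ = ∑ c, ∑ p, ∑ i, ∑ j, A i j * (A c 0 * A p 0 * R p i c j) :=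
          Finset.sum_congr rfl fun c _ => Finset.sum_comm
  have e6 : ∑ i, ∑ j, A i 0 * A j 0 * ∑ c, ∑ p, A c 0 * A p 0 * R p i c j = 0 := by
    have e7 : ∑ i, ∑ j, A i 0 * A j 0 * ∑ c, ∑ p, A c 0 * A p 0 * R p i c j =
        -∑ i, ∑ j, A i 0 * A j 0 * ∑ c, ∑ p, A c 0 * A p 0 * R p i c j := by
      simp only [Finset.mul_sum]
      calc ∑ i, ∑ j, ∑ c, ∑ p, A i 0 * A j 0 * (A c 0 * A p 0 * R p i c j)
          = ∑ i, ∑ j, ∑ p, ∑ c, A i 0 * A j 0 * (A c 0 * A p 0 * R p i c j) :=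
            Finset.sum_congr rfl fun i _ => Finset.sum_congr rfl fun j _ => Finset.sum_comm
        _ = ∑ i, ∑ p, ∑ j, ∑ c, A i 0 * A j 0 * (A c 0 * A p 0 * R p i c j) :=
            Finset.sum_congr rfl fun i _ => Finset.sum_comm
        _ = ∑ p, ∑ i, ∑ j, ∑ c, A i 0 * A j 0 * (A c 0 * A p 0 * R p i c j) := Finset.sum_comm
        _ = ∑ p, ∑ j, ∑ i, ∑ c, A i 0 * A j 0 * (A c 0 * A p 0 * R p i c j) :=
            Finset.sum_congr rfl fun p _ => Finset.sum_comm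
        _ = ∑ p, ∑ j, ∑ c, ∑ i, A i 0 * A j 0 * (A c 0 * A p 0 * R p i c j) :=
            Finset.sum_congr rfl fun i _ => Finset.sum_congr rfl fun j _ => Finset.sum_comm
        _ = -∑ i, ∑ j, ∑ c, ∑ p, A i 0 * A j 0 * (A c 0 * A p 0 * R p i c j) := by
            rw [← Finset.sum_neg_distrib]
            refine Finset.sum_congr rfl fun i _ => ?_
            rw [← Finset.sum_neg_distrib]
            refine Finset.sum_congr rfl fun j _ => ?_
            rw [← Finset.sum_neg_distrib]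
            refine Finset.sum_congr rfl fun c _ => ?_
            rw [← Finset.sum_neg_distrib]
            refine Finset.sum_congr rfl fun p _ => ?_
            rw [R1 i p c j]
            ring
    linarith
  rw [e2]
  simp only [e3]
  have e8 : ∀ i j, h i j * (Ri i j - (∑ c, ∑ p, A c 0 * A p 0 * R p i c j) / A 0 0) =
      A i j * Ri i j - (A i 0 * A j 0 * Ri i j) / A 0 0 -
      (A i j * ∑ c, ∑ p, A c 0 * A p 0 * R p i c j) / A 0 0 +
      (A i 0 * A j 0 * ∑ c, ∑ p, A c 0 * A p 0 * R p i c j) / A 0 0 / A 0 0 := by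
    intro i j
    simp only [hh]
    field_simp
    ring
  simp only [e8, Finset.sum_add_distrib, Finset.sum_sub_distrib, ← Finset.sum_div, e4, e6]
  ring

/-- The contracted Gauss equation. -/
theorem gauss (hD : Dom (Hs n) U) (hg : MetOn U g 2) (hz : bd z ∈ U) :
    scal univ (tang g) z = scal (Hs n) g (bd z) -
      2 * (∑ i, ∑ j, (g (bd z))⁻¹ i 0 * (g (bd z))⁻¹ j 0 * Ric (Hs n) g i j (bd z)) / (g (bd z))⁻¹ 0 0 +
      meanCurv g z ^ 2 -
      (∑ a, ∑ b, ∑ c, ∑ d, (tang g z)⁻¹ a c * (tang g z)⁻¹ b d *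
        Gam (Hs n) g 0 a.succ b.succ (bd z) * Gam (Hs n) g 0 c.succ d.succ (bd z)) / (g (bd z))⁻¹ 0 0 := by
  have hz' : z ∈ bdry U := hz
  have hp := i16_pos hg hz
  have h00 := hp.ne'
  have hT := tang_metOn hg
  have key := gauss_contr (g (bd z))⁻¹ h00 (fun i j => hg.inv_symm hz i j)
    (fun p i j k => Rm (Hs n) g p i j k (bd z)) (Rm_skew1 hD hg hz) (fun p i j k => Rm_skew2 p i j k)
    (Rm_pair hD hg hz) (fun i j => Ric (Hs n) g i j (bd z)) (Ric_eq_Rm hD hg hz)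
  have hscal : scal (Hs n) g (bd z) = ∑ i, ∑ j, (g (bd z))⁻¹ i j * Ric (Hs n) g i j (bd z) := rfl
  rw [hscal, ← key]
  simp only [← inv_block hg hz]
  -- the left hand side
  have hL : scal univ (tang g) z = ∑ i, ∑ j, (tang g z)⁻¹ i j *
      ∑ c, ∑ p, (tang g z)⁻¹ c p * (Rm (Hs n) g p.succ i.succ c.succ j.succ (bd z) +
      (Gam (Hs n) g 0 c.succ p.succ (bd z) * Gam (Hs n) g 0 j.succ i.succ (bd z) -
        Gam (Hs n) g 0 j.succ p.succ (bd z) * Gam (Hs n) g 0 c.succ i.succ (bd z)) /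
        (g (bd z))⁻¹ 0 0) := by
    unfold scal
    refine Finset.sum_congr rfl fun i _ => Finset.sum_congr rfl fun j _ => ?_
    rw [Ric_eq_Rm (dom_bdry hD) hT hz']
    simp only [gauss_low hD hg hz]
  rw [hL]
  have hm : meanCurv g z ^ 2 = (∑ i, ∑ j, (tang g z)⁻¹ i j * Gam (Hs n) g 0 i.succ j.succ (bd z)) *
      (∑ c, ∑ p, (tang g z)⁻¹ c p * Gam (Hs n) g 0 c.succ p.succ (bd z)) / (g (bd z))⁻¹ 0 0 := by
    unfold meanCurv
    rw [div_pow, Real.sq_sqrt hp.le, pow_two]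
  rw [hm]
  have hs1 : ∀ i j, Gam (Hs n) g 0 i j (bd z) = Gam (Hs n) g 0 j i (bd z) :=
    fun i j => Gam_symm hD hg 0 i j hz
  have h2 : ∑ i, ∑ j, (tang g z)⁻¹ i j * ∑ c, ∑ p, (tang g z)⁻¹ c p *
      (Gam (Hs n) g 0 c.succ p.succ (bd z) * Gam (Hs n) g 0 j.succ i.succ (bd z)) =
      (∑ i, ∑ j, (tang g z)⁻¹ i j * Gam (Hs n) g 0 i.succ j.succ (bd z)) *
      (∑ c, ∑ p, (tang g z)⁻¹ c p * Gam (Hs n) g 0 c.succ p.succ (bd z)) := by
    rw [Finset.sum_mul]
    refine Finset.sum_congr rfl fun i _ => ?_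
    rw [Finset.sum_mul]
    refine Finset.sum_congr rfl fun j _ => ?_
    rw [mul_assoc]
    congr 1
    rw [Finset.mul_sum]
    refine Finset.sum_congr rfl fun c _ => ?_
    rw [Finset.mul_sum]
    refine Finset.sum_congr rfl fun p _ => ?_
    rw [hs1 j.succ i.succ]
    ring
  have h3 : ∑ i, ∑ j, (tang g z)⁻¹ i j * ∑ c, ∑ p, (tang g z)⁻¹ c p *
      (Gam (Hs n) g 0 j.succ p.succ (bd z) * Gam (Hs n) g 0 c.succ i.succ (bd z)) =
      ∑ a, ∑ b, ∑ c, ∑ d, (tang g z)⁻¹ a c * (tang g z)⁻¹ b d *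
        Gam (Hs n) g 0 a.succ b.succ (bd z) * Gam (Hs n) g 0 c.succ d.succ (bd z) := by
    simp only [Finset.mul_sum]
    -- indices: a = j, b = p, c = i, d = c
    calc ∑ i, ∑ j, ∑ c, ∑ p, (tang g z)⁻¹ i j * ((tang g z)⁻¹ c p *
          (Gam (Hs n) g 0 j.succ p.succ (bd z) * Gam (Hs n) g 0 c.succ i.succ (bd z)))
        = ∑ i, ∑ j, ∑ p, ∑ c, (tang g z)⁻¹ i j * ((tang g z)⁻¹ c p *
          (Gam (Hs n) g 0 j.succ p.succ (bd z) * Gam (Hs n) g 0 c.succ i.succ (bd z))) :=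
          Finset.sum_congr rfl fun i _ => Finset.sum_congr rfl fun j _ => Finset.sum_comm
      _ = ∑ j, ∑ i, ∑ p, ∑ c, (tang g z)⁻¹ i j * ((tang g z)⁻¹ c p *
          (Gam (Hs n) g 0 j.succ p.succ (bd z) * Gam (Hs n) g 0 c.succ i.succ (bd z))) :=
          Finset.sum_comm
      _ = ∑ j, ∑ p, ∑ i, ∑ c, (tang g z)⁻¹ i j * ((tang g z)⁻¹ c p *
          (Gam (Hs n) g 0 j.succ p.succ (bd z) * Gam (Hs n) g 0 c.succ i.succ (bd z))) :=
          Finset.sum_congr rfl fun j _ => Finset.sum_comm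
      _ = _ := by
          refine Finset.sum_congr rfl fun j _ => Finset.sum_congr rfl fun p _ =>
            Finset.sum_congr rfl fun i _ => Finset.sum_congr rfl fun c _ => ?_
          rw [hT.inv_symm hz' i j, hT.inv_symm hz' c p, hs1 c.succ i.succ]
          ring
  rw [← h3, ← h2]
  simp only [mul_add, mul_sub, mul_div_assoc', sub_div, Finset.sum_add_distrib,
    Finset.sum_sub_distrib, ← Finset.sum_div]
  ring

end

end Pool.Agent.CY.C
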