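import Pool.Agent.CY.S5.C14Bdy
import Pool.Agent.CY.S5.C16Gauss

/-!
CY-S5-C17 (helper90).  The normal component of `G(∇ρ)` on the boundary.
PLAN.  `GW 0 (bd z) = Σ_i g^{0i} Σ_j G_{ij} ρ^j`, `ρ^j = g^{j0}/√g^{00}` (`gr_rho_bd`), so
`-GW 0/√g^{00} = -(Σ g^{0i} g^{0j} Ric_{ij} - (scal/2) g^{00})/g^{00}`.  Insert `gauss`, `umbilic`
(`|A|² = H²/n`: `Σ k^{ac} k^{bd} k_{ab} k_{cd} = n`), and the definition of `meanCurv`.
-/

set_option autoImplicit false

open scoped Manifold ContDiff Topology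
open MeasureTheory Set Filter

namespace Pool.Agent.CY.C

noncomputable section

variable {n : ℕ} {U : Set (V (n + 1))} {g : MF (n + 1)} {ρ : V (n + 1) → ℝ} {z : V n}

private theorem quad_id {k : WithTop ℕ∞} (hk : MetOn (bdry U) (tang g) k) (hz : bd z ∈ U) (t : ℝ) :
    ∑ a : Fin n, ∑ b : Fin n, ∑ c : Fin n, ∑ d : Fin n, (tang g z)⁻¹ a c * (tang g z)⁻¹ b d *
      (t * tang g z a b) * (t * tang g z c d) = (n : ℝ) * t ^ 2 := by
  have hz' : z ∈ bdry U := mem_bdry.2 hz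
  have h1 : ∀ a b c : Fin n, ∑ d : Fin n, (tang g z)⁻¹ a c * (tang g z)⁻¹ b d *
      (t * tang g z a b) * (t * tang g z c d) =
      if c = b then t ^ 2 * ((tang g z)⁻¹ a c * tang g z a b) else 0 := by
    intro a b c
    have h2 : ∑ d : Fin n, tang g z c d * (tang g z)⁻¹ d b = if c = b then 1 else 0 :=
      hk.mul_inv hz' c b
    have h3 : ∀ d : Fin n, (tang g z)⁻¹ a c * (tang g z)⁻¹ b d *
        (t * tang g z a b) * (t * tang g z c d) =
        (t ^ 2 * ((tang g z)⁻¹ a c * tang g z a b)) * (tang g z c d * (tang g z)⁻¹ d b) := by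
      intro d
      rw [hk.inv_symm hz' b d]
      ring
    simp only [h3]
    rw [← Finset.mul_sum, h2]
    split_ifs
    · rw [mul_one]
    · rw [mul_zero]
  simp only [h1]
  have h4 : ∀ a b : Fin n, ∑ c : Fin n,
      (if c = b then t ^ 2 * ((tang g z)⁻¹ a c * tang g z a b) else 0) =
      t ^ 2 * (tang g z a b * (tang g z)⁻¹ b a) := by
    intro a b
    rw [Finset.sum_ite_eq' Finset.univ b, if_pos (Finset.mem_univ b), hk.inv_symm hz' a b]
    ring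
  simp only [h4]
  have h5 : ∀ a : Fin n, ∑ b : Fin n, t ^ 2 * (tang g z a b * (tang g z)⁻¹ b a) = t ^ 2 := by
    intro a
    rw [← Finset.mul_sum, hk.mul_inv hz' a a, if_pos rfl, mul_one]
  simp only [h5]
  rw [Finset.sum_const, Finset.card_univ, Fintype.card_fin, nsmul_eq_mul]

theorem flux (hn : 2 ≤ n) (h : CCEOn U g ρ) (hz : bd z ∈ U) :
    -GW (Hs n) g ρ 0 (bd z) / Real.sqrt ((g (bd z))⁻¹ 0 0) =
      (1 / 2) * (scal univ (tang g) z - ((n : ℝ) - 1) / (n : ℝ) * meanCurv g z ^ 2) := by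
  have hg := h.met
  have hn0 : (n : ℝ) ≠ 0 := by
    have : (2 : ℝ) ≤ n := by exact_mod_cast hn
    linarith
  have h00 : 0 < (g (bd z))⁻¹ 0 0 := inv00_pos hg hz
  have hs : 0 < Real.sqrt ((g (bd z))⁻¹ 0 0) := Real.sqrt_pos.2 h00
  have hs2 : Real.sqrt ((g (bd z))⁻¹ 0 0) ^ 2 = (g (bd z))⁻¹ 0 0 := Real.sq_sqrt h00.le
  have hG := gauss (z := z) h.dom (hg.of_le (by norm_num)) hz
  have hQ : ∑ a : Fin n, ∑ b : Fin n, ∑ c : Fin n, ∑ d : Fin n,
      (tang g z)⁻¹ a c * (tang g z)⁻¹ b d *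
        Gam (Hs n) g 0 a.succ b.succ (bd z) * Gam (Hs n) g 0 c.succ d.succ (bd z) =
      (n : ℝ) * (Real.sqrt ((g (bd z))⁻¹ 0 0) * (meanCurv g z / (n : ℝ))) ^ 2 := by
    rw [← quad_id (tang_metOn hg) hz]
    refine Finset.sum_congr rfl fun a _ => Finset.sum_congr rfl fun b _ =>
      Finset.sum_congr rfl fun c _ => Finset.sum_congr rfl fun d _ => ?_
    rw [umbilic (by omega) h hz a b, umbilic (by omega) h hz c d]
  have hA : GW (Hs n) g ρ 0 (bd z) =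
      ((∑ i, ∑ j, (g (bd z))⁻¹ i 0 * (g (bd z))⁻¹ j 0 * Ric (Hs n) g i j (bd z)) -
        scal (Hs n) g (bd z) / 2 * (g (bd z))⁻¹ 0 0) / Real.sqrt ((g (bd z))⁻¹ 0 0) := by
    unfold GW
    have h1 : ∀ i, ∑ j, Ein (Hs n) g i j (bd z) * gr (Hs n) g ρ j (bd z) =
        ((∑ j, (g (bd z))⁻¹ j 0 * Ric (Hs n) g i j (bd z)) -
          scal (Hs n) g (bd z) / 2 * (if i = 0 then 1 else 0)) / Real.sqrt ((g (bd z))⁻¹ 0 0) := by
      intro i
      rw [← hg.mul_inv hz i 0, Finset.mul_sum, ← Finset.sum_sub_distrib, Finset.sum_div]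
      refine Finset.sum_congr rfl fun j _ => ?_
      rw [gr_rho_bd (by omega) h hz j, Ein]
      ring
    simp only [h1]
    have h2 : ∀ i, (g (bd z))⁻¹ 0 i * (((∑ j, (g (bd z))⁻¹ j 0 * Ric (Hs n) g i j (bd z)) -
          scal (Hs n) g (bd z) / 2 * (if i = 0 then 1 else 0)) / Real.sqrt ((g (bd z))⁻¹ 0 0)) =
        ((∑ j, (g (bd z))⁻¹ i 0 * (g (bd z))⁻¹ j 0 * Ric (Hs n) g i j (bd z)) -
          (if i = 0 then scal (Hs n) g (bd z) / 2 * (g (bd z))⁻¹ 0 i else 0)) /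
          Real.sqrt ((g (bd z))⁻¹ 0 0) := by
      intro i
      have h3 : ∑ j, (g (bd z))⁻¹ i 0 * (g (bd z))⁻¹ j 0 * Ric (Hs n) g i j (bd z) =
          (g (bd z))⁻¹ 0 i * ∑ j, (g (bd z))⁻¹ j 0 * Ric (Hs n) g i j (bd z) := by
        rw [Finset.mul_sum]
        refine Finset.sum_congr rfl fun j _ => ?_
        rw [hg.inv_symm hz i 0]
        ring
      rw [h3]
      split_ifs
      · ring
      · ring
    simp only [h2]
    rw [← Finset.sum_div, Finset.sum_sub_distrib, Finset.sum_ite_eq' Finset.univ (0 : Fin (n + 1)),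
      if_pos (Finset.mem_univ _)]
  rw [hG, hQ, hA]
  set s := Real.sqrt ((g (bd z))⁻¹ 0 0) with hsdef
  set A := ∑ i, ∑ j, (g (bd z))⁻¹ i 0 * (g (bd z))⁻¹ j 0 * Ric (Hs n) g i j (bd z) with hAdef
  rw [← hs2]
  field_simp
  ring

end

end Pool.Agent.CY.C
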