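import Pool.Agent.CY.S5.Mean
import Pool.Agent.CY.S4.L2
import Pool.Agent.CY.S3.FinalA

/-!
Project CY, part S5: the divergence theorem on the manifold.
-/

set_option autoImplicit false
set_option linter.unusedSectionVars false

open scoped ContDiff Manifold
open MeasureTheory Set Filter Topology

namespace Pool.Agent.CY

section local_div

variable {n : ℕ}

/-- Extension by zero of a `C^1` function with compact support in `U`. -/
theorem ind_T1 {U K : Set (V (n + 1))} (hD : Dom (Hs n) U) {F : V (n + 1) → ℝ}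
    (hF : ContDiffOn ℝ 1 F U) (hK : IsCompact K) (hKU : K ⊆ U) (h0 : ∀ y ∈ U, y ∉ K → F y = 0) :
    U.indicator F ∈ S4.T1 n := by
  constructor
  · intro y hy
    by_cases hyU : y ∈ U
    · have h1 : ContDiffWithinAt ℝ 1 F (Hs n) y := hD.contDiffAt hF hyU
      refine h1.congr_of_eventuallyEq ?_ (indicator_of_mem hyU _)
      filter_upwards [hD.nhds y hyU] with z hz
      exact indicator_of_mem hz _
    · have hyK : y ∉ K := fun h => hyU (hKU h)
      have h1 : ContDiffWithinAt ℝ 1 (fun _ : V (n + 1) => (0 : ℝ)) (Hs n) y := contDiffWithinAt_const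
      have h2 : ∀ z, z ∉ K → U.indicator F z = 0 := by
        intro z hz
        by_cases hzU : z ∈ U
        · rw [indicator_of_mem hzU, h0 z hzU hz]
        · exact indicator_of_notMem hzU _
      refine h1.congr_of_eventuallyEq ?_ (h2 y hyK)
      filter_upwards [mem_nhdsWithin_of_mem_nhds (hK.isClosed.isOpen_compl.mem_nhds hyK)] with z hz
      exact h2 z hz
  · refine HasCompactSupport.intro hK fun z hz => ?_
    by_cases hzU : z ∈ U
    · rw [indicator_of_mem hzU, h0 z hzU hz]
    · exact indicator_of_notMem hzU _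

theorem pd_ind {U K : Set (V (n + 1))} (hD : Dom (Hs n) U) {F : V (n + 1) → ℝ}
    (hK : IsCompact K) (hKU : K ⊆ U) (h0 : ∀ y ∈ U, y ∉ K → F y = 0)
    (i : Fin (n + 1)) {y : V (n + 1)} (hy : y ∈ Hs n) :
    pd (Hs n) i (U.indicator F) y = U.indicator (pd (Hs n) i F) y := by
  by_cases hyU : y ∈ U
  · rw [indicator_of_mem hyU]
    exact hD.pd_congr i (fun z hz => indicator_of_mem hz _) hyU
  · rw [indicator_of_notMem hyU]
    have hyK : y ∉ K := fun h => hyU (hKU h)
    have h2 : ∀ z, z ∉ K → U.indicator F z = 0 := by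
      intro z hz
      by_cases hzU : z ∈ U
      · rw [indicator_of_mem hzU, h0 z hzU hz]
      · exact indicator_of_notMem hzU _
    have h3 : U.indicator F =ᶠ[𝓝[Hs n] y] fun _ => 0 := by
      filter_upwards [mem_nhdsWithin_of_mem_nhds (hK.isClosed.isOpen_compl.mem_nhds hyK)] with z hz
      exact h2 z hz
    rw [pd, h3.fderivWithin_eq (h2 y hyK)]
    simp

/-- The divergence theorem in a chart. -/
theorem div_local {U K : Set (V (n + 1))} (hD : Dom (Hs n) U) {g : MF (n + 1)} (hg : MetOn U g 1)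
    {W : Fin (n + 1) → V (n + 1) → ℝ} (hW : ∀ i, ContDiffOn ℝ 1 (W i) U) (hK : IsCompact K)
    (hKU : K ⊆ U) (h0 : ∀ i, ∀ y ∈ U, y ∉ K → W i y = 0) :
    ∫ y in Ho n, U.indicator (fun y => sdet g y * dvg (Hs n) g W y) y =
      -∫ z : V n, {z | bd z ∈ U}.indicator (fun z => sdet g (bd z) * W 0 (bd z)) z := by
  have h1 : ∀ i, ContDiffOn ℝ 1 (fun y => sdet g y * W i y) U := fun i => hg.contDiffOn_sdet.mul (hW i)
  have h2 : ∀ i, ∀ y ∈ U, y ∉ K → sdet g y * W i y = 0 := fun i y hy hyK => by
    rw [h0 i y hy hyK, mul_zero]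
  have h3 : ∀ i, U.indicator (fun y => sdet g y * W i y) ∈ S4.T1 n := fun i =>
    ind_T1 hD (h1 i) hK hKU (h2 i)
  have h4 : ∀ y ∈ Ho n, U.indicator (fun y => sdet g y * dvg (Hs n) g W y) y =
      ∑ i, pd (Hs n) i (U.indicator (fun y => sdet g y * W i y)) y := by
    intro y hy
    have hyH : y ∈ Hs n := Ho_subset_Hs hy
    simp only [pd_ind hD hK hKU (h2 _) _ hyH]
    by_cases hyU : y ∈ U
    · simp only [indicator_of_mem hyU]
      exact (sum_pd_sdet hD hg le_rfl (fun i => (hW i).differentiableOn (by simp)) hyU).symm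
    · simp [indicator_of_notMem hyU]
  rw [setIntegral_congr_fun measurableSet_Ho h4]
  have h5 : ∀ i, Integrable (pd (Hs n) i (U.indicator (fun y => sdet g y * W i y))) (S4.nu n) := fun i =>
    memLp_one_iff_integrable.mp ((S4.T1_memLp (h3 i) 1).2 i)
  rw [integral_finsetSum _ (fun i _ => h5 i), Fin.sum_univ_succ, (S4.div_half (h3 0)).1]
  have h6 : ∀ a : Fin n, ∫ x in Ho n, pd (Hs n) a.succ (U.indicator (fun y => sdet g y * W a.succ y)) x = 0 :=
    fun a => (S4.div_half (h3 a.succ)).2 a
  simp only [h6, Finset.sum_const_zero, add_zero]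
  rfl

/-- `det k = det g · g^{00}`. -/
theorem det_tang (g : MF (n + 1)) (z : V n) (h : (g (bd z)).det ≠ 0) :
    (tang g z).det = (g (bd z)).det * (g (bd z))⁻¹ 0 0 := by
  rw [Matrix.inv_def, Ring.inverse_eq_inv', Matrix.smul_apply, smul_eq_mul, ← mul_assoc,
    mul_inv_cancel₀ h, one_mul, Matrix.adjugate_fin_succ_eq_det_submatrix]
  simp only [Fin.val_zero, add_zero, pow_zero, one_mul, Fin.succAbove_zero]
  rfl

theorem sqrt_det_tang {U : Set (V (n + 1))} {g : MF (n + 1)} {k : WithTop ℕ∞} (hg : MetOn U g k) {z : V n}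
    (hz : bd z ∈ U) :
    Real.sqrt (tang g z).det = sdet g (bd z) * Real.sqrt ((g (bd z))⁻¹ 0 0) := by
  rw [det_tang g z (hg.det_pos hz).ne', Real.sqrt_mul (hg.det_pos hz).le]
  rfl

end local_div

section global_div

variable {n : ℕ} {X : Type} [TopologicalSpace X] [ChartedSpace (EuclideanHalfSpace (n + 1)) X]
  [IsManifold (𝓡∂ (n + 1)) ∞ X] [CompactSpace X] [T2Space X] [MeasurableSpace X] [BorelSpace X]

theorem continuousOn_boundary_integrable (g : Metric n X) {F : X → ℝ}
    (hF : ContinuousOn F ((𝓡∂ (n + 1)).boundary X)) : Integrable F (bvol g) := by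
  have hB : IsClosed ((𝓡∂ (n + 1)).boundary X) := isClosed_boundary
  have h1 : (bvol g).restrict ((𝓡∂ (n + 1)).boundary X) = bvol g :=
    Measure.restrict_eq_self_of_ae_mem (ae_bvol_boundary g)
  have h2 : IntegrableOn F ((𝓡∂ (n + 1)).boundary X) (bvol g) := by
    haveI := instFiniteBVol g
    exact hF.integrableOn_compact hB.isCompact
  rw [IntegrableOn, h1] at h2
  exact h2

theorem continuous_integrable_vol (g : Metric n X) {F : X → ℝ} (hF : Continuous F) :
    Integrable F (vol g) := by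
  haveI := instFiniteVol g
  exact hF.integrable_of_hasCompactSupport (HasCompactSupport.of_compactSpace F)

/-- Vector fields of class `C^1`. -/
structure IsVF (W : OpenPartialHomeomorph X (EuclideanHalfSpace (n + 1)) → Fin (n + 1) → V (n + 1) → ℝ) :
    Prop where
  smooth : ∀ e ∈ atlas (EuclideanHalfSpace (n + 1)) X, ∀ i, ContDiffOn ℝ 1 (W e i) (dom e)
  compat : ∀ e ∈ atlas (EuclideanHalfSpace (n + 1)) X, ∀ e' ∈ atlas (EuclideanHalfSpace (n + 1)) X,
    ∀ y ∈ dom2 e e', ∀ a, W e' a (tr e e' y) = ∑ i, jac e e' y a i * W e i y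

/-- The derivative of `χ` in the direction of the vector field. -/
noncomputable def vfd (W : OpenPartialHomeomorph X (EuclideanHalfSpace (n + 1)) → Fin (n + 1) → V (n + 1) → ℝ)
    (χ : X → ℝ) (p : X) : ℝ :=
  ∑ a, pd (Hs n) a (loc (ch p) χ) (co (ch (n := n) p) p) * W (ch p) a (co (ch (n := n) p) p)

theorem vfd_eq {W : OpenPartialHomeomorph X (EuclideanHalfSpace (n + 1)) → Fin (n + 1) → V (n + 1) → ℝ}
    (hW : IsVF W) {e : OpenPartialHomeomorph X (EuclideanHalfSpace (n + 1))}
    (he : e ∈ atlas (EuclideanHalfSpace (n + 1)) X) {χ : X → ℝ}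
    (hχ : ContMDiff (𝓡∂ (n + 1)) 𝓘(ℝ) 1 χ) {p : X} (hp : p ∈ e.source) :
    vfd W χ p = ∑ a, pd (Hs n) a (loc e χ) (co e p) * W e a (co e p) := by
  have h1 : DifferentiableOn ℝ (loc e χ) (dom e) := (contDiffOn_loc he (k := 1) hχ).differentiableOn (by simp)
  have h2 := dom2_co (e := ch (n := n) p) (mem_ch_source p) hp
  have h3 : tr (ch (n := n) p) e (co (ch (n := n) p) p) = co e p := tr_co (mem_ch_source p)
  have h4 : ∀ a, W e a (co e p) = ∑ i, jac (ch p) e (co (ch (n := n) p) p) a i *
      W (ch p) i (co (ch (n := n) p) p) := by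
    intro a
    rw [← h3]
    exact hW.compat _ (ch_mem_atlas p) e he _ h2 a
  rw [vfd]
  simp only [pd_loc (ch_mem_atlas p) he h1 _ h2, h3, h4, Finset.sum_mul, Finset.mul_sum]
  rw [Finset.sum_comm]
  exact Finset.sum_congr rfl fun a _ => Finset.sum_congr rfl fun i _ => by ring

theorem continuous_vfd {W : OpenPartialHomeomorph X (EuclideanHalfSpace (n + 1)) → Fin (n + 1) → V (n + 1) → ℝ}
    (hW : IsVF W) {χ : X → ℝ} (hχ : ContMDiff (𝓡∂ (n + 1)) 𝓘(ℝ) 1 χ) : Continuous (vfd W χ) :=
  continuous_of_chart (fun e y => ∑ a, pd (Hs n) a (loc e χ) y * W e a y)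
    (fun _ he _ hp => vfd_eq hW he hχ hp)
    (fun _ he => continuousOn_finsetSum _ fun a _ =>
      ((dom_chart _).continuousOn_pd a (contDiffOn_loc he (k := 1) hχ)).mul (hW.smooth _ he a).continuousOn)

theorem pd_loc_zero {e : OpenPartialHomeomorph X (EuclideanHalfSpace (n + 1))} {w : X → ℝ} {p : X}
    (hp : p ∈ e.source) (hw : p ∉ tsupport w) (i : Fin (n + 1)) : pd (Hs n) i (loc e w) (co e p) = 0 := by
  have h1 : ∀ᶠ q in 𝓝 p, w q = 0 := by
    filter_upwards [(isClosed_tsupport w).isOpen_compl.mem_nhds hw] with q hq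
    exact image_eq_zero_of_notMem_tsupport hq
  have hy := co_mem_dom e hp
  have h2 : Tendsto (pt e) (𝓝[Hs n] (co e p)) (𝓝 p) := by
    rw [(dom_chart e).nhds_eq hy]
    have := continuousOn_pt e (co e p) hy
    rw [ContinuousWithinAt, pt_co e hp] at this
    exact this
  have h3 : loc e w =ᶠ[𝓝[Hs n] (co e p)] fun _ => 0 := h2.eventually h1
  have h4 : loc e w (co e p) = 0 := by
    rw [loc, pt_co e hp]; exact h1.self_of_nhds
  rw [pd, h3.fderivWithin_eq h4]
  simp

/-- The divergence theorem for a field given in one chart, with a cutoff function. -/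
theorem chart_div (g : Metric n X) {e : OpenPartialHomeomorph X (EuclideanHalfSpace (n + 1))}
    (he : e ∈ atlas (EuclideanHalfSpace (n + 1)) X) {η : X → ℝ}
    (hη : ContMDiff (𝓡∂ (n + 1)) 𝓘(ℝ) 1 η) (hs : tsupport η ⊆ e.source)
    {W : Fin (n + 1) → V (n + 1) → ℝ} (hW : ∀ i, ContDiffOn ℝ 1 (W i) (dom e)) :
    ∫ p in e.source, (η p * dvg (Hs n) (g.G e) W (co e p) +
        ∑ i, pd (Hs n) i (loc e η) (co e p) * W i (co e p)) ∂(vol g) =
      ∫ p in e.source, η p * (-(W 0 (co e p)) / Real.sqrt ((g.G e (co e p))⁻¹ 0 0)) ∂(bvol g) := by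
  have hDe := dom_chart e
  set K := co e '' tsupport η with hKdef
  have hK : IsCompact K := by
    refine IsCompact.image_of_continuousOn (isClosed_tsupport _).isCompact ?_
    exact (continuousOn_co e).mono hs
  have hKU : K ⊆ dom e := by
    rintro _ ⟨p, hp, rfl⟩
    exact co_mem_dom e (hs hp)
  have hKn : ∀ y ∈ dom e, y ∉ K → pt e y ∉ tsupport η := by
    intro y hy hyK h
    exact hyK ⟨pt e y, h, co_pt e hy⟩
  have hχe : ContDiffOn ℝ 1 (loc e η) (dom e) := contDiffOn_loc he (k := 1) hη
  have hWe : ∀ a, ContDiffOn ℝ 1 (fun y => loc e η y * W a y) (dom e) := fun a => hχe.mul (hW a)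
  have hW0 : ∀ a, ∀ y ∈ dom e, y ∉ K → loc e η y * W a y = 0 := by
    intro a y hy hyK
    rw [loc, image_eq_zero_of_notMem_tsupport (hKn y hy hyK), zero_mul]
  have hmain := div_local hDe (g.metOn1 he) hWe hK hKU hW0
  rw [int_vol_source g he, int_bvol_source g he, ← integral_indicator (isOpen_bdom e).measurableSet]
  have hL0 : ∫ y in dom e, (η (pt e y) * dvg (Hs n) (g.G e) W (co e (pt e y)) +
        ∑ i, pd (Hs n) i (loc e η) (co e (pt e y)) * W i (co e (pt e y))) * rhoS g e y =
      ∫ y in Ho n, (dom e).indicator (fun y => sdet (g.G e) y *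
          dvg (Hs n) (g.G e) (fun a y => loc e η y * W a y) y) y := by
    rw [← restrict_Hs, setIntegral_indicator (measurableSet_dom e), inter_eq_right.2 (dom_subset e)]
    refine setIntegral_congr_fun (measurableSet_dom e) fun y hy => ?_
    rw [dvg_mul hDe (hχe.differentiableOn (by simp))
      (fun a => (hW a).differentiableOn (by simp)) hy, co_pt e hy, rhoS, sdet, loc]
    ring
  have hR : ∀ z, (bdom e).indicator (fun z => (η (pt e (bd z)) *
        (-(W 0 (co e (pt e (bd z)))) / Real.sqrt ((g.G e (co e (pt e (bd z))))⁻¹ 0 0))) * rhoB g e z) z =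
      -({z | bd z ∈ dom e}.indicator (fun z => sdet (g.G e) (bd z) *
        (loc e η (bd z) * W 0 (bd z))) z) := by
    intro z
    by_cases hz : z ∈ bdom e
    · have hz' : z ∈ {z : V n | bd z ∈ dom e} := hz
      rw [indicator_of_mem hz, indicator_of_mem hz', co_pt e hz, rhoB,
        sqrt_det_tang (g.metOn1 he) hz, loc]
      have h5 : Real.sqrt ((g.G e (bd z))⁻¹ 0 0) ≠ 0 :=
        (Real.sqrt_pos.2 (inv00_pos (g.metOn he) hz)).ne'
      field_simp
    · have hz' : z ∉ {z : V n | bd z ∈ dom e} := hz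
      rw [indicator_of_notMem hz, indicator_of_notMem hz', neg_zero]
  rw [hL0]
  simp only [hR]
  rw [integral_neg]
  exact hmain

/-- The divergence theorem on the manifold. -/
theorem divergence (g : Metric n X)
    {W : OpenPartialHomeomorph X (EuclideanHalfSpace (n + 1)) → Fin (n + 1) → V (n + 1) → ℝ}
    (hW : IsVF W) {D N : X → ℝ} (hDc : Continuous D) (hNc : ContinuousOn N ((𝓡∂ (n + 1)).boundary X))
    (hDiv : ∀ e ∈ atlas (EuclideanHalfSpace (n + 1)) X, ∀ y ∈ dom e,
      D (pt e y) = dvg (Hs n) (g.G e) (W e) y)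
    (hN : ∀ e ∈ atlas (EuclideanHalfSpace (n + 1)) X, ∀ z ∈ bdom e,
      N (pt e (bd z)) = -W e 0 (bd z) / Real.sqrt ((g.G e (bd z))⁻¹ 0 0)) :
    ∫ p, D p ∂(vol g) = ∫ p, N p ∂(bvol g) := by
  obtain ⟨f⟩ := exists_frame g
  -- the partition of unity
  set χ : Fin f.N → X → ℝ := fun i p => f.η i p ^ 2 with hχdef
  have hχs : ∀ i, ContMDiff (𝓡∂ (n + 1)) 𝓘(ℝ) 1 (χ i) := fun i =>
    ((f.η_smooth i).pow 2).of_le (by exact_mod_cast le_top)
  have hχc : ∀ i, Continuous (χ i) := fun i => (hχs i).continuous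
  have hχt : ∀ i, tsupport (χ i) ⊆ (f.e i).source := fun i => by
    refine subset_trans (closure_mono ?_) (f.η_supp i)
    intro p hp h
    apply hp
    simp only [hχdef]
    rw [h]
    simp
  -- the local identity
  have hloc : ∀ i, ∫ p, (χ i p * D p + vfd W (χ i) p) ∂(vol g) = ∫ p, χ i p * N p ∂(bvol g) := by
    intro i
    have he := f.e_mem i
    set e := f.e i with hedef
    have hmain := chart_div g he (hχs i) (hχt i) (hW.smooth e he)
    have hs1 : Function.support (fun p => χ i p * D p + vfd W (χ i) p) ⊆ e.source := by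
      intro p hp
      by_contra hps
      apply hp
      have h1 : p ∉ tsupport (χ i) := fun h => hps (hχt i h)
      simp only
      rw [image_eq_zero_of_notMem_tsupport h1, zero_mul, zero_add, vfd]
      refine Finset.sum_eq_zero fun a _ => ?_
      rw [pd_loc_zero (mem_ch_source p) h1 a, zero_mul]
    have hs2 : Function.support (fun p => χ i p * N p) ⊆ e.source := by
      intro p hp
      by_contra hps
      apply hp
      have h1 : p ∉ tsupport (χ i) := fun h => hps (hχt i h)
      simp only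
      rw [image_eq_zero_of_notMem_tsupport h1, zero_mul]
    rw [← setIntegral_eq_integral_of_forall_compl_eq_zero (s := e.source) (μ := vol g) (fun p hp => by
        by_contra h
        exact hp (hs1 h)),
      ← setIntegral_eq_integral_of_forall_compl_eq_zero (s := e.source) (μ := bvol g) (fun p hp => by
        by_contra h
        exact hp (hs2 h))]
    have hL : ∫ p in e.source, (χ i p * D p + vfd W (χ i) p) ∂(vol g) =
        ∫ p in e.source, (χ i p * dvg (Hs n) (g.G e) (W e) (co e p) +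
          ∑ a, pd (Hs n) a (loc e (χ i)) (co e p) * W e a (co e p)) ∂(vol g) := by
      refine setIntegral_congr_fun e.open_source.measurableSet fun p hp => ?_
      rw [vfd_eq hW he (hχs i) hp, ← hDiv e he _ (co_mem_dom e hp), pt_co e hp]
    have hR : ∫ p in e.source, χ i p * N p ∂(bvol g) =
        ∫ p in e.source, χ i p * (-(W e 0 (co e p)) / Real.sqrt ((g.G e (co e p))⁻¹ 0 0)) ∂(bvol g) := by
      refine setIntegral_congr_ae e.open_source.measurableSet ?_
      filter_upwards [ae_bvol_boundary g] with p hpb hp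
      have h0 : co e p 0 = 0 := (mem_boundary_iff he hp).1 hpb
      have h1 : bd (tl (co e p)) = co e p := bd_tl h0
      have h2 : tl (co e p) ∈ bdom e := by
        show bd (tl (co e p)) ∈ dom e
        rw [h1]; exact co_mem_dom e hp
      have h3 := hN e he _ h2
      rw [h1, pt_co e hp] at h3
      rw [h3]
    rw [hL, hR]
    exact hmain
  -- summation
  have hsum1 : ∀ p, ∑ i, χ i p = 1 := f.η_sum
  have hvsum : ∀ p, ∑ i, vfd W (χ i) p = 0 := by
    intro p
    have hDe := dom_chart (ch (n := n) p)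
    have hy := co_ch_mem (n := n) p
    have h1 : ∀ a, ∑ i, pd (Hs n) a (loc (ch (n := n) p) (χ i)) (co (ch (n := n) p) p) = 0 := by
      intro a
      rw [← hDe.pd_sum a Finset.univ (f := fun i => loc (ch (n := n) p) (χ i)) (fun i _ =>
        (contDiffOn_loc (ch_mem_atlas p) (k := 1) (hχs i)).differentiableOn (by simp)) hy]
      have h2 := hDe.pd_congr a (f := fun z => ∑ i, loc (ch (n := n) p) (χ i) z) (g := fun _ => 1)
        (fun z _ => hsum1 (pt (ch (n := n) p) z)) hy
      rw [h2, pd_const]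
    simp only [vfd]
    rw [Finset.sum_comm]
    refine Finset.sum_eq_zero fun a _ => ?_
    rw [← Finset.sum_mul, h1 a, zero_mul]
  have hi1 : ∀ i, Integrable (fun p => χ i p * D p) (vol g) := fun i =>
    continuous_integrable_vol g ((hχc i).mul hDc)
  have hi2 : ∀ i, Integrable (vfd W (χ i)) (vol g) := fun i =>
    continuous_integrable_vol g (continuous_vfd hW (hχs i))
  have hi3 : ∀ i, Integrable (fun p => χ i p * N p) (bvol g) := fun i =>
    continuousOn_boundary_integrable g ((hχc i).continuousOn.mul hNc)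
  have e1 : ∫ p, D p ∂(vol g) = ∑ i, ∫ p, (χ i p * D p + vfd W (χ i) p) ∂(vol g) := by
    have h1 : ∀ i ∈ (Finset.univ : Finset (Fin f.N)),
        Integrable (fun p => χ i p * D p + vfd W (χ i) p) (vol g) := fun i _ => (hi1 i).add (hi2 i)
    rw [← integral_finsetSum _ h1]
    refine integral_congr_ae (Eventually.of_forall fun p => ?_)
    simp only [Finset.sum_add_distrib, hvsum p, ← Finset.sum_mul, hsum1 p]
    ring
  have e2 : ∫ p, N p ∂(bvol g) = ∑ i, ∫ p, χ i p * N p ∂(bvol g) := by
    rw [← integral_finsetSum _ (fun i _ => hi3 i)]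
    refine integral_congr_ae (Eventually.of_forall fun p => ?_)
    simp only [← Finset.sum_mul, hsum1 p]
    ring
  rw [e1, e2]
  exact Finset.sum_congr rfl fun i _ => hloc i

end global_div

end Pool.Agent.CY
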