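import Pool.Agent.CY.S5.C09Cont
import Pool.Agent.CY.S5.Div

/-!
CY-S5-C18 (helper90).  `G(∇ρ)` is a vector field on `X`.
-/

set_option autoImplicit false

open scoped Manifold ContDiff Topology
open MeasureTheory Set Filter

namespace Pool.Agent.CY.C

noncomputable section

variable {n : ℕ} {X : Type} [TopologicalSpace X] [ChartedSpace (EuclideanHalfSpace (n + 1)) X]
  [IsManifold (𝓡∂ (n + 1)) ∞ X]
  {e e' : OpenPartialHomeomorph X (EuclideanHalfSpace (n + 1))}

/-- The Einstein tensor as a matrix. -/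
def EinM (S : Set (V (n + 1))) (g : MF (n + 1)) (y : V (n + 1)) : Matrix (Fin (n + 1)) (Fin (n + 1)) ℝ :=
  Matrix.of fun i j => Ein S g i j y

theorem EinM_inv (g : Metric n X) (he : e ∈ atlas (EuclideanHalfSpace (n + 1)) X)
    (he' : e' ∈ atlas (EuclideanHalfSpace (n + 1)) X) {y : V (n + 1)} (hy : y ∈ dom2 e e') :
    EinM (Hs n) (g.G e) y = (jac e e' y).transpose * EinM (Hs n) (g.G e') (tr e e' y) * jac e e' y := by
  have h1 := g.compat_mat he he' hy
  have h2 := scal_inv g he he' hy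
  have hR : (Matrix.of fun i j => Ric (Hs n) (g.G e) i j y) = (jac e e' y).transpose *
      (Matrix.of fun i j => Ric (Hs n) (g.G e') i j (tr e e' y)) * jac e e' y := by
    ext i j
    rw [Matrix.of_apply, Ric_inv g he he' i j hy, Matrix.mul_apply]
    simp only [Matrix.mul_apply, Matrix.transpose_apply, Finset.sum_mul, Matrix.of_apply]
    rw [Finset.sum_comm]
    exact Finset.sum_congr rfl fun b _ => Finset.sum_congr rfl fun c _ => by ring
  have h3 : ∀ (g : MF (n + 1)) (y : V (n + 1)), EinM (Hs n) g y =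
      (Matrix.of fun i j => Ric (Hs n) g i j y) - (scal (Hs n) g y / 2) • g y := by
    intro g y
    ext i j
    simp [EinM, Ein]
  rw [h3, h3, hR, h2, h1]
  simp only [Matrix.mul_sub, Matrix.sub_mul, Matrix.mul_smul, Matrix.smul_mul]

theorem GW_eq_mulVec (S : Set (V (n + 1))) (g : MF (n + 1)) (f : V (n + 1) → ℝ) (y : V (n + 1)) :
    (fun k => GW S g f k y) = ((g y)⁻¹ * EinM S g y * (g y)⁻¹).mulVec (fun l => pd S l f y) := by
  funext k
  have h1 : (fun l => gr S g f l y) = (g y)⁻¹.mulVec (fun l => pd S l f y) := by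
    funext l
    rfl
  have h2 : GW S g f k y = (g y)⁻¹.mulVec ((EinM S g y).mulVec (fun l => gr S g f l y)) k := rfl
  rw [h2, h1, Matrix.mulVec_mulVec, Matrix.mulVec_mulVec, Matrix.mul_assoc]

theorem GW_compat (g : Metric n X) (he : e ∈ atlas (EuclideanHalfSpace (n + 1)) X)
    (he' : e' ∈ atlas (EuclideanHalfSpace (n + 1)) X) {u : X → ℝ}
    (hu : DifferentiableOn ℝ (loc e' u) (dom e')) {y : V (n + 1)} (hy : y ∈ dom2 e e')
    (a : Fin (n + 1)) :
    GW (Hs n) (g.G e') (loc e' u) a (tr e e' y) =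
      ∑ i, jac e e' y a i * GW (Hs n) (g.G e) (loc e u) i y := by
  have h1 := g.compat_inv he he' hy
  have h2 := EinM_inv g he he' hy
  have h3 : (fun l => pd (Hs n) l (loc e u) y) =
      (jac e e' y).transpose.mulVec (fun l => pd (Hs n) l (loc e' u) (tr e e' y)) := by
    funext l
    rw [pd_loc he he' hu l hy]
    rfl
  have h4 : (fun k => GW (Hs n) (g.G e') (loc e' u) k (tr e e' y)) =
      (jac e e' y).mulVec (fun i => GW (Hs n) (g.G e) (loc e u) i y) := by
    rw [GW_eq_mulVec, GW_eq_mulVec, h3, Matrix.mulVec_mulVec, Matrix.mulVec_mulVec, ← h1, h2]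
    congr 1
    simp only [Matrix.mul_assoc]
  exact congrFun h4 a

theorem contDiffOn_GW2 {m : ℕ} {S U : Set (V m)} {g : MF m} (hD : Dom S U) (hg : MetOn U g 3) {f : V m → ℝ}
    (hf : ContDiffOn ℝ 2 f U) (k : Fin m) : ContDiffOn ℝ 1 (GW S g f k) U := by
  have h13 : (1 : WithTop ℕ∞) ≤ 3 := by norm_num
  have h123 : (1 : WithTop ℕ∞) + 2 ≤ 3 := by norm_num
  have h112 : (1 : WithTop ℕ∞) + 1 ≤ 2 := two_eq_one_add_one
  have hg1 : MetOn U g 1 := hg.of_le h13
  unfold GW Ein
  refine ContDiffOn.sum fun i _ => (hg1.contDiffOn_inv k i).mul (ContDiffOn.sum fun j _ => ?_)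
  refine ContDiffOn.mul ?_ (contDiffOn_grd hD h112 hg1 hf j)
  exact (contDiffOn_Ric hD h123 hg i j).sub (((contDiffOn_scal hD h123 hg).div_const 2).mul (hg1.smooth i j))

/-- `G(∇f)` is a vector field of class `C^1` for `f` of class `C^2`. -/
theorem isVF_GW (g : Metric n X) {f : X → ℝ} (hf : ContMDiff (𝓡∂ (n + 1)) 𝓘(ℝ) 2 f) :
    IsVF (X := X) (fun e k => GW (Hs n) (g.G e) (loc e f) k) where
  smooth := fun e he k => contDiffOn_GW2 (dom_chart e) (g.metOn he) (contDiffOn_loc he (k := 2) hf) k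
  compat := fun e he e' he' y hy a => by
    refine GW_compat g he he' ?_ hy a
    exact (contDiffOn_loc he' (k := 2) hf).differentiableOn (by norm_num)

end

end Pool.Agent.CY.C
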