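import Pool.Agent.CY.S5.ConfU

/-!
Project CY, part S5: Jacobi's formula, the divergence form of the Laplacian, the Yamabe form of the scalar
curvature in general dimension.
-/

set_option autoImplicit false

open scoped ContDiff Manifold
open MeasureTheory Set Filter Topology

namespace Pool.Agent.CY

section jac

variable {m : ℕ} {S U : Set (V m)} {g : MF m} {k : WithTop ℕ∞}

theorem Dom.pd_prod (hD : Dom S U) {ι : Type} [DecidableEq ι] (l : Fin m) (s : Finset ι) {f : ι → V m → ℝ}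
    (hf : ∀ a ∈ s, DifferentiableOn ℝ (f a) U) {y : V m} (hy : y ∈ U) :
    pd S l (fun z => ∏ a ∈ s, f a z) y = ∑ a ∈ s, (∏ b ∈ s.erase a, f b y) * pd S l (f a) y := by
  have h1 : HasFDerivWithinAt (fun z => ∏ a ∈ s, f a z)
      (∑ a ∈ s, (∏ b ∈ s.erase a, f b y) • fderivWithin ℝ (f a) S y) S y :=
    HasFDerivWithinAt.finset_prod fun a ha => (hD.diffAt (hf a ha) hy).hasFDerivWithinAt
  simp only [pd]
  rw [h1.fderivWithin (hD.uniqAt hy)]
  simp [ContinuousLinearMap.sum_apply]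

/-- Jacobi's formula. -/
theorem pd_det (hD : Dom S U) (hg : ∀ i j, DifferentiableOn ℝ (fun y => g y i j) U) (l : Fin m) {y : V m}
    (hy : y ∈ U) : pd S l (fun z => (g z).det) y =
      ∑ i, ∑ j, (g y).adjugate i j * pd S l (fun z => g z j i) y := by
  have h1 : ∀ i, ∑ j, (g y).adjugate i j * pd S l (fun z => g z j i) y =
      ((g y).updateCol i (fun j => pd S l (fun z => g z j i) y)).det := by
    intro i
    have h2 := congrFun (Matrix.cramer_eq_adjugate_mulVec (g y) (fun j => pd S l (fun z => g z j i) y)) i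
    rw [Matrix.cramer_apply] at h2
    rw [h2]
    rfl
  simp only [h1, Matrix.det_apply']
  have hd : ∀ σ : Equiv.Perm (Fin m), DifferentiableOn ℝ (fun z => ∏ i, g z (σ i) i) U := by
    intro σ
    intro z hz
    exact (HasFDerivWithinAt.finset_prod (u := Finset.univ) (g := fun i z => g z (σ i) i)
      fun i _ => (hg (σ i) i z hz).hasFDerivWithinAt).differentiableWithinAt
  have h3 := hD.pd_sum l Finset.univ (f := fun σ z => ((Equiv.Perm.sign σ : ℤ) : ℝ) * ∏ i, g z (σ i) i)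
    (fun σ _ => (hd σ).const_mul _) hy
  rw [h3, Finset.sum_comm]
  refine Finset.sum_congr rfl fun σ _ => ?_
  rw [hD.pd_const_mul l _ (hd σ) hy, hD.pd_prod l Finset.univ (fun i _ => hg (σ i) i) hy, Finset.mul_sum]
  refine Finset.sum_congr rfl fun i _ => ?_
  congr 1
  rw [← Finset.mul_prod_erase Finset.univ _ (Finset.mem_univ i)]
  rw [Matrix.updateCol_self, mul_comm]
  congr 1
  refine Finset.prod_congr rfl fun b hb => ?_
  rw [Matrix.updateCol_ne (Finset.ne_of_mem_erase hb)]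

/-- `√det g`. -/
noncomputable def sdet (g : MF m) (y : V m) : ℝ := Real.sqrt (g y).det

theorem MetOn.sdet_pos (hg : MetOn U g k) {y : V m} (hy : y ∈ U) : 0 < sdet g y :=
  Real.sqrt_pos.2 (hg.det_pos hy)

theorem MetOn.contDiffOn_sdet (hg : MetOn U g k) : ContDiffOn ℝ k (sdet g) U :=
  hg.contDiffOn_det.sqrt fun y hy => (hg.det_pos hy).ne'

theorem MetOn.diffOn_sdet (hg : MetOn U g k) (hk : 1 ≤ k) : DifferentiableOn ℝ (sdet g) U :=
  (hg.contDiffOn_sdet.of_le hk).differentiableOn (by simp)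

/-- The trace of the Christoffel symbols. -/
theorem Gam_trace (hD : Dom S U) (hg : MetOn U g k) (l : Fin m) {y : V m} (hy : y ∈ U) :
    2 * ∑ a, Gam S g a l a y = ∑ i, ∑ j, (g y)⁻¹ i j * pd S l (fun z => g z j i) y := by
  have h1 : ∀ i j, (g y)⁻¹ i j * pd S l (fun z => g z j i) y =
      ∑ a, Gam S g a l j y * ((g y)⁻¹ i j * g y a i) + ∑ a, Gam S g a l i y * ((g y)⁻¹ i j * g y j a) := by
    intro i j
    rw [pd_met hD hg l j i hy, Finset.sum_add_distrib, mul_add, Finset.mul_sum, Finset.mul_sum]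
    congr 1
    · exact Finset.sum_congr rfl fun a _ => by ring
    · exact Finset.sum_congr rfl fun a _ => by rw [hg.symm hy a j]; ring
  have h2 : ∑ i, ∑ j, ∑ a, Gam S g a l j y * ((g y)⁻¹ i j * g y a i) = ∑ a, Gam S g a l a y := by
    have : ∀ j, ∑ i, ∑ a, Gam S g a l j y * ((g y)⁻¹ i j * g y a i) = Gam S g j l j y := by
      intro j
      rw [Finset.sum_comm]
      have h3 : ∀ a, ∑ i, Gam S g a l j y * ((g y)⁻¹ i j * g y a i) =
          Gam S g a l j y * (if a = j then 1 else 0) := by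
        intro a
        rw [← hg.mul_inv hy a j, Finset.mul_sum]
        exact Finset.sum_congr rfl fun i _ => by ring
      simp [h3]
    rw [Finset.sum_comm]
    simp only [this]
  have h4 : ∑ i, ∑ j, ∑ a, Gam S g a l i y * ((g y)⁻¹ i j * g y j a) = ∑ a, Gam S g a l a y := by
    refine Finset.sum_congr rfl fun i _ => ?_
    rw [Finset.sum_comm]
    have h3 : ∀ a, ∑ j, Gam S g a l i y * ((g y)⁻¹ i j * g y j a) =
        Gam S g a l i y * (if i = a then 1 else 0) := by
      intro a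
      rw [← hg.inv_mul hy i a, Finset.mul_sum]
    simp [h3]
  simp only [h1, Finset.sum_add_distrib, h2, h4]
  ring

/-- The derivative of the volume density. -/
theorem pd_sdet (hD : Dom S U) (hg : MetOn U g k) (hk : 1 ≤ k) (l : Fin m) {y : V m} (hy : y ∈ U) :
    pd S l (sdet g) y = sdet g y * ∑ a, Gam S g a l a y := by
  have hpos := hg.det_pos hy
  have h1 : pd S l (sdet g) y = deriv Real.sqrt (g y).det * pd S l (fun z => (g z).det) y :=
    hD.pd_comp l ((hg.contDiffOn_det.of_le hk).differentiableOn (by simp)) hy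
      (Real.hasDerivAt_sqrt hpos.ne').differentiableAt
  have h2 : ∀ i j, (g y).adjugate i j = (g y).det * (g y)⁻¹ i j := by
    intro i j
    rw [Matrix.inv_def, Ring.inverse_eq_inv', Matrix.smul_apply, smul_eq_mul, ← mul_assoc,
      mul_inv_cancel₀ hpos.ne', one_mul]
  have h3 := Gam_trace hD hg l hy
  rw [h1, (Real.hasDerivAt_sqrt hpos.ne').deriv, pd_det hD (hg.diffOn hk) l hy]
  simp only [h2, mul_assoc, ← Finset.mul_sum]
  rw [← h3, sdet]
  have h4 : Real.sqrt (g y).det * Real.sqrt (g y).det = (g y).det := Real.mul_self_sqrt hpos.le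
  have h5 : Real.sqrt (g y).det ≠ 0 := (Real.sqrt_pos.2 hpos).ne'
  rw [div_mul_eq_mul_div, one_mul, div_eq_iff (mul_ne_zero two_ne_zero h5)]
  linear_combination (-2 * ∑ a, Gam S g a l a y) * h4

/-- The divergence of a vector field. -/
noncomputable def dvg (S : Set (V m)) (g : MF m) (W : Fin m → V m → ℝ) (y : V m) : ℝ :=
  ∑ i, (pd S i (W i) y + (∑ a, Gam S g a i a y) * W i y)

theorem sum_pd_sdet (hD : Dom S U) (hg : MetOn U g k) (hk : 1 ≤ k) {W : Fin m → V m → ℝ}
    (hW : ∀ i, DifferentiableOn ℝ (W i) U) {y : V m} (hy : y ∈ U) :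
    ∑ i, pd S i (fun z => sdet g z * W i z) y = sdet g y * dvg S g W y := by
  rw [dvg, Finset.mul_sum]
  refine Finset.sum_congr rfl fun i _ => ?_
  rw [hD.pd_mul i (hg.diffOn_sdet hk) (hW i) hy, pd_sdet hD hg hk i hy]
  ring

/-- The Laplacian is the divergence of the gradient. -/
theorem lap_eq_dvg (hD : Dom S U) (hg : MetOn U g k) (hk : 1 ≤ k) {f : V m → ℝ} (hf : ContDiffOn ℝ 2 f U)
    {y : V m} (hy : y ∈ U) : lap S g f y = dvg S g (fun i => grd S g f i) y := by
  simp only [dvg, Finset.sum_add_distrib, pd_grd hD hg hk hf _ _ hy, Finset.sum_sub_distrib]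
  have h1 : ∑ i, ∑ b, Gam S g i i b y * grd S g f b y = ∑ i, (∑ a, Gam S g a i a y) * grd S g f i y := by
    rw [Finset.sum_comm]
    refine Finset.sum_congr rfl fun b _ => ?_
    rw [Finset.sum_mul]
    exact Finset.sum_congr rfl fun i _ => by rw [Gam_symm hD hg i i b hy]
  rw [h1]
  simp only [lap]
  ring

/-- The divergence form of the Laplacian. -/
theorem lap_div_form (hD : Dom S U) (hg : MetOn U g k) (hk : 1 ≤ k) {f : V m → ℝ} (hf : ContDiffOn ℝ 2 f U)
    {y : V m} (hy : y ∈ U) : Real.sqrt (g y).det * lap S g f y =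
      ∑ i, pd S i (fun z => Real.sqrt (g z).det * ∑ j, (g z)⁻¹ i j * pd S j f z) y := by
  have hk1 : MetOn U g 1 := hg.of_le hk
  have h1 := sum_pd_sdet hD hg hk (W := fun i => grd S g f i)
    (fun i => (contDiffOn_grd hD two_eq_one_add_one hk1 hf i).differentiableOn (by simp)) hy
  rw [lap_eq_dvg hD hg hk hf hy]
  exact h1.symm

/-- The divergence of `f W`. -/
theorem dvg_mul (hD : Dom S U) {f : V m → ℝ} (hf : DifferentiableOn ℝ f U) {W : Fin m → V m → ℝ}
    (hW : ∀ i, DifferentiableOn ℝ (W i) U) {y : V m} (hy : y ∈ U) :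
    dvg S g (fun i z => f z * W i z) y = f y * dvg S g W y + ∑ i, pd S i f y * W i y := by
  simp only [dvg]
  rw [Finset.mul_sum, ← Finset.sum_add_distrib]
  refine Finset.sum_congr rfl fun i _ => ?_
  rw [hD.pd_mul i hf (hW i) hy]
  ring

/-- `div (f ∇k) = f Δk + ⟨df, dk⟩`. -/
theorem dvg_mul_grd (hD : Dom S U) (hg : MetOn U g k) (hk : 1 ≤ k) {f k' : V m → ℝ}
    (hf : DifferentiableOn ℝ f U) (hk' : ContDiffOn ℝ 2 k' U) {y : V m} (hy : y ∈ U) :
    dvg S g (fun i z => f z * grd S g k' i z) y = f y * lap S g k' y + gip S g f k' y := by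
  rw [dvg_mul hD hf (fun i =>
    (contDiffOn_grd hD two_eq_one_add_one (hg.of_le hk) hk' i).differentiableOn (by simp)) hy,
    lap_eq_dvg hD hg hk hk' hy, gip_eq_grd]

/-- The scalar curvature of `u^{4/(m-2)} g`. -/
theorem scal_yamabe (hm : 3 ≤ m) (hD : Dom S U) (hg : MetOn U g 2) {u : V m → ℝ}
    (hu : ContDiffOn ℝ 2 u U) (h0 : ∀ y ∈ U, 0 < u y) {y : V m} (hy : y ∈ U) :
    scal S (fun z => (u z ^ (2 / ((m : ℝ) - 2))) ^ 2 • g z) y =
      u y ^ (-((m : ℝ) + 2) / ((m : ℝ) - 2)) *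
        (-(4 * ((m : ℝ) - 1) / ((m : ℝ) - 2)) * lap S g u y + scal S g y * u y) := by
  have h1 : (0 : ℝ) < (m : ℝ) - 2 := by
    have : (3 : ℝ) ≤ m := by exact_mod_cast hm
    linarith
  have hy0 := h0 y hy
  have e1 : ((u y ^ (2 / ((m : ℝ) - 2))) ^ 2)⁻¹ = u y ^ (-((m : ℝ) + 2) / ((m : ℝ) - 2)) * u y := by
    rw [← Real.rpow_natCast, ← Real.rpow_mul hy0.le, ← Real.rpow_neg hy0.le]
    conv_rhs => rw [← Real.rpow_add_one hy0.ne']
    congr 1
    push_cast
    field_simp
    ring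
  have hφ : ContDiffOn ℝ 2 (fun z => u z ^ (2 / ((m : ℝ) - 2))) U :=
    hu.rpow_const_of_ne fun y hy => (h0 y hy).ne'
  have e0 := scal_conf hD hg hφ (fun z hz => Real.rpow_pos_of_pos (h0 z hz) _) hy
  have e2 := lap_lg_rpow (g := g) hD hu h0 (2 / ((m : ℝ) - 2)) hy
  have e3 := gip_lg_rpow (g := g) hD (hu.of_le (by norm_num)) h0 (2 / ((m : ℝ) - 2)) hy
  have e4 : scal S (fun z => (u z ^ (2 / ((m : ℝ) - 2))) ^ 2 • g z) y =
      scal S (cf (fun z => u z ^ (2 / ((m : ℝ) - 2))) g) y := rfl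
  rw [e4, e0, e2, e3, e1]
  have hy1 := hy0.ne'
  field_simp
  ring

end jac

end Pool.Agent.CY
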