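import Pool.Agent.CY.S5.Curv
import Pool.Agent.CY.S5.Jac

/-!
Project CY, part S5: curvature, divergence (definitions used in the files `C*.lean`, namespace
`Pool.Agent.CY.C`).
-/

set_option autoImplicit false

open scoped Manifold ContDiff Topology
open MeasureTheory Set Filter

namespace Pool.Agent.CY.C

noncomputable section

variable {m : ℕ}

/-- The contravariant gradient `f^j = g^{jl} ∂_l f` (the same as `grd`). -/
def gr (S : Set (V m)) (g : MF m) (f : V m → ℝ) (j : Fin m) (y : V m) : ℝ :=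
  ∑ l, (g y)⁻¹ j l * pd S l f y

theorem gr_eq_grd (S : Set (V m)) (g : MF m) (f : V m → ℝ) : gr S g f = grd S g f := rfl

/-- The divergence of a vector field (the same as `dvg`). -/
def divV (S : Set (V m)) (g : MF m) (W : Fin m → V m → ℝ) (y : V m) : ℝ :=
  ∑ k, (pd S k (W k) y + ∑ l, Gam S g l l k y * W k y)

/-- The divergence of a covector field, `g^{ij} ∇_j w_i`. -/
def divC (S : Set (V m)) (g : MF m) (w : Fin m → V m → ℝ) (y : V m) : ℝ :=
  ∑ i, ∑ j, (g y)⁻¹ i j * (pd S j (w i) y - ∑ k, Gam S g k i j y * w k y)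

/-- The square of the norm of the Hessian. -/
def hess2 (S : Set (V m)) (g : MF m) (f : V m → ℝ) (y : V m) : ℝ :=
  ∑ i, ∑ j, ∑ k, ∑ l, (g y)⁻¹ i k * (g y)⁻¹ j l * hess S g f i j y * hess S g f k l y

/-- The Einstein tensor `G_{ij} = R_{ij} - (R/2) g_{ij}`. -/
def Ein (S : Set (V m)) (g : MF m) (i j : Fin m) (y : V m) : ℝ :=
  Ric S g i j y - scal S g y / 2 * g y i j

/-- The vector field `W^k = g^{ki} G_{ij} f^j`. -/
def GW (S : Set (V m)) (g : MF m) (f : V m → ℝ) (k : Fin m) (y : V m) : ℝ :=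
  ∑ i, (g y)⁻¹ k i * ∑ j, Ein S g i j y * gr S g f j y

theorem divV_eq_dvg {S U : Set (V m)} {g : MF m} (hD : Dom S U) {k : WithTop ℕ∞} (hg : MetOn U g k)
    (W : Fin m → V m → ℝ) {y : V m} (hy : y ∈ U) : divV S g W y = dvg S g W y := by
  unfold divV dvg
  refine Finset.sum_congr rfl fun k _ => ?_
  rw [Finset.sum_mul]
  congr 1
  exact Finset.sum_congr rfl fun l _ => by rw [Gam_symm hD hg l l k hy]

end

end Pool.Agent.CY.C
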