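import Pool.Agent.CY.Defs

/-!
Project CY, part S5: calculus of partial derivatives relative to a domain.

`Dom S U` : `S` is the reference set (the closed half space or the whole space), `U` a relatively open
subset of `S`.  All functions are of class `C^k` on `U`, the partial derivatives are relative to `S`.
-/

set_option autoImplicit false

open scoped ContDiff Manifold
open MeasureTheory Set Filter Topology

namespace Pool.Agent.CY

/-- `U` is a relatively open subset of the reference set `S`. -/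
structure Dom {m : ℕ} (S U : Set (V m)) : Prop where
  uniq : UniqueDiffOn ℝ S
  sub : U ⊆ S
  nhds : ∀ y ∈ U, U ∈ 𝓝[S] y
  clos : ∀ y ∈ U, y ∈ closure (interior S)

section pdcalc

variable {m : ℕ} {S U : Set (V m)}

theorem Dom.nhds_eq (h : Dom S U) {y : V m} (hy : y ∈ U) : 𝓝[S] y = 𝓝[U] y := by
  apply le_antisymm
  · exact nhdsWithin_le_of_mem (h.nhds y hy)
  · exact nhdsWithin_mono y h.sub

theorem Dom.fderivWithin_eq (h : Dom S U) (f : V m → ℝ) {y : V m} (hy : y ∈ U) :
    fderivWithin ℝ f S y = fderivWithin ℝ f U y := by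
  have : S =ᶠ[𝓝 y] U := by
    rw [← nhdsWithin_eq_iff_eventuallyEq]
    exact h.nhds_eq hy
  exact fderivWithin_congr_set this

theorem Dom.pd_eq (h : Dom S U) (i : Fin m) (f : V m → ℝ) {y : V m} (hy : y ∈ U) :
    pd S i f y = fderivWithin ℝ f U y (EuclideanSpace.single i 1) := by
  rw [pd, h.fderivWithin_eq f hy]

theorem Dom.uniqU (h : Dom S U) : UniqueDiffOn ℝ U := by
  intro y hy
  have := h.uniq y (h.sub hy)
  rw [← uniqueDiffWithinAt_congr (h.nhds_eq hy)]
  exact this

theorem Dom.uniqAt (h : Dom S U) {y : V m} (hy : y ∈ U) : UniqueDiffWithinAt ℝ S y :=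
  h.uniq y (h.sub hy)

theorem Dom.diffAt (h : Dom S U) {f : V m → ℝ} (hf : DifferentiableOn ℝ f U) {y : V m} (hy : y ∈ U) :
    DifferentiableWithinAt ℝ f S y :=
  (hf y hy).mono_of_mem_nhdsWithin (h.nhds y hy)

theorem Dom.contDiffAt (h : Dom S U) {k : WithTop ℕ∞} {f : V m → ℝ} (hf : ContDiffOn ℝ k f U) {y : V m}
    (hy : y ∈ U) : ContDiffWithinAt ℝ k f S y :=
  (hf y hy).mono_of_mem_nhdsWithin (h.nhds y hy)

/-- Partial derivatives only depend on the values on `U`. -/
theorem Dom.pd_congr (h : Dom S U) (i : Fin m) {f g : V m → ℝ} (hfg : ∀ z ∈ U, f z = g z) {y : V m}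
    (hy : y ∈ U) : pd S i f y = pd S i g y := by
  rw [h.pd_eq i f hy, h.pd_eq i g hy, fderivWithin_congr hfg (hfg y hy)]

theorem pd_const (i : Fin m) (c : ℝ) (y : V m) : pd S i (fun _ => c) y = 0 := by
  simp [pd]

theorem Dom.pd_add (h : Dom S U) (i : Fin m) {f g : V m → ℝ} (hf : DifferentiableOn ℝ f U)
    (hg : DifferentiableOn ℝ g U) {y : V m} (hy : y ∈ U) :
    pd S i (fun z => f z + g z) y = pd S i f y + pd S i g y := by
  have := fderivWithin_add (h.uniqAt hy) (h.diffAt hf hy) (h.diffAt hg hy)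
  simp only [pd]
  rw [show (fun z => f z + g z) = f + g from rfl, this]; rfl

theorem Dom.pd_sub (h : Dom S U) (i : Fin m) {f g : V m → ℝ} (hf : DifferentiableOn ℝ f U)
    (hg : DifferentiableOn ℝ g U) {y : V m} (hy : y ∈ U) :
    pd S i (fun z => f z - g z) y = pd S i f y - pd S i g y := by
  have := fderivWithin_sub (h.uniqAt hy) (h.diffAt hf hy) (h.diffAt hg hy)
  simp only [pd]
  rw [show (fun z => f z - g z) = f - g from rfl, this]; rfl

theorem Dom.pd_neg (h : Dom S U) (i : Fin m) {f : V m → ℝ} {y : V m} (hy : y ∈ U) :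
    pd S i (fun z => - f z) y = - pd S i f y := by
  simp only [pd]
  rw [show (fun z => - f z) = -f from rfl, fderivWithin_neg (h.uniqAt hy)]; rfl

theorem Dom.pd_mul (h : Dom S U) (i : Fin m) {f g : V m → ℝ} (hf : DifferentiableOn ℝ f U)
    (hg : DifferentiableOn ℝ g U) {y : V m} (hy : y ∈ U) :
    pd S i (fun z => f z * g z) y = pd S i f y * g y + f y * pd S i g y := by
  have := fderivWithin_mul (h.uniqAt hy) (h.diffAt hf hy) (h.diffAt hg hy)
  simp only [pd]
  rw [show (fun z => f z * g z) = f * g from rfl, this]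
  simp [mul_comm, add_comm]

theorem Dom.pd_const_mul (h : Dom S U) (i : Fin m) (c : ℝ) {f : V m → ℝ} (hf : DifferentiableOn ℝ f U)
    {y : V m} (hy : y ∈ U) : pd S i (fun z => c * f z) y = c * pd S i f y := by
  rw [h.pd_mul i (differentiableOn_const c) hf hy, pd_const]; ring

theorem Dom.pd_sum (h : Dom S U) {ι : Type} (i : Fin m) (s : Finset ι) {f : ι → V m → ℝ}
    (hf : ∀ a ∈ s, DifferentiableOn ℝ (f a) U) {y : V m} (hy : y ∈ U) :
    pd S i (fun z => ∑ a ∈ s, f a z) y = ∑ a ∈ s, pd S i (f a) y := by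
  simp only [pd]
  rw [fderivWithin_fun_sum (h.uniqAt hy) (fun a ha => h.diffAt (hf a ha) hy)]
  simp

theorem Dom.pd_inv (h : Dom S U) (i : Fin m) {f : V m → ℝ} (hf : DifferentiableOn ℝ f U)
    (h0 : ∀ z ∈ U, f z ≠ 0) {y : V m} (hy : y ∈ U) :
    pd S i (fun z => (f z)⁻¹) y = - pd S i f y / (f y) ^ 2 := by
  have hg : DifferentiableOn ℝ (fun z => (f z)⁻¹) U := hf.inv h0
  have h1 := h.pd_mul i hf hg hy
  have h2 : pd S i (fun z => f z * (f z)⁻¹) y = 0 := by
    rw [h.pd_congr i (g := fun _ => 1) (fun z hz => mul_inv_cancel₀ (h0 z hz)) hy, pd_const]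
  rw [h2] at h1
  have h3 := h0 y hy
  field_simp at h1 ⊢
  linarith

/-- The chain rule for functions of one variable. -/
theorem Dom.pd_comp (h : Dom S U) (i : Fin m) {φ : ℝ → ℝ} {f : V m → ℝ} (hf : DifferentiableOn ℝ f U)
    {y : V m} (hy : y ∈ U) (hφ : DifferentiableAt ℝ φ (f y)) :
    pd S i (fun z => φ (f z)) y = deriv φ (f y) * pd S i f y := by
  have h1 : HasFDerivWithinAt (fun z => φ (f z)) (deriv φ (f y) • fderivWithin ℝ f S y) S y :=
    hφ.hasDerivAt.comp_hasFDerivWithinAt y (h.diffAt hf hy).hasFDerivWithinAt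
  simp only [pd]
  rw [h1.fderivWithin (h.uniqAt hy)]
  simp

theorem Dom.pd_rpow (h : Dom S U) (i : Fin m) {f : V m → ℝ} (hf : DifferentiableOn ℝ f U) (r : ℝ)
    (h0 : ∀ z ∈ U, 0 < f z) {y : V m} (hy : y ∈ U) :
    pd S i (fun z => f z ^ r) y = r * f y ^ (r - 1) * pd S i f y := by
  have h1 : DifferentiableAt ℝ (fun x : ℝ => x ^ r) (f y) :=
    Real.differentiableAt_rpow_const_of_ne r (h0 y hy).ne'
  rw [h.pd_comp i hf hy h1, Real.deriv_rpow_const]

theorem Dom.pd_log (h : Dom S U) (i : Fin m) {f : V m → ℝ} (hf : DifferentiableOn ℝ f U)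
    (h0 : ∀ z ∈ U, 0 < f z) {y : V m} (hy : y ∈ U) :
    pd S i (fun z => Real.log (f z)) y = (f y)⁻¹ * pd S i f y := by
  have h1 : DifferentiableAt ℝ Real.log (f y) := Real.differentiableAt_log (h0 y hy).ne'
  rw [h.pd_comp i hf hy h1, Real.deriv_log]

/-- Partial derivatives of `C^{k+1}` functions are `C^k`. -/
theorem Dom.contDiffOn_pd (h : Dom S U) (i : Fin m) {k l : WithTop ℕ∞} (hkl : k + 1 ≤ l) {f : V m → ℝ}
    (hf : ContDiffOn ℝ l f U) : ContDiffOn ℝ k (pd S i f) U := by
  have h1 : ContDiffOn ℝ k (fun y => fderivWithin ℝ f U y (EuclideanSpace.single i 1)) U :=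
    (hf.fderivWithin h.uniqU hkl).clm_apply contDiffOn_const
  exact h1.congr fun y hy => h.pd_eq i f hy

theorem Dom.diffOn_pd (h : Dom S U) (i : Fin m) {f : V m → ℝ} (hf : ContDiffOn ℝ 2 f U) :
    DifferentiableOn ℝ (pd S i f) U :=
  (h.contDiffOn_pd i (k := 1) (l := 2) (by norm_num [one_add_one_eq_two]) hf).differentiableOn (by simp)

theorem Dom.continuousOn_pd (h : Dom S U) (i : Fin m) {f : V m → ℝ} (hf : ContDiffOn ℝ 1 f U) :
    ContinuousOn (pd S i f) U :=
  (h.contDiffOn_pd i (k := 0) (l := 1) (by simp) hf).continuousOn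

/-- Second partial derivatives commute. -/
theorem Dom.pd_comm (h : Dom S U) (i j : Fin m) {f : V m → ℝ} (hf : ContDiffOn ℝ 2 f U) {y : V m}
    (hy : y ∈ U) : pd S i (pd S j f) y = pd S j (pd S i f) y := by
  have hS : IsSymmSndFDerivWithinAt ℝ f S y :=
    (h.contDiffAt hf hy).isSymmSndFDerivWithinAt (by simp) h.uniq (h.clos y hy) (h.sub hy)
  have key : ∀ a b : Fin m, pd S a (pd S b f) y =
      (fderivWithin ℝ (fderivWithin ℝ f S) S y) (EuclideanSpace.single a 1) (EuclideanSpace.single b 1) := by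
    intro a b
    have hd : DifferentiableWithinAt ℝ (fderivWithin ℝ f S) S y := by
      have h1 : ContDiffOn ℝ 1 (fderivWithin ℝ f U) U := hf.fderivWithin h.uniqU (by norm_num [one_add_one_eq_two])
      have h2 : DifferentiableWithinAt ℝ (fderivWithin ℝ f U) U y := (h1.differentiableOn (by simp)) y hy
      have h3 : DifferentiableWithinAt ℝ (fderivWithin ℝ f U) S y := h2.mono_of_mem_nhdsWithin (h.nhds y hy)
      refine h3.congr_of_eventuallyEq ?_ (h.fderivWithin_eq f hy)
      filter_upwards [h.nhds y hy] with z hz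
      exact h.fderivWithin_eq f hz
    have h4 : HasFDerivWithinAt (fun z => fderivWithin ℝ f S z (EuclideanSpace.single b (1 : ℝ)))
        ((ContinuousLinearMap.apply ℝ ℝ (EuclideanSpace.single b (1 : ℝ))).comp
          (fderivWithin ℝ (fderivWithin ℝ f S) S y)) S y :=
      (ContinuousLinearMap.apply ℝ ℝ (EuclideanSpace.single b (1 : ℝ))).hasFDerivAt.comp_hasFDerivWithinAt y
        hd.hasFDerivWithinAt
    show fderivWithin ℝ (fun z => fderivWithin ℝ f S z (EuclideanSpace.single b (1 : ℝ))) S y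
      (EuclideanSpace.single a 1) = _
    rw [h4.fderivWithin (h.uniqAt hy)]
    rfl
  rw [key i j, key j i]
  exact hS _ _

/-- The derivative as a sum of partial derivatives. -/
theorem fderivWithin_eq_sum (f : V m → ℝ) (y v : V m) :
    fderivWithin ℝ f S y v = ∑ i, v i * pd S i f y := by
  conv_lhs => rw [← (EuclideanSpace.basisFun (Fin m) ℝ).sum_repr v]
  simp [map_sum, pd]

/-- The chain rule for maps between domains. -/
theorem Dom.pd_comp_map {m' : ℕ} {S' U' : Set (V m')} (h : Dom S U) (h' : Dom S' U') (i : Fin m)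
    {ψ : V m → V m'} (hψ : ∀ k, DifferentiableOn ℝ (fun z => ψ z k) U) {f : V m' → ℝ}
    (hf : DifferentiableOn ℝ f U') (hS : ∀ z ∈ U, ψ z ∈ U') {y : V m} (hy : y ∈ U) :
    pd S i (fun z => f (ψ z)) y = ∑ k, pd S i (fun z => ψ z k) y * pd S' k f (ψ y) := by
  have hψ' : DifferentiableOn ℝ ψ U := by
    intro z hz
    rw [differentiableWithinAt_euclidean]
    intro k
    exact hψ k z hz
  have h1 : HasFDerivWithinAt ψ (fderivWithin ℝ ψ U y) U y := (hψ' y hy).hasFDerivWithinAt
  have h2 : HasFDerivWithinAt f (fderivWithin ℝ f U' (ψ y)) U' (ψ y) :=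
    (hf (ψ y) (hS y hy)).hasFDerivWithinAt
  have h3 : HasFDerivWithinAt (fun z => f (ψ z)) ((fderivWithin ℝ f U' (ψ y)).comp (fderivWithin ℝ ψ U y)) U y :=
    h2.comp y h1 (fun z hz => hS z hz)
  have h4 : ∀ k, pd S i (fun z => ψ z k) y = (fderivWithin ℝ ψ U y (EuclideanSpace.single i 1)) k := by
    intro k
    rw [h.pd_eq i _ hy]
    have h5 : HasFDerivWithinAt (fun z => ψ z k) ((EuclideanSpace.proj k : V m' →L[ℝ] ℝ).comp
        (fderivWithin ℝ ψ U y)) U y :=
      (EuclideanSpace.proj k : V m' →L[ℝ] ℝ).hasFDerivAt.comp_hasFDerivWithinAt y h1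
    rw [h5.fderivWithin (h.uniqU y hy)]
    rfl
  rw [h.pd_eq i _ hy, h3.fderivWithin (h.uniqU y hy)]
  simp only [ContinuousLinearMap.comp_apply]
  rw [← h'.fderivWithin_eq f (hS y hy), fderivWithin_eq_sum]
  exact Finset.sum_congr rfl fun k _ => by rw [h4 k]

end pdcalc

end Pool.Agent.CY
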