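import Pool.Agent.CY.S5.Met
import Pool.Agent.CY.Geo

/-!
Project CY, part S5: conformal change of a metric, Christoffel symbols, Hessian, Laplacian.
-/

set_option autoImplicit false

open scoped ContDiff Manifold
open MeasureTheory Set Filter Topology

namespace Pool.Agent.CY

/-- The metric `φ² g`. -/
noncomputable def cf {m : ℕ} (φ : V m → ℝ) (g : MF m) : MF m := fun y => φ y ^ 2 • g y

section conf

variable {m : ℕ} {S U : Set (V m)} {g : MF m} {k : WithTop ℕ∞} {φ : V m → ℝ}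

theorem cf_apply (y : V m) (i j : Fin m) : cf φ g y i j = φ y ^ 2 * g y i j := by
  simp [cf]

theorem cf_inv (hg : MetOn U g k) (h0 : ∀ y ∈ U, 0 < φ y) {y : V m} (hy : y ∈ U) :
    (cf φ g y)⁻¹ = (φ y ^ 2)⁻¹ • (g y)⁻¹ := by
  have hφ : φ y ^ 2 ≠ 0 := (pow_pos (h0 y hy) 2).ne'
  rw [cf]
  apply Matrix.inv_eq_right_inv
  rw [Matrix.smul_mul, Matrix.mul_smul, Matrix.mul_nonsing_inv _ (hg.isUnit_det hy), smul_smul,
    mul_inv_cancel₀ hφ, one_smul]

theorem cf_inv_apply (hg : MetOn U g k) (h0 : ∀ y ∈ U, 0 < φ y) {y : V m} (hy : y ∈ U) (i j : Fin m) :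
    (cf φ g y)⁻¹ i j = (φ y ^ 2)⁻¹ * (g y)⁻¹ i j := by
  rw [cf_inv hg h0 hy]; simp

theorem cf_metOn (hg : MetOn U g k) (hφ : ContDiffOn ℝ k φ U) (h0 : ∀ y ∈ U, 0 < φ y) :
    MetOn U (cf φ g) k where
  pos := fun y hy => (hg.pos y hy).smul (pow_pos (h0 y hy) 2)
  smooth := fun i j => by
    simp only [cf_apply]
    exact (hφ.pow 2).mul (hg.smooth i j)

theorem cf_det (y : V m) : (cf φ g y).det = (φ y ^ 2) ^ m * (g y).det := by
  simp [cf]

/-- The logarithm of the conformal factor. -/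
noncomputable def lg (φ : V m → ℝ) : V m → ℝ := fun z => Real.log (φ z)

theorem contDiffOn_lg (hφ : ContDiffOn ℝ k φ U) (h0 : ∀ y ∈ U, 0 < φ y) : ContDiffOn ℝ k (lg φ) U :=
  hφ.log fun y hy => (h0 y hy).ne'

theorem pd_lg (hD : Dom S U) (hφ : ContDiffOn ℝ 1 φ U) (h0 : ∀ y ∈ U, 0 < φ y) (i : Fin m) {y : V m}
    (hy : y ∈ U) : pd S i φ y = φ y * pd S i (lg φ) y := by
  have h1 := hD.pd_log i (hφ.differentiableOn (by simp)) h0 hy
  have h2 := (h0 y hy).ne'
  unfold lg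
  rw [h1]
  field_simp

/-- The gradient of `f`, with raised index. -/
noncomputable def grd (S : Set (V m)) (g : MF m) (f : V m → ℝ) (i : Fin m) (y : V m) : ℝ :=
  ∑ j, (g y)⁻¹ i j * pd S j f y

theorem gip_eq_grd (f f' : V m → ℝ) (y : V m) : gip S g f f' y = ∑ i, pd S i f y * grd S g f' i y := by
  simp only [gip, grd]
  refine Finset.sum_congr rfl fun i _ => ?_
  rw [Finset.mul_sum]
  exact Finset.sum_congr rfl fun j _ => by ring

theorem gip_comm (hg : MetOn U g k) (f f' : V m → ℝ) {y : V m} (hy : y ∈ U) :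
    gip S g f f' y = gip S g f' f y := by
  simp only [gip]
  rw [Finset.sum_comm]
  refine Finset.sum_congr rfl fun i _ => Finset.sum_congr rfl fun j _ => ?_
  rw [hg.inv_symm hy j i]; ring

theorem sum_met_grd (hg : MetOn U g k) (f : V m → ℝ) (i : Fin m) {y : V m} (hy : y ∈ U) :
    ∑ a, g y i a * grd S g f a y = pd S i f y := by
  simp only [grd]
  have h1 : ∀ a, g y i a * ∑ j, (g y)⁻¹ a j * pd S j f y = ∑ j, g y i a * (g y)⁻¹ a j * pd S j f y := by
    intro a
    rw [Finset.mul_sum]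
    exact Finset.sum_congr rfl fun j _ => by ring
  simp only [h1]
  rw [Finset.sum_comm]
  simp only [← Finset.sum_mul, hg.mul_inv hy]
  simp

/-- The Christoffel symbols of `φ² g`. -/
theorem Gam_conf (hD : Dom S U) (hg : MetOn U g k) (hk : 1 ≤ k) (hφ : ContDiffOn ℝ 1 φ U)
    (h0 : ∀ y ∈ U, 0 < φ y) (a i j : Fin m) {y : V m} (hy : y ∈ U) :
    Gam S (cf φ g) a i j y = Gam S g a i j y + ((if a = i then pd S j (lg φ) y else 0) +
      (if a = j then pd S i (lg φ) y else 0) - g y i j * grd S g (lg φ) a y) := by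
  have hφ0 := (h0 y hy).ne'
  have hφd : DifferentiableOn ℝ φ U := hφ.differentiableOn (by simp)
  have h1 : ∀ c i j : Fin m, pd S c (fun z => cf φ g z i j) y =
      φ y ^ 2 * (pd S c (fun z => g z i j) y + 2 * pd S c (lg φ) y * g y i j) := by
    intro c i j
    have e1 : (fun z => cf φ g z i j) = fun z => (φ z * φ z) * g z i j := by
      funext z; rw [cf_apply]; ring
    have e2 : DifferentiableOn ℝ (fun z => φ z * φ z) U := hφd.mul hφd
    have e3 := hD.pd_mul c e2 (hg.diffOn hk i j) hy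
    have e4 := hD.pd_mul c hφd hφd hy
    rw [e1, e3, e4, pd_lg hD hφ h0 c hy]
    ring
  simp only [Gam, cf_inv_apply hg h0 hy, h1]
  have h2 : ∀ l, (φ y ^ 2)⁻¹ * (g y)⁻¹ a l *
      (φ y ^ 2 * (pd S i (fun z => g z j l) y + 2 * pd S i (lg φ) y * g y j l) +
       φ y ^ 2 * (pd S j (fun z => g z i l) y + 2 * pd S j (lg φ) y * g y i l) -
       φ y ^ 2 * (pd S l (fun z => g z i j) y + 2 * pd S l (lg φ) y * g y i j)) =
      (g y)⁻¹ a l * (pd S i (fun z => g z j l) y + pd S j (fun z => g z i l) y - pd S l (fun z => g z i j) y) +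
      ((2 * pd S i (lg φ) y) * ((g y)⁻¹ a l * g y l j) + (2 * pd S j (lg φ) y) * ((g y)⁻¹ a l * g y l i) -
        (2 * g y i j) * ((g y)⁻¹ a l * pd S l (lg φ) y)) := by
    intro l
    rw [hg.symm hy l j, hg.symm hy l i]
    field_simp
    ring
  simp only [h2, Finset.sum_add_distrib, Finset.sum_sub_distrib, ← Finset.mul_sum, hg.inv_mul hy, grd]
  split_ifs <;> ring

/-- Hessian of `f` for the metric `φ² g`. -/
theorem hess_conf (hD : Dom S U) (hg : MetOn U g k) (hk : 1 ≤ k) (hφ : ContDiffOn ℝ 1 φ U)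
    (h0 : ∀ y ∈ U, 0 < φ y) (f : V m → ℝ) (i j : Fin m) {y : V m} (hy : y ∈ U) :
    hess S (cf φ g) f i j y = hess S g f i j y - pd S i (lg φ) y * pd S j f y
      - pd S j (lg φ) y * pd S i f y + g y i j * gip S g (lg φ) f y := by
  simp only [hess, Gam_conf hD hg hk hφ h0 _ _ _ hy]
  have h1 : ∀ a, (Gam S g a i j y + ((if a = i then pd S j (lg φ) y else 0) +
      (if a = j then pd S i (lg φ) y else 0) - g y i j * grd S g (lg φ) a y)) * pd S a f y =
      Gam S g a i j y * pd S a f y + ((if a = i then pd S j (lg φ) y * pd S a f y else 0) +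
      (if a = j then pd S i (lg φ) y * pd S a f y else 0) -
        g y i j * (pd S a f y * grd S g (lg φ) a y)) := by
    intro a
    split_ifs <;> ring
  simp only [h1, Finset.sum_add_distrib, Finset.sum_sub_distrib, ← Finset.mul_sum]
  rw [← gip_eq_grd, gip_comm hg f (lg φ) hy]
  simp
  ring

/-- The trace of `g^{ij} g_{ij}`. -/
theorem trace_met (hg : MetOn U g k) {y : V m} (hy : y ∈ U) :
    ∑ i, ∑ j, (g y)⁻¹ i j * g y i j = m := by
  have : ∀ i, ∑ j, (g y)⁻¹ i j * g y i j = 1 := by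
    intro i
    have := hg.inv_mul hy i i
    rw [if_pos rfl] at this
    rw [← this]
    exact Finset.sum_congr rfl fun j _ => by rw [hg.symm hy i j]
  simp [this]

/-- Laplacian of `f` for the metric `φ² g`. -/
theorem lap_conf (hD : Dom S U) (hg : MetOn U g k) (hk : 1 ≤ k) (hφ : ContDiffOn ℝ 1 φ U)
    (h0 : ∀ y ∈ U, 0 < φ y) (f : V m → ℝ) {y : V m} (hy : y ∈ U) :
    lap S (cf φ g) f y = (φ y ^ 2)⁻¹ * (lap S g f y + ((m : ℝ) - 2) * gip S g (lg φ) f y) := by
  simp only [lap, hess_conf hD hg hk hφ h0 f _ _ hy, cf_inv_apply hg h0 hy]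
  have h1 : ∀ i j, (φ y ^ 2)⁻¹ * (g y)⁻¹ i j * (hess S g f i j y - pd S i (lg φ) y * pd S j f y
      - pd S j (lg φ) y * pd S i f y + g y i j * gip S g (lg φ) f y) =
      (φ y ^ 2)⁻¹ * ((g y)⁻¹ i j * hess S g f i j y - (g y)⁻¹ i j * (pd S i (lg φ) y * pd S j f y)
        - (g y)⁻¹ i j * (pd S i f y * pd S j (lg φ) y) + gip S g (lg φ) f y * ((g y)⁻¹ i j * g y i j)) := by
    intro i j; ring
  simp only [h1, ← Finset.mul_sum, Finset.sum_add_distrib, Finset.sum_sub_distrib, trace_met hg hy]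
  have h2 : ∑ i, ∑ j, (g y)⁻¹ i j * (pd S i (lg φ) y * pd S j f y) = gip S g (lg φ) f y := rfl
  have h3 : ∑ i, ∑ j, (g y)⁻¹ i j * (pd S i f y * pd S j (lg φ) y) = gip S g (lg φ) f y :=
    gip_comm hg f (lg φ) hy
  rw [h2, h3]
  ring

theorem gip_conf (hg : MetOn U g k) (h0 : ∀ y ∈ U, 0 < φ y) (f f' : V m → ℝ) {y : V m} (hy : y ∈ U) :
    gip S (cf φ g) f f' y = (φ y ^ 2)⁻¹ * gip S g f f' y := by
  simp only [gip, cf_inv_apply hg h0 hy, Finset.mul_sum]
  exact Finset.sum_congr rfl fun i _ => Finset.sum_congr rfl fun j _ => by ring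

end conf

end Pool.Agent.CY
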