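import Pool.Agent.CY.S5.RicAlg

/-!
Project CY, part S5: conformal change of the Ricci tensor and of the scalar curvature.
-/

set_option autoImplicit false

open scoped ContDiff Manifold
open MeasureTheory Set Filter Topology

namespace Pool.Agent.CY

section confric

variable {m : ℕ} {S U : Set (V m)} {g : MF m} {k : WithTop ℕ∞} {φ : V m → ℝ}

theorem two_eq_one_add_one : (1 : WithTop ℕ∞) + 1 ≤ 2 := by norm_num [one_add_one_eq_two]

/-- The gradient is of class `C^1`. -/
theorem contDiffOn_grd (hD : Dom S U) {l r : WithTop ℕ∞} (hl : r + 1 ≤ l) (hg : MetOn U g r)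
    {f : V m → ℝ} (hf : ContDiffOn ℝ l f U) (a : Fin m) : ContDiffOn ℝ r (grd S g f a) U := by
  unfold grd
  exact ContDiffOn.sum fun j _ => (hg.contDiffOn_inv a j).mul (hD.contDiffOn_pd j hl hf)

/-- The covariant derivative of the gradient. -/
theorem pd_grd (hD : Dom S U) (hg : MetOn U g k) (hk : 1 ≤ k) {f : V m → ℝ} (hf : ContDiffOn ℝ 2 f U)
    (l a : Fin m) {y : V m} (hy : y ∈ U) :
    pd S l (grd S g f a) y = ∑ b, (g y)⁻¹ a b * hess S g f l b y - ∑ b, Gam S g a l b y * grd S g f b y := by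
  have h1 := hD.pd_sum l Finset.univ (f := fun j z => (g z)⁻¹ a j * pd S j f z)
    (fun j _ => (hg.diffOn_inv hk a j).mul (hD.diffOn_pd j hf)) hy
  have h2 : pd S l (grd S g f a) y = ∑ j, (pd S l (fun z => (g z)⁻¹ a j) y * pd S j f y +
      (g y)⁻¹ a j * pd S l (pd S j f) y) := by
    unfold grd
    rw [h1]
    exact Finset.sum_congr rfl fun j _ => hD.pd_mul l (hg.diffOn_inv hk a j) (hD.diffOn_pd j hf) hy
  rw [h2]
  have h3 : ∑ b, Gam S g a l b y * grd S g f b y = ∑ j, (∑ b, Gam S g a l b y * (g y)⁻¹ b j) * pd S j f y := by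
    simp only [grd, Finset.mul_sum, Finset.sum_mul]
    rw [Finset.sum_comm]
    exact Finset.sum_congr rfl fun j _ => Finset.sum_congr rfl fun b _ => by ring
  have h4 : ∑ b, (g y)⁻¹ a b * hess S g f l b y = ∑ j, (g y)⁻¹ a j * pd S l (pd S j f) y -
      ∑ j, (∑ b, Gam S g j l b y * (g y)⁻¹ b a) * pd S j f y := by
    simp only [hess, mul_sub, Finset.sum_sub_distrib, Finset.mul_sum, Finset.sum_mul]
    congr 1
    rw [Finset.sum_comm]
    refine Finset.sum_congr rfl fun j _ => Finset.sum_congr rfl fun b _ => ?_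
    rw [hg.inv_symm hy a b]; ring
  rw [h3, h4, ← Finset.sum_sub_distrib, ← Finset.sum_sub_distrib]
  refine Finset.sum_congr rfl fun j _ => ?_
  rw [pd_inv_met hD hg hk l a j hy, Finset.sum_add_distrib]
  ring

theorem hess_symm (hD : Dom S U) (hg : MetOn U g k) {f : V m → ℝ} (hf : ContDiffOn ℝ 2 f U)
    (i j : Fin m) {y : V m} (hy : y ∈ U) : hess S g f i j y = hess S g f j i y := by
  simp only [hess]
  rw [hD.pd_comm i j hf hy]
  congr 1
  exact Finset.sum_congr rfl fun a _ => by rw [Gam_symm hD hg a i j hy]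

/-- The Ricci tensor of `φ² g`. -/
theorem Ric_conf (hD : Dom S U) (hg : MetOn U g 2) (hφ : ContDiffOn ℝ 2 φ U) (h0 : ∀ y ∈ U, 0 < φ y)
    (i j : Fin m) {y : V m} (hy : y ∈ U) :
    Ric S (cf φ g) i j y = Ric S g i j y
      - ((m : ℝ) - 2) * (hess S g (lg φ) i j y - pd S i (lg φ) y * pd S j (lg φ) y)
      - (lap S g (lg φ) y + ((m : ℝ) - 2) * gip S g (lg φ) (lg φ) y) * g y i j := by
  have h12 : (1 : WithTop ℕ∞) ≤ 2 := by norm_num
  have hφ1 : ContDiffOn ℝ 1 φ U := hφ.of_le h12
  have hψ : ContDiffOn ℝ 2 (lg φ) U := contDiffOn_lg hφ h0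
  have hG : ∀ a b, g y a b = g y b a := fun a b => hg.symm hy a b
  have hq : ∀ a, ∑ b, g y a b * grd S g (lg φ) b y = pd S a (lg φ) y := fun a => sum_met_grd hg _ a hy
  have hgrd : ∀ a, DifferentiableOn ℝ (grd S g (lg φ) a) U := fun a =>
    (contDiffOn_grd hD two_eq_one_add_one (hg.of_le h12) hψ a).differentiableOn (by simp)
  have hpd : ∀ a, DifferentiableOn ℝ (pd S a (lg φ)) U := fun a => hD.diffOn_pd a hψ
  have hGam : ∀ a b c, DifferentiableOn ℝ (Gam S g a b c) U := fun a b c =>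
    (contDiffOn_Gam hD two_eq_one_add_one hg a b c).differentiableOn (by simp)
  -- the difference tensor as a function
  let T : Fin m → Fin m → Fin m → V m → ℝ := fun a b c z =>
    TT (fun i => pd S i (lg φ) z) (fun i => grd S g (lg φ) i z) (fun i j => g z i j) a b c
  have hTeq : ∀ a b c z, T a b c z = (if a = b then pd S c (lg φ) z else 0) +
      (if a = c then pd S b (lg φ) z else 0) - g z b c * grd S g (lg φ) a z := fun a b c z => rfl
  have hite : ∀ (P : Prop) [Decidable P] (c : Fin m),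
      DifferentiableOn ℝ (fun z => if P then pd S c (lg φ) z else 0) U := by
    intro P _ c
    by_cases hP : P
    · simpa [hP] using hpd c
    · simp [hP]
  have hTd : ∀ a b c, DifferentiableOn ℝ (T a b c) U := by
    intro a b c
    exact ((hite _ c).add (hite _ b)).sub ((hg.diffOn h12 b c).mul (hgrd a))
  have hΓ : ∀ a b c, ∀ z ∈ U, Gam S (cf φ g) a b c z = Gam S g a b c z + T a b c z := by
    intro a b c z hz
    rw [Gam_conf hD hg h12 hφ1 h0 a b c hz, hTeq]
  have hpdΓ : ∀ l a b c, pd S l (Gam S (cf φ g) a b c) y = pd S l (Gam S g a b c) y + pd S l (T a b c) y := by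
    intro l a b c
    rw [hD.pd_congr l (hΓ a b c) hy, hD.pd_add l (hGam a b c) (hTd a b c) hy]
  -- derivative terms
  have hd1 : ∑ a, pd S a (T a i j) y = pd S i (pd S j (lg φ)) y + pd S j (pd S i (lg φ)) y
      - ∑ a, pd S a (fun z => g z i j) y * grd S g (lg φ) a y
      - g y i j * ∑ a, pd S a (grd S g (lg φ) a) y := by
    have e1 : ∀ a, pd S a (T a i j) y = (if a = i then pd S a (pd S j (lg φ)) y else 0) +
        (if a = j then pd S a (pd S i (lg φ)) y else 0) -
        (pd S a (fun z => g z i j) y * grd S g (lg φ) a y + g y i j * pd S a (grd S g (lg φ) a) y) := by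
      intro a
      have e2 : DifferentiableOn ℝ (fun z => (if a = i then pd S j (lg φ) z else 0) +
        (if a = j then pd S i (lg φ) z else 0)) U := (hite _ j).add (hite _ i)
      have e3 : DifferentiableOn ℝ (fun z => g z i j * grd S g (lg φ) a z) U :=
        (hg.diffOn h12 i j).mul (hgrd a)
      have e4 := hD.pd_sub a e2 e3 hy
      have e5 := hD.pd_add a (hite (a = i) j) (hite (a = j) i) hy
      have e6 := hD.pd_mul a (hg.diffOn h12 i j) (hgrd a) hy
      have e7 : ∀ (P : Prop) [Decidable P] (c : Fin m), pd S a (fun z => if P then pd S c (lg φ) z else 0) y =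
          if P then pd S a (pd S c (lg φ)) y else 0 := by
        intro P _ c
        by_cases hP : P
        · simp [hP]
        · simp [hP, pd_const]
      show pd S a (fun z => ((if a = i then pd S j (lg φ) z else 0) +
        (if a = j then pd S i (lg φ) z else 0)) - g z i j * grd S g (lg φ) a z) y = _
      rw [e4, e5, e6, e7, e7]
    simp only [e1, Finset.sum_add_distrib, Finset.sum_sub_distrib, ← Finset.mul_sum]
    simp
    ring
  have hd2 : ∑ a, pd S j (T a i a) y = m * pd S j (pd S i (lg φ)) y := by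
    rw [← hD.pd_sum j Finset.univ (fun a _ => hTd a i a) hy]
    have e1 : ∀ z ∈ U, ∑ a, T a i a z = m * pd S i (lg φ) z := fun z hz =>
      TT_tr2 _ _ _ (fun b => sum_met_grd hg _ b hz) i
    rw [hD.pd_congr j e1 hy, hD.pd_const_mul j _ (hpd i) hy]
  have hd3 : ∑ a, pd S a (grd S g (lg φ) a) y = lap S g (lg φ) y -
      ∑ a, ∑ b, Gam S g a a b y * grd S g (lg φ) b y := by
    rw [lap, ← Finset.sum_sub_distrib]
    exact Finset.sum_congr rfl fun a _ => pd_grd hD hg h12 hψ a a hy
  have hd4 : ∑ a, pd S a (fun z => g z i j) y * grd S g (lg φ) a y =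
      ∑ a, ∑ b, g y j b * (Gam S g b i a y * grd S g (lg φ) a y) +
      ∑ a, ∑ b, g y i a * (Gam S g a j b y * grd S g (lg φ) b y) := by
    have e1 : ∀ a, pd S a (fun z => g z i j) y * grd S g (lg φ) a y =
        ∑ b, g y j b * (Gam S g b i a y * grd S g (lg φ) a y) +
        ∑ b, g y i b * (Gam S g b j a y * grd S g (lg φ) a y) := by
      intro a
      rw [pd_met hD hg a i j hy, Finset.sum_add_distrib, add_mul, Finset.sum_mul, Finset.sum_mul]
      congr 1
      · refine Finset.sum_congr rfl fun b _ => ?_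
        rw [hG b j, Gam_symm hD hg b a i hy]; ring
      · refine Finset.sum_congr rfl fun b _ => ?_
        rw [hG b i, Gam_symm hD hg b a j hy]; ring
    simp only [e1, Finset.sum_add_distrib]
    congr 1
    exact Finset.sum_comm
  -- quadratic terms
  have q1 := TT_s1 (fun a b c => Gam S g a b c y) (fun i => pd S i (lg φ) y)
    (fun i => grd S g (lg φ) i y) (fun i j => g y i j) i j
  have q2 := TT_s2 (fun a b c => Gam S g a b c y) (fun i => pd S i (lg φ) y)
    (fun i => grd S g (lg φ) i y) (fun i j => g y i j) hG hq i j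
  have q3 := TT_s3 (fun a b c => Gam S g a b c y) (fun i => pd S i (lg φ) y)
    (fun i => grd S g (lg φ) i y) (fun i j => g y i j) i j
  have q4 := TT_s4 (fun a b c => Gam S g a b c y) (fun i => pd S i (lg φ) y)
    (fun i => grd S g (lg φ) i y) (fun i j => g y i j) i j
  have q5 := TT_s5 (fun i => pd S i (lg φ) y)
    (fun i => grd S g (lg φ) i y) (fun i j => g y i j) hG hq i j
  have q6 := TT_s6 (fun i => pd S i (lg φ) y)
    (fun i => grd S g (lg φ) i y) (fun i j => g y i j) hG hq i j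
  have hgip : ∑ l, pd S l (lg φ) y * grd S g (lg φ) l y = gip S g (lg φ) (lg φ) y := (gip_eq_grd _ _ _).symm
  have hR : Ric S (cf φ g) i j y = Ric S g i j y + (∑ a, pd S a (T a i j) y - ∑ a, pd S j (T a i a) y +
      (∑ a, ∑ l, Gam S g a a l y * T l i j y + ∑ a, ∑ l, T a a l y * Gam S g l i j y
        + ∑ a, ∑ l, T a a l y * T l i j y
        - ∑ a, ∑ l, Gam S g a j l y * T l i a y - ∑ a, ∑ l, T a j l y * Gam S g l i a y
        - ∑ a, ∑ l, T a j l y * T l i a y)) := by
    simp only [Ric, hpdΓ, hΓ _ _ _ y hy]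
    simp only [← Finset.sum_add_distrib, ← Finset.sum_sub_distrib]
    refine Finset.sum_congr rfl fun a _ => ?_
    rw [show pd S a (Gam S g a i j) y - pd S j (Gam S g a i a) y +
        ∑ l, (Gam S g a a l y * Gam S g l i j y - Gam S g a j l y * Gam S g l i a y) +
        (pd S a (T a i j) y - pd S j (T a i a) y +
          ∑ l, (Gam S g a a l y * T l i j y + T a a l y * Gam S g l i j y + T a a l y * T l i j y -
            Gam S g a j l y * T l i a y - T a j l y * Gam S g l i a y - T a j l y * T l i a y)) =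
        pd S a (Gam S g a i j) y + pd S a (T a i j) y - (pd S j (Gam S g a i a) y + pd S j (T a i a) y) +
        (∑ l, (Gam S g a a l y * Gam S g l i j y - Gam S g a j l y * Gam S g l i a y) +
          ∑ l, (Gam S g a a l y * T l i j y + T a a l y * Gam S g l i j y + T a a l y * T l i j y -
            Gam S g a j l y * T l i a y - T a j l y * Gam S g l i a y - T a j l y * T l i a y)) from by ring]
    rw [← Finset.sum_add_distrib]
    congr 1
    exact Finset.sum_congr rfl fun l _ => by ring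
  rw [hR, hd1, hd2, hd3, hd4]
  change _ + (_ - _ + (_ + _ + _ - _ - _ - _)) = _
  have e1 : ∑ a, ∑ l, Gam S g a a l y * T l i j y = _ := q1
  have e2 : ∑ a, ∑ l, T a a l y * Gam S g l i j y = _ := q2
  have e3 : ∑ a, ∑ l, Gam S g a j l y * T l i a y = _ := q3
  have e4 : ∑ a, ∑ l, T a j l y * Gam S g l i a y = _ := q4
  have e5 : ∑ a, ∑ l, T a a l y * T l i j y = _ := q5
  have e6 : ∑ a, ∑ l, T a j l y * T l i a y = _ := q6
  rw [e1, e2, e3, e4, e5, e6, hgip]
  have s1 : ∑ a, Gam S g a a i y * pd S j (lg φ) y = ∑ a, Gam S g a i a y * pd S j (lg φ) y :=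
    Finset.sum_congr rfl fun a _ => by rw [Gam_symm hD hg a a i hy]
  have s2 : ∑ a, Gam S g a a j y * pd S i (lg φ) y = ∑ a, Gam S g a j a y * pd S i (lg φ) y :=
    Finset.sum_congr rfl fun a _ => by rw [Gam_symm hD hg a a j hy]
  have s3 : ∑ a, pd S a (lg φ) y * Gam S g a j i y = ∑ l, pd S l (lg φ) y * Gam S g l i j y :=
    Finset.sum_congr rfl fun a _ => by rw [Gam_symm hD hg a j i hy]
  have s4 : hess S g (lg φ) i j y = pd S i (pd S j (lg φ)) y - ∑ l, pd S l (lg φ) y * Gam S g l i j y := by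
    rw [hess]; congr 1
    exact Finset.sum_congr rfl fun a _ => by ring
  rw [s1, s2, s3, s4, hD.pd_comm j i hψ hy]
  ring

/-- The scalar curvature of `φ² g`. -/
theorem scal_conf (hD : Dom S U) (hg : MetOn U g 2) (hφ : ContDiffOn ℝ 2 φ U) (h0 : ∀ y ∈ U, 0 < φ y)
    {y : V m} (hy : y ∈ U) :
    scal S (cf φ g) y = (φ y ^ 2)⁻¹ * (scal S g y - 2 * ((m : ℝ) - 1) * lap S g (lg φ) y
      - ((m : ℝ) - 2) * ((m : ℝ) - 1) * gip S g (lg φ) (lg φ) y) := by
  simp only [scal, Ric_conf hD hg hφ h0 _ _ hy, cf_inv_apply hg h0 hy]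
  have h1 : ∀ i j, (φ y ^ 2)⁻¹ * (g y)⁻¹ i j * (Ric S g i j y
      - ((m : ℝ) - 2) * (hess S g (lg φ) i j y - pd S i (lg φ) y * pd S j (lg φ) y)
      - (lap S g (lg φ) y + ((m : ℝ) - 2) * gip S g (lg φ) (lg φ) y) * g y i j) =
      (φ y ^ 2)⁻¹ * ((g y)⁻¹ i j * Ric S g i j y - ((m : ℝ) - 2) * ((g y)⁻¹ i j * hess S g (lg φ) i j y)
        + ((m : ℝ) - 2) * ((g y)⁻¹ i j * (pd S i (lg φ) y * pd S j (lg φ) y))
        - (lap S g (lg φ) y + ((m : ℝ) - 2) * gip S g (lg φ) (lg φ) y) * ((g y)⁻¹ i j * g y i j)) := by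
    intro i j; ring
  simp only [h1, ← Finset.mul_sum, Finset.sum_add_distrib, Finset.sum_sub_distrib, trace_met hg hy]
  have h2 : ∑ i, ∑ j, (g y)⁻¹ i j * (pd S i (lg φ) y * pd S j (lg φ) y) = gip S g (lg φ) (lg φ) y := rfl
  have h3 : ∑ i, ∑ j, (g y)⁻¹ i j * hess S g (lg φ) i j y = lap S g (lg φ) y := rfl
  rw [h2, h3]
  ring

end confric

end Pool.Agent.CY
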