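import Pool.Agent.CY.S5.ConfRic

/-!
Project CY, part S5: chain rules for Hessian and Laplacian, the conformal laws for `u^{4/(n-1)} g`, the
mean curvature and the normal derivative.
-/

set_option autoImplicit false

open scoped ContDiff Manifold
open MeasureTheory Set Filter Topology

namespace Pool.Agent.CY

section chain

variable {m : ℕ} {S U : Set (V m)} {g : MF m} {k : WithTop ℕ∞}

theorem pd_comp_has (hD : Dom S U) (i : Fin m) {F F' : ℝ → ℝ} {f : V m → ℝ} (hf : DifferentiableOn ℝ f U)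
    (hF : ∀ z ∈ U, HasDerivAt F (F' (f z)) (f z)) {y : V m} (hy : y ∈ U) :
    pd S i (fun z => F (f z)) y = F' (f y) * pd S i f y := by
  rw [hD.pd_comp i hf hy (hF y hy).differentiableAt, (hF y hy).deriv]

theorem gip_comp (hD : Dom S U) {F F' : ℝ → ℝ} {f : V m → ℝ} (hf : DifferentiableOn ℝ f U)
    (hF : ∀ z ∈ U, HasDerivAt F (F' (f z)) (f z)) (k' : V m → ℝ) {y : V m} (hy : y ∈ U) :
    gip S g (fun z => F (f z)) k' y = F' (f y) * gip S g f k' y := by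
  simp only [gip, pd_comp_has hD _ hf hF hy, Finset.mul_sum]
  exact Finset.sum_congr rfl fun i _ => Finset.sum_congr rfl fun j _ => by ring

theorem gip_comp_self (hD : Dom S U) {F F' : ℝ → ℝ} {f : V m → ℝ} (hf : DifferentiableOn ℝ f U)
    (hF : ∀ z ∈ U, HasDerivAt F (F' (f z)) (f z)) {y : V m} (hy : y ∈ U) :
    gip S g (fun z => F (f z)) (fun z => F (f z)) y = F' (f y) ^ 2 * gip S g f f y := by
  simp only [gip, pd_comp_has hD _ hf hF hy, Finset.mul_sum]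
  exact Finset.sum_congr rfl fun i _ => Finset.sum_congr rfl fun j _ => by ring

/-- Chain rule for the Hessian. -/
theorem hess_comp (hD : Dom S U) {F F' F'' : ℝ → ℝ} {f : V m → ℝ} (hf : ContDiffOn ℝ 2 f U)
    (hF : ∀ z ∈ U, HasDerivAt F (F' (f z)) (f z)) (hF' : ∀ z ∈ U, HasDerivAt F' (F'' (f z)) (f z))
    (i j : Fin m) {y : V m} (hy : y ∈ U) :
    hess S g (fun z => F (f z)) i j y =
      F'' (f y) * (pd S i f y * pd S j f y) + F' (f y) * hess S g f i j y := by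
  have hf1 : DifferentiableOn ℝ f U := hf.differentiableOn (by simp)
  have h1 : ∀ z ∈ U, pd S j (fun z => F (f z)) z = F' (f z) * pd S j f z := fun z hz =>
    pd_comp_has hD j hf1 hF hz
  have h2 : DifferentiableOn ℝ (fun z => F' (f z)) U := fun z hz =>
    (hF' z hz).differentiableAt.comp_differentiableWithinAt z (hf1 z hz)
  have h3 := hD.pd_mul i h2 (hD.diffOn_pd j hf) hy
  simp only [hess]
  rw [hD.pd_congr i h1 hy, h3, pd_comp_has hD i hf1 hF' hy]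
  simp only [pd_comp_has hD _ hf1 hF hy, mul_sub, Finset.mul_sum]
  have h4 : ∑ x, Gam S g x i j y * (F' (f y) * pd S x f y) = ∑ x, F' (f y) * (Gam S g x i j y * pd S x f y) :=
    Finset.sum_congr rfl fun x _ => by ring
  rw [h4]
  ring

/-- Chain rule for the Laplacian. -/
theorem lap_comp (hD : Dom S U) {F F' F'' : ℝ → ℝ} {f : V m → ℝ} (hf : ContDiffOn ℝ 2 f U)
    (hF : ∀ z ∈ U, HasDerivAt F (F' (f z)) (f z)) (hF' : ∀ z ∈ U, HasDerivAt F' (F'' (f z)) (f z))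
    {y : V m} (hy : y ∈ U) :
    lap S g (fun z => F (f z)) y = F'' (f y) * gip S g f f y + F' (f y) * lap S g f y := by
  simp only [lap, gip, hess_comp hD hf hF hF' _ _ hy, Finset.mul_sum, ← Finset.sum_add_distrib]
  exact Finset.sum_congr rfl fun i _ => Finset.sum_congr rfl fun j _ => by ring

variable {u : V m → ℝ}

theorem lg_rpow (hu : ∀ y ∈ U, 0 < u y) (s : ℝ) {y : V m} (hy : y ∈ U) :
    lg (fun z => u z ^ s) y = s * Real.log (u y) := by
  rw [lg, Real.log_rpow (hu y hy)]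

theorem hasDerivAt_slog (hu : ∀ y ∈ U, 0 < u y) (s : ℝ) : ∀ z ∈ U,
    HasDerivAt (fun x : ℝ => s * Real.log x) ((fun x : ℝ => s * x⁻¹) (u z)) (u z) := fun z hz =>
  (Real.hasDerivAt_log (hu z hz).ne').const_mul s

theorem hasDerivAt_sinv (hu : ∀ y ∈ U, 0 < u y) (s : ℝ) : ∀ z ∈ U,
    HasDerivAt (fun x : ℝ => s * x⁻¹) ((fun x : ℝ => s * (-(x ^ 2)⁻¹)) (u z)) (u z) := fun z hz =>
  (hasDerivAt_inv (hu z hz).ne').const_mul s

theorem lap_congr (hD : Dom S U) {f f' : V m → ℝ} (h : ∀ z ∈ U, f z = f' z) {y : V m} (hy : y ∈ U) :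
    lap S g f y = lap S g f' y := by
  have h1 : ∀ i, ∀ z ∈ U, pd S i f z = pd S i f' z := fun i z hz => hD.pd_congr i h hz
  simp only [lap, hess, hD.pd_congr _ (h1 _) hy, h1 _ y hy]

theorem gip_congr (hD : Dom S U) {f f' k' k'' : V m → ℝ} (h : ∀ z ∈ U, f z = f' z)
    (h' : ∀ z ∈ U, k' z = k'' z) {y : V m} (hy : y ∈ U) :
    gip S g f k' y = gip S g f' k'' y := by
  simp only [gip, hD.pd_congr _ h hy, hD.pd_congr _ h' hy]

theorem pd_lg_rpow (hD : Dom S U) (hu : ContDiffOn ℝ 1 u U) (h0 : ∀ y ∈ U, 0 < u y) (s : ℝ) (i : Fin m)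
    {y : V m} (hy : y ∈ U) : pd S i (lg (fun z => u z ^ s)) y = s * (u y)⁻¹ * pd S i u y := by
  rw [hD.pd_congr i (fun z hz => lg_rpow h0 s hz) hy]
  exact pd_comp_has hD i (F := fun x => s * Real.log x) (F' := fun x => s * x⁻¹)
    (hu.differentiableOn (by simp)) (hasDerivAt_slog h0 s) hy

theorem lap_lg_rpow (hD : Dom S U) (hu : ContDiffOn ℝ 2 u U) (h0 : ∀ y ∈ U, 0 < u y) (s : ℝ)
    {y : V m} (hy : y ∈ U) : lap S g (lg (fun z => u z ^ s)) y =
      s * ((u y)⁻¹ * lap S g u y - (u y ^ 2)⁻¹ * gip S g u u y) := by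
  rw [lap_congr hD (fun z hz => lg_rpow h0 s hz) hy]
  have h := lap_comp (g := g) hD hu (F := fun x => s * Real.log x) (F' := fun x => s * x⁻¹)
    (F'' := fun x => s * (-(x ^ 2)⁻¹)) (hasDerivAt_slog h0 s) (hasDerivAt_sinv h0 s) hy
  rw [h]
  ring

theorem gip_lg_rpow (hD : Dom S U) (hu : ContDiffOn ℝ 1 u U) (h0 : ∀ y ∈ U, 0 < u y) (s : ℝ)
    {y : V m} (hy : y ∈ U) : gip S g (lg (fun z => u z ^ s)) (lg (fun z => u z ^ s)) y =
      s ^ 2 * ((u y ^ 2)⁻¹ * gip S g u u y) := by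
  rw [gip_congr hD (fun z hz => lg_rpow h0 s hz) (fun z hz => lg_rpow h0 s hz) hy]
  have h := gip_comp_self (g := g) hD (F := fun x => s * Real.log x) (F' := fun x => s * x⁻¹)
    (hu.differentiableOn (by simp)) (hasDerivAt_slog h0 s) hy
  simp only [mul_pow, inv_pow] at h
  rw [h]
  ring

theorem gip_lg_rpow' (hD : Dom S U) (hu : ContDiffOn ℝ 1 u U) (h0 : ∀ y ∈ U, 0 < u y) (s : ℝ)
    (f : V m → ℝ) {y : V m} (hy : y ∈ U) : gip S g (lg (fun z => u z ^ s)) f y =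
      s * ((u y)⁻¹ * gip S g u f y) := by
  rw [gip_congr hD (fun z hz => lg_rpow h0 s hz) (k'' := f) (fun z _ => rfl) hy]
  have h := gip_comp (g := g) hD (F := fun x => s * Real.log x) (F' := fun x => s * x⁻¹)
    (hu.differentiableOn (by simp)) (hasDerivAt_slog h0 s) f hy
  rw [h]
  ring

end chain

section ulaw

variable {n : ℕ} {S U : Set (V (n + 1))} {g : MF (n + 1)} {k : WithTop ℕ∞} {u : V (n + 1) → ℝ}

/-- The conformal factor `φ = u^{2/(n-1)}` (so that `φ² g = u^{4/(n-1)} g`). -/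
noncomputable def phi (n : ℕ) (x : ℝ) : ℝ := x ^ (2 / ((n : ℝ) - 1))

theorem phi_pos {n : ℕ} {x : ℝ} (hx : 0 < x) : 0 < phi n x := Real.rpow_pos_of_pos hx _

theorem contDiffOn_phi (hu : ContDiffOn ℝ k u U) (h0 : ∀ y ∈ U, 0 < u y) :
    ContDiffOn ℝ k (fun y => phi n (u y)) U := by
  unfold phi
  exact hu.rpow_const_of_ne fun y hy => (h0 y hy).ne'

/-- The scalar curvature of `u^{4/(n-1)} g`. -/
theorem scal_u (hn : 2 ≤ n) (hD : Dom S U) (hg : MetOn U g 2) (hu : ContDiffOn ℝ 2 u U)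
    (h0 : ∀ y ∈ U, 0 < u y) {y : V (n + 1)} (hy : y ∈ U) :
    scal S (cf (fun z => phi n (u z)) g) y =
      u y ^ (-(((n : ℝ) + 3) / ((n : ℝ) - 1))) * (-cn n * lap S g u y + scal S g y * u y) := by
  have h1 : (0 : ℝ) < (n : ℝ) - 1 := by
    have : (2 : ℝ) ≤ n := by exact_mod_cast hn
    linarith
  have hy0 := h0 y hy
  have e1 : (phi n (u y) ^ 2)⁻¹ = u y ^ (-(((n : ℝ) + 3) / ((n : ℝ) - 1))) * u y := by
    rw [phi, ← Real.rpow_natCast, ← Real.rpow_mul hy0.le, ← Real.rpow_neg hy0.le]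
    conv_rhs => rw [← Real.rpow_add_one hy0.ne']
    congr 1
    push_cast
    field_simp
    ring
  rw [scal_conf hD hg (contDiffOn_phi hu h0) (fun z hz => phi_pos (h0 z hz)) hy]
  have e2 := lap_lg_rpow (g := g) hD hu h0 (2 / ((n : ℝ) - 1)) hy
  have e3 := gip_lg_rpow (g := g) hD (hu.of_le (by norm_num)) h0 (2 / ((n : ℝ) - 1)) hy
  unfold phi at *
  rw [e2, e3, e1, cn]
  push_cast
  have hy1 := hy0.ne'
  field_simp
  ring

/-- The Laplacian for `u^{4/(n-1)} g`. -/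
theorem lap_u (hn : 2 ≤ n) (hD : Dom S U) (hg : MetOn U g 2) (hu : ContDiffOn ℝ 2 u U)
    (h0 : ∀ y ∈ U, 0 < u y) (f : V (n + 1) → ℝ) {y : V (n + 1)} (hy : y ∈ U) :
    lap S (cf (fun z => phi n (u z)) g) f y =
      (phi n (u y) ^ 2)⁻¹ * (lap S g f y + 2 * (u y)⁻¹ * gip S g u f y) := by
  have h1 : (0 : ℝ) < (n : ℝ) - 1 := by
    have : (2 : ℝ) ≤ n := by exact_mod_cast hn
    linarith
  rw [lap_conf hD hg (by norm_num) ((contDiffOn_phi hu h0).of_le (by norm_num))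
    (fun z hz => phi_pos (h0 z hz)) f hy]
  have e3 := gip_lg_rpow' (g := g) hD (hu.of_le (by norm_num)) h0 (2 / ((n : ℝ) - 1)) f hy
  unfold phi at *
  rw [e3]
  push_cast
  congr 2
  field_simp
  ring

end ulaw

section mean

variable {n : ℕ} {U : Set (V (n + 1))} {g : MF (n + 1)} {k : WithTop ℕ∞} {φ : V (n + 1) → ℝ}

theorem tang_eq (z : V n) : tang g z = (g (bd z)).submatrix Fin.succ Fin.succ := rfl

theorem tang_posDef (hg : MetOn U g k) {z : V n} (hz : bd z ∈ U) : (tang g z).PosDef := by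
  rw [tang_eq]
  exact (hg.pos _ hz).submatrix (Fin.succ_injective n)

theorem tang_cf (z : V n) : tang (cf φ g) z = cf (fun w => φ (bd w)) (tang g) z := by
  ext a b
  simp [tang, cf]

theorem tang_inv_cf (hg : MetOn U g k) (h0 : ∀ y ∈ U, 0 < φ y) {z : V n} (hz : bd z ∈ U) (a b : Fin n) :
    (tang (cf φ g) z)⁻¹ a b = (φ (bd z) ^ 2)⁻¹ * (tang g z)⁻¹ a b := by
  have hφ : φ (bd z) ^ 2 ≠ 0 := (pow_pos (h0 _ hz) 2).ne'
  have hdet : IsUnit (tang g z).det := (tang_posDef hg hz).det_pos.ne'.isUnit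
  have h1 : (tang (cf φ g) z)⁻¹ = (φ (bd z) ^ 2)⁻¹ • (tang g z)⁻¹ := by
    rw [tang_cf, cf]
    apply Matrix.inv_eq_right_inv
    rw [Matrix.smul_mul, Matrix.mul_smul, Matrix.mul_nonsing_inv _ hdet, smul_smul,
      mul_inv_cancel₀ hφ, one_smul]
  rw [h1]; simp

theorem trace_tang (hg : MetOn U g k) {z : V n} (hz : bd z ∈ U) :
    ∑ a, ∑ b, (tang g z)⁻¹ a b * g (bd z) a.succ b.succ = n := by
  have hdet : IsUnit (tang g z).det := (tang_posDef hg hz).det_pos.ne'.isUnit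
  have h1 : ∀ a, ∑ b, (tang g z)⁻¹ a b * g (bd z) a.succ b.succ = 1 := by
    intro a
    have h2 := congrFun (congrFun (Matrix.nonsing_inv_mul _ hdet) a) a
    rw [Matrix.mul_apply, Matrix.one_apply_eq] at h2
    rw [← h2]
    refine Finset.sum_congr rfl fun b _ => ?_
    rw [hg.symm hz a.succ b.succ]
    rfl
  simp [h1]

theorem sqrt_inv_cf (hg : MetOn U g k) (h0 : ∀ y ∈ U, 0 < φ y) {y : V (n + 1)} (hy : y ∈ U) :
    Real.sqrt ((cf φ g y)⁻¹ 0 0) = (φ y)⁻¹ * Real.sqrt ((g y)⁻¹ 0 0) := by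
  rw [cf_inv_apply hg h0 hy, Real.sqrt_mul (inv_nonneg.2 (sq_nonneg _)), Real.sqrt_inv,
    Real.sqrt_sq (h0 y hy).le]

theorem inv00_pos (hg : MetOn U g k) {y : V (n + 1)} (hy : y ∈ U) : 0 < (g y)⁻¹ 0 0 := by
  have h := (hg.pos y hy).inv
  exact h.diag_pos

/-- The mean curvature of the boundary for `φ² g`. -/
theorem meanCurv_conf (hD : Dom (Hs n) U) (hg : MetOn U g k) (hk : 1 ≤ k) (hφ : ContDiffOn ℝ 1 φ U)
    (h0 : ∀ y ∈ U, 0 < φ y) {z : V n} (hz : bd z ∈ U) :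
    meanCurv (cf φ g) z = (φ (bd z))⁻¹ * (meanCurv g z + n * nder g (lg φ) z) := by
  have hφ0 := h0 _ hz
  have hs : 0 < Real.sqrt ((g (bd z))⁻¹ 0 0) := Real.sqrt_pos.2 (inv00_pos hg hz)
  simp only [meanCurv, nder]
  rw [sqrt_inv_cf hg h0 hz]
  have h1 : ∑ a, ∑ b, (tang (cf φ g) z)⁻¹ a b * Gam (Hs n) (cf φ g) 0 a.succ b.succ (bd z) =
      (φ (bd z) ^ 2)⁻¹ * ((∑ a, ∑ b, (tang g z)⁻¹ a b * Gam (Hs n) g 0 a.succ b.succ (bd z)) -
        n * grd (Hs n) g (lg φ) 0 (bd z)) := by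
    have h2 : ∀ a b, (tang (cf φ g) z)⁻¹ a b * Gam (Hs n) (cf φ g) 0 a.succ b.succ (bd z) =
        (φ (bd z) ^ 2)⁻¹ * ((tang g z)⁻¹ a b * Gam (Hs n) g 0 a.succ b.succ (bd z) -
          grd (Hs n) g (lg φ) 0 (bd z) * ((tang g z)⁻¹ a b * g (bd z) a.succ b.succ)) := by
      intro a b
      rw [tang_inv_cf hg h0 hz, Gam_conf hD hg hk hφ h0 _ _ _ hz,
        if_neg (Fin.succ_ne_zero a).symm, if_neg (Fin.succ_ne_zero b).symm]
      ring
    simp only [h2, ← Finset.mul_sum, Finset.sum_sub_distrib, trace_tang hg hz]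
    ring
  rw [h1]
  have h3 : ∑ j, (g (bd z))⁻¹ 0 j * pd (Hs n) j (lg φ) (bd z) = grd (Hs n) g (lg φ) 0 (bd z) := rfl
  rw [h3]
  field_simp
  ring

theorem nder_conf (hg : MetOn U g k) (h0 : ∀ y ∈ U, 0 < φ y) (f : V (n + 1) → ℝ) {z : V n}
    (hz : bd z ∈ U) : nder (cf φ g) f z = (φ (bd z))⁻¹ * nder g f z := by
  have hφ0 := h0 _ hz
  have hs : 0 < Real.sqrt ((g (bd z))⁻¹ 0 0) := Real.sqrt_pos.2 (inv00_pos hg hz)
  simp only [nder]
  rw [sqrt_inv_cf hg h0 hz]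
  simp only [cf_inv_apply hg h0 hz, mul_assoc, ← Finset.mul_sum]
  field_simp

theorem nder_lg_rpow (hD : Dom (Hs n) U) {u : V (n + 1) → ℝ} (hu : ContDiffOn ℝ 1 u U)
    (h0 : ∀ y ∈ U, 0 < u y) (s : ℝ) {z : V n} (hz : bd z ∈ U) :
    nder g (lg (fun y => u y ^ s)) z = s * (u (bd z))⁻¹ * nder g u z := by
  simp only [nder, pd_lg_rpow hD hu h0 s _ hz]
  have : ∀ j, (g (bd z))⁻¹ 0 j * (s * (u (bd z))⁻¹ * pd (Hs n) j u (bd z)) =
      (s * (u (bd z))⁻¹) * ((g (bd z))⁻¹ 0 j * pd (Hs n) j u (bd z)) := fun j => by ring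
  simp only [this, ← Finset.mul_sum]
  ring

/-- The mean curvature of `u^{4/(n-1)} g`. -/
theorem meanCurv_u (hn : 2 ≤ n) (hD : Dom (Hs n) U) (hg : MetOn U g 1) {u : V (n + 1) → ℝ}
    (hu : ContDiffOn ℝ 1 u U) (h0 : ∀ y ∈ U, 0 < u y) {z : V n} (hz : bd z ∈ U) :
    meanCurv (cf (fun y => phi n (u y)) g) z =
      u (bd z) ^ (-(((n : ℝ) + 1) / ((n : ℝ) - 1))) *
        ((1 / 2) * (cn n * nder g u z + 2 * meanCurv g z * u (bd z))) := by
  have h1 : (0 : ℝ) < (n : ℝ) - 1 := by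
    have : (2 : ℝ) ≤ n := by exact_mod_cast hn
    linarith
  have hy0 := h0 _ hz
  have e1 : (phi n (u (bd z)))⁻¹ = u (bd z) ^ (-(((n : ℝ) + 1) / ((n : ℝ) - 1))) * u (bd z) := by
    rw [phi, ← Real.rpow_neg hy0.le]
    conv_rhs => rw [← Real.rpow_add_one hy0.ne']
    congr 1
    field_simp
    ring
  rw [meanCurv_conf hD hg le_rfl (contDiffOn_phi hu h0) (fun z hz => phi_pos (h0 z hz)) hz]
  have e3 := nder_lg_rpow (g := g) hD hu h0 (2 / ((n : ℝ) - 1)) hz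
  rw [e1]
  unfold phi
  rw [e3, cn]
  have hy1 := hy0.ne'
  field_simp
  ring

end mean

end Pool.Agent.CY
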