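import Pool.Agent.CY.S5.Inv2

/-!
Project CY, part S5: chart invariance of the Ricci tensor and of the scalar curvature.
-/

set_option autoImplicit false
set_option linter.unusedSectionVars false

open scoped ContDiff Manifold
open MeasureTheory Set Filter Topology

namespace Pool.Agent.CY

section curvalg

variable {m : ℕ} {S U : Set (V m)} {g : MF m}

/-- The curvature matrices `F_kl = ∂_k A_l - ∂_l A_k + [A_k, A_l]`. -/
noncomputable def FM (S : Set (V m)) (g : MF m) (k l : Fin m) (y : V m) : Matrix (Fin m) (Fin m) ℝ :=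
  pdM S k (GamM S g l) y - pdM S l (GamM S g k) y + GamM S g k y * GamM S g l y -
    GamM S g l y * GamM S g k y

theorem Ric_eq_FM (hD : Dom S U) (hg : MetOn U g 2) (i j : Fin m) {y : V m} (hy : y ∈ U) :
    Ric S g i j y = ∑ k, FM S g k j y k i := by
  rw [Ric]
  refine Finset.sum_congr rfl fun k _ => ?_
  simp only [FM, Matrix.add_apply, Matrix.sub_apply, Matrix.mul_apply, pdM, GamM, Matrix.of_apply]
  rw [hD.pd_congr k (fun z hz => Gam_symm hD hg k i j hz) hy,
    hD.pd_congr j (fun z hz => Gam_symm hD hg k i k hz) hy, Finset.sum_sub_distrib]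
  have h1 : ∑ l, Gam S g k k l y * Gam S g l i j y = ∑ l, Gam S g k k l y * Gam S g l j i y :=
    Finset.sum_congr rfl fun l _ => by rw [Gam_symm hD hg l i j hy]
  have h2 : ∑ l, Gam S g k j l y * Gam S g l i k y = ∑ l, Gam S g k j l y * Gam S g l k i y :=
    Finset.sum_congr rfl fun l _ => by rw [Gam_symm hD hg l i k hy]
  rw [h1, h2]
  ring

theorem CM_GamM (hD : Dom S U) (hg : MetOn U g 3) (l : Fin m) : CM 2 U (GamM S g l) := fun a b =>
  contDiffOn_Gam hD (k := 2) (l := 3) (by norm_num) hg a l b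

end curvalg

section curv

variable {n : ℕ} {X : Type} [TopologicalSpace X] [ChartedSpace (EuclideanHalfSpace (n + 1)) X]
  [IsManifold (𝓡∂ (n + 1)) ∞ X]
  {e e' : OpenPartialHomeomorph X (EuclideanHalfSpace (n + 1))}

theorem CM_jac (he : e ∈ atlas (EuclideanHalfSpace (n + 1)) X)
    (he' : e' ∈ atlas (EuclideanHalfSpace (n + 1)) X) (k : ℕ) : CM k (dom2 e e') (jac e e') :=
  fun b i => contDiffOn_jac he he' b i k

/-- Differentiated transformation law. -/
theorem FM_gauge (g : Metric n X) (he : e ∈ atlas (EuclideanHalfSpace (n + 1)) X)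
    (he' : e' ∈ atlas (EuclideanHalfSpace (n + 1)) X) (k l : Fin (n + 1)) {y : V (n + 1)}
    (hy : y ∈ dom2 e e') :
    jac e e' y * FM (Hs n) (g.G e) k l y =
      (∑ d, ∑ c, (jac e e' y d k * jac e e' y c l) • FM (Hs n) (g.G e') d c (tr e e' y)) *
        jac e e' y := by
  have hD := dom_chart2 e e'
  have hD' := dom_chart2 e' e
  have hg : MetOn (dom2 e e') (g.G e) 3 := (g.metOn he).mono (dom2_subset e e')
  have hg' : MetOn (dom2 e' e) (g.G e') 3 := (g.metOn he').mono (dom2_subset e' e)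
  have hA : ∀ l, CM 1 (dom2 e e') (GamM (Hs n) (g.G e) l) := fun l =>
    (CM_GamM hD hg l).of_le (by norm_num)
  have hA' : ∀ l, CM 1 (dom2 e' e) (GamM (Hs n) (g.G e') l) := fun l =>
    (CM_GamM hD' hg' l).of_le (by norm_num)
  have hJ2 : CM 2 (dom2 e e') (jac e e') := CM_jac he he' 2
  have hJ1 : CM 1 (dom2 e e') (jac e e') := CM_jac he he' 1
  have htr : ContDiffOn ℝ 1 (tr e e') (dom2 e e') :=
    (contDiffOn_tr_vec he he').of_le (by exact_mod_cast le_top)
  have hAt : ∀ c, CM 1 (dom2 e e') (fun z => GamM (Hs n) (g.G e') c (tr e e' z)) := fun c a b =>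
    (hA' c a b).comp htr (fun z hz => tr_mem e e' hz)
  -- derivative of the gauge law
  have key : ∀ k l, pdM (Hs n) k (jac e e') y * GamM (Hs n) (g.G e) l y +
      jac e e' y * pdM (Hs n) k (GamM (Hs n) (g.G e) l) y =
      pdM (Hs n) k (pdM (Hs n) l (jac e e')) y +
      ∑ c, (pd (Hs n) k (fun z => jac e e' z c l) y • (GamM (Hs n) (g.G e') c (tr e e' y) * jac e e' y) +
        jac e e' y c l • ((∑ d, jac e e' y d k • pdM (Hs n) d (GamM (Hs n) (g.G e') c) (tr e e' y)) *
          jac e e' y + GamM (Hs n) (g.G e') c (tr e e' y) * pdM (Hs n) k (jac e e') y)) := by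
    intro k l
    have e1 := hD.pdM_congr k (A := fun z => jac e e' z * GamM (Hs n) (g.G e) l z)
      (B := fun z => pdM (Hs n) l (jac e e') z +
        ∑ c, jac e e' z c l • (GamM (Hs n) (g.G e') c (tr e e' z) * jac e e' z))
      (fun z hz => Gam_gauge g he he' l hz) hy
    have e2 := hD.pdM_mul k (A := jac e e') (B := GamM (Hs n) (g.G e) l) (hJ1.dOn le_rfl)
      ((hA l).dOn le_rfl) hy
    have e3 : CM 1 (dom2 e e') (pdM (Hs n) l (jac e e')) := hJ2.pdM hD two_eq_one_add_one l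
    have e4 : ∀ c, CM 1 (dom2 e e')
        (fun z => jac e e' z c l • (GamM (Hs n) (g.G e') c (tr e e' z) * jac e e' z)) := fun c =>
      CM.smul (hJ1 c l) ((hAt c).mul hJ1)
    have e5 := hD.pdM_add hy e3 (CM.sum Finset.univ fun c _ => e4 c) k
    have e6 := hD.pdM_sum Finset.univ (fun c _ => e4 c) hy k
    rw [← e2, e1, e5, e6]
    congr 1
    refine Finset.sum_congr rfl fun c _ => ?_
    rw [hD.pdM_smul hy (hJ1 c l) ((hAt c).mul hJ1) k]
    rw [hD.pdM_mul k (A := fun z => GamM (Hs n) (g.G e') c (tr e e' z)) (B := jac e e')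
      ((hAt c).dOn le_rfl) (hJ1.dOn le_rfl) hy]
    rw [hD.pdM_comp_map hD' k (diffOn_tr he he') ((hA' c).dOn le_rfl) (fun z hz => tr_mem e e' hz) hy]
    rfl
  set J := jac e e' y with hJ
  set M : Fin (n + 1) → Matrix (Fin (n + 1)) (Fin (n + 1)) ℝ := fun k =>
    ∑ c, J c k • GamM (Hs n) (g.G e') c (tr e e' y) with hM
  have hdJ : ∀ k, pdM (Hs n) k (jac e e') y = J * GamM (Hs n) (g.G e) k y - M k * J := by
    intro k
    rw [Gam_gauge g he he' k hy, hM]
    simp only [Finset.sum_mul, Matrix.smul_mul]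
    abel
  have key2 : ∀ k l, pdM (Hs n) k (jac e e') y * GamM (Hs n) (g.G e) l y +
      J * pdM (Hs n) k (GamM (Hs n) (g.G e) l) y =
      pdM (Hs n) k (pdM (Hs n) l (jac e e')) y +
      ∑ c, pd (Hs n) k (fun z => jac e e' z c l) y • (GamM (Hs n) (g.G e') c (tr e e' y) * J) +
      (∑ d, ∑ c, (J d k * J c l) • pdM (Hs n) d (GamM (Hs n) (g.G e') c) (tr e e' y)) * J +
      M l * pdM (Hs n) k (jac e e') y := by
    intro k l
    rw [key k l]
    simp only [Finset.sum_add_distrib, smul_add]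
    have f1 : ∑ c, J c l • ((∑ d, J d k • pdM (Hs n) d (GamM (Hs n) (g.G e') c) (tr e e' y)) * J) =
        (∑ d, ∑ c, (J d k * J c l) • pdM (Hs n) d (GamM (Hs n) (g.G e') c) (tr e e' y)) * J := by
      simp only [Finset.sum_mul, Finset.smul_sum, Matrix.smul_mul, smul_smul]
      rw [Finset.sum_comm]
      exact Finset.sum_congr rfl fun d _ => Finset.sum_congr rfl fun c _ => by rw [mul_comm (J c l)]
    have f2 : ∑ c, J c l • (GamM (Hs n) (g.G e') c (tr e e' y) * pdM (Hs n) k (jac e e') y) =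
        M l * pdM (Hs n) k (jac e e') y := by
      rw [hM]
      simp only [Finset.sum_mul, Matrix.smul_mul]
    rw [f1, f2]
    abel
  have hsym1 : pdM (Hs n) k (pdM (Hs n) l (jac e e')) y = pdM (Hs n) l (pdM (Hs n) k (jac e e')) y :=
    hD.pdM_comm hy hJ2 k l
  have hsym2 : ∀ c, pd (Hs n) k (fun z => jac e e' z c l) y = pd (Hs n) l (fun z => jac e e' z c k) y := by
    intro c
    have h1 : ContDiffOn ℝ 2 (fun z => tr e e' z c) (dom2 e e') :=
      (contDiffOn_tr he he' c).of_le (WithTop.coe_le_coe.2 le_top :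
        ((2 : ℕ∞) : WithTop ℕ∞) ≤ ((⊤ : ℕ∞) : WithTop ℕ∞))
    exact hD.pd_comm k l h1 hy
  have a1 := key2 k l
  have a2 := key2 l k
  rw [hsym1] at a1
  simp only [hsym2] at a1
  have hMM : ∑ d, ∑ c, (J d k * J c l) •
      (GamM (Hs n) (g.G e') d (tr e e' y) * GamM (Hs n) (g.G e') c (tr e e' y)) = M k * M l := by
    rw [hM]
    simp only [Finset.sum_mul, Finset.mul_sum, Matrix.smul_mul, Matrix.mul_smul, smul_smul]
    rw [Finset.sum_comm]
    refine Finset.sum_congr rfl fun d _ => Finset.sum_congr rfl fun c _ => ?_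
    rw [mul_comm (J c k)]
  have hMM' : ∑ d, ∑ c, (J d k * J c l) •
      (GamM (Hs n) (g.G e') c (tr e e' y) * GamM (Hs n) (g.G e') d (tr e e' y)) = M l * M k := by
    rw [hM]
    simp only [Finset.sum_mul, Finset.mul_sum, Matrix.smul_mul, Matrix.mul_smul, smul_smul]
  have hd2 : ∑ d, ∑ c, (J d l * J c k) • pdM (Hs n) d (GamM (Hs n) (g.G e') c) (tr e e' y) =
      ∑ d, ∑ c, (J d k * J c l) • pdM (Hs n) c (GamM (Hs n) (g.G e') d) (tr e e' y) := by
    rw [Finset.sum_comm]
    exact Finset.sum_congr rfl fun d _ => Finset.sum_congr rfl fun c _ => by rw [mul_comm (J d k)]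
  have hRHS : ∑ d, ∑ c, (J d k * J c l) • FM (Hs n) (g.G e') d c (tr e e' y) =
      ∑ d, ∑ c, (J d k * J c l) • pdM (Hs n) d (GamM (Hs n) (g.G e') c) (tr e e' y) -
      ∑ d, ∑ c, (J d l * J c k) • pdM (Hs n) d (GamM (Hs n) (g.G e') c) (tr e e' y) +
      M k * M l - M l * M k := by
    rw [← hMM, ← hMM', hd2]
    simp only [FM, smul_sub, smul_add, Finset.sum_sub_distrib, Finset.sum_add_distrib]
  rw [hRHS, FM]
  have a3 : J * pdM (Hs n) k (GamM (Hs n) (g.G e) l) y - J * pdM (Hs n) l (GamM (Hs n) (g.G e) k) y =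
      (∑ d, ∑ c, (J d k * J c l) • pdM (Hs n) d (GamM (Hs n) (g.G e') c) (tr e e' y)) * J -
      (∑ d, ∑ c, (J d l * J c k) • pdM (Hs n) d (GamM (Hs n) (g.G e') c) (tr e e' y)) * J +
      (M l * pdM (Hs n) k (jac e e') y - M k * pdM (Hs n) l (jac e e') y) -
      (pdM (Hs n) k (jac e e') y * GamM (Hs n) (g.G e) l y -
        pdM (Hs n) l (jac e e') y * GamM (Hs n) (g.G e) k y) := by
    have b1 := eq_sub_of_add_eq' a1
    have b2 := eq_sub_of_add_eq' a2
    rw [b1, b2]
    abel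
  rw [hdJ k, hdJ l] at a3
  rw [Matrix.mul_sub, Matrix.mul_add, Matrix.mul_sub, a3]
  simp only [Matrix.mul_sub, Matrix.sub_mul, Matrix.add_mul, Matrix.mul_assoc]
  abel

/-- Transformation law of the Ricci tensor. -/
theorem Ric_inv (g : Metric n X) (he : e ∈ atlas (EuclideanHalfSpace (n + 1)) X)
    (he' : e' ∈ atlas (EuclideanHalfSpace (n + 1)) X) (i j : Fin (n + 1)) {y : V (n + 1)}
    (hy : y ∈ dom2 e e') :
    Ric (Hs n) (g.G e) i j y = ∑ b, ∑ c, jac e e' y b i * jac e e' y c j *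
      Ric (Hs n) (g.G e') b c (tr e e' y) := by
  have hD := dom_chart2 e e'
  have hD' := dom_chart2 e' e
  have hg : MetOn (dom2 e e') (g.G e) 2 := (g.metOn2 he).mono (dom2_subset e e')
  have hg' : MetOn (dom2 e' e) (g.G e') 2 := (g.metOn2 he').mono (dom2_subset e' e)
  have hJ : IsUnit (jac e e' y).det := (g.det_jac_ne he he' hy).isUnit
  rw [Ric_eq_FM hD hg i j hy]
  simp only [Ric_eq_FM hD' hg' _ _ (tr_mem e e' hy)]
  set J := jac e e' y with hJdef
  have h1 : ∀ k l, FM (Hs n) (g.G e) k l y =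
      J⁻¹ * ((∑ d, ∑ c, (J d k * J c l) • FM (Hs n) (g.G e') d c (tr e e' y)) * J) := by
    intro k l
    rw [← FM_gauge g he he' k l hy, ← Matrix.mul_assoc, Matrix.nonsing_inv_mul _ hJ, Matrix.one_mul]
  have hJJ : ∀ d a, ∑ k, J d k * J⁻¹ k a = if d = a then 1 else 0 := by
    intro d a
    have := congrFun (congrFun (Matrix.mul_nonsing_inv _ hJ) d) a
    rw [Matrix.mul_apply, Matrix.one_apply] at this
    exact this
  -- expand
  have h2 : ∀ k, FM (Hs n) (g.G e) k j y k i =
      ∑ a, ∑ b, ∑ d, ∑ c, (J d k * J⁻¹ k a) *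
        (J b i * J c j * FM (Hs n) (g.G e') d c (tr e e' y) a b) := by
    intro k
    rw [h1, Matrix.mul_apply]
    refine Finset.sum_congr rfl fun a _ => ?_
    rw [Matrix.mul_apply, Finset.mul_sum]
    refine Finset.sum_congr rfl fun b _ => ?_
    rw [Matrix.sum_apply, Finset.sum_mul, Finset.mul_sum]
    refine Finset.sum_congr rfl fun d _ => ?_
    rw [Matrix.sum_apply, Finset.sum_mul, Finset.mul_sum]
    refine Finset.sum_congr rfl fun c _ => ?_
    rw [Matrix.smul_apply, smul_eq_mul]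
    ring
  simp only [h2]
  calc ∑ k, ∑ a, ∑ b, ∑ d, ∑ c, (J d k * J⁻¹ k a) *
        (J b i * J c j * FM (Hs n) (g.G e') d c (tr e e' y) a b)
      = ∑ a, ∑ b, ∑ d, ∑ k, ∑ c, (J d k * J⁻¹ k a) *
        (J b i * J c j * FM (Hs n) (g.G e') d c (tr e e' y) a b) := by
        rw [Finset.sum_comm]
        refine Finset.sum_congr rfl fun a _ => ?_
        rw [Finset.sum_comm]
        exact Finset.sum_congr rfl fun b _ => Finset.sum_comm
    _ = ∑ a, ∑ b, ∑ d, (if d = a then 1 else 0) *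
        ∑ c, (J b i * J c j * FM (Hs n) (g.G e') d c (tr e e' y) a b) := by
        refine Finset.sum_congr rfl fun a _ => Finset.sum_congr rfl fun b _ =>
          Finset.sum_congr rfl fun d _ => ?_
        rw [← hJJ d a, Finset.sum_mul]
        exact Finset.sum_congr rfl fun k _ => by rw [Finset.mul_sum]
    _ = ∑ a, ∑ b, ∑ c, (J b i * J c j * FM (Hs n) (g.G e') a c (tr e e' y) a b) := by
        refine Finset.sum_congr rfl fun a _ => Finset.sum_congr rfl fun b _ => ?_
        simp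
    _ = ∑ b, ∑ c, ∑ a, (J b i * J c j * FM (Hs n) (g.G e') a c (tr e e' y) a b) := by
        rw [Finset.sum_comm]
        exact Finset.sum_congr rfl fun b _ => Finset.sum_comm
    _ = _ := by
        refine Finset.sum_congr rfl fun b _ => Finset.sum_congr rfl fun c _ => ?_
        rw [Finset.mul_sum]

/-- Contraction of a covariant 2-tensor is chart invariant. -/
theorem contract_inv (g : Metric n X) (he : e ∈ atlas (EuclideanHalfSpace (n + 1)) X)
    (he' : e' ∈ atlas (EuclideanHalfSpace (n + 1)) X) {y : V (n + 1)} (hy : y ∈ dom2 e e')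
    (T T' : Fin (n + 1) → Fin (n + 1) → ℝ)
    (hT : ∀ i j, T i j = ∑ k, ∑ l, jac e e' y k i * jac e e' y l j * T' k l) :
    ∑ i, ∑ j, (g.G e y)⁻¹ i j * T i j = ∑ k, ∑ l, (g.G e' (tr e e' y))⁻¹ k l * T' k l := by
  have h1 := g.compat_inv he he' hy
  have h2 : ∀ k l, (g.G e' (tr e e' y))⁻¹ k l =
      ∑ i, ∑ j, jac e e' y k i * (g.G e y)⁻¹ i j * jac e e' y l j := by
    intro k l
    rw [← h1, Matrix.mul_apply]
    simp only [Matrix.mul_apply, Matrix.transpose_apply, Finset.sum_mul]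
    exact Finset.sum_comm
  simp only [hT, h2, Finset.sum_mul, Finset.mul_sum]
  calc ∑ i, ∑ j, ∑ k, ∑ l, (g.G e y)⁻¹ i j * (jac e e' y k i * jac e e' y l j * T' k l)
      = ∑ i, ∑ k, ∑ j, ∑ l, (g.G e y)⁻¹ i j * (jac e e' y k i * jac e e' y l j * T' k l) :=
        Finset.sum_congr rfl fun i _ => Finset.sum_comm
    _ = ∑ k, ∑ i, ∑ j, ∑ l, (g.G e y)⁻¹ i j * (jac e e' y k i * jac e e' y l j * T' k l) :=
        Finset.sum_comm
    _ = ∑ k, ∑ i, ∑ l, ∑ j, (g.G e y)⁻¹ i j * (jac e e' y k i * jac e e' y l j * T' k l) :=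
        Finset.sum_congr rfl fun k _ => Finset.sum_congr rfl fun i _ => Finset.sum_comm
    _ = ∑ k, ∑ l, ∑ i, ∑ j, (g.G e y)⁻¹ i j * (jac e e' y k i * jac e e' y l j * T' k l) :=
        Finset.sum_congr rfl fun k _ => Finset.sum_comm
    _ = _ := by
        refine Finset.sum_congr rfl fun k _ => Finset.sum_congr rfl fun l _ =>
          Finset.sum_congr rfl fun i _ => Finset.sum_congr rfl fun j _ => ?_
        ring

theorem scal_inv (g : Metric n X) (he : e ∈ atlas (EuclideanHalfSpace (n + 1)) X)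
    (he' : e' ∈ atlas (EuclideanHalfSpace (n + 1)) X) {y : V (n + 1)} (hy : y ∈ dom2 e e') :
    scal (Hs n) (g.G e) y = scal (Hs n) (g.G e') (tr e e' y) :=
  contract_inv g he he' hy _ _ fun i j => Ric_inv g he he' i j hy

/-- The scalar curvature in an arbitrary chart. -/
theorem scalX_eq (g : Metric n X) (he : e ∈ atlas (EuclideanHalfSpace (n + 1)) X) {p : X}
    (hp : p ∈ e.source) : scalX g p = scal (Hs n) (g.G e) (co e p) := by
  rw [scalX, scal_inv g (ch_mem_atlas p) he (dom2_co (mem_ch_source p) hp), tr_co (mem_ch_source p)]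

theorem continuousOn_Ric {m : ℕ} {S U : Set (V m)} {g : MF m} (hD : Dom S U) (hg : MetOn U g 2)
    (i j : Fin m) : ContinuousOn (Ric S g i j) U := by
  unfold Ric
  have h1 : ∀ a b c, ContDiffOn ℝ 1 (Gam S g a b c) U := fun a b c =>
    contDiffOn_Gam hD two_eq_one_add_one hg a b c
  refine continuousOn_finsetSum _ fun k _ => ?_
  refine ((hD.continuousOn_pd k (h1 _ _ _)).sub (hD.continuousOn_pd j (h1 _ _ _))).add
    (continuousOn_finsetSum _ fun l _ => ?_)
  exact ((h1 _ _ _).continuousOn.mul (h1 _ _ _).continuousOn).sub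
    ((h1 _ _ _).continuousOn.mul (h1 _ _ _).continuousOn)

theorem continuousOn_scal {m : ℕ} {S U : Set (V m)} {g : MF m} (hD : Dom S U) (hg : MetOn U g 2) :
    ContinuousOn (scal S g) U := by
  unfold scal
  exact continuousOn_finsetSum _ fun i _ => continuousOn_finsetSum _ fun j _ =>
    (hg.contDiffOn_inv i j).continuousOn.mul (continuousOn_Ric hD hg i j)

theorem continuous_scalX (g : Metric n X) : Continuous (scalX g) :=
  continuous_of_chart (fun e => scal (Hs n) (g.G e))
    (fun _ he _ hp => scalX_eq g he hp)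
    (fun _ he => continuousOn_scal (dom_chart _) (g.metOn2 he))

theorem continuous_Lop (g : Metric n X) {u : X → ℝ} (hu : ContMDiff (𝓡∂ (n + 1)) 𝓘(ℝ) 2 u) :
    Continuous (Lop g u) := by
  unfold Lop
  exact (continuous_const.mul (continuous_lapX g hu)).add ((continuous_scalX g).mul hu.continuous)

end curv

end Pool.Agent.CY
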