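import Pool.Agent.CY.S5.ConfX

/-!
Project CY, part S5: the transformation law of the Christoffel symbols under a change of charts.
-/

set_option autoImplicit false
set_option linter.unusedSectionVars false

open scoped ContDiff Manifold
open MeasureTheory Set Filter Topology

namespace Pool.Agent.CY

section uniq

variable {m : ℕ} {S U : Set (V m)} {g : MF m} {k : WithTop ℕ∞}

/-- Uniqueness of the torsion free metric connection. -/
theorem Gam_unique (hg : MetOn U g k) {y : V m} (hy : y ∈ U) (C : Fin m → Fin m → Fin m → ℝ)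
    (hsym : ∀ a i j, C a i j = C a j i)
    (hcomp : ∀ l i j, pd S l (fun z => g z i j) y = ∑ a, (C a l i * g y a j + C a l j * g y a i))
    (a i j : Fin m) : Gam S g a i j y = C a i j := by
  have h1 : ∀ l, pd S i (fun z => g z j l) y + pd S j (fun z => g z i l) y - pd S l (fun z => g z i j) y =
      2 * ∑ b, C b i j * g y b l := by
    intro l
    rw [hcomp i j l, hcomp j i l, hcomp l i j]
    simp only [Finset.sum_add_distrib]
    have e1 : ∑ b, C b j i * g y b l = ∑ b, C b i j * g y b l :=
      Finset.sum_congr rfl fun b _ => by rw [hsym b j i]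
    have e2 : ∑ b, C b l i * g y b j = ∑ b, C b i l * g y b j :=
      Finset.sum_congr rfl fun b _ => by rw [hsym b l i]
    have e3 : ∑ b, C b l j * g y b i = ∑ b, C b j l * g y b i :=
      Finset.sum_congr rfl fun b _ => by rw [hsym b l j]
    rw [e1, e2, e3]
    ring
  simp only [Gam, h1]
  have h2 : ∀ l, (g y)⁻¹ a l * (2 * ∑ b, C b i j * g y b l) =
      2 * ∑ b, C b i j * (g y b l * (g y)⁻¹ l a) := by
    intro l
    rw [mul_left_comm, Finset.mul_sum]
    congr 1
    exact Finset.sum_congr rfl fun b _ => by rw [hg.inv_symm hy a l]; ring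
  simp only [h2, ← Finset.mul_sum]
  rw [Finset.sum_comm]
  simp only [← Finset.mul_sum, hg.mul_inv hy]
  simp

theorem Dom.pdM_comp_map {m' : ℕ} {S' U' : Set (V m')} (h : Dom S U) (h' : Dom S' U') (l : Fin m)
    {ι ι' : Type} {ψ : V m → V m'} (hψ : ∀ k, DifferentiableOn ℝ (fun z => ψ z k) U)
    {A : V m' → Matrix ι ι' ℝ} (hA : ∀ i j, DifferentiableOn ℝ (fun z => A z i j) U')
    (hS : ∀ z ∈ U, ψ z ∈ U') {y : V m} (hy : y ∈ U) :
    pdM S l (fun z => A (ψ z)) y = ∑ e, pd S l (fun z => ψ z e) y • pdM S' e A (ψ y) := by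
  ext i j
  rw [Matrix.sum_apply]
  simp only [pdM, Matrix.of_apply, Matrix.smul_apply, smul_eq_mul]
  exact h.pd_comp_map h' l hψ (hA i j) hS hy

end uniq

section gauge

variable {n : ℕ} {X : Type} [TopologicalSpace X] [ChartedSpace (EuclideanHalfSpace (n + 1)) X]
  [IsManifold (𝓡∂ (n + 1)) ∞ X]

theorem contDiffOn_jac {e e' : OpenPartialHomeomorph X (EuclideanHalfSpace (n + 1))}
    (he : e ∈ atlas (EuclideanHalfSpace (n + 1)) X) (he' : e' ∈ atlas (EuclideanHalfSpace (n + 1)) X)
    (b i : Fin (n + 1)) (k : ℕ) : ContDiffOn ℝ k (fun y => jac e e' y b i) (dom2 e e') := by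
  have h1 : ContDiffOn ℝ ∞ (fun y => tr e e' y b) (dom2 e e') := contDiffOn_tr he he' b
  exact (dom_chart2 e e').contDiffOn_pd i (k := k) (l := ∞) (by exact_mod_cast le_top) h1

theorem diffOn_tr {e e' : OpenPartialHomeomorph X (EuclideanHalfSpace (n + 1))}
    (he : e ∈ atlas (EuclideanHalfSpace (n + 1)) X) (he' : e' ∈ atlas (EuclideanHalfSpace (n + 1)) X)
    (b : Fin (n + 1)) : DifferentiableOn ℝ (fun y => tr e e' y b) (dom2 e e') :=
  (contDiffOn_tr he he' b).differentiableOn (by simp)

/-- Transformation law in matrix form: `J A_l = ∂_l J + ∑_e J_el A'_e J`. -/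
theorem Gam_gauge (g : Metric n X) {e e' : OpenPartialHomeomorph X (EuclideanHalfSpace (n + 1))}
    (he : e ∈ atlas (EuclideanHalfSpace (n + 1)) X) (he' : e' ∈ atlas (EuclideanHalfSpace (n + 1)) X)
    (l : Fin (n + 1)) {y : V (n + 1)} (hy : y ∈ dom2 e e') :
    jac e e' y * GamM (Hs n) (g.G e) l y = pdM (Hs n) l (jac e e') y +
      ∑ c, jac e e' y c l • (GamM (Hs n) (g.G e') c (tr e e' y) * jac e e' y) := by
  have hD := dom_chart2 e e'
  have hD' := dom_chart2 e' e
  have hg : MetOn (dom2 e e') (g.G e) 3 := (g.metOn he).mono (dom2_subset e e')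
  have hg' : MetOn (dom2 e' e) (g.G e') 3 := (g.metOn he').mono (dom2_subset e' e)
  have hJd : ∀ b i, DifferentiableOn ℝ (fun z => jac e e' z b i) (dom2 e e') := fun b i =>
    (contDiffOn_jac he he' b i 1).differentiableOn (by simp)
  set J := jac e e' y with hJ
  have hdet : IsUnit J.det := (g.det_jac_ne he he' hy).isUnit
  let Ch : Fin (n + 1) → Matrix (Fin (n + 1)) (Fin (n + 1)) ℝ := fun l => pdM (Hs n) l (jac e e') y +
      ∑ c, J c l • (GamM (Hs n) (g.G e') c (tr e e' y) * J)
  have hChsym : ∀ b i j, Ch i b j = Ch j b i := by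
    intro b i j
    simp only [Ch, Matrix.add_apply, Matrix.sum_apply, Matrix.smul_apply, Matrix.mul_apply, smul_eq_mul,
      GamM, Matrix.of_apply]
    congr 1
    · have h1 : ContDiffOn ℝ 2 (fun z => tr e e' z b) (dom2 e e') :=
        (contDiffOn_tr he he' b).of_le (WithTop.coe_le_coe.2 le_top : ((2 : ℕ∞) : WithTop ℕ∞) ≤ ((⊤ : ℕ∞) : WithTop ℕ∞))
      exact hD.pd_comm i j h1 hy
    · have h2 : ∀ i j, ∑ x, J x i * ∑ x_1, Gam (Hs n) (g.G e') b x x_1 (tr e e' y) * J x_1 j =
          ∑ x, ∑ x_1, J x i * (Gam (Hs n) (g.G e') b x x_1 (tr e e' y) * J x_1 j) := by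
        intro i j
        exact Finset.sum_congr rfl fun x _ => Finset.mul_sum _ _ _
      rw [h2, h2, Finset.sum_comm]
      refine Finset.sum_congr rfl fun x _ => Finset.sum_congr rfl fun x' _ => ?_
      rw [Gam_symm hD' hg' b x' x (tr_mem e e' hy)]
      ring
  -- the candidate connection
  let B : Fin (n + 1) → Matrix (Fin (n + 1)) (Fin (n + 1)) ℝ := fun l => J⁻¹ * Ch l
  have hJB : ∀ l, J * B l = Ch l := fun l => by
    simp only [B]
    rw [← Matrix.mul_assoc, Matrix.mul_nonsing_inv _ hdet, Matrix.one_mul]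
  have hBcomp : ∀ l, pdM (Hs n) l (g.G e) y = (B l).transpose * g.G e y + g.G e y * B l := by
    intro l
    set G' := g.G e' (tr e e' y) with hG'
    have e1 : pdM (Hs n) l (g.G e) y = pdM (Hs n) l
        (fun z => ((jac e e' z).transpose * g.G e' (tr e e' z)) * jac e e' z) y :=
      hD.pdM_congr l (fun z hz => g.compat_mat he he' hz) hy
    have e2 : ∀ i j, DifferentiableOn ℝ (fun z => (g.G e' (tr e e' z)) i j) (dom2 e e') := by
      intro i j
      have h1 : ContDiffOn ℝ 1 (fun z => g.G e' z i j) (dom2 e' e) := (hg'.smooth i j).of_le (by norm_num)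
      have h2 : ContDiffOn ℝ 1 (tr e e') (dom2 e e') :=
        (contDiffOn_tr_vec he he').of_le (by exact_mod_cast le_top)
      exact (h1.comp h2 (fun z hz => tr_mem e e' hz)).differentiableOn (by simp)
    have e3 : ∀ i j, DifferentiableOn ℝ (fun z => (jac e e' z).transpose i j) (dom2 e e') := fun i j =>
      hJd j i
    have e4 : ∀ i j, DifferentiableOn ℝ
        (fun z => ((jac e e' z).transpose * g.G e' (tr e e' z)) i j) (dom2 e e') := by
      intro i j
      simp only [Matrix.mul_apply]
      exact DifferentiableOn.fun_sum fun a _ => (e3 i a).mul (e2 a j)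
    have e5 := hD.pdM_mul l (A := fun z => (jac e e' z).transpose * g.G e' (tr e e' z))
      (B := fun z => jac e e' z) e4 hJd hy
    have e6 := hD.pdM_mul l (A := fun z => (jac e e' z).transpose) (B := fun z => g.G e' (tr e e' z))
      e3 e2 hy
    have e7 : pdM (Hs n) l (fun z => (jac e e' z).transpose) y = (pdM (Hs n) l (jac e e') y).transpose := rfl
    have e8 : pdM (Hs n) l (fun z => g.G e' (tr e e' z)) y =
        ∑ c, J c l • ((GamM (Hs n) (g.G e') c (tr e e' y)).transpose * G' +
          G' * GamM (Hs n) (g.G e') c (tr e e' y)) := by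
      rw [hD.pdM_comp_map hD' l (diffOn_tr he he') (fun i j => hg'.diffOn (by norm_num) i j)
        (fun z hz => tr_mem e e' hz) hy]
      refine Finset.sum_congr rfl fun c _ => ?_
      rw [pdM_met hD' hg' c (tr_mem e e' hy)]
      rfl
    have e9 : (B l).transpose * g.G e y = (Ch l).transpose * G' * J := by
      have h1 : (B l).transpose * J.transpose = (Ch l).transpose := by
        rw [← hJB l]; exact (Matrix.transpose_mul J (B l)).symm
      rw [g.compat_mat he he' hy, ← hJ, ← Matrix.mul_assoc, ← Matrix.mul_assoc, h1]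
    have e10 : g.G e y * B l = J.transpose * G' * Ch l := by
      rw [g.compat_mat he he' hy, ← hJ, Matrix.mul_assoc, hJB l]
    rw [e1, e5, e6, e7, e8, e9, e10]
    simp only [Ch, Matrix.transpose_add, Matrix.transpose_sum, Matrix.transpose_smul, Matrix.transpose_mul,
      Matrix.add_mul, Matrix.mul_add, Matrix.sum_mul, Matrix.mul_sum, Matrix.smul_mul,
      Matrix.mul_smul, smul_add, Finset.sum_add_distrib, ← Matrix.mul_assoc]
    abel
  have hfin : ∀ a i j, Gam (Hs n) (g.G e) a i j y = B i a j := by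
    apply Gam_unique hg hy (fun a i j => B i a j)
    · intro a i j
      simp only [B, Matrix.mul_apply]
      exact Finset.sum_congr rfl fun b _ => by rw [hChsym b i j]
    · intro l i j
      have h1 := congrFun (congrFun (hBcomp l) i) j
      simp only [pdM, Matrix.of_apply, Matrix.add_apply, Matrix.mul_apply, Matrix.transpose_apply] at h1
      rw [h1, Finset.sum_add_distrib]
      congr 1
      exact Finset.sum_congr rfl fun a _ => by rw [hg.symm hy i a]; ring
  have h1 : GamM (Hs n) (g.G e) l y = B l := by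
    ext a i
    simp only [GamM, Matrix.of_apply, hfin]
  rw [h1, hJB]

/-- Transformation law in index form. -/
theorem Gam_tr (g : Metric n X) {e e' : OpenPartialHomeomorph X (EuclideanHalfSpace (n + 1))}
    (he : e ∈ atlas (EuclideanHalfSpace (n + 1)) X) (he' : e' ∈ atlas (EuclideanHalfSpace (n + 1)) X)
    (b i j : Fin (n + 1)) {y : V (n + 1)} (hy : y ∈ dom2 e e') :
    ∑ a, jac e e' y b a * Gam (Hs n) (g.G e) a i j y =
      pd (Hs n) i (pd (Hs n) j (fun z => tr e e' z b)) y +
      ∑ k, ∑ l, jac e e' y k i * jac e e' y l j * Gam (Hs n) (g.G e') b k l (tr e e' y) := by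
  have h := congrFun (congrFun (Gam_gauge g he he' i hy) b) j
  simp only [Matrix.mul_apply, Matrix.add_apply, Matrix.sum_apply, Matrix.smul_apply, smul_eq_mul,
    GamM, Matrix.of_apply] at h
  rw [h]
  congr 1
  refine Finset.sum_congr rfl fun k _ => ?_
  rw [Finset.mul_sum]
  exact Finset.sum_congr rfl fun l _ => by ring

end gauge

end Pool.Agent.CY
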