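import Pool.Agent.CY.S5.Gauge
import Pool.Agent.CY.S5.Jac

/-!
Project CY, part S5: chart invariance of `⟨df, dk⟩`, the Hessian, the Laplacian, the normal derivative.
-/

set_option autoImplicit false
set_option linter.unusedSectionVars false

open scoped ContDiff Manifold
open MeasureTheory Set Filter Topology

namespace Pool.Agent.CY

section inv1

variable {n : ℕ} {X : Type} [TopologicalSpace X] [ChartedSpace (EuclideanHalfSpace (n + 1)) X]
  [IsManifold (𝓡∂ (n + 1)) ∞ X]
  {e e' : OpenPartialHomeomorph X (EuclideanHalfSpace (n + 1))}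

/-- `J g⁻¹ Jᵀ = g'⁻¹`. -/
theorem Metric.compat_inv (g : Metric n X)
    (he : e ∈ atlas (EuclideanHalfSpace (n + 1)) X) (he' : e' ∈ atlas (EuclideanHalfSpace (n + 1)) X)
    {y : V (n + 1)} (hy : y ∈ dom2 e e') :
    jac e e' y * (g.G e y)⁻¹ * (jac e e' y).transpose = (g.G e' (tr e e' y))⁻¹ := by
  have hJ : IsUnit (jac e e' y).det := (g.det_jac_ne he he' hy).isUnit
  have hJt : IsUnit (jac e e' y).transpose.det := by rw [Matrix.det_transpose]; exact hJ
  have h1 := g.compat_mat he he' hy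
  rw [h1, Matrix.mul_inv_rev, Matrix.mul_inv_rev, ← Matrix.mul_assoc, ← Matrix.mul_assoc,
    Matrix.mul_nonsing_inv _ hJ, Matrix.one_mul, Matrix.mul_assoc, Matrix.nonsing_inv_mul _ hJt,
    Matrix.mul_one]

theorem loc_eq_tr {u : X → ℝ} {y : V (n + 1)} (hy : y ∈ dom2 e e') :
    loc e u y = loc e' u (tr e e' y) := by
  rw [loc, loc, pt_tr e e' hy]

/-- Transformation of the differential. -/
theorem pd_loc (he : e ∈ atlas (EuclideanHalfSpace (n + 1)) X)
    (he' : e' ∈ atlas (EuclideanHalfSpace (n + 1)) X) {u : X → ℝ}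
    (hu : DifferentiableOn ℝ (loc e' u) (dom e')) (i : Fin (n + 1)) {y : V (n + 1)} (hy : y ∈ dom2 e e') :
    pd (Hs n) i (loc e u) y = ∑ k, jac e e' y k i * pd (Hs n) k (loc e' u) (tr e e' y) := by
  have hD := dom_chart2 e e'
  have hD' := dom_chart2 e' e
  rw [hD.pd_congr i (g := fun z => loc e' u (tr e e' z)) (fun z hz => loc_eq_tr hz) hy]
  exact hD.pd_comp_map hD' i (diffOn_tr he he') (hu.mono (dom2_subset e' e))
    (fun z hz => tr_mem e e' hz) hy

/-- Chart invariance of `⟨du, dv⟩`. -/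
theorem gip_inv (g : Metric n X) (he : e ∈ atlas (EuclideanHalfSpace (n + 1)) X)
    (he' : e' ∈ atlas (EuclideanHalfSpace (n + 1)) X) {u v : X → ℝ}
    (hu : DifferentiableOn ℝ (loc e' u) (dom e')) (hv : DifferentiableOn ℝ (loc e' v) (dom e'))
    {y : V (n + 1)} (hy : y ∈ dom2 e e') :
    gip (Hs n) (g.G e) (loc e u) (loc e v) y =
      gip (Hs n) (g.G e') (loc e' u) (loc e' v) (tr e e' y) := by
  have h1 := g.compat_inv he he' hy
  have h2 : ∀ k l, (g.G e' (tr e e' y))⁻¹ k l =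
      ∑ i, ∑ j, jac e e' y k i * (g.G e y)⁻¹ i j * jac e e' y l j := by
    intro k l
    rw [← h1, Matrix.mul_apply]
    simp only [Matrix.mul_apply, Matrix.transpose_apply, Finset.sum_mul]
    exact Finset.sum_comm
  simp only [gip, pd_loc he he' hu _ hy, pd_loc he he' hv _ hy, h2, Finset.sum_mul, Finset.mul_sum]
  -- both sides are sums over i j k l
  calc ∑ i, ∑ j, ∑ l, ∑ k, (g.G e y)⁻¹ i j *
        (jac e e' y k i * pd (Hs n) k (loc e' u) (tr e e' y) *
          (jac e e' y l j * pd (Hs n) l (loc e' v) (tr e e' y)))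
      = ∑ i, ∑ j, ∑ k, ∑ l, (g.G e y)⁻¹ i j *
        (jac e e' y k i * pd (Hs n) k (loc e' u) (tr e e' y) *
          (jac e e' y l j * pd (Hs n) l (loc e' v) (tr e e' y))) :=
        Finset.sum_congr rfl fun i _ => Finset.sum_congr rfl fun j _ => Finset.sum_comm
    _ = ∑ i, ∑ k, ∑ j, ∑ l, (g.G e y)⁻¹ i j *
        (jac e e' y k i * pd (Hs n) k (loc e' u) (tr e e' y) *
          (jac e e' y l j * pd (Hs n) l (loc e' v) (tr e e' y))) :=
        Finset.sum_congr rfl fun i _ => Finset.sum_comm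
    _ = ∑ k, ∑ i, ∑ j, ∑ l, (g.G e y)⁻¹ i j *
        (jac e e' y k i * pd (Hs n) k (loc e' u) (tr e e' y) *
          (jac e e' y l j * pd (Hs n) l (loc e' v) (tr e e' y))) := Finset.sum_comm
    _ = ∑ k, ∑ i, ∑ l, ∑ j, (g.G e y)⁻¹ i j *
        (jac e e' y k i * pd (Hs n) k (loc e' u) (tr e e' y) *
          (jac e e' y l j * pd (Hs n) l (loc e' v) (tr e e' y))) :=
        Finset.sum_congr rfl fun k _ => Finset.sum_congr rfl fun i _ => Finset.sum_comm
    _ = ∑ k, ∑ l, ∑ i, ∑ j, (g.G e y)⁻¹ i j *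
        (jac e e' y k i * pd (Hs n) k (loc e' u) (tr e e' y) *
          (jac e e' y l j * pd (Hs n) l (loc e' v) (tr e e' y))) :=
        Finset.sum_congr rfl fun k _ => Finset.sum_comm
    _ = _ := by
        refine Finset.sum_congr rfl fun k _ => Finset.sum_congr rfl fun l _ =>
          Finset.sum_congr rfl fun i _ => Finset.sum_congr rfl fun j _ => ?_
        ring

/-- Transformation law of the Hessian. -/
theorem hess_inv (g : Metric n X) (he : e ∈ atlas (EuclideanHalfSpace (n + 1)) X)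
    (he' : e' ∈ atlas (EuclideanHalfSpace (n + 1)) X) {u : X → ℝ}
    (hu : ContDiffOn ℝ 2 (loc e' u) (dom e')) (i j : Fin (n + 1)) {y : V (n + 1)} (hy : y ∈ dom2 e e') :
    hess (Hs n) (g.G e) (loc e u) i j y = ∑ k, ∑ l, jac e e' y k i * jac e e' y l j *
      hess (Hs n) (g.G e') (loc e' u) k l (tr e e' y) := by
  have hD := dom_chart2 e e'
  have hD' := dom_chart2 e' e
  have hud : DifferentiableOn ℝ (loc e' u) (dom e') := hu.differentiableOn (by simp)
  have hu2 : ContDiffOn ℝ 2 (loc e' u) (dom2 e' e) := hu.mono (dom2_subset e' e)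
  have hpd : ∀ k, DifferentiableOn ℝ (pd (Hs n) k (loc e' u)) (dom2 e' e) := fun k => hD'.diffOn_pd k hu2
  have hpdt : ∀ k, DifferentiableOn ℝ (fun z => pd (Hs n) k (loc e' u) (tr e e' z)) (dom2 e e') := by
    intro k
    have h1 : DifferentiableOn ℝ (tr e e') (dom2 e e') := (contDiffOn_tr_vec he he').differentiableOn (by simp)
    exact (hpd k).comp h1 (fun z hz => tr_mem e e' hz)
  have hJd : ∀ b i, DifferentiableOn ℝ (fun z => jac e e' z b i) (dom2 e e') := fun b i =>
    (contDiffOn_jac he he' b i 1).differentiableOn (by simp)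
  have h1 : pd (Hs n) i (pd (Hs n) j (loc e u)) y =
      ∑ b, (pd (Hs n) i (pd (Hs n) j (fun z => tr e e' z b)) y * pd (Hs n) b (loc e' u) (tr e e' y) +
        jac e e' y b j * ∑ k, jac e e' y k i * pd (Hs n) k (pd (Hs n) b (loc e' u)) (tr e e' y)) := by
    rw [hD.pd_congr i (fun z hz => pd_loc he he' hud j hz) hy]
    rw [hD.pd_sum i Finset.univ (f := fun b z => jac e e' z b j * pd (Hs n) b (loc e' u) (tr e e' z))
      (fun b _ => (hJd b j).mul (hpdt b)) hy]
    refine Finset.sum_congr rfl fun b _ => ?_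
    rw [hD.pd_mul i (hJd b j) (hpdt b) hy,
      hD.pd_comp_map hD' i (diffOn_tr he he') (hpd b) (fun z hz => tr_mem e e' hz) hy]
    rfl
  have h2 : ∑ a, Gam (Hs n) (g.G e) a i j y * pd (Hs n) a (loc e u) y =
      ∑ b, (∑ a, jac e e' y b a * Gam (Hs n) (g.G e) a i j y) * pd (Hs n) b (loc e' u) (tr e e' y) := by
    simp only [pd_loc he he' hud _ hy, Finset.mul_sum, Finset.sum_mul]
    rw [Finset.sum_comm]
    exact Finset.sum_congr rfl fun b _ => Finset.sum_congr rfl fun a _ => by ring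
  rw [hess, h1, h2, ← Finset.sum_sub_distrib]
  have h3 : ∀ b, pd (Hs n) i (pd (Hs n) j (fun z => tr e e' z b)) y * pd (Hs n) b (loc e' u) (tr e e' y) +
        jac e e' y b j * ∑ k, jac e e' y k i * pd (Hs n) k (pd (Hs n) b (loc e' u)) (tr e e' y) -
      (∑ a, jac e e' y b a * Gam (Hs n) (g.G e) a i j y) * pd (Hs n) b (loc e' u) (tr e e' y) =
      ∑ k, jac e e' y k i * jac e e' y b j * pd (Hs n) k (pd (Hs n) b (loc e' u)) (tr e e' y) -
      ∑ k, ∑ l, jac e e' y k i * jac e e' y l j *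
        (Gam (Hs n) (g.G e') b k l (tr e e' y) * pd (Hs n) b (loc e' u) (tr e e' y)) := by
    intro b
    rw [Gam_tr g he he' b i j hy, add_mul, Finset.mul_sum, Finset.sum_mul]
    have h4 : ∑ k, jac e e' y b j * (jac e e' y k i * pd (Hs n) k (pd (Hs n) b (loc e' u)) (tr e e' y)) =
        ∑ k, jac e e' y k i * jac e e' y b j * pd (Hs n) k (pd (Hs n) b (loc e' u)) (tr e e' y) :=
      Finset.sum_congr rfl fun k _ => by ring
    have h5 : ∑ k, (∑ l, jac e e' y k i * jac e e' y l j * Gam (Hs n) (g.G e') b k l (tr e e' y)) *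
        pd (Hs n) b (loc e' u) (tr e e' y) = ∑ k, ∑ l, jac e e' y k i * jac e e' y l j *
        (Gam (Hs n) (g.G e') b k l (tr e e' y) * pd (Hs n) b (loc e' u) (tr e e' y)) := by
      refine Finset.sum_congr rfl fun k _ => ?_
      rw [Finset.sum_mul]
      exact Finset.sum_congr rfl fun l _ => by ring
    rw [h4, h5]
    ring
  simp only [h3, Finset.sum_sub_distrib]
  have h6 : ∑ b, ∑ k, jac e e' y k i * jac e e' y b j * pd (Hs n) k (pd (Hs n) b (loc e' u)) (tr e e' y) =
      ∑ k, ∑ l, jac e e' y k i * jac e e' y l j * pd (Hs n) k (pd (Hs n) l (loc e' u)) (tr e e' y) :=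
    Finset.sum_comm
  have h7 : ∑ b, ∑ k, ∑ l, jac e e' y k i * jac e e' y l j *
        (Gam (Hs n) (g.G e') b k l (tr e e' y) * pd (Hs n) b (loc e' u) (tr e e' y)) =
      ∑ k, ∑ l, ∑ b, jac e e' y k i * jac e e' y l j *
        (Gam (Hs n) (g.G e') b k l (tr e e' y) * pd (Hs n) b (loc e' u) (tr e e' y)) := by
    rw [Finset.sum_comm]
    exact Finset.sum_congr rfl fun k _ => Finset.sum_comm
  rw [h6, h7, ← Finset.sum_sub_distrib]
  refine Finset.sum_congr rfl fun k _ => ?_
  rw [← Finset.sum_sub_distrib]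
  refine Finset.sum_congr rfl fun l _ => ?_
  rw [hess, mul_sub, Finset.mul_sum]

/-- Chart invariance of the Laplacian. -/
theorem lap_inv (g : Metric n X) (he : e ∈ atlas (EuclideanHalfSpace (n + 1)) X)
    (he' : e' ∈ atlas (EuclideanHalfSpace (n + 1)) X) {u : X → ℝ}
    (hu : ContDiffOn ℝ 2 (loc e' u) (dom e')) {y : V (n + 1)} (hy : y ∈ dom2 e e') :
    lap (Hs n) (g.G e) (loc e u) y = lap (Hs n) (g.G e') (loc e' u) (tr e e' y) := by
  have h1 := g.compat_inv he he' hy
  have h2 : ∀ k l, (g.G e' (tr e e' y))⁻¹ k l =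
      ∑ i, ∑ j, jac e e' y k i * (g.G e y)⁻¹ i j * jac e e' y l j := by
    intro k l
    rw [← h1, Matrix.mul_apply]
    simp only [Matrix.mul_apply, Matrix.transpose_apply, Finset.sum_mul]
    exact Finset.sum_comm
  simp only [lap, hess_inv g he he' hu _ _ hy, h2, Finset.sum_mul, Finset.mul_sum]
  calc ∑ i, ∑ j, ∑ k, ∑ l, (g.G e y)⁻¹ i j * (jac e e' y k i * jac e e' y l j *
        hess (Hs n) (g.G e') (loc e' u) k l (tr e e' y))
      = ∑ i, ∑ k, ∑ j, ∑ l, (g.G e y)⁻¹ i j * (jac e e' y k i * jac e e' y l j *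
        hess (Hs n) (g.G e') (loc e' u) k l (tr e e' y)) :=
        Finset.sum_congr rfl fun i _ => Finset.sum_comm
    _ = ∑ k, ∑ i, ∑ j, ∑ l, (g.G e y)⁻¹ i j * (jac e e' y k i * jac e e' y l j *
        hess (Hs n) (g.G e') (loc e' u) k l (tr e e' y)) := Finset.sum_comm
    _ = ∑ k, ∑ i, ∑ l, ∑ j, (g.G e y)⁻¹ i j * (jac e e' y k i * jac e e' y l j *
        hess (Hs n) (g.G e') (loc e' u) k l (tr e e' y)) :=
        Finset.sum_congr rfl fun k _ => Finset.sum_congr rfl fun i _ => Finset.sum_comm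
    _ = ∑ k, ∑ l, ∑ i, ∑ j, (g.G e y)⁻¹ i j * (jac e e' y k i * jac e e' y l j *
        hess (Hs n) (g.G e') (loc e' u) k l (tr e e' y)) :=
        Finset.sum_congr rfl fun k _ => Finset.sum_comm
    _ = _ := by
        refine Finset.sum_congr rfl fun k _ => Finset.sum_congr rfl fun l _ =>
          Finset.sum_congr rfl fun i _ => Finset.sum_congr rfl fun j _ => ?_
        ring

end inv1

end Pool.Agent.CY
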