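import Pool.Agent.CY.S5.Inv1

/-!
Project CY, part S5: the Jacobian at boundary points, chart invariance of the normal derivative, the
quantities on `X` in arbitrary charts, continuity.
-/

set_option autoImplicit false
set_option linter.unusedSectionVars false

open scoped ContDiff Manifold
open MeasureTheory Set Filter Topology

namespace Pool.Agent.CY

section inv2

variable {n : ℕ} {X : Type} [TopologicalSpace X] [ChartedSpace (EuclideanHalfSpace (n + 1)) X]
  [IsManifold (𝓡∂ (n + 1)) ∞ X]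
  {e e' : OpenPartialHomeomorph X (EuclideanHalfSpace (n + 1))}

/-- The normal derivative at a boundary point of a function which is nonnegative on the half space and
vanishes at the point. -/
theorem pd_zero_nonneg {f : V (n + 1) → ℝ} {U : Set (V (n + 1))} (hD : Dom (Hs n) U)
    (hf : DifferentiableOn ℝ f U) (h0 : ∀ y ∈ U, 0 ≤ f y) {z : V n} (hz : bd z ∈ U) (hfz : f (bd z) = 0) :
    0 ≤ pd (Hs n) 0 f (bd z) := by
  have h1 : HasFDerivWithinAt f (fderivWithin ℝ f (Hs n) (bd z)) (Hs n) (bd z) :=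
    (hD.diffAt hf hz).hasFDerivWithinAt
  have h2 : HasDerivWithinAt (fun t : ℝ => bd z + t • EuclideanSpace.single (0 : Fin (n + 1)) (1 : ℝ))
      (EuclideanSpace.single (0 : Fin (n + 1)) (1 : ℝ)) (Ici 0) 0 := by
    have h3 : HasDerivAt (fun t : ℝ => bd z + t • EuclideanSpace.single (0 : Fin (n + 1)) (1 : ℝ))
        ((1 : ℝ) • EuclideanSpace.single (0 : Fin (n + 1)) (1 : ℝ)) 0 :=
      ((hasDerivAt_id (0 : ℝ)).smul_const _).const_add _
    rw [one_smul] at h3
    exact h3.hasDerivWithinAt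
  have h4 : ∀ t ∈ Ici (0 : ℝ), bd z + t • EuclideanSpace.single (0 : Fin (n + 1)) (1 : ℝ) ∈ Hs n := by
    intro t ht
    show (0 : ℝ) ≤ (bd z + t • EuclideanSpace.single (0 : Fin (n + 1)) (1 : ℝ)) 0
    simp only [PiLp.add_apply, PiLp.smul_apply, bd_zero]
    simpa using ht
  have h5 : bd z + (0 : ℝ) • EuclideanSpace.single (0 : Fin (n + 1)) (1 : ℝ) = bd z := by simp
  have h6 : HasDerivWithinAt (fun t : ℝ => f (bd z + t • EuclideanSpace.single (0 : Fin (n + 1)) (1 : ℝ)))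
      (fderivWithin ℝ f (Hs n) (bd z) (EuclideanSpace.single (0 : Fin (n + 1)) (1 : ℝ))) (Ici 0) 0 := by
    have h7 : HasFDerivWithinAt f (fderivWithin ℝ f (Hs n) (bd z)) (Hs n)
      (bd z + (0 : ℝ) • EuclideanSpace.single (0 : Fin (n + 1)) (1 : ℝ)) := by rw [h5]; exact h1
    exact h7.comp_hasDerivWithinAt (0 : ℝ) h2 h4
  have h8 : ∀ᶠ t in 𝓝[Ici (0 : ℝ)] 0,
      0 ≤ f (bd z + t • EuclideanSpace.single (0 : Fin (n + 1)) (1 : ℝ)) := by
    have h9 : Tendsto (fun t : ℝ => bd z + t • EuclideanSpace.single (0 : Fin (n + 1)) (1 : ℝ))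
        (𝓝[Ici (0 : ℝ)] 0) (𝓝[Hs n] (bd z)) := by
      refine tendsto_nhdsWithin_iff.2 ⟨?_, ?_⟩
      · have := h2.continuousWithinAt.tendsto
        rwa [h5] at this
      · filter_upwards [self_mem_nhdsWithin] with t ht using h4 t ht
    filter_upwards [h9 (hD.nhds _ hz)] with t ht using h0 _ ht
  -- the right derivative is a limit of nonnegative quotients
  have h10 := (hasDerivWithinAt_iff_tendsto_slope' (s := Ioi (0 : ℝ)) (by simp)).1
    (h6.mono Ioi_subset_Ici_self)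
  refine ge_of_tendsto h10 ?_
  have h11 : ∀ᶠ t in 𝓝[Ioi (0 : ℝ)] 0,
      0 ≤ f (bd z + t • EuclideanSpace.single (0 : Fin (n + 1)) (1 : ℝ)) :=
    h8.filter_mono (nhdsWithin_mono _ Ioi_subset_Ici_self)
  filter_upwards [h11, self_mem_nhdsWithin] with t ht ht'
  rw [slope_def_field]
  simp only [zero_smul, add_zero, hfz, sub_zero]
  exact div_nonneg ht (le_of_lt ht')

/-- The normal component of the Jacobian is positive. -/
theorem jac_zero_zero_pos (g : Metric n X) (he : e ∈ atlas (EuclideanHalfSpace (n + 1)) X)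
    (he' : e' ∈ atlas (EuclideanHalfSpace (n + 1)) X) {z : V n} (hz : bd z ∈ dom2 e e') :
    0 < jac e e' (bd z) 0 0 := by
  have h1 : 0 ≤ jac e e' (bd z) 0 0 := by
    refine pd_zero_nonneg (dom_chart2 e e') (diffOn_tr he he' 0) ?_ hz ?_
    · intro y _
      exact co_mem_Hs e' _
    · rw [← tr_bd he he' hz, bd_zero]
  refine lt_of_le_of_ne h1 fun h2 => ?_
  apply g.det_jac_ne he he' hz
  apply Matrix.det_eq_zero_of_row_eq_zero 0
  intro j
  refine Fin.cases h2.symm (fun a => ?_) j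
  exact jac_zero_succ he he' hz a

/-- Chart invariance of the normal derivative. -/
theorem nder_inv (g : Metric n X) (he : e ∈ atlas (EuclideanHalfSpace (n + 1)) X)
    (he' : e' ∈ atlas (EuclideanHalfSpace (n + 1)) X) {u : X → ℝ}
    (hu : DifferentiableOn ℝ (loc e' u) (dom e')) {z : V n} (hz : bd z ∈ dom2 e e') :
    nder (g.G e) (loc e u) z = nder (g.G e') (loc e' u) (tl (tr e e' (bd z))) := by
  have h0 := tr_bd he he' hz
  obtain ⟨c, hc⟩ : ∃ c, jac e e' (bd z) 0 0 = c := ⟨_, rfl⟩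
  have hJ0 : ∀ i, jac e e' (bd z) 0 i = if i = 0 then c else 0 := by
    intro i
    refine Fin.cases (by simp [hc]) (fun a => ?_) i
    rw [jac_zero_succ he he' hz a, if_neg (Fin.succ_ne_zero a)]
  have hJpos : 0 < c := by rw [← hc]; exact jac_zero_zero_pos g he he' hz
  have h1 := g.compat_inv he he' hz
  -- `(g'⁻¹)_{0l} = J00 ∑_j g^{0j} J_lj`
  have h4 : ∀ l, (g.G e' (tr e e' (bd z)))⁻¹ 0 l =
      ∑ j, c * (g.G e (bd z))⁻¹ 0 j * jac e e' (bd z) l j := by
    intro l
    rw [← h1, Matrix.mul_apply]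
    simp only [Matrix.mul_apply, Matrix.transpose_apply]
    refine Finset.sum_congr rfl fun j _ => ?_
    congr 1
    have : ∀ i, jac e e' (bd z) 0 i * (g.G e (bd z))⁻¹ i j =
        if i = 0 then c * (g.G e (bd z))⁻¹ 0 j else 0 := by
      intro i
      rw [hJ0 i]
      split_ifs with h
      · rw [h]
      · ring
    simp [this]
  -- `(g'⁻¹)_{00} = J00² g^{00}`
  have h2 : (g.G e' (tr e e' (bd z)))⁻¹ 0 0 = c ^ 2 * (g.G e (bd z))⁻¹ 0 0 := by
    rw [h4]
    have : ∀ j, c * (g.G e (bd z))⁻¹ 0 j * jac e e' (bd z) 0 j =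
        if j = 0 then c ^ 2 * (g.G e (bd z))⁻¹ 0 0 else 0 := by
      intro j
      rw [hJ0 j]
      split_ifs with h
      · rw [h]; ring
      · ring
    simp [this]
  -- `∑ g'^{0l} ∂'_l u = J00 ∑ g^{0j} ∂_j u`
  have h3 : ∑ l, (g.G e' (tr e e' (bd z)))⁻¹ 0 l * pd (Hs n) l (loc e' u) (tr e e' (bd z)) =
      c * ∑ j, (g.G e (bd z))⁻¹ 0 j * pd (Hs n) j (loc e u) (bd z) := by
    simp only [h4, Finset.sum_mul, Finset.mul_sum]
    rw [Finset.sum_comm]
    refine Finset.sum_congr rfl fun j _ => ?_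
    rw [pd_loc he he' hu j hz, Finset.mul_sum, Finset.mul_sum]
    exact Finset.sum_congr rfl fun l _ => by ring
  simp only [nder]
  rw [h0, h2, h3, Real.sqrt_mul (sq_nonneg _), Real.sqrt_sq hJpos.le]
  have h5 : Real.sqrt ((g.G e (bd z))⁻¹ 0 0) ≠ 0 :=
    (Real.sqrt_pos.2 (inv00_pos (g.metOn he) hz.1)).ne'
  have h6 := hJpos.ne'
  field_simp

theorem dom2_co {p : X} (hp : p ∈ e.source) (hp' : p ∈ e'.source) : co e p ∈ dom2 e e' :=
  ⟨co_mem_dom e hp, by rw [pt_co e hp]; exact hp'⟩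

theorem tr_co {p : X} (hp : p ∈ e.source) : tr e e' (co e p) = co e' p := by
  rw [tr, pt_co e hp]

/-- `⟨du, dv⟩` in an arbitrary chart. -/
theorem gipX_eq (g : Metric n X) (he : e ∈ atlas (EuclideanHalfSpace (n + 1)) X) {u v : X → ℝ}
    (hu : ContMDiff (𝓡∂ (n + 1)) 𝓘(ℝ) 1 u) (hv : ContMDiff (𝓡∂ (n + 1)) 𝓘(ℝ) 1 v) {p : X}
    (hp : p ∈ e.source) :
    gipX g u v p = gip (Hs n) (g.G e) (loc e u) (loc e v) (co e p) := by
  have h1 : DifferentiableOn ℝ (loc e u) (dom e) := (contDiffOn_loc he (k := 1) hu).differentiableOn (by simp)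
  have h2 : DifferentiableOn ℝ (loc e v) (dom e) := (contDiffOn_loc he (k := 1) hv).differentiableOn (by simp)
  rw [gipX, gip_inv g (ch_mem_atlas p) he h1 h2 (dom2_co (mem_ch_source p) hp), tr_co (mem_ch_source p)]

/-- The Laplacian in an arbitrary chart. -/
theorem lapX_eq (g : Metric n X) (he : e ∈ atlas (EuclideanHalfSpace (n + 1)) X) {u : X → ℝ}
    (hu : ContMDiff (𝓡∂ (n + 1)) 𝓘(ℝ) 2 u) {p : X} (hp : p ∈ e.source) :
    lapX g u p = lap (Hs n) (g.G e) (loc e u) (co e p) := by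
  have h1 : ContDiffOn ℝ 2 (loc e u) (dom e) := contDiffOn_loc he (k := 2) hu
  rw [lapX, lap_inv g (ch_mem_atlas p) he h1 (dom2_co (mem_ch_source p) hp), tr_co (mem_ch_source p)]

/-- The normal derivative in an arbitrary chart. -/
theorem nderX_eq (g : Metric n X) (he : e ∈ atlas (EuclideanHalfSpace (n + 1)) X) {u : X → ℝ}
    (hu : ContMDiff (𝓡∂ (n + 1)) 𝓘(ℝ) 1 u) {p : X} (hp : p ∈ e.source)
    (hb : p ∈ (𝓡∂ (n + 1)).boundary X) :
    nderX g u p = nder (g.G e) (loc e u) (tl (co e p)) := by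
  have h1 : DifferentiableOn ℝ (loc e u) (dom e) := (contDiffOn_loc he (k := 1) hu).differentiableOn (by simp)
  have h0 : co (ch (n := n) p) p 0 = 0 := (mem_boundary_iff (ch_mem_atlas p) (mem_ch_source p)).1 hb
  have h2 : bd (tl (co (ch (n := n) p) p)) = co (ch (n := n) p) p := bd_tl h0
  have h3 : bd (tl (co (ch (n := n) p) p)) ∈ dom2 (ch p) e := by
    rw [h2]; exact dom2_co (mem_ch_source p) hp
  rw [nderX, nder_inv g (ch_mem_atlas p) he h1 h3, h2, tr_co (mem_ch_source p)]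

/-- A function with continuous expressions in all charts is continuous (pointwise form). -/
theorem continuous_of_chart {F : X → ℝ} (Fe : OpenPartialHomeomorph X (EuclideanHalfSpace (n + 1)) →
      V (n + 1) → ℝ)
    (hF : ∀ e ∈ atlas (EuclideanHalfSpace (n + 1)) X, ∀ p ∈ e.source, F p = Fe e (co e p))
    (hc : ∀ e ∈ atlas (EuclideanHalfSpace (n + 1)) X, ContinuousOn (Fe e) (dom e)) : Continuous F := by
  apply continuous_of_loc (n := n)
  intro e he
  refine (hc e he).congr fun y hy => ?_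
  rw [hF e he _ (pt_mem_source e hy), co_pt e hy]

theorem continuousOn_gip {U : Set (V (n + 1))} {g : MF (n + 1)} {f k : V (n + 1) → ℝ}
    (hD : Dom (Hs n) U) (hg : MetOn U g 0) (hf : ContDiffOn ℝ 1 f U) (hk : ContDiffOn ℝ 1 k U) :
    ContinuousOn (gip (Hs n) g f k) U := by
  unfold gip
  refine continuousOn_finsetSum _ fun i _ => continuousOn_finsetSum _ fun j _ => ?_
  exact (hg.contDiffOn_inv i j).continuousOn.mul ((hD.continuousOn_pd i hf).mul (hD.continuousOn_pd j hk))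

theorem continuousOn_hess {U : Set (V (n + 1))} {g : MF (n + 1)} {f : V (n + 1) → ℝ}
    (hD : Dom (Hs n) U) (hg : MetOn U g 1) (hf : ContDiffOn ℝ 2 f U) (i j : Fin (n + 1)) :
    ContinuousOn (hess (Hs n) g f i j) U := by
  unfold hess
  have h1 : ∀ i, ContDiffOn ℝ 1 (pd (Hs n) i f) U := fun i => hD.contDiffOn_pd i two_eq_one_add_one hf
  refine (hD.continuousOn_pd i (h1 j)).sub (continuousOn_finsetSum _ fun k _ => ?_)
  exact (contDiffOn_Gam hD (k := 0) (by simp) hg k i j).continuousOn.mul (h1 k).continuousOn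

theorem continuousOn_lap {U : Set (V (n + 1))} {g : MF (n + 1)} {f : V (n + 1) → ℝ}
    (hD : Dom (Hs n) U) (hg : MetOn U g 1) (hf : ContDiffOn ℝ 2 f U) :
    ContinuousOn (lap (Hs n) g f) U := by
  unfold lap
  refine continuousOn_finsetSum _ fun i _ => continuousOn_finsetSum _ fun j _ => ?_
  exact (hg.contDiffOn_inv i j).continuousOn.mul (continuousOn_hess hD hg hf i j)

theorem continuous_gipX (g : Metric n X) {u v : X → ℝ}
    (hu : ContMDiff (𝓡∂ (n + 1)) 𝓘(ℝ) 1 u) (hv : ContMDiff (𝓡∂ (n + 1)) 𝓘(ℝ) 1 v) :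
    Continuous (gipX g u v) :=
  continuous_of_chart (fun e => gip (Hs n) (g.G e) (loc e u) (loc e v))
    (fun _ he _ hp => gipX_eq g he hu hv hp)
    (fun _ he => continuousOn_gip (dom_chart _) ((g.metOn he).of_le (by norm_num))
      (contDiffOn_loc he (k := 1) hu) (contDiffOn_loc he (k := 1) hv))

theorem continuous_lapX (g : Metric n X) {u : X → ℝ} (hu : ContMDiff (𝓡∂ (n + 1)) 𝓘(ℝ) 2 u) :
    Continuous (lapX g u) :=
  continuous_of_chart (fun e => lap (Hs n) (g.G e) (loc e u))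
    (fun _ he _ hp => lapX_eq g he hu hp)
    (fun _ he => continuousOn_lap (dom_chart _) (g.metOn1 he) (contDiffOn_loc he (k := 2) hu))

end inv2

end Pool.Agent.CY
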