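import Pool.Agent.CY.S5.ConfX
import Pool.Agent.CY.S5.Mean
import Pool.Agent.CY.S3.ConfVol
import Pool.Agent.CY.S3.FinalA

/-!
CY-S5-KeyConf (helper68).  Boundary volume and mean curvature of `h = u^{4/(n-1)} g`.

PLAN.  `int_bvol_conf` (S3/ConfVol, for the conformal factor `v = u^{2/(n-1)}`): `∫ Ψ ∂bvol h = ∫ Ψ v^n ∂bvol g`.
First: `Ψ = 1`, `(u^{2/(n-1)})^n = u^{2n/(n-1)} = u^{qq n}` (`Real.rpow_natCast`, `Real.rpow_mul`).
Second: `Ψ = meanX h ^2`; for `p` in the boundary (a.e. by `ae_bvol_boundary`; `co (ch p) p 0 = 0` by `mem_boundary_iff`)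
`meanX_conf`: `meanX h p = u^{-(n+1)/(n-1)} (1/2) Bop g u p`; exponents `-2(n+1)/(n-1) + 2n/(n-1) = -2/(n-1)`.
-/

set_option autoImplicit false
set_option linter.unusedSectionVars false

open scoped Manifold ContDiff Topology
open MeasureTheory Set Filter

namespace Pool.Agent.CY

noncomputable section

variable {n : ℕ} {X : Type} [TopologicalSpace X] [ChartedSpace (EuclideanHalfSpace (n + 1)) X]
  [IsManifold (𝓡∂ (n + 1)) ∞ X] [CompactSpace X] [T2Space X] [MeasurableSpace X] [BorelSpace X]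

theorem conf_terms (hn : 3 ≤ n) (g : Metric n X) {u : X → ℝ} (hu : ContMDiff (𝓡∂ (n + 1)) 𝓘(ℝ) ∞ u)
    (h0 : ∀ p, 0 < u p) {h : Metric n X} (hh : IsConfU u g h) :
    (bvol h univ).toReal = ∫ p, u p ^ qq n ∂(bvol g) ∧
    ∫ p, meanX h p ^ 2 ∂(bvol h) = ∫ p, (1 / 4) * (u p ^ (-2 / ((n : ℝ) - 1)) * Bop g u p ^ 2) ∂(bvol g) := by
  have hn1 : (n : ℝ) - 1 ≠ 0 := by
    have : (3 : ℝ) ≤ (n : ℝ) := by exact_mod_cast hn
    intro h
    linarith
  have hc : Continuous fun p => u p ^ (2 / ((n : ℝ) - 1)) :=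
    hu.continuous.rpow_const fun p => Or.inl (h0 p).ne'
  have hp : ∀ p, 0 < u p ^ (2 / ((n : ℝ) - 1)) := fun p => Real.rpow_pos_of_pos (h0 p) _
  have hpow : ∀ p, (u p ^ (2 / ((n : ℝ) - 1))) ^ n = u p ^ qq n := by
    intro p
    rw [← Real.rpow_natCast, ← Real.rpow_mul (h0 p).le]
    congr 1
    unfold qq
    field_simp
  constructor
  · have h1 := int_bvol_conf hc hp hh (fun _ => 1)
    simp only [one_mul, hpow] at h1
    rw [← h1, integral_const, smul_eq_mul, mul_one]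
    rfl
  · rw [int_bvol_conf hc hp hh (fun p => meanX h p ^ 2)]
    refine integral_congr_ae ?_
    filter_upwards [ae_bvol_boundary g] with p hpb
    have hz : co (ch (n := n) p) p 0 = 0 :=
      (mem_boundary_iff (ch_mem_atlas p) (mem_chart_source _ p)).1 hpb
    rw [meanX_conf (by omega) hu h0 hh hz, hpow, mul_pow, mul_pow]
    have e1 : (u p ^ (-(((n : ℝ) + 1) / ((n : ℝ) - 1)))) ^ 2 * u p ^ qq n =
        u p ^ (-2 / ((n : ℝ) - 1)) := by
      rw [← Real.rpow_natCast, ← Real.rpow_mul (h0 p).le, ← Real.rpow_add (h0 p)]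
      congr 1
      unfold qq
      push_cast
      field_simp
      ring
    calc (u p ^ (-(((n : ℝ) + 1) / ((n : ℝ) - 1)))) ^ 2 * ((1 / 2) ^ 2 * Bop g u p ^ 2) * u p ^ qq n
        = (1 / 4) * (((u p ^ (-(((n : ℝ) + 1) / ((n : ℝ) - 1)))) ^ 2 * u p ^ qq n) * Bop g u p ^ 2) := by
          ring
      _ = _ := by rw [e1]

end

end Pool.Agent.CY
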