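import Pool.Agent.CY.S5.ConfX
import Pool.Agent.CY.S5.Curv
import Pool.Agent.CY.S3.NormD

/-!
CY-S5-KeyLap (helper68, proofs by helper78).  A pointwise bound for the Laplacian of `u^{2/(n-1)} ρ` in the
metric `u^{4/(n-1)} g`.

`lapX_conf` (S5/ConfX) with `f = u^{2/(n-1)} ρ`: `lapX h f = (u^{2/(n-1)})^{-2} (lapX g f + 2 u⁻¹ gipX g u f)`.
In the chart `ch p`: `lap (φ(u) ρ) = φ(u) lap ρ + 2 gip (φ(u)) ρ + ρ lap (φ(u))`, `lap (φ(u)) = φ'(u) lap u + φ''(u) gip u u`,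
`gip (φ(u)) ρ = φ'(u) gip u ρ`, `gip u (φ(u) ρ) = φ(u) gip u ρ + ρ φ'(u) gip u u` with `φ(s) = s^{2/(n-1)}`.
On `[c, C]` the functions `φ, φ', φ'', φ^{-2}, s⁻¹` are bounded; `|gip u ρ| ≤ (gip u u + gip ρ ρ)/2`; `|ρ|`,
`|lapX g ρ|`, `gipX g ρ ρ`, `|scalX g|` are bounded and `lapX g u = (scalX g u - Lop g u)/cn n`.
-/

set_option autoImplicit false
set_option linter.unusedSectionVars false

open scoped Manifold ContDiff Topology
open MeasureTheory Set Filter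

namespace Pool.Agent.CY

noncomputable section

section keycalc

variable {m : ℕ} {S U : Set (V m)} {g : MF m}

theorem hess_mul (hD : Dom S U) {a b : V m → ℝ} (ha : ContDiffOn ℝ 2 a U) (hb : ContDiffOn ℝ 2 b U)
    (i j : Fin m) {y : V m} (hy : y ∈ U) :
    hess S g (fun z => a z * b z) i j y = a y * hess S g b i j y + b y * hess S g a i j y +
      pd S i a y * pd S j b y + pd S j a y * pd S i b y := by
  have ha1 : DifferentiableOn ℝ a U := ha.differentiableOn (by simp)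
  have hb1 : DifferentiableOn ℝ b U := hb.differentiableOn (by simp)
  have ha2 := hD.diffOn_pd j ha
  have hb2 := hD.diffOn_pd j hb
  have h1 : pd S i (pd S j (fun z => a z * b z)) y =
      pd S i (fun z => pd S j a z * b z + a z * pd S j b z) y :=
    hD.pd_congr i (fun z hz => hD.pd_mul j ha1 hb1 hz) hy
  have h2 : pd S i (fun z => pd S j a z * b z + a z * pd S j b z) y =
      (pd S i (pd S j a) y * b y + pd S j a y * pd S i b y) +
        (pd S i a y * pd S j b y + a y * pd S i (pd S j b) y) := by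
    rw [hD.pd_add i (f := fun z => pd S j a z * b z) (g := fun z => a z * pd S j b z)
      (ha2.mul hb1) (ha1.mul hb2) hy, hD.pd_mul i ha2 hb1 hy, hD.pd_mul i ha1 hb2 hy]
  have h3 : ∑ k, Gam S g k i j y * pd S k (fun z => a z * b z) y =
      b y * (∑ k, Gam S g k i j y * pd S k a y) + a y * (∑ k, Gam S g k i j y * pd S k b y) := by
    rw [Finset.mul_sum, Finset.mul_sum, ← Finset.sum_add_distrib]
    refine Finset.sum_congr rfl fun k _ => ?_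
    rw [hD.pd_mul k ha1 hb1 hy]
    ring
  simp only [hess]
  rw [h1, h2, h3]
  ring

private theorem gip_symm' {k : WithTop ℕ∞} (hg : MetOn U g k) (a b : V m → ℝ) {y : V m} (hy : y ∈ U) :
    gip S g a b y = gip S g b a y := by
  simp only [gip]
  rw [Finset.sum_comm]
  refine Finset.sum_congr rfl fun i _ => Finset.sum_congr rfl fun j _ => ?_
  rw [hg.inv_symm hy j i]
  ring

theorem lap_mul {k : WithTop ℕ∞} (hD : Dom S U) (hg : MetOn U g k) {a b : V m → ℝ} (ha : ContDiffOn ℝ 2 a U)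
    (hb : ContDiffOn ℝ 2 b U) {y : V m} (hy : y ∈ U) :
    lap S g (fun z => a z * b z) y = a y * lap S g b y + b y * lap S g a y + 2 * gip S g a b y := by
  have h1 : 2 * gip S g a b y = gip S g a b y + gip S g b a y := by
    rw [gip_symm' hg b a hy]; ring
  rw [h1]
  simp only [lap, gip, Finset.mul_sum, ← Finset.sum_add_distrib]
  refine Finset.sum_congr rfl fun i _ => Finset.sum_congr rfl fun j _ => ?_
  rw [hess_mul hD ha hb i j hy]
  ring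

theorem gip_mul_right (hD : Dom S U) {a b c : V m → ℝ} (hb : DifferentiableOn ℝ b U)
    (hc : DifferentiableOn ℝ c U) {y : V m} (hy : y ∈ U) :
    gip S g a (fun z => b z * c z) y = b y * gip S g a c y + c y * gip S g a b y := by
  simp only [gip, Finset.mul_sum, ← Finset.sum_add_distrib]
  refine Finset.sum_congr rfl fun i _ => Finset.sum_congr rfl fun j _ => ?_
  rw [hD.pd_mul j hb hc hy]
  ring

private theorem quad_nonneg {k : WithTop ℕ∞} (hg : MetOn U g k) {y : V m} (hy : y ∈ U) (v : Fin m → ℝ) :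
    0 ≤ ∑ i, ∑ j, (g y)⁻¹ i j * (v i * v j) := by
  have h := (hg.pos y hy).inv.posSemidef
  have h1 := h.dotProduct_mulVec_nonneg v
  simp only [dotProduct, Matrix.mulVec, Finset.mul_sum, Pi.star_apply, star_trivial] at h1
  refine h1.trans_eq (Finset.sum_congr rfl fun i _ => Finset.sum_congr rfl fun j _ => ?_)
  ring

theorem gip_cs {k : WithTop ℕ∞} (hg : MetOn U g k) (a b : V m → ℝ) {y : V m} (hy : y ∈ U) :
    |gip S g a b y| ≤ (gip S g a a y + gip S g b b y) / 2 := by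
  have key : ∀ s : ℝ, ∑ i, ∑ j, (g y)⁻¹ i j *
      ((pd S i a y + s * pd S i b y) * (pd S j a y + s * pd S j b y)) =
      gip S g a a y + s * gip S g a b y + s * gip S g b a y + s ^ 2 * gip S g b b y := by
    intro s
    simp only [gip, Finset.mul_sum, ← Finset.sum_add_distrib]
    refine Finset.sum_congr rfl fun i _ => Finset.sum_congr rfl fun j _ => ?_
    ring
  have h1 := quad_nonneg hg hy (fun i => pd S i a y + 1 * pd S i b y)
  have h2 := quad_nonneg hg hy (fun i => pd S i a y + (-1) * pd S i b y)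
  have k1 := key 1
  have k2 := key (-1)
  have hs := gip_symm' (S := S) hg a b hy
  rw [k1] at h1
  rw [k2] at h2
  rw [abs_le]
  constructor <;> linarith

end keycalc

variable {n : ℕ} {X : Type} [TopologicalSpace X] [ChartedSpace (EuclideanHalfSpace (n + 1)) X]
  [IsManifold (𝓡∂ (n + 1)) ∞ X] [CompactSpace X] [T2Space X]

/-- A continuous function on a compact space is bounded. -/
private theorem bdd_of_cont {Y : Type} [TopologicalSpace Y] [CompactSpace Y] {f : Y → ℝ} (hf : Continuous f) :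
    ∃ M : ℝ, 0 ≤ M ∧ ∀ p, |f p| ≤ M := by
  obtain ⟨M, hM⟩ := isCompact_univ.exists_bound_of_continuousOn (f := f) hf.continuousOn
  refine ⟨max M 0, le_max_right _ _, fun p => ?_⟩
  exact (Real.norm_eq_abs (f p) ▸ hM p (mem_univ p)).trans (le_max_left _ _)

/-- A continuous function on the interval `[c, C]` is bounded. -/
private theorem bdd_Icc {f : ℝ → ℝ} {c C : ℝ} (hf : ContinuousOn f (Icc c C)) :
    ∃ M : ℝ, 0 ≤ M ∧ ∀ s, c ≤ s → s ≤ C → |f s| ≤ M := by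
  obtain ⟨M, hM⟩ := isCompact_Icc.exists_bound_of_continuousOn hf
  refine ⟨max M 0, le_max_right _ _, fun s h1 h2 => ?_⟩
  exact (Real.norm_eq_abs (f s) ▸ hM s ⟨h1, h2⟩).trans (le_max_left _ _)

private theorem contOn_rpow {c C : ℝ} (hc : 0 < c) (r : ℝ) : ContinuousOn (fun s : ℝ => s ^ r) (Icc c C) := by
  intro s hs
  exact (Real.continuousAt_rpow_const s r (Or.inl (hc.trans_le hs.1).ne')).continuousWithinAt

/-- Expansion of the Laplacian of `u^r ρ` in a chart. -/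
private theorem lapX_expand (g : Metric n X) {u ρ : X → ℝ} (hu : ContMDiff (𝓡∂ (n + 1)) 𝓘(ℝ) ∞ u)
    (hρ : ContMDiff (𝓡∂ (n + 1)) 𝓘(ℝ) ∞ ρ) (h0 : ∀ p, 0 < u p) (r : ℝ) (p : X) :
    lapX g (fun q => u q ^ r * ρ q) p = u p ^ r * lapX g ρ p +
      ρ p * (r * (r - 1) * u p ^ (r - 2) * gipX g u u p + r * u p ^ (r - 1) * lapX g u p) +
      2 * (r * u p ^ (r - 1) * gipX g u ρ p) ∧
    gipX g u (fun q => u q ^ r * ρ q) p = u p ^ r * gipX g u ρ p +
      ρ p * (r * u p ^ (r - 1) * gipX g u u p) := by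
  have hD := dom_chart (ch (n := n) p)
  have hg := g.metOn2 (ch_mem_atlas p)
  have hy := co_ch_mem (n := n) p
  have hu2 : ContDiffOn ℝ 2 (loc (ch (n := n) p) u) (dom (ch (n := n) p)) :=
    contDiffOn_loc_top (ch_mem_atlas p) hu 2
  have hρ2 : ContDiffOn ℝ 2 (loc (ch (n := n) p) ρ) (dom (ch (n := n) p)) :=
    contDiffOn_loc_top (ch_mem_atlas p) hρ 2
  have h0' : ∀ z ∈ dom (ch (n := n) p), 0 < loc (ch (n := n) p) u z := fun z _ => h0 _
  have hu1 : DifferentiableOn ℝ (loc (ch (n := n) p) u) (dom (ch (n := n) p)) :=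
    hu2.differentiableOn (by simp)
  have hρ1 : DifferentiableOn ℝ (loc (ch (n := n) p) ρ) (dom (ch (n := n) p)) :=
    hρ2.differentiableOn (by simp)
  have hr2 : ContDiffOn ℝ 2 (fun z => loc (ch (n := n) p) u z ^ r) (dom (ch (n := n) p)) :=
    hu2.rpow_const_of_ne fun y hy => (h0' y hy).ne'
  have hr1 : DifferentiableOn ℝ (fun z => loc (ch (n := n) p) u z ^ r) (dom (ch (n := n) p)) :=
    hr2.differentiableOn (by simp)
  have hF : ∀ z ∈ dom (ch (n := n) p), HasDerivAt (fun x : ℝ => x ^ r)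
      ((fun x : ℝ => r * x ^ (r - 1)) (loc (ch (n := n) p) u z)) (loc (ch (n := n) p) u z) := fun z hz =>
    Real.hasDerivAt_rpow_const (Or.inl (h0' z hz).ne')
  have hF' : ∀ z ∈ dom (ch (n := n) p), HasDerivAt (fun x : ℝ => r * x ^ (r - 1))
      ((fun x : ℝ => r * ((r - 1) * x ^ (r - 1 - 1))) (loc (ch (n := n) p) u z))
      (loc (ch (n := n) p) u z) := fun z hz =>
    (Real.hasDerivAt_rpow_const (Or.inl (h0' z hz).ne')).const_mul r
  have e1 : loc (ch (n := n) p) u (co (ch (n := n) p) p) = u p := loc_ch u p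
  have e2 : loc (ch (n := n) p) ρ (co (ch (n := n) p) p) = ρ p := loc_ch ρ p
  have hloc : loc (ch (n := n) p) (fun q => u q ^ r * ρ q) =
      fun z => loc (ch (n := n) p) u z ^ r * loc (ch (n := n) p) ρ z := rfl
  have hr : r - 1 - 1 = r - 2 := by ring
  constructor
  · rw [lapX, hloc, lap_mul hD hg hr2 hρ2 hy]
    have l1 := lap_comp (g := g.G (ch (n := n) p)) (F := fun x : ℝ => x ^ r)
      (F' := fun x : ℝ => r * x ^ (r - 1)) (F'' := fun x : ℝ => r * ((r - 1) * x ^ (r - 1 - 1))) hD hu2 hF hF' hy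
    have l2 := gip_comp (g := g.G (ch (n := n) p)) (F := fun x : ℝ => x ^ r)
      (F' := fun x : ℝ => r * x ^ (r - 1)) hD hu1 hF (loc (ch (n := n) p) ρ) hy
    rw [l1, l2, e1, e2, hr]
    simp only [lapX, gipX]
    ring
  · rw [gipX, hloc, gip_mul_right hD hr1 hρ1 hy]
    have l2 := gip_comp (g := g.G (ch (n := n) p)) (F := fun x : ℝ => x ^ r)
      (F' := fun x : ℝ => r * x ^ (r - 1)) hD hu1 hF (loc (ch (n := n) p) u) hy
    rw [gip_symm' hg (loc (ch (n := n) p) u) (fun z => loc (ch (n := n) p) u z ^ r) hy, l2, e1, e2]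
    simp only [gipX]

/-- The elementary estimate behind `lap_bound`. -/
private theorem est {φ ψ χ A B uu ur rr L Lr R s ρ T lo M₁ M₂ M₃ M₄ M₅ M₆ M₇ M₈ M₉ c0 : ℝ}
    (h1 : |φ| ≤ M₁) (h2 : |ψ| ≤ M₂) (h3 : |χ| ≤ M₃) (h4 : |A| ≤ M₄) (h5 : |B| ≤ M₅)
    (h6 : |Lr| ≤ M₆) (h7 : |rr| ≤ M₇) (h8 : |R * s| ≤ M₈) (h9 : |ρ| ≤ M₉)
    (huu : 0 ≤ uu) (hur : |ur| ≤ (uu + rr) / 2) (hL : L = (R * s - lo) * c0) (hc0 : 0 ≤ c0)
    (hT : T = A * ((φ * Lr + ρ * (χ * uu + ψ * L) + 2 * (ψ * ur)) +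
      2 * B * (φ * ur + ρ * (ψ * uu)))) :
    |T| ≤ (M₄ * (M₁ * M₆ + M₉ * (M₃ + M₂ * (c0 * (M₈ + 1))) + 2 * (M₂ * (1 + M₇)) +
      2 * M₅ * (M₁ * (1 + M₇) + M₉ * M₂))) * (1 + uu + |lo|) := by
  have p1 : 0 ≤ M₁ := (abs_nonneg _).trans h1
  have p2 : 0 ≤ M₂ := (abs_nonneg _).trans h2
  have p3 : 0 ≤ M₃ := (abs_nonneg _).trans h3
  have p4 : 0 ≤ M₄ := (abs_nonneg _).trans h4
  have p5 : 0 ≤ M₅ := (abs_nonneg _).trans h5
  have p6 : 0 ≤ M₆ := (abs_nonneg _).trans h6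
  have p7 : 0 ≤ M₇ := (abs_nonneg _).trans h7
  have p8 : 0 ≤ M₈ := (abs_nonneg _).trans h8
  have p9 : 0 ≤ M₉ := (abs_nonneg _).trans h9
  set Q := 1 + uu + |lo| with hQ
  have hlo : 0 ≤ |lo| := abs_nonneg _
  have q1 : 1 ≤ Q := by linarith
  have q0 : 0 ≤ Q := by linarith
  have quu : uu ≤ Q := by linarith
  -- the gradient term
  have hur' : |ur| ≤ (1 + M₇) * Q := by
    have a1 : rr ≤ M₇ := (le_abs_self _).trans h7
    have a2 : M₇ * 1 ≤ M₇ * Q := mul_le_mul_of_nonneg_left q1 p7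
    nlinarith
  -- the Laplacian
  have hL' : |L| ≤ (c0 * (M₈ + 1)) * Q := by
    rw [hL, abs_mul, abs_of_nonneg hc0]
    have a1 : |R * s - lo| ≤ M₈ + |lo| := (abs_sub _ _).trans (by linarith)
    have a2 : M₈ + |lo| ≤ (M₈ + 1) * Q := by
      have a3 : M₈ * 1 ≤ M₈ * Q := mul_le_mul_of_nonneg_left q1 p8
      nlinarith
    calc |R * s - lo| * c0 ≤ ((M₈ + 1) * Q) * c0 := mul_le_mul_of_nonneg_right (a1.trans a2) hc0
      _ = (c0 * (M₈ + 1)) * Q := by ring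
  have t1 : |φ * Lr| ≤ (M₁ * M₆) * Q := by
    rw [abs_mul]
    calc |φ| * |Lr| ≤ M₁ * M₆ := mul_le_mul h1 h6 (abs_nonneg _) p1
      _ = (M₁ * M₆) * 1 := by ring
      _ ≤ (M₁ * M₆) * Q := mul_le_mul_of_nonneg_left q1 (mul_nonneg p1 p6)
  have t2 : |χ * uu| ≤ M₃ * Q := by
    rw [abs_mul, abs_of_nonneg huu]
    exact mul_le_mul h3 quu huu p3
  have t3 : |ψ * L| ≤ M₂ * ((c0 * (M₈ + 1)) * Q) := by
    rw [abs_mul]
    exact mul_le_mul h2 hL' (abs_nonneg _) p2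
  have t4 : |ρ * (χ * uu + ψ * L)| ≤ M₉ * (M₃ * Q + M₂ * ((c0 * (M₈ + 1)) * Q)) := by
    rw [abs_mul]
    exact mul_le_mul h9 ((abs_add_le _ _).trans (add_le_add t2 t3)) (abs_nonneg _) p9
  have t5 : |2 * (ψ * ur)| ≤ 2 * (M₂ * ((1 + M₇) * Q)) := by
    rw [abs_mul, abs_mul, abs_of_nonneg (by norm_num : (0 : ℝ) ≤ 2)]
    exact mul_le_mul_of_nonneg_left (mul_le_mul h2 hur' (abs_nonneg _) p2) (by norm_num)
  have t6 : |φ * ur| ≤ M₁ * ((1 + M₇) * Q) := by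
    rw [abs_mul]
    exact mul_le_mul h1 hur' (abs_nonneg _) p1
  have t7 : |ρ * (ψ * uu)| ≤ M₉ * (M₂ * Q) := by
    rw [abs_mul, abs_mul, abs_of_nonneg huu]
    exact mul_le_mul h9 (mul_le_mul h2 quu huu p2) (mul_nonneg (abs_nonneg _) huu) p9
  have t8 : |2 * B * (φ * ur + ρ * (ψ * uu))| ≤ 2 * M₅ * (M₁ * ((1 + M₇) * Q) + M₉ * (M₂ * Q)) := by
    rw [abs_mul, abs_mul, abs_of_nonneg (by norm_num : (0 : ℝ) ≤ 2)]
    refine mul_le_mul (mul_le_mul_of_nonneg_left h5 (by norm_num))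
      ((abs_add_le _ _).trans (add_le_add t6 t7)) (abs_nonneg _) (by positivity)
  have t9 : |(φ * Lr + ρ * (χ * uu + ψ * L) + 2 * (ψ * ur)) + 2 * B * (φ * ur + ρ * (ψ * uu))| ≤
      (M₁ * M₆) * Q + M₉ * (M₃ * Q + M₂ * ((c0 * (M₈ + 1)) * Q)) + 2 * (M₂ * ((1 + M₇) * Q)) +
        2 * M₅ * (M₁ * ((1 + M₇) * Q) + M₉ * (M₂ * Q)) := by
    refine (abs_add_le _ _).trans (add_le_add ?_ t8)
    refine (abs_add_le _ _).trans (add_le_add ?_ t5)
    exact (abs_add_le _ _).trans (add_le_add t1 t4)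
  rw [hT, abs_mul]
  calc |A| * |(φ * Lr + ρ * (χ * uu + ψ * L) + 2 * (ψ * ur)) + 2 * B * (φ * ur + ρ * (ψ * uu))|
      ≤ M₄ * ((M₁ * M₆) * Q + M₉ * (M₃ * Q + M₂ * ((c0 * (M₈ + 1)) * Q)) + 2 * (M₂ * ((1 + M₇) * Q)) +
        2 * M₅ * (M₁ * ((1 + M₇) * Q) + M₉ * (M₂ * Q))) := mul_le_mul h4 t9 (abs_nonneg _) p4
    _ = _ := by ring

theorem lap_bound (hn : 3 ≤ n) (g : Metric n X) {ρ : X → ℝ} (hρ : ContMDiff (𝓡∂ (n + 1)) 𝓘(ℝ) ∞ ρ)
    (c C : ℝ) (hc : 0 < c) :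
    ∃ K : ℝ, 0 ≤ K ∧ ∀ (u : X → ℝ) (h : Metric n X), ContMDiff (𝓡∂ (n + 1)) 𝓘(ℝ) ∞ u →
      (∀ p, c ≤ u p ∧ u p ≤ C) → IsConfU u g h → ∀ p,
      |lapX h (fun q => u q ^ (2 / ((n : ℝ) - 1)) * ρ q) p| ≤ K * (1 + gipX g u u p + |Lop g u p|) := by
  set r : ℝ := 2 / ((n : ℝ) - 1) with hr
  have hρ1 : ContMDiff (𝓡∂ (n + 1)) 𝓘(ℝ) 1 ρ := hρ.of_le (by exact_mod_cast le_top)
  have hρ2 : ContMDiff (𝓡∂ (n + 1)) 𝓘(ℝ) 2 ρ := hρ.of_le (WithTop.coe_le_coe.2 le_top :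
    ((2 : ℕ∞) : WithTop ℕ∞) ≤ ((⊤ : ℕ∞) : WithTop ℕ∞))
  obtain ⟨M₁, p1, h1⟩ := bdd_Icc (c := c) (C := C) (contOn_rpow hc r)
  obtain ⟨M₂, p2, h2⟩ := bdd_Icc (c := c) (C := C) (f := fun s => r * s ^ (r - 1))
    (continuousOn_const.mul (contOn_rpow hc (r - 1)))
  obtain ⟨M₃, p3, h3⟩ := bdd_Icc (c := c) (C := C) (f := fun s => r * (r - 1) * s ^ (r - 2))
    (continuousOn_const.mul (contOn_rpow hc (r - 2)))
  obtain ⟨M₄, p4, h4⟩ := bdd_Icc (c := c) (C := C) (f := fun s => ((s ^ r) ^ 2)⁻¹)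
    (((contOn_rpow hc r).pow 2).inv₀ fun s hs =>
      (pow_pos (Real.rpow_pos_of_pos (hc.trans_le hs.1) r) 2).ne')
  obtain ⟨M₅, p5, h5⟩ := bdd_Icc (c := c) (C := C) (f := fun s => s⁻¹)
    (continuousOn_id.inv₀ fun s hs => (hc.trans_le hs.1).ne')
  obtain ⟨M₆, p6, h6⟩ := bdd_of_cont (continuous_lapX g hρ2)
  obtain ⟨M₇, p7, h7⟩ := bdd_of_cont (continuous_gipX g hρ1 hρ1)
  obtain ⟨M₈', p8', h8'⟩ := bdd_of_cont (continuous_scalX g)
  obtain ⟨M₉, p9, h9⟩ := bdd_of_cont hρ.continuous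
  have hn1 : (0 : ℝ) < (n : ℝ) - 1 := by
    have : (3 : ℝ) ≤ n := by exact_mod_cast hn
    linarith
  have hcn : 0 < cn n := by
    rw [cn]
    have : (3 : ℝ) ≤ n := by exact_mod_cast hn
    positivity
  set M₈ := M₈' * |C| with hM8
  have p8 : 0 ≤ M₈ := mul_nonneg p8' (abs_nonneg _)
  refine ⟨M₄ * (M₁ * M₆ + M₉ * (M₃ + M₂ * ((cn n)⁻¹ * (M₈ + 1))) + 2 * (M₂ * (1 + M₇)) +
      2 * M₅ * (M₁ * (1 + M₇) + M₉ * M₂)), by positivity, ?_⟩
  intro u h hu hcC hh p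
  have h0 : ∀ p, 0 < u p := fun p => hc.trans_le (hcC p).1
  obtain ⟨E1, E2⟩ := lapX_expand g hu hρ h0 r p
  have hLap : lapX g u p = (scalX g p * u p - Lop g u p) * (cn n)⁻¹ := by
    rw [Lop]
    field_simp
    ring
  have hcs : |gipX g u ρ p| ≤ (gipX g u u p + gipX g ρ ρ p) / 2 :=
    gip_cs (g.metOn2 (ch_mem_atlas p)) _ _ (co_ch_mem p)
  have hsc : |scalX g p * u p| ≤ M₈ := by
    rw [abs_mul, hM8]
    refine mul_le_mul (h8' p) ?_ (abs_nonneg _) p8'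
    rw [abs_of_pos (h0 p)]
    exact (hcC p).2.trans (le_abs_self _)
  refine est (φ := u p ^ r) (ψ := r * u p ^ (r - 1)) (χ := r * (r - 1) * u p ^ (r - 2))
    (A := ((u p ^ r) ^ 2)⁻¹) (B := (u p)⁻¹) (ur := gipX g u ρ p) (rr := gipX g ρ ρ p)
    (L := lapX g u p) (Lr := lapX g ρ p) (R := scalX g p) (s := u p) (ρ := ρ p)
    (h1 _ (hcC p).1 (hcC p).2) (h2 _ (hcC p).1 (hcC p).2) (h3 _ (hcC p).1 (hcC p).2)
    (h4 _ (hcC p).1 (hcC p).2) (h5 _ (hcC p).1 (hcC p).2) (h6 p) (h7 p) hsc (h9 p)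
    (gipX_nonneg g u p) hcs hLap (inv_nonneg.2 hcn.le) ?_
  rw [lapX_conf (by omega) hu h0 hh, ← hr, E1, E2]

end

end Pool.Agent.CY
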