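import Pool.Agent.CY.S5.KeyInt
import Pool.Agent.CY.S5.KeyLap
import Pool.Agent.CY.S3.ConfVol

/-!
CY-S5-KeyScal (helper68).  The term with the scalar curvature.

PLAN.  `f = u^{2/(n-1)} ρ`, `IsCCE h f` (`IsCCE.conf`, S5/ConfX), `r = Lop g u - lam u^{pp n - 1}`.  `scalX_conf`:
`scalX h = u^{-(n+3)/(n-1)} Lop g u = lam + u^{-(n+3)/(n-1)} r` (`pp n - 1 = (n+3)/(n-1)`), so
`-∫ scalX h lapX h f ∂vol h = -lam ∫ lapX h f ∂vol h - ∫ u^{-(n+3)/(n-1)} r lapX h f ∂vol h`
`= lam (bvol h univ).toReal - ∫ u^{-(n+3)/(n-1)} r lapX h f (u^{2/(n-1)})^{n+1} ∂vol g` (`int_lap`, `int_vol_conf`), and the last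
integral is bounded by `K ∫ |r| (1 + gipX + |Lop|) ∂vol g`: `lap_bound` and `u^s ≤ M` on `[c, C]` (compactness, continuity
of `s ↦ x^s` on `[c, C]`).  Integrability: everything is continuous on the compact `X` (`continuous_scalX`,
`continuous_lapX`, `continuous_Lop`, `continuous_gipX`, `continuous_integrable_vol` in S5/Div).
-/

set_option autoImplicit false
set_option linter.unusedSectionVars false

open scoped Manifold ContDiff Topology
open MeasureTheory Set Filter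

namespace Pool.Agent.CY

noncomputable section

variable {n : ℕ} {X : Type} [TopologicalSpace X] [ChartedSpace (EuclideanHalfSpace (n + 1)) X]
  [IsManifold (𝓡∂ (n + 1)) ∞ X] [CompactSpace X] [T2Space X] [MeasurableSpace X] [BorelSpace X]

theorem scal_term (hn : 3 ≤ n) (g : Metric n X) {ρ : X → ℝ} (hE : IsCCE g ρ) (c C : ℝ) (hc : 0 < c) :
    ∃ K : ℝ, ∀ (u : X → ℝ) (lam : ℝ) (h : Metric n X), ContMDiff (𝓡∂ (n + 1)) 𝓘(ℝ) ∞ u →
      (∀ p, c ≤ u p ∧ u p ≤ C) → IsConfU u g h →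
      -∫ p, scalX h p * lapX h (fun q => u q ^ (2 / ((n : ℝ) - 1)) * ρ q) p ∂(vol h) ≤
        lam * (bvol h univ).toReal +
        K * ∫ x, |Lop g u x - lam * u x ^ (pp n - 1)| * (1 + gipX g u u x + |Lop g u x|) ∂(vol g) := by
  obtain ⟨K, hK0, hK⟩ := lap_bound hn g hE.smooth c C hc
  refine ⟨C * K, ?_⟩
  intro u lam h hus hcC hh
  have hn2 : 2 ≤ n := by omega
  have hn1 : (0 : ℝ) < (n : ℝ) - 1 := by
    have h1 : (3 : ℝ) ≤ (n : ℝ) := by exact_mod_cast hn
    linarith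
  have hu0 : ∀ p, 0 < u p := fun p => lt_of_lt_of_le hc (hcC p).1
  have hu2 : ContMDiff (𝓡∂ (n + 1)) 𝓘(ℝ) 2 u := hus.of_le ENat.LEInfty.out
  have hu1 : ContMDiff (𝓡∂ (n + 1)) 𝓘(ℝ) 1 u := hus.of_le (by exact_mod_cast le_top)
  have hvs : ContMDiff (𝓡∂ (n + 1)) 𝓘(ℝ) ∞ (fun p => u p ^ (2 / ((n : ℝ) - 1))) := by
    intro p
    have h1 : ContDiffAt ℝ ∞ (fun x : ℝ => x ^ (2 / ((n : ℝ) - 1))) (u p) :=
      Real.contDiffAt_rpow_const_of_ne (hu0 p).ne'
    exact h1.contMDiffAt.comp p (hus p)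
  have hv0 : ∀ p, 0 < u p ^ (2 / ((n : ℝ) - 1)) := fun p => Real.rpow_pos_of_pos (hu0 p) _
  have hEh : IsCCE h (fun q => u q ^ (2 / ((n : ℝ) - 1)) * ρ q) := hE.conf hvs hv0 hh
  have hf2 : ContMDiff (𝓡∂ (n + 1)) 𝓘(ℝ) 2 (fun q => u q ^ (2 / ((n : ℝ) - 1)) * ρ q) :=
    hEh.smooth.of_le ENat.LEInfty.out
  have hLc : Continuous (lapX h (fun q => u q ^ (2 / ((n : ℝ) - 1)) * ρ q)) := continuous_lapX h hf2
  have hrc : Continuous (fun x => Lop g u x - lam * u x ^ (pp n - 1)) :=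
    (continuous_Lop g hu2).sub (continuous_const.mul
      (hus.continuous.rpow_const (fun p => Or.inl (hu0 p).ne')))
  have hsc : ∀ p, scalX h p = lam + u p ^ (-(((n : ℝ) + 3) / ((n : ℝ) - 1))) *
      (Lop g u p - lam * u p ^ (pp n - 1)) := by
    intro p
    rw [scalX_conf hn2 hus hu0 hh p]
    have h1 : u p ^ (-(((n : ℝ) + 3) / ((n : ℝ) - 1))) * u p ^ (pp n - 1) = 1 := by
      rw [← Real.rpow_add (hu0 p), pp]
      conv_rhs => rw [← Real.rpow_zero (u p)]
      congr 1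
      field_simp
      ring
    have h2 : u p ^ (-(((n : ℝ) + 3) / ((n : ℝ) - 1))) * (Lop g u p - lam * u p ^ (pp n - 1)) =
        u p ^ (-(((n : ℝ) + 3) / ((n : ℝ) - 1))) * Lop g u p -
          lam * (u p ^ (-(((n : ℝ) + 3) / ((n : ℝ) - 1))) * u p ^ (pp n - 1)) := by ring
    rw [h2, h1]
    ring
  have hqc : Continuous (fun p => u p ^ (-(((n : ℝ) + 3) / ((n : ℝ) - 1))) *
      (Lop g u p - lam * u p ^ (pp n - 1)) *
      lapX h (fun q => u q ^ (2 / ((n : ℝ) - 1)) * ρ q) p) :=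
    ((hus.continuous.rpow_const (fun p => Or.inl (hu0 p).ne')).mul hrc).mul hLc
  have h1 : ∫ p, scalX h p * lapX h (fun q => u q ^ (2 / ((n : ℝ) - 1)) * ρ q) p ∂(vol h) =
      lam * ∫ p, lapX h (fun q => u q ^ (2 / ((n : ℝ) - 1)) * ρ q) p ∂(vol h) +
      ∫ p, u p ^ (-(((n : ℝ) + 3) / ((n : ℝ) - 1))) * (Lop g u p - lam * u p ^ (pp n - 1)) *
        lapX h (fun q => u q ^ (2 / ((n : ℝ) - 1)) * ρ q) p ∂(vol h) := by
    have hI1 : Integrable (fun p => lam * lapX h (fun q => u q ^ (2 / ((n : ℝ) - 1)) * ρ q) p) (vol h) :=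
      continuous_integrable_vol h (continuous_const.mul hLc)
    rw [← integral_const_mul, ← integral_add hI1 (continuous_integrable_vol h hqc)]
    refine integral_congr_ae (Eventually.of_forall fun p => ?_)
    simp only
    rw [hsc p]
    ring
  have h2 : ∫ p, u p ^ (-(((n : ℝ) + 3) / ((n : ℝ) - 1))) * (Lop g u p - lam * u p ^ (pp n - 1)) *
        lapX h (fun q => u q ^ (2 / ((n : ℝ) - 1)) * ρ q) p ∂(vol h) =
      ∫ p, u p * (Lop g u p - lam * u p ^ (pp n - 1)) *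
        lapX h (fun q => u q ^ (2 / ((n : ℝ) - 1)) * ρ q) p ∂(vol g) := by
    rw [int_vol_conf hvs.continuous hv0 hh]
    refine integral_congr_ae (Eventually.of_forall fun p => ?_)
    simp only
    have h3 : u p ^ (-(((n : ℝ) + 3) / ((n : ℝ) - 1))) * (u p ^ (2 / ((n : ℝ) - 1))) ^ (n + 1) = u p := by
      rw [← Real.rpow_natCast (u p ^ (2 / ((n : ℝ) - 1))), ← Real.rpow_mul (hu0 p).le, ← Real.rpow_add (hu0 p)]
      conv_rhs => rw [← Real.rpow_one (u p)]
      congr 1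
      push_cast
      field_simp
      ring
    calc u p ^ (-(((n : ℝ) + 3) / ((n : ℝ) - 1))) * (Lop g u p - lam * u p ^ (pp n - 1)) *
        lapX h (fun q => u q ^ (2 / ((n : ℝ) - 1)) * ρ q) p * (u p ^ (2 / ((n : ℝ) - 1))) ^ (n + 1)
        = (u p ^ (-(((n : ℝ) + 3) / ((n : ℝ) - 1))) * (u p ^ (2 / ((n : ℝ) - 1))) ^ (n + 1)) *
          (Lop g u p - lam * u p ^ (pp n - 1)) *
          lapX h (fun q => u q ^ (2 / ((n : ℝ) - 1)) * ρ q) p := by ring
      _ = _ := by rw [h3]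
  rw [h1, int_lap hn2 h hEh, h2]
  have h4 : -∫ p, u p * (Lop g u p - lam * u p ^ (pp n - 1)) *
        lapX h (fun q => u q ^ (2 / ((n : ℝ) - 1)) * ρ q) p ∂(vol g) ≤
      C * K * ∫ x, |Lop g u x - lam * u x ^ (pp n - 1)| * (1 + gipX g u u x + |Lop g u x|) ∂(vol g) := by
    rw [← integral_neg, ← integral_const_mul]
    refine integral_mono ?_ ?_ ?_
    · exact (continuous_integrable_vol g ((hus.continuous.mul hrc).mul hLc)).neg
    · exact continuous_integrable_vol g (continuous_const.mul (hrc.abs.mul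
        ((continuous_const.add (continuous_gipX g hu1 hu1)).add (continuous_Lop g hu2).abs)))
    · intro p
      simp only
      have h5 := hK u h hus hcC hh p
      have h6 : 0 < u p := hu0 p
      have h7 : u p ≤ C := (hcC p).2
      calc -(u p * (Lop g u p - lam * u p ^ (pp n - 1)) *
            lapX h (fun q => u q ^ (2 / ((n : ℝ) - 1)) * ρ q) p)
          ≤ |u p * (Lop g u p - lam * u p ^ (pp n - 1)) *
            lapX h (fun q => u q ^ (2 / ((n : ℝ) - 1)) * ρ q) p| := neg_le_abs _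
        _ = u p * (|Lop g u p - lam * u p ^ (pp n - 1)| *
            |lapX h (fun q => u q ^ (2 / ((n : ℝ) - 1)) * ρ q) p|) := by
            rw [abs_mul, abs_mul, abs_of_pos h6, mul_assoc]
        _ ≤ C * (|Lop g u p - lam * u p ^ (pp n - 1)| * (K * (1 + gipX g u u p + |Lop g u p|))) := by
            apply mul_le_mul h7 _ (by positivity) (h6.le.trans h7)
            exact mul_le_mul_of_nonneg_left h5 (abs_nonneg _)
        _ = C * K * (|Lop g u p - lam * u p ^ (pp n - 1)| * (1 + gipX g u u p + |Lop g u p|)) := by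
            ring
  have h8 : -(lam * -(bvol h univ).toReal + ∫ p, u p * (Lop g u p - lam * u p ^ (pp n - 1)) *
        lapX h (fun q => u q ^ (2 / ((n : ℝ) - 1)) * ρ q) p ∂(vol g)) =
      lam * (bvol h univ).toReal + -∫ p, u p * (Lop g u p - lam * u p ^ (pp n - 1)) *
        lapX h (fun q => u q ^ (2 / ((n : ℝ) - 1)) * ρ q) p ∂(vol g) := by ring
  rw [h8]
  exact add_le_add le_rfl h4

end

end Pool.Agent.CY
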