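import Pool.Agent.CY.S5.KeyYB
import Pool.Agent.CY.S5.KeyConf
import Pool.Agent.CY.S5.KeyScal

/-!
CY-S5-KeyFin (helper68).  `key_ineq`.

PLAN.  `K = (n-1)/(n+1) * K₁` with `K₁` from `scal_term`.  For `u` take `h` with `IsConfU u g h` (`exists_confU`),
`v = u^{2/(n-1)}` (`PosSmooth`), `f = v ρ`, `IsCCE h f` (`IsCCE.conf`).  `yb_le`, `int_ineq hn h`, `conf_terms`, `scal_term`:
`YB g (∫ u^q)^{(n-2)/n} ≤ (n-1)/n ∫ (1/4) u^{-2/(n-1)} (Bop)² + (n-1)/(n+1) (lam ∫ u^q + K₁ ∫ ..)`.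
-/

set_option autoImplicit false
set_option linter.unusedSectionVars false

open scoped Manifold ContDiff Topology
open MeasureTheory Set Filter

namespace Pool.Agent.CY

noncomputable section

variable {n : ℕ} {X : Type} [TopologicalSpace X] [ChartedSpace (EuclideanHalfSpace (n + 1)) X]
  [IsManifold (𝓡∂ (n + 1)) ∞ X] [CompactSpace X] [T2Space X] [MeasurableSpace X] [BorelSpace X]

theorem key_ineq (hn : 3 ≤ n) (g : Metric n X) (ρ : X → ℝ) (hE : IsCCE g ρ) (hY : 0 < YB g) (c C : ℝ)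
    (hc : 0 < c) :
    ∃ K : ℝ, ∀ (u : X → ℝ) (lam : ℝ), ContMDiff (𝓡∂ (n + 1)) 𝓘(ℝ) ∞ u → (∀ p, c ≤ u p ∧ u p ≤ C) →
      YB g * (∫ x, u x ^ qq n ∂(bvol g)) ^ (((n : ℝ) - 2) / (n : ℝ)) ≤
        ((n : ℝ) - 1) / (4 * (n : ℝ)) * ∫ x, u x ^ (-2 / ((n : ℝ) - 1)) * Bop g u x ^ 2 ∂(bvol g) +
        ((n : ℝ) - 1) / ((n : ℝ) + 1) * lam * ∫ x, u x ^ qq n ∂(bvol g) +
        K * ∫ x, |Lop g u x - lam * u x ^ (pp n - 1)| * (1 + gipX g u u x + |Lop g u x|) ∂(vol g) := by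
  have hn' : (3 : ℝ) ≤ n := by exact_mod_cast hn
  have hn2 : 2 ≤ n := by omega
  obtain ⟨K₁, hK₁⟩ := scal_term hn g hE c C hc
  refine ⟨((n : ℝ) - 1) / ((n : ℝ) + 1) * K₁, fun u lam hu huc => ?_⟩
  have h0 : ∀ p, 0 < u p := fun p => lt_of_lt_of_le hc (huc p).1
  obtain ⟨h, hh⟩ := exists_confU g hu h0
  have hv0 : ∀ p, 0 < u p ^ (2 / ((n : ℝ) - 1)) := fun p => Real.rpow_pos_of_pos (h0 p) _
  have hv : ContMDiff (𝓡∂ (n + 1)) 𝓘(ℝ) ∞ (fun p => u p ^ (2 / ((n : ℝ) - 1))) := by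
    intro p
    have h1 : ContDiffAt ℝ ∞ (fun x : ℝ => x ^ (2 / ((n : ℝ) - 1))) (u p) :=
      Real.contDiffAt_rpow_const_of_ne (h0 p).ne'
    exact h1.contMDiffAt.comp p (hu p)
  have hh' : IsConf (fun p => u p ^ (2 / ((n : ℝ) - 1))) g h := hh
  have hEh : IsCCE h (fun p => u p ^ (2 / ((n : ℝ) - 1)) * ρ p) := hE.conf hv hv0 hh'
  have h1 := yb_le hn g hY (v := fun p => u p ^ (2 / ((n : ℝ) - 1))) ⟨hv, hv0⟩ hh'
  have h2 := int_ineq hn2 h hEh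
  obtain ⟨h3, h4⟩ := conf_terms hn g hu h0 hh
  have h5 := hK₁ u lam h hu huc hh
  rw [h3] at h1 h5
  rw [h4, integral_const_mul] at h2
  have h6 : 0 < (n : ℝ) - 1 := by linarith
  have h7 : 0 < (n : ℝ) + 1 := by linarith
  have h8 := mul_le_mul_of_nonneg_left h5 (div_pos h6 h7).le
  have h9 : ((n : ℝ) - 1) / (n : ℝ) * (1 / 4 * ∫ x, u x ^ (-2 / ((n : ℝ) - 1)) * Bop g u x ^ 2
      ∂(bvol g)) = ((n : ℝ) - 1) / (4 * (n : ℝ)) * ∫ x, u x ^ (-2 / ((n : ℝ) - 1)) *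
        Bop g u x ^ 2 ∂(bvol g) := by
    have : (n : ℝ) ≠ 0 := by linarith
    field_simp
  rw [h9] at h2
  calc YB g * (∫ x, u x ^ qq n ∂(bvol g)) ^ (((n : ℝ) - 2) / (n : ℝ))
      ≤ ∫ p, bscalX h p ∂(bvol h) := h1
    _ ≤ _ := h2
    _ = ((n : ℝ) - 1) / (4 * (n : ℝ)) * ∫ x, u x ^ (-2 / ((n : ℝ) - 1)) * Bop g u x ^ 2 ∂(bvol g) +
        ((n : ℝ) - 1) / ((n : ℝ) + 1) *
          (-∫ p, scalX h p * lapX h (fun q => u q ^ (2 / ((n : ℝ) - 1)) * ρ q) p ∂(vol h)) := by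
        ring
    _ ≤ _ := by
        have h10 := add_le_add_right h8 (((n : ℝ) - 1) / (4 * (n : ℝ)) *
          ∫ x, u x ^ (-2 / ((n : ℝ) - 1)) * Bop g u x ^ 2 ∂(bvol g))
        linarith

end

end Pool.Agent.CY
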