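import Pool.Agent.CY.S5.KeyStub

/-!
CY-S5-KeyGP (helper68).  The pairing `dη(G(∇f))` on `X`.
-/

set_option autoImplicit false
set_option linter.unusedSectionVars false

open scoped Manifold ContDiff Topology
open MeasureTheory Set Filter

namespace Pool.Agent.CY

noncomputable section

variable {n : ℕ}

theorem contDiffOn_Ric1 {m : ℕ} {S U : Set (V m)} {g : MF m} (hD : Dom S U) (hg : MetOn U g 3) (i j : Fin m) :
    ContDiffOn ℝ 1 (Ric S g i j) U :=
  C.contDiffOn_Ric hD (by norm_num) hg i j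

theorem contDiffOn_scal1 {m : ℕ} {S U : Set (V m)} {g : MF m} (hD : Dom S U) (hg : MetOn U g 3) :
    ContDiffOn ℝ 1 (scal S g) U :=
  C.contDiffOn_scal hD (by norm_num) hg

theorem contDiffOn_GW {m : ℕ} {S U : Set (V m)} {g : MF m} (hD : Dom S U) (hg : MetOn U g 3)
    {f : V m → ℝ} (hf : ContDiffOn ℝ 2 f U) (i : Fin m) : ContDiffOn ℝ 1 (GW S g f i) U := by
  have h1 : (1 : WithTop ℕ∞) ≤ 3 := by norm_num
  have h2 : (2 : WithTop ℕ∞) ≤ 3 := by norm_num
  unfold GW
  refine ContDiffOn.sum fun k _ => ((hg.of_le h1).contDiffOn_inv i k).mul ?_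
  refine ContDiffOn.sum fun j _ => ContDiffOn.mul ?_ ?_
  · unfold Ein
    exact (contDiffOn_Ric1 hD hg k j).sub
      (((contDiffOn_scal1 hD hg).div_const 2).mul ((hg.of_le h1).smooth k j))
  · exact C.contDiffOn_gr hD two_eq_one_add_one (hg.of_le h2) hf j

/-- The pairing `dη(G(∇f))`. -/
def GP (g : MF (n + 1)) (f η : V (n + 1) → ℝ) (y : V (n + 1)) : ℝ :=
  ∑ i, pd (Hs n) i η y * GW (Hs n) g f i y

variable {X : Type} [TopologicalSpace X] [ChartedSpace (EuclideanHalfSpace (n + 1)) X]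

/-- The pairing on `X`. -/
def GPX (g : Metric n X) (f η : X → ℝ) (p : X) : ℝ :=
  GP (g.G (ch p)) (loc (ch p) f) (loc (ch p) η) (co (ch p) p)

variable [IsManifold (𝓡∂ (n + 1)) ∞ X]
  {e e' : OpenPartialHomeomorph X (EuclideanHalfSpace (n + 1))}

theorem GPX_eq (g : Metric n X) (he : e ∈ atlas (EuclideanHalfSpace (n + 1)) X) {f η : X → ℝ}
    (hf : ContMDiff (𝓡∂ (n + 1)) 𝓘(ℝ) 2 f) (hη : ContMDiff (𝓡∂ (n + 1)) 𝓘(ℝ) 1 η) {p : X}
    (hp : p ∈ e.source) : GPX g f η p = GP (g.G e) (loc e f) (loc e η) (co e p) := by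
  have hW := isVF_GW g hf
  have h1 : DifferentiableOn ℝ (loc e η) (dom e) := (contDiffOn_loc he (k := 1) hη).differentiableOn (by simp)
  have h2 := dom2_co (e := ch (n := n) p) (mem_ch_source p) hp
  have h3 : tr (ch (n := n) p) e (co (ch (n := n) p) p) = co e p := tr_co (mem_ch_source p)
  have h4 : ∀ a, GW (Hs n) (g.G e) (loc e f) a (co e p) = ∑ i, jac (ch p) e (co (ch (n := n) p) p) a i *
      GW (Hs n) (g.G (ch p)) (loc (ch p) f) i (co (ch (n := n) p) p) := by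
    intro a
    rw [← h3]
    exact hW.compat _ (ch_mem_atlas p) e he _ h2 a
  rw [GPX, GP, GP]
  simp only [pd_loc (ch_mem_atlas p) he h1 _ h2, h3, h4, Finset.sum_mul, Finset.mul_sum]
  rw [Finset.sum_comm]
  exact Finset.sum_congr rfl fun a _ => Finset.sum_congr rfl fun i _ => by ring

theorem GPX_sum (g : Metric n X) (f : X → ℝ) {N : ℕ} {η : Fin N → X → ℝ}
    (hη : ∀ i, ContMDiff (𝓡∂ (n + 1)) 𝓘(ℝ) 1 (η i)) (p : X) :
    GPX g f (fun q => ∑ i, η i q) p = ∑ i, GPX g f (η i) p := by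
  have hDe := dom_chart (ch (n := n) p)
  have hy := co_ch_mem (n := n) p
  have h1 : ∀ a, pd (Hs n) a (loc (ch (n := n) p) (fun q => ∑ i, η i q)) (co (ch (n := n) p) p) =
      ∑ i, pd (Hs n) a (loc (ch (n := n) p) (η i)) (co (ch (n := n) p) p) := by
    intro a
    rw [← hDe.pd_sum a Finset.univ (f := fun i => loc (ch (n := n) p) (η i)) (fun i _ =>
      (contDiffOn_loc (ch_mem_atlas p) (k := 1) (hη i)).differentiableOn (by simp)) hy]
    rfl
  simp only [GPX, GP, h1, Finset.sum_mul]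
  rw [Finset.sum_comm]

theorem GPX_const (g : Metric n X) (f : X → ℝ) (c : ℝ) (p : X) : GPX g f (fun _ => c) p = 0 := by
  rw [GPX, GP]
  refine Finset.sum_eq_zero fun i _ => ?_
  have h : loc (ch (n := n) p) (fun _ => c) = fun _ => c := rfl
  rw [h, pd_const, zero_mul]

theorem pd_loc_off {w : X → ℝ} {p : X}
    (hp : p ∈ e.source) (hw : p ∉ tsupport w) (i : Fin (n + 1)) : pd (Hs n) i (loc e w) (co e p) = 0 := by
  have h1 : ∀ᶠ q in 𝓝 p, w q = 0 := by
    filter_upwards [(isClosed_tsupport w).isOpen_compl.mem_nhds hw] with q hq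
    exact image_eq_zero_of_notMem_tsupport hq
  have hy := co_mem_dom e hp
  have h2 : Tendsto (pt e) (𝓝[Hs n] (co e p)) (𝓝 p) := by
    rw [(dom_chart e).nhds_eq hy]
    have := continuousOn_pt e (co e p) hy
    rw [ContinuousWithinAt, pt_co e hp] at this
    exact this
  have h3 : loc e w =ᶠ[𝓝[Hs n] (co e p)] fun _ => 0 := h2.eventually h1
  have h4 : loc e w (co e p) = 0 := by
    rw [loc, pt_co e hp]; exact h1.self_of_nhds
  rw [pd, h3.fderivWithin_eq h4]
  simp

theorem GPX_zero (g : Metric n X) (f : X → ℝ) {η : X → ℝ} {p : X} (hp : p ∉ tsupport η) :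
    GPX g f η p = 0 := by
  rw [GPX, GP]
  refine Finset.sum_eq_zero fun a _ => ?_
  rw [pd_loc_off (mem_ch_source p) hp a, zero_mul]

theorem GPX_continuous (g : Metric n X) {f η : X → ℝ} (hf : ContMDiff (𝓡∂ (n + 1)) 𝓘(ℝ) 2 f)
    (hη : ContMDiff (𝓡∂ (n + 1)) 𝓘(ℝ) 1 η) : Continuous (GPX g f η) :=
  continuous_of_chart (fun e y => ∑ a, pd (Hs n) a (loc e η) y * GW (Hs n) (g.G e) (loc e f) a y)
    (fun _ he _ hp => GPX_eq g he hf hη hp)
    (fun _ he => continuousOn_finsetSum _ fun a _ =>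
      ((dom_chart _).continuousOn_pd a (contDiffOn_loc he (k := 1) hη)).mul
        (contDiffOn_GW (dom_chart _) (g.metOn he) (contDiffOn_loc he (k := 2) hf) a).continuousOn)

end

end Pool.Agent.CY
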