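import Pool.Agent.CY.S5.KeyLoc
import Pool.Agent.CY.S5.Green

/-!
CY-S5-KeyInt (helper68).  The integral inequality for a compactified Einstein metric.

PLAN.  `int_ineq`: `exists_frame g` (S3/ExFrame): charts `f₀.e i`, `f₀.η i`; `χ_i = (f₀.η i)²` (smooth, `≥ 0`,
`tsupport ⊆ (f₀.e i).source`, `∑ χ_i = 1`).  Sum `loc_ineq` over `i`: `∑ GPX g f χ_i = GPX g f 1 = 0` (`GPX_sum`,
`GPX_const`, `GPX_continuous` for integrability), `∫ ∑ χ_i F = ∫ F` (`bscalX`, `meanX` continuous on the boundary: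
`continuousOn_bscalX`, `continuousOn_meanX`, `continuousOn_boundary_integrable` in S5/Div; `scalX`, `lapX` continuous on `X`:
`continuous_scalX`, `continuous_lapX`, `continuous_integrable_vol`).  Multiply by `2`.
`int_lap`: `green_lap` (S5/Green) with `v = 1`: `∫ lapX g f dvol = ∫ nderX g f dσ`, and `nderX g f = -1` on the boundary
(`nder_rho` in the chart `ch p`, `IsCCE.cceOn`, `bd_tl`; a.e. by `ae_bvol_boundary`).
-/

set_option autoImplicit false
set_option linter.unusedSectionVars false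

open scoped Manifold ContDiff Topology
open MeasureTheory Set Filter

namespace Pool.Agent.CY

noncomputable section

variable {n : ℕ} {X : Type} [TopologicalSpace X] [ChartedSpace (EuclideanHalfSpace (n + 1)) X]
  [IsManifold (𝓡∂ (n + 1)) ∞ X] [CompactSpace X] [T2Space X] [MeasurableSpace X] [BorelSpace X]
  {e : OpenPartialHomeomorph X (EuclideanHalfSpace (n + 1))}

theorem int_ineq (hn : 2 ≤ n) (g : Metric n X) {f : X → ℝ} (hE : IsCCE g f) :
    ∫ p, bscalX g p ∂(bvol g) ≤ ((n : ℝ) - 1) / (n : ℝ) * ∫ p, meanX g p ^ 2 ∂(bvol g) -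
      ((n : ℝ) - 1) / ((n : ℝ) + 1) * ∫ p, scalX g p * lapX g f p ∂(vol g) := by
  obtain ⟨f₀⟩ := exists_frame g
  set χ : Fin f₀.N → X → ℝ := fun i p => f₀.η i p ^ 2 with hχdef
  have hχs : ∀ i, ContMDiff (𝓡∂ (n + 1)) 𝓘(ℝ) ∞ (χ i) := fun i => (f₀.η_smooth i).pow 2
  have hχ1 : ∀ i, ContMDiff (𝓡∂ (n + 1)) 𝓘(ℝ) 1 (χ i) := fun i => (hχs i).of_le (by exact_mod_cast le_top)
  have hχc : ∀ i, Continuous (χ i) := fun i => (hχs i).continuous
  have hχt : ∀ i, tsupport (χ i) ⊆ (f₀.e i).source := fun i => by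
    refine subset_trans (closure_mono ?_) (f₀.η_supp i)
    intro p hp h
    apply hp
    simp only [hχdef]
    rw [h]
    simp
  have hsum : ∀ p, ∑ i, χ i p = 1 := f₀.η_sum
  have hf2 : ContMDiff (𝓡∂ (n + 1)) 𝓘(ℝ) 2 f := hE.smooth.of_le (WithTop.coe_le_coe.2 le_top :
      ((2 : ℕ∞) : WithTop ℕ∞) ≤ ((⊤ : ℕ∞) : WithTop ℕ∞))
  set Fb : X → ℝ := fun p => (1 / 2) * (bscalX g p - ((n : ℝ) - 1) / (n : ℝ) * meanX g p ^ 2) with hFbdef
  set Fv : X → ℝ := fun p => -(((n : ℝ) - 1) / (2 * ((n : ℝ) + 1)) * (scalX g p * lapX g f p)) with hFvdef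
  have hFb : ContinuousOn Fb ((𝓡∂ (n + 1)).boundary X) :=
    continuousOn_const.mul ((continuousOn_bscalX g).sub (continuousOn_const.mul ((continuousOn_meanX g).pow 2)))
  have hFv : Continuous Fv :=
    (continuous_const.mul ((continuous_scalX g).mul (continuous_lapX g hf2))).neg
  have hib : ∀ i, Integrable (fun p => χ i p * Fb p) (bvol g) := fun i =>
    continuousOn_boundary_integrable g ((hχc i).continuousOn.mul hFb)
  have hiv : ∀ i, Integrable (fun p => χ i p * Fv p) (vol g) := fun i =>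
    continuous_integrable_vol g ((hχc i).mul hFv)
  have hig : ∀ i, Integrable (GPX g f (χ i)) (vol g) := fun i =>
    continuous_integrable_vol g (GPX_continuous g hf2 (hχ1 i))
  have e1 : ∫ p, Fb p ∂(bvol g) = ∑ i, ∫ p, χ i p * Fb p ∂(bvol g) := by
    rw [← integral_finsetSum _ (fun i _ => hib i)]
    refine integral_congr_ae (Eventually.of_forall fun p => ?_)
    simp only [← Finset.sum_mul, hsum p, one_mul]
  have e2 : ∫ p, Fv p ∂(vol g) = ∑ i, ∫ p, χ i p * Fv p ∂(vol g) := by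
    rw [← integral_finsetSum _ (fun i _ => hiv i)]
    refine integral_congr_ae (Eventually.of_forall fun p => ?_)
    simp only [← Finset.sum_mul, hsum p, one_mul]
  have e3 : ∑ i, ∫ p, GPX g f (χ i) p ∂(vol g) = 0 := by
    rw [← integral_finsetSum _ (fun i _ => hig i)]
    have h1 : ∀ p, ∑ i, GPX g f (χ i) p = 0 := by
      intro p
      rw [← GPX_sum g f hχ1 p, show (fun q => ∑ i, χ i q) = fun _ => (1 : ℝ) from funext hsum, GPX_const]
    simp only [h1, integral_zero]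
  have key : ∫ p, Fb p ∂(bvol g) ≤ ∫ p, Fv p ∂(vol g) := by
    have h1 : ∑ i, ∫ p, χ i p * Fb p ∂(bvol g) ≤
        ∑ i, (∫ p, χ i p * Fv p ∂(vol g) + ∫ p, GPX g f (χ i) p ∂(vol g)) :=
      Finset.sum_le_sum fun i _ => loc_ineq hn g hE (f₀.e_mem i) (hχs i) (fun p => sq_nonneg _) (hχt i)
    rw [Finset.sum_add_distrib, e3, add_zero, ← e1, ← e2] at h1
    exact h1
  have ib1 : Integrable (bscalX g) (bvol g) := continuousOn_boundary_integrable g (continuousOn_bscalX g)
  have ib2 : Integrable (fun p => ((n : ℝ) - 1) / (n : ℝ) * meanX g p ^ 2) (bvol g) :=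
    continuousOn_boundary_integrable g (continuousOn_const.mul ((continuousOn_meanX g).pow 2))
  have e4 : ∫ p, Fb p ∂(bvol g) = (1 / 2) * (∫ p, bscalX g p ∂(bvol g) -
      ((n : ℝ) - 1) / (n : ℝ) * ∫ p, meanX g p ^ 2 ∂(bvol g)) := by
    simp only [hFbdef]
    rw [integral_const_mul, integral_sub ib1 ib2, integral_const_mul]
  have e5 : ∫ p, Fv p ∂(vol g) = -(((n : ℝ) - 1) / (2 * ((n : ℝ) + 1)) *
      ∫ p, scalX g p * lapX g f p ∂(vol g)) := by
    simp only [hFvdef]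
    rw [integral_neg, integral_const_mul]
  rw [e4, e5] at key
  have hn1 : (0 : ℝ) < (n : ℝ) + 1 := by positivity
  have e6 : ((n : ℝ) - 1) / (2 * ((n : ℝ) + 1)) = (1 / 2) * (((n : ℝ) - 1) / ((n : ℝ) + 1)) := by
    field_simp
  rw [e6] at key
  linarith

theorem int_lap (hn : 2 ≤ n) (g : Metric n X) {f : X → ℝ} (hE : IsCCE g f) :
    ∫ p, lapX g f p ∂(vol g) = -(bvol g univ).toReal := by
  have hf2 : ContMDiff (𝓡∂ (n + 1)) 𝓘(ℝ) 2 f := hE.smooth.of_le (WithTop.coe_le_coe.2 le_top :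
      ((2 : ℕ∞) : WithTop ℕ∞) ≤ ((⊤ : ℕ∞) : WithTop ℕ∞))
  have h1 := green_lap g hf2 (v := fun _ => (1 : ℝ)) contMDiff_const
  have h2 : ∀ p, gipX g (fun _ => (1 : ℝ)) f p = 0 := by
    intro p
    simp only [gipX, gip]
    refine Finset.sum_eq_zero fun i _ => Finset.sum_eq_zero fun j _ => ?_
    rw [show loc (ch p) (fun _ : X => (1 : ℝ)) = fun _ => (1 : ℝ) from rfl, pd_const]
    ring
  have h3 : ∫ p, 1 * nderX g f p ∂(bvol g) = ∫ _, (-1 : ℝ) ∂(bvol g) := by
    refine integral_congr_ae ?_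
    filter_upwards [ae_bvol_boundary g] with p hp
    have h0 : co (ch (n := n) p) p 0 = 0 := (mem_boundary_iff (ch_mem_atlas p) (mem_ch_source p)).1 hp
    have hz : bd (tl (co (ch (n := n) p) p)) ∈ dom (ch (n := n) p) := by
      rw [bd_tl h0]
      exact co_ch_mem p
    rw [one_mul, nderX]
    exact nder_rho (by omega) (IsCCE.cceOn hn hE (ch_mem_atlas p)) hz
  simp only [h2, integral_zero, add_zero, one_mul] at h1
  simp only [one_mul] at h3
  rw [h1, h3, integral_const, smul_eq_mul, mul_neg, mul_one]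
  rfl

end

end Pool.Agent.CY
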