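import Pool.Agent.CY.S5.KeyGP
import Pool.Agent.CY.S5.Div

/-!
CY-S5-KeyLoc (helper68).  The local form of the integral inequality for a compactified Einstein metric.

PLAN.  `h := IsCCE.cceOn hn hE he : CCEOn (dom e) (g.G e) (loc e f)`.  `chart_div` (S5/Div) with `η = χ`,
`W = GW (Hs n) (g.G e) (loc e f)` (`contDiffOn_GW`, `h.met`):
`∫_{source} (χ dvg W + Σ ∂_i χ W^i) dvol = ∫_{source} χ (-W⁰/√g^{00}) dσ`.
Left: `Σ ∂_i χ W^i = GPX g f χ p` (`GPX_eq`, `GP`), `dvg W ≤ -((n-1)/(2(n+1))) scal lap` at the points of `dom e ∩ Ho n`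
(`div_GW_le` with `U = dom e ∩ Ho n`, `Dom.inter_open`, `h.ein`, `MetOn.mono`; `scalX_eq`, `lapX_eq`), that is for
`vol`-almost every `p ∈ source` (`vol_boundary`, `mem_boundary_iff`, `dom e ⊆ Hs n`).  Integrability on `source`: the functions
`χ p * F (co e p)` with `F` continuous on `dom e` and `tsupport χ ⊆ source` are (extended by zero) continuous on the compact
`X`; `GPX` is continuous; `dvg W` is continuous on `dom e` because `W` is `C^1`.  `∫_{source} GPX g f χ = ∫ GPX g f χ`
(`GPX_zero` off `source`), `∫_{source} χ F = ∫ χ F`.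
Right: for `σ`-a.e. `p` (`ae_bvol_boundary`) in `source`: `co e p = bd (tl (co e p))` (`bd_tl`, `mem_boundary_iff`), `flux`, `bscalX_eq`,
`meanX_eq`; `χ = 0` off `source`.
-/

set_option autoImplicit false
set_option linter.unusedSectionVars false

open scoped Manifold ContDiff Topology
open MeasureTheory Set Filter

namespace Pool.Agent.CY

noncomputable section

variable {n : ℕ} {X : Type} [TopologicalSpace X] [ChartedSpace (EuclideanHalfSpace (n + 1)) X]
  [IsManifold (𝓡∂ (n + 1)) ∞ X] [CompactSpace X] [T2Space X] [MeasurableSpace X] [BorelSpace X]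
  {e : OpenPartialHomeomorph X (EuclideanHalfSpace (n + 1))}

omit [IsManifold (𝓡∂ (n + 1)) ∞ X] [CompactSpace X] [T2Space X] [MeasurableSpace X] [BorelSpace X] in
private theorem kl_cont {χ G : X → ℝ} (hχ : Continuous χ) (hs : tsupport χ ⊆ e.source)
    (hG : ContinuousOn G e.source) : Continuous fun p => χ p * G p := by
  rw [continuous_iff_continuousAt]
  intro p
  by_cases hp : p ∈ tsupport χ
  · exact hχ.continuousAt.mul (hG.continuousAt (e.open_source.mem_nhds (hs hp)))
  · have h1 : (fun p => χ p * G p) =ᶠ[𝓝 p] fun _ => 0 := by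
      filter_upwards [(isClosed_tsupport χ).isOpen_compl.mem_nhds hp] with q hq
      rw [image_eq_zero_of_notMem_tsupport hq, zero_mul]
    exact (continuousAt_const (y := (0 : ℝ))).congr h1.symm

theorem loc_ineq (hn : 2 ≤ n) (g : Metric n X) {f : X → ℝ} (hE : IsCCE g f)
    (he : e ∈ atlas (EuclideanHalfSpace (n + 1)) X) {χ : X → ℝ}
    (hχ : ContMDiff (𝓡∂ (n + 1)) 𝓘(ℝ) ∞ χ) (h0 : ∀ p, 0 ≤ χ p) (hs : tsupport χ ⊆ e.source) :
    ∫ p, χ p * ((1 / 2) * (bscalX g p - ((n : ℝ) - 1) / (n : ℝ) * meanX g p ^ 2)) ∂(bvol g) ≤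
      ∫ p, χ p * (-(((n : ℝ) - 1) / (2 * ((n : ℝ) + 1)) * (scalX g p * lapX g f p))) ∂(vol g) +
        ∫ p, GPX g f χ p ∂(vol g) := by
  have h := IsCCE.cceOn hn hE he
  have hD := dom_chart e
  have hχ1 : ContMDiff (𝓡∂ (n + 1)) 𝓘(ℝ) 1 χ := hχ.of_le (by exact_mod_cast le_top)
  have hf2 : ContMDiff (𝓡∂ (n + 1)) 𝓘(ℝ) 2 f := hE.smooth.of_le
    (WithTop.coe_le_coe.2 (le_top : (2 : ℕ∞) ≤ ⊤))
  have hf1 : ContMDiff (𝓡∂ (n + 1)) 𝓘(ℝ) 1 f := hE.smooth.of_le (by exact_mod_cast le_top)
  have hfe2 : ContDiffOn ℝ 2 (loc e f) (dom e) := contDiffOn_loc he (k := 2) hf2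
  set W : Fin (n + 1) → V (n + 1) → ℝ := GW (Hs n) (g.G e) (loc e f) with hWdef
  have hW : ∀ i, ContDiffOn ℝ 1 (W i) (dom e) := fun i => contDiffOn_GW hD h.met hfe2 i
  have hmain := chart_div g he hχ1 hs hW
  have hdv : ContinuousOn (dvg (Hs n) (g.G e) W) (dom e) := by
    unfold dvg
    refine continuousOn_finsetSum _ fun i _ => ?_
    refine (hD.continuousOn_pd i (hW i)).add ?_
    refine ContinuousOn.mul (continuousOn_finsetSum _ fun a _ => ?_) (hW i).continuousOn
    exact (contDiffOn_Gam hD (k := 0) (by simp) (g.metOn1 he) a i a).continuousOn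
  have hzero : ∀ p, p ∉ e.source → χ p = 0 := fun p hp => by
    by_contra h1
    exact hp (hs (subset_tsupport _ h1))
  -- the left side of the divergence theorem
  have hA : Continuous fun p => χ p * dvg (Hs n) (g.G e) W (co e p) :=
    kl_cont hχ.continuous hs (hdv.comp (continuousOn_co e) fun p hp => co_mem_dom e hp)
  have hAi := continuous_integrable_vol g hA
  have hGi := continuous_integrable_vol g (GPX_continuous g hf2 hχ1)
  have hB : Continuous fun p => χ p * (-(((n : ℝ) - 1) / (2 * ((n : ℝ) + 1)) *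
      (scalX g p * lapX g f p))) :=
    hχ.continuous.mul (continuous_const.mul
      ((continuous_scalX g).mul (continuous_lapX g hf2))).neg
  have hBi := continuous_integrable_vol g hB
  have hL : ∫ p in e.source, (χ p * dvg (Hs n) (g.G e) W (co e p) +
        ∑ i, pd (Hs n) i (loc e χ) (co e p) * W i (co e p)) ∂(vol g) =
      ∫ p, χ p * dvg (Hs n) (g.G e) W (co e p) ∂(vol g) + ∫ p, GPX g f χ p ∂(vol g) := by
    rw [← integral_add hAi hGi]
    rw [← setIntegral_eq_integral_of_forall_compl_eq_zero (s := e.source)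
      (f := fun p => χ p * dvg (Hs n) (g.G e) W (co e p) + GPX g f χ p) (fun p hp => by
        rw [hzero p hp, zero_mul, zero_add]
        exact GPX_zero g f fun h1 => hp (hs h1))]
    refine setIntegral_congr_fun e.open_source.measurableSet fun p hp => ?_
    rw [GPX_eq g he hf2 hχ1 hp, GP]
  have hle : ∫ p, χ p * dvg (Hs n) (g.G e) W (co e p) ∂(vol g) ≤
      ∫ p, χ p * (-(((n : ℝ) - 1) / (2 * ((n : ℝ) + 1)) * (scalX g p * lapX g f p))) ∂(vol g) := by
    refine integral_mono_ae hAi hBi ?_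
    have hb : ∀ᵐ p ∂(vol g), p ∉ (𝓡∂ (n + 1)).boundary X :=
      measure_eq_zero_iff_ae_notMem.1 (vol_boundary g)
    filter_upwards [hb] with p hp
    by_cases hps : p ∈ e.source
    · refine mul_le_mul_of_nonneg_left ?_ (h0 p)
      have hy := co_mem_dom e hps
      have hpos : co e p ∈ Ho n := by
        have h1 : co e p 0 ≠ 0 := fun h1 => hp ((mem_boundary_iff he hps).2 h1)
        have h2 : 0 ≤ co e p 0 := co_mem_Hs e p
        exact lt_of_le_of_ne h2 (Ne.symm h1)
      have h3 := div_GW_le (S := Hs n) (U := dom e ∩ Ho n) (g := g.G e) (ρ := loc e f)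
        (y := co e p) (by omega) (hD.inter_open isOpen_Ho) (h.met.mono inter_subset_left)
        ((h.smooth.of_le (WithTop.coe_le_coe.2 (le_top : (3 : ℕ∞) ≤ ⊤))).mono inter_subset_left)
        h.ein ⟨hy, hpos⟩
      rw [scalX_eq g he hps, lapX_eq g he hf2 hps]
      exact h3
    · simp only [hzero p hps, zero_mul, le_refl]
  -- the right side
  have hR : ∫ p in e.source, χ p * (-(W 0 (co e p)) / Real.sqrt ((g.G e (co e p))⁻¹ 0 0)) ∂(bvol g) =
      ∫ p, χ p * ((1 / 2) * (bscalX g p - ((n : ℝ) - 1) / (n : ℝ) * meanX g p ^ 2)) ∂(bvol g) := by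
    rw [← setIntegral_eq_integral_of_forall_compl_eq_zero (s := e.source)
      (f := fun p => χ p * ((1 / 2) * (bscalX g p - ((n : ℝ) - 1) / (n : ℝ) * meanX g p ^ 2)))
      (fun p hp => by rw [hzero p hp, zero_mul])]
    refine setIntegral_congr_ae e.open_source.measurableSet ?_
    filter_upwards [ae_bvol_boundary g] with p hpb hp
    have h1 : co e p 0 = 0 := (mem_boundary_iff he hp).1 hpb
    have h2 : bd (tl (co e p)) = co e p := bd_tl h1
    have h3 : bd (tl (co e p)) ∈ dom e := by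
      rw [h2]
      exact co_mem_dom e hp
    have h4 := flux hn h h3
    rw [h2] at h4
    rw [bscalX_eq g he hp hpb, meanX_eq g he hp hpb, ← h4]
  rw [← hR, ← hmain, hL]
  exact add_le_add_left hle _

end

end Pool.Agent.CY
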