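import Pool.Agent.CY.S5.Mean

/-!
Project CY, part S5: isometries between metrics on domains (`PullOn`), invariance of the scalar curvature; the
scalar curvature of the boundary.  `GamM_pull` and `FM_pull` are due to helper20 and helper7 (statements by helper90).
-/

set_option autoImplicit false
set_option linter.unusedSectionVars false

open scoped Manifold ContDiff Topology
open MeasureTheory Set Filter

namespace Pool.Agent.CY.Rel

noncomputable section

/-- The Jacobian matrix `J^k_i = ∂_i τ^k`. -/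
def Jac {m : ℕ} (S : Set (V m)) (τ : V m → V m) (y : V m) : Matrix (Fin m) (Fin m) ℝ :=
  Matrix.of fun k i => pd S i (fun z => τ z k) y

/-- `τ : U → U'` is a smooth map and `g` is the pull back of `g'`. -/
structure PullOn {m : ℕ} (S U S' U' : Set (V m)) (τ : V m → V m) (g g' : MF m) : Prop where
  dom : Dom S U
  dom' : Dom S' U'
  maps : ∀ y ∈ U, τ y ∈ U'
  smooth : ∀ k, ContDiffOn ℝ ∞ (fun y => τ y k) U
  met : MetOn U g 2
  met' : MetOn U' g' 2
  pull : ∀ y ∈ U, g y = (Jac S τ y).transpose * g' (τ y) * Jac S τ y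

variable {m : ℕ} {S U S' U' : Set (V m)} {τ : V m → V m} {g g' : MF m} {y : V m}

theorem PullOn.det_ne (h : PullOn S U S' U' τ g g') (hy : y ∈ U) : (Jac S τ y).det ≠ 0 := by
  intro h0
  have h1 := h.met.det_pos hy
  rw [h.pull y hy, Matrix.det_mul, h0, mul_zero] at h1
  exact lt_irrefl _ h1

theorem PullOn.jac_smooth (h : PullOn S U S' U' τ g g') : CM ∞ U (Jac S τ) := by
  intro a b
  exact h.dom.contDiffOn_pd b (k := ∞) (l := ∞) (by simp) (h.smooth a)

theorem PullOn.tau_diff (h : PullOn S U S' U' τ g g') (k : Fin m) :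
    DifferentiableOn ℝ (fun z => τ z k) U := (h.smooth k).differentiableOn (by simp)

theorem PullOn.pd_comp (h : PullOn S U S' U' τ g g') {f : V m → ℝ} (hf : DifferentiableOn ℝ f U')
    (hy : y ∈ U) (j : Fin m) :
    pd S j (fun z => f (τ z)) y = ∑ a, Jac S τ y a j * pd S' a f (τ y) :=
  h.dom.pd_comp_map h.dom' j h.tau_diff hf h.maps hy

theorem PullOn.pdM_comp (h : PullOn S U S' U' τ g g') {M : V m → Matrix (Fin m) (Fin m) ℝ}
    (hM : CM 1 U' M) (hy : y ∈ U) (j : Fin m) :
    pdM S j (fun z => M (τ z)) y = ∑ a, Jac S τ y a j • pdM S' a M (τ y) := by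
  ext p q
  rw [Matrix.sum_apply]
  exact h.pd_comp (hM.dOn le_rfl p q) hy j

theorem GamM_unique (hD : Dom S U) (hg : MetOn U g 1) (hy : y ∈ U)
    (B : Fin m → Matrix (Fin m) (Fin m) ℝ) (hs : ∀ i j k, B j k i = B i k j)
    (hc : ∀ j, pdM S j g y = (B j).transpose * g y + g y * B j) (j : Fin m) : B j = GamM S g j y := by
  set L : Fin m → Fin m → Fin m → ℝ := fun p l i => ∑ a, g y p a * B l a i with hL
  have hLs : ∀ p l i, L p l i = L p i l := by
    intro p l i
    simp only [hL]
    exact Finset.sum_congr rfl fun a _ => by rw [hs i l a]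
  have hpd : ∀ l i k, pd S l (fun z => g z i k) y = L k l i + L i l k := by
    intro l i k
    have h1 := congrFun (congrFun (hc l) i) k
    simp only [pdM, Matrix.of_apply, Matrix.add_apply, Matrix.mul_apply, Matrix.transpose_apply] at h1
    rw [h1]
    simp only [hL]
    congr 1
    exact Finset.sum_congr rfl fun a _ => by rw [hg.symm hy a k]; ring
  have key : g y * B j = g y * GamM S g j y := by
    ext p i
    rw [Matrix.mul_apply, Matrix.mul_apply]
    have h1 := Gam_lower (S := S) hg p j i hy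
    have h2 : ∑ b, g y p b * GamM S g j y b i = ∑ b, g y p b * Gam S g b j i y := rfl
    rw [h2, h1, hpd, hpd, hpd]
    have e1 := hLs p i j
    have e2 := hLs i j p
    have e3 := hLs j i p
    have e0 : ∑ a, g y p a * B j a i = L p j i := rfl
    rw [e0]
    linarith
  have h3 : (g y)⁻¹ * g y = 1 := Matrix.nonsing_inv_mul _ (hg.isUnit_det hy)
  have h4 := congrArg (fun M => (g y)⁻¹ * M) key
  simpa only [← Matrix.mul_assoc, h3, Matrix.one_mul] using h4

/-- The transformation law of the Christoffel symbols. -/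
theorem GamM_pull (h : PullOn S U S' U' τ g g') (hy : y ∈ U) (j : Fin m) :
    GamM S g j y = (Jac S τ y)⁻¹ * (∑ a, Jac S τ y a j • GamM S' g' a (τ y)) * Jac S τ y +
      (Jac S τ y)⁻¹ * pdM S j (Jac S τ) y := by
  have hdet := isUnit_iff_ne_zero.2 (h.det_ne hy)
  have hJi : Jac S τ y * (Jac S τ y)⁻¹ = 1 := Matrix.mul_nonsing_inv _ hdet
  symm
  refine GamM_unique h.dom (h.met.of_le (by norm_num)) hy
    (fun j => (Jac S τ y)⁻¹ * (∑ a, Jac S τ y a j • GamM S' g' a (τ y)) * Jac S τ y +
      (Jac S τ y)⁻¹ * pdM S j (Jac S τ) y) ?_ ?_ j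
  · intro i j k
    have hM : ∀ j i p, ((∑ a, Jac S τ y a j • GamM S' g' a (τ y)) * Jac S τ y) p i =
        ∑ a, ∑ q, Jac S τ y a j * Gam S' g' p a q (τ y) * Jac S τ y q i := by
      intro j i p
      rw [Matrix.mul_apply]
      simp only [Matrix.sum_apply, Matrix.smul_apply, smul_eq_mul, GamM, Matrix.of_apply,
        Finset.sum_mul]
      rw [Finset.sum_comm]
    have hMs : ∀ j i p, ((∑ a, Jac S τ y a j • GamM S' g' a (τ y)) * Jac S τ y) p i =
        ((∑ a, Jac S τ y a i • GamM S' g' a (τ y)) * Jac S τ y) p j := by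
      intro j i p
      rw [hM, hM, Finset.sum_comm]
      refine Finset.sum_congr rfl fun a _ => Finset.sum_congr rfl fun q _ => ?_
      rw [Gam_symm h.dom' h.met' p q a (h.maps y hy)]
      ring
    have hJs : ∀ j i p, pdM S j (Jac S τ) y p i = pdM S i (Jac S τ) y p j := by
      intro j i p
      exact h.dom.pd_comm j i ((h.smooth p).of_le (by norm_cast)) hy
    show ((Jac S τ y)⁻¹ * (∑ a, Jac S τ y a j • GamM S' g' a (τ y)) * Jac S τ y +
      (Jac S τ y)⁻¹ * pdM S j (Jac S τ) y) k i =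
      ((Jac S τ y)⁻¹ * (∑ a, Jac S τ y a i • GamM S' g' a (τ y)) * Jac S τ y +
      (Jac S τ y)⁻¹ * pdM S i (Jac S τ) y) k j
    rw [Matrix.mul_assoc, Matrix.mul_assoc, Matrix.add_apply, Matrix.add_apply,
      Matrix.mul_apply, Matrix.mul_apply, Matrix.mul_apply, Matrix.mul_apply]
    simp only [hMs j i, hJs j i]
  · intro j
    have hg1 : CM 1 U' g' := fun a b => (h.met'.smooth a b).of_le (by norm_num)
    have hJ1 : CM 1 U (Jac S τ) := h.jac_smooth.of_le (by exact_mod_cast le_top)
    have hgc : CM 1 U (fun z => g' (τ z)) := by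
      intro a b
      have hτ : ContDiffOn ℝ 1 τ U := by
        rw [contDiffOn_euclidean]
        intro k
        exact (h.smooth k).of_le (by exact_mod_cast le_top)
      exact (hg1 a b).comp hτ h.maps
    have e1 : pdM S j g y = pdM S j (fun z => (Jac S τ z).transpose * g' (τ z) * Jac S τ z) y :=
      h.dom.pdM_congr j h.pull hy
    have e2 : pdM S j (fun z => (Jac S τ z).transpose * g' (τ z) * Jac S τ z) y =
        pdM S j (fun z => (Jac S τ z).transpose * g' (τ z)) y * Jac S τ y +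
        (Jac S τ y).transpose * g' (τ y) * pdM S j (Jac S τ) y :=
      h.dom.pdM_mul j ((hJ1.transpose.mul hgc).dOn le_rfl) (hJ1.dOn le_rfl) hy
    have e3 : pdM S j (fun z => (Jac S τ z).transpose * g' (τ z)) y =
        (pdM S j (Jac S τ) y).transpose * g' (τ y) +
        (Jac S τ y).transpose * pdM S j (fun z => g' (τ z)) y :=
      h.dom.pdM_mul j (hJ1.transpose.dOn le_rfl) (hgc.dOn le_rfl) hy
    have e4 := h.pdM_comp hg1 hy j
    have e5 : ∑ a, Jac S τ y a j • pdM S' a g' (τ y) =
        (∑ a, Jac S τ y a j • GamM S' g' a (τ y)).transpose * g' (τ y) +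
        g' (τ y) * (∑ a, Jac S τ y a j • GamM S' g' a (τ y)) := by
      rw [Matrix.transpose_sum, Finset.sum_mul, Finset.mul_sum, ← Finset.sum_add_distrib]
      refine Finset.sum_congr rfl fun a _ => ?_
      rw [pdM_met h.dom' h.met' a (h.maps y hy), smul_add, Matrix.transpose_smul,
        Matrix.smul_mul, Matrix.mul_smul]
    rw [e1, e2, e3, e4, e5, h.pull y hy]
    generalize hN : (∑ a, Jac S τ y a j • GamM S' g' a (τ y)) = N at *
    generalize hP : pdM S j (Jac S τ) y = P at *
    generalize hJ : Jac S τ y = J at *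
    generalize hG : g' (τ y) = G at *
    have hJi' : (J⁻¹).transpose * J.transpose = 1 := by
      rw [← Matrix.transpose_mul, hJi, Matrix.transpose_one]
    simp only [Matrix.transpose_add, Matrix.transpose_mul, Matrix.add_mul, Matrix.mul_add,
      Matrix.mul_assoc]
    have f1 : ∀ X : Matrix (Fin m) (Fin m) ℝ, (J⁻¹).transpose * (J.transpose * X) = X := by
      intro X
      rw [← Matrix.mul_assoc, hJi', Matrix.one_mul]
    have f2 : ∀ X : Matrix (Fin m) (Fin m) ℝ, J * (J⁻¹ * X) = X := by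
      intro X
      rw [← Matrix.mul_assoc, hJi, Matrix.one_mul]
    simp only [f1, f2]
    abel

private theorem GamM_CM {S U : Set (V m)} {g : MF m} (hD : Dom S U) (hg : MetOn U g 2) (k : Fin m) :
    CM 1 U (GamM S g k) := by
  intro a b
  exact contDiffOn_Gam hD (k := 1) (l := 2) (by norm_num [one_add_one_eq_two]) hg a k b

private theorem PullOn.smooth_map (h : PullOn S U S' U' τ g g') : ContDiffOn ℝ ∞ τ U :=
  contDiffOn_euclidean.mpr h.smooth

private theorem PullOn.CM_comp (h : PullOn S U S' U' τ g g') {M : V m → Matrix (Fin m) (Fin m) ℝ}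
    (hM : CM 1 U' M) : CM 1 U (fun z => M (τ z)) := by
  intro a b
  exact (hM a b).comp (h.smooth_map.of_le (by exact_mod_cast le_top)) h.maps

private theorem dB (h : PullOn S U S' U' τ g g') (hy : y ∈ U) (j k : Fin m) :
    pdM S j (fun z => ∑ b, Jac S τ z b k • GamM S' g' b (τ z)) y =
      ∑ b, (pd S j (fun z => Jac S τ z b k) y • GamM S' g' b (τ y) +
        ∑ a, (Jac S τ y a j * Jac S τ y b k) • pdM S' a (GamM S' g' b) (τ y)) := by
  have hJ1 : CM 1 U (Jac S τ) := h.jac_smooth.of_le (by exact_mod_cast le_top)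
  have hA' : ∀ b, CM 1 U' (GamM S' g' b) := fun b => GamM_CM h.dom' h.met' b
  rw [h.dom.pdM_sum _ (fun b _ => CM.smul (hJ1 b k) (h.CM_comp (hA' b))) hy]
  refine Finset.sum_congr rfl fun b _ => ?_
  rw [h.dom.pdM_smul hy (hJ1 b k) (h.CM_comp (hA' b)), h.pdM_comp (hA' b) hy]
  congr 1
  rw [Finset.smul_sum]
  refine Finset.sum_congr rfl fun a _ => ?_
  rw [smul_smul, mul_comm]

private theorem two_le_inf : (2 : WithTop ℕ∞) ≤ ∞ := by
  have h : ((2 : ℕ∞) : WithTop ℕ∞) ≤ ((⊤ : ℕ∞) : WithTop ℕ∞) := by exact_mod_cast (le_top : (2 : ℕ∞) ≤ ⊤)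
  exact h

private theorem jac_comm (h : PullOn S U S' U' τ g g') (hy : y ∈ U) (j k b : Fin m) :
    pd S j (fun z => Jac S τ z b k) y = pd S k (fun z => Jac S τ z b j) y := by
  have := h.dom.pd_comm j k ((h.smooth b).of_le two_le_inf) hy
  exact this

theorem FM_pull (h : PullOn S U S' U' τ g g') (hy : y ∈ U) (j k : Fin m) :
    FM S g j k y = (Jac S τ y)⁻¹ *
      (∑ a, ∑ b, (Jac S τ y a j * Jac S τ y b k) • FM S' g' a b (τ y)) * Jac S τ y := by
  have hJ : CM ∞ U (Jac S τ) := h.jac_smooth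
  have hJ1 : CM 1 U (Jac S τ) := hJ.of_le (by exact_mod_cast le_top)
  have hJ2 : CM 2 U (Jac S τ) := hJ.of_le two_le_inf
  have hA : ∀ k, CM 1 U (GamM S g k) := fun k => GamM_CM h.dom h.met k
  have hA' : ∀ b, CM 1 U' (GamM S' g' b) := fun b => GamM_CM h.dom' h.met' b
  have hB : ∀ k, CM 1 U (fun z => ∑ b, Jac S τ z b k • GamM S' g' b (τ z)) := fun k =>
    CM.sum _ fun b _ => CM.smul (hJ1 b k) (h.CM_comp (hA' b))
  have hdJ : ∀ k, CM 1 U (pdM S k (Jac S τ)) := fun k =>
    CM.pdM h.dom hJ2 (by norm_num [one_add_one_eq_two]) k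
  -- the basic identity
  have E : ∀ k, ∀ z ∈ U, Jac S τ z * GamM S g k z =
      (∑ b, Jac S τ z b k • GamM S' g' b (τ z)) * Jac S τ z + pdM S k (Jac S τ) z := by
    intro k z hz
    have hu : IsUnit (Jac S τ z).det := isUnit_iff_ne_zero.2 (h.det_ne hz)
    rw [GamM_pull h hz k, Matrix.mul_add, ← Matrix.mul_assoc, ← Matrix.mul_assoc, ← Matrix.mul_assoc,
      Matrix.mul_nonsing_inv _ hu, Matrix.one_mul, Matrix.one_mul]
  -- its derivative
  have D : ∀ j k, pdM S j (Jac S τ) y * GamM S g k y + Jac S τ y * pdM S j (GamM S g k) y =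
      pdM S j (fun z => ∑ b, Jac S τ z b k • GamM S' g' b (τ z)) y * Jac S τ y +
      (∑ b, Jac S τ y b k • GamM S' g' b (τ y)) * pdM S j (Jac S τ) y + pdM S j (pdM S k (Jac S τ)) y := by
    intro j k
    have e1 := h.dom.pdM_mul j (hJ1.dOn le_rfl) ((hA k).dOn le_rfl) hy
    have e2 := h.dom.pdM_congr j (E k) hy
    have e3 := h.dom.pdM_add hy ((hB k).mul hJ1) (hdJ k) j
    have e4 := h.dom.pdM_mul j ((hB k).dOn le_rfl) (hJ1.dOn le_rfl) hy
    rw [e4] at e3
    rw [← e1, e2, e3]
  have D1 := D j k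
  have D2 := D k j
  have H := h.dom.pdM_comm hy hJ2 j k
  have E1 := E j y hy
  have E2 := E k y hy
  -- the bracket of the B
  have hF : pdM S j (fun z => ∑ b, Jac S τ z b k • GamM S' g' b (τ z)) y -
      pdM S k (fun z => ∑ b, Jac S τ z b j • GamM S' g' b (τ z)) y +
      (∑ b, Jac S τ y b j • GamM S' g' b (τ y)) * (∑ b, Jac S τ y b k • GamM S' g' b (τ y)) -
      (∑ b, Jac S τ y b k • GamM S' g' b (τ y)) * (∑ b, Jac S τ y b j • GamM S' g' b (τ y)) =
      ∑ a, ∑ b, (Jac S τ y a j * Jac S τ y b k) • FM S' g' a b (τ y) := by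
    have f1 : pdM S j (fun z => ∑ b, Jac S τ z b k • GamM S' g' b (τ z)) y =
        (∑ b, pd S j (fun z => Jac S τ z b k) y • GamM S' g' b (τ y)) +
        ∑ a, ∑ b, (Jac S τ y a j * Jac S τ y b k) • pdM S' a (GamM S' g' b) (τ y) := by
      rw [dB h hy j k, Finset.sum_add_distrib]
      congr 1
      exact Finset.sum_comm
    have f2 : pdM S k (fun z => ∑ b, Jac S τ z b j • GamM S' g' b (τ z)) y =
        (∑ b, pd S j (fun z => Jac S τ z b k) y • GamM S' g' b (τ y)) +
        ∑ a, ∑ b, (Jac S τ y a j * Jac S τ y b k) • pdM S' b (GamM S' g' a) (τ y) := by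
      rw [dB h hy k j, Finset.sum_add_distrib]
      congr 1
      · refine Finset.sum_congr rfl fun b _ => ?_
        rw [jac_comm h hy j k b]
      · refine Finset.sum_congr rfl fun a _ => Finset.sum_congr rfl fun b _ => ?_
        rw [mul_comm]
    have f3 : (∑ b, Jac S τ y b j • GamM S' g' b (τ y)) * (∑ b, Jac S τ y b k • GamM S' g' b (τ y)) =
        ∑ a, ∑ b, (Jac S τ y a j * Jac S τ y b k) • (GamM S' g' a (τ y) * GamM S' g' b (τ y)) := by
      rw [Finset.sum_mul]
      refine Finset.sum_congr rfl fun a _ => ?_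
      rw [Finset.mul_sum]
      refine Finset.sum_congr rfl fun b _ => ?_
      rw [Matrix.smul_mul, Matrix.mul_smul, smul_smul]
    have f4 : (∑ b, Jac S τ y b k • GamM S' g' b (τ y)) * (∑ b, Jac S τ y b j • GamM S' g' b (τ y)) =
        ∑ a, ∑ b, (Jac S τ y a j * Jac S τ y b k) • (GamM S' g' b (τ y) * GamM S' g' a (τ y)) := by
      rw [Finset.mul_sum]
      refine Finset.sum_congr rfl fun a _ => ?_
      rw [Finset.sum_mul]
      refine Finset.sum_congr rfl fun b _ => ?_
      rw [Matrix.smul_mul, Matrix.mul_smul, smul_smul, mul_comm (Jac S τ y b k)]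
    rw [f1, f2, f3, f4, add_sub_add_left_eq_sub, ← Finset.sum_sub_distrib, ← Finset.sum_add_distrib,
      ← Finset.sum_sub_distrib]
    refine Finset.sum_congr rfl fun a _ => ?_
    rw [← Finset.sum_sub_distrib, ← Finset.sum_add_distrib, ← Finset.sum_sub_distrib]
    refine Finset.sum_congr rfl fun b _ => ?_
    rw [FM, smul_sub, smul_add, smul_sub]
  have key : Jac S τ y * FM S g j k y =
      (∑ a, ∑ b, (Jac S τ y a j * Jac S τ y b k) • FM S' g' a b (τ y)) * Jac S τ y := by
    rw [← hF, FM]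
    generalize pdM S j (fun z => ∑ b, Jac S τ z b k • GamM S' g' b (τ z)) y = dBj at *
    generalize pdM S k (fun z => ∑ b, Jac S τ z b j • GamM S' g' b (τ z)) y = dBk at *
    generalize (∑ b, Jac S τ y b j • GamM S' g' b (τ y)) = Bj at *
    generalize (∑ b, Jac S τ y b k • GamM S' g' b (τ y)) = Bk at *
    generalize Jac S τ y = J at *
    generalize pdM S j (Jac S τ) y = Jj at *
    generalize pdM S k (Jac S τ) y = Jk at *
    generalize pdM S j (GamM S g k) y = dAj at *
    generalize pdM S k (GamM S g j) y = dAk at *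
    generalize GamM S g j y = Aj at *
    generalize GamM S g k y = Ak at *
    rw [H] at D1
    generalize pdM S k (pdM S j (Jac S τ)) y = Hh at *
    have p1 : J * dAj = dBj * J + Bk * Jj + Hh - Jj * Ak := by
      rw [← D1]; abel
    have p2 : J * dAk = dBk * J + Bj * Jk + Hh - Jk * Aj := by
      rw [← D2]; abel
    have p3 : J * (Aj * Ak) = Bj * (Bk * J + Jk) + Jj * Ak := by
      rw [← Matrix.mul_assoc, E1, Matrix.add_mul, Matrix.mul_assoc, E2]
    have p4 : J * (Ak * Aj) = Bk * (Bj * J + Jj) + Jk * Aj := by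
      rw [← Matrix.mul_assoc, E2, Matrix.add_mul, Matrix.mul_assoc, E1]
    rw [Matrix.mul_sub, Matrix.mul_add, Matrix.mul_sub, p1, p2, p3, p4, Matrix.mul_add, Matrix.mul_add,
      Matrix.sub_mul, Matrix.add_mul, Matrix.sub_mul, Matrix.mul_assoc, Matrix.mul_assoc]
    abel
  have hu : IsUnit (Jac S τ y).det := isUnit_iff_ne_zero.2 (h.det_ne hy)
  rw [Matrix.mul_assoc, ← key, ← Matrix.mul_assoc, Matrix.nonsing_inv_mul _ hu, Matrix.one_mul]


/-- The Ricci tensor of a pull back. -/
theorem Ric_pull (h : PullOn S U S' U' τ g g') (i j : Fin m) (hy : y ∈ U) :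
    Ric S g i j y = ∑ b, ∑ c, Jac S τ y b i * Jac S τ y c j * Ric S' g' b c (τ y) := by
  have hJ : IsUnit (Jac S τ y).det := isUnit_iff_ne_zero.2 (h.det_ne hy)
  rw [Ric_eq_FM h.dom h.met i j hy]
  simp only [Ric_eq_FM h.dom' h.met' _ _ (h.maps y hy)]
  have h1 := FM_pull h hy
  generalize Jac S τ y = J at *
  have hJJ : ∀ d a, ∑ k, J d k * J⁻¹ k a = if d = a then 1 else 0 := by
    intro d a
    have := congrFun (congrFun (Matrix.mul_nonsing_inv _ hJ) d) a
    rw [Matrix.mul_apply, Matrix.one_apply] at this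
    exact this
  have h2 : ∀ k, FM S g k j y k i =
      ∑ a, ∑ b, ∑ d, ∑ c, (J d k * J⁻¹ k a) *
        (J b i * J c j * FM S' g' d c (τ y) a b) := by
    intro k
    rw [h1, Matrix.mul_assoc, Matrix.mul_apply]
    refine Finset.sum_congr rfl fun a _ => ?_
    rw [Matrix.mul_apply, Finset.mul_sum]
    refine Finset.sum_congr rfl fun b _ => ?_
    rw [Matrix.sum_apply, Finset.sum_mul, Finset.mul_sum]
    refine Finset.sum_congr rfl fun d _ => ?_
    rw [Matrix.sum_apply, Finset.sum_mul, Finset.mul_sum]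
    refine Finset.sum_congr rfl fun c _ => ?_
    rw [Matrix.smul_apply, smul_eq_mul]
    ring
  simp only [h2]
  calc ∑ k, ∑ a, ∑ b, ∑ d, ∑ c, (J d k * J⁻¹ k a) *
        (J b i * J c j * FM S' g' d c (τ y) a b)
      = ∑ a, ∑ b, ∑ d, ∑ k, ∑ c, (J d k * J⁻¹ k a) *
        (J b i * J c j * FM S' g' d c (τ y) a b) := by
        rw [Finset.sum_comm]
        refine Finset.sum_congr rfl fun a _ => ?_
        rw [Finset.sum_comm]
        exact Finset.sum_congr rfl fun b _ => Finset.sum_comm
    _ = ∑ a, ∑ b, ∑ d, (if d = a then 1 else 0) *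
        ∑ c, (J b i * J c j * FM S' g' d c (τ y) a b) := by
        refine Finset.sum_congr rfl fun a _ => Finset.sum_congr rfl fun b _ =>
          Finset.sum_congr rfl fun d _ => ?_
        rw [← hJJ d a, Finset.sum_mul]
        exact Finset.sum_congr rfl fun k _ => by rw [Finset.mul_sum]
    _ = ∑ a, ∑ b, ∑ c, (J b i * J c j * FM S' g' a c (τ y) a b) := by
        refine Finset.sum_congr rfl fun a _ => Finset.sum_congr rfl fun b _ => ?_
        simp
    _ = ∑ b, ∑ c, ∑ a, (J b i * J c j * FM S' g' a c (τ y) a b) := by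
        rw [Finset.sum_comm]
        exact Finset.sum_congr rfl fun b _ => Finset.sum_comm
    _ = _ := by
        refine Finset.sum_congr rfl fun b _ => Finset.sum_congr rfl fun c _ => ?_
        rw [Finset.mul_sum]

theorem PullOn.inv_eq (h : PullOn S U S' U' τ g g') (hy : y ∈ U) :
    Jac S τ y * (g y)⁻¹ * (Jac S τ y).transpose = (g' (τ y))⁻¹ := by
  have hJ : IsUnit (Jac S τ y).det := isUnit_iff_ne_zero.2 (h.det_ne hy)
  have hJt : IsUnit (Jac S τ y).transpose.det := by rw [Matrix.det_transpose]; exact hJ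
  rw [h.pull y hy, Matrix.mul_inv_rev, Matrix.mul_inv_rev, ← Matrix.mul_assoc, ← Matrix.mul_assoc,
    Matrix.mul_nonsing_inv _ hJ, Matrix.one_mul, Matrix.mul_assoc, Matrix.nonsing_inv_mul _ hJt,
    Matrix.mul_one]

/-- The scalar curvature of a pull back. -/
theorem scal_pull (h : PullOn S U S' U' τ g g') (hy : y ∈ U) : scal S g y = scal S' g' (τ y) := by
  have h1 := h.inv_eq hy
  have h2 : ∀ k l, (g' (τ y))⁻¹ k l =
      ∑ i, ∑ j, Jac S τ y k i * (g y)⁻¹ i j * Jac S τ y l j := by
    intro k l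
    rw [← h1, Matrix.mul_apply]
    simp only [Matrix.mul_apply, Matrix.transpose_apply, Finset.sum_mul]
    exact Finset.sum_comm
  simp only [scal, Ric_pull h _ _ hy, h2, Finset.sum_mul, Finset.mul_sum]
  generalize Jac S τ y = J at *
  calc ∑ i, ∑ j, ∑ k, ∑ l, (g y)⁻¹ i j * (J k i * J l j * Ric S' g' k l (τ y))
      = ∑ i, ∑ k, ∑ j, ∑ l, (g y)⁻¹ i j * (J k i * J l j * Ric S' g' k l (τ y)) :=
        Finset.sum_congr rfl fun i _ => Finset.sum_comm
    _ = ∑ k, ∑ i, ∑ j, ∑ l, (g y)⁻¹ i j * (J k i * J l j * Ric S' g' k l (τ y)) :=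
        Finset.sum_comm
    _ = ∑ k, ∑ i, ∑ l, ∑ j, (g y)⁻¹ i j * (J k i * J l j * Ric S' g' k l (τ y)) :=
        Finset.sum_congr rfl fun k _ => Finset.sum_congr rfl fun i _ => Finset.sum_comm
    _ = ∑ k, ∑ l, ∑ i, ∑ j, (g y)⁻¹ i j * (J k i * J l j * Ric S' g' k l (τ y)) :=
        Finset.sum_congr rfl fun k _ => Finset.sum_comm
    _ = _ := by
        refine Finset.sum_congr rfl fun k _ => Finset.sum_congr rfl fun l _ =>
          Finset.sum_congr rfl fun i _ => Finset.sum_congr rfl fun j _ => ?_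
        ring

end

end Pool.Agent.CY.Rel

namespace Pool.Agent.CY

open Rel

section bscal

variable {n : ℕ} {X : Type} [TopologicalSpace X] [ChartedSpace (EuclideanHalfSpace (n + 1)) X]
  [IsManifold (𝓡∂ (n + 1)) ∞ X]
  {e e' : OpenPartialHomeomorph X (EuclideanHalfSpace (n + 1))}

theorem metOn_tang {k : WithTop ℕ∞} {U : Set (V (n + 1))} {g : MF (n + 1)} (hg : MetOn U g k) :
    MetOn (bdry U) (tang g) k where
  pos := fun _ hz => tang_posDef hg hz
  smooth := fun a b => contDiffOn_bd (hg.smooth a.succ b.succ)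

/-- The boundary transition map is an isometry. -/
theorem pullOn_bdry (g : Metric n X) (he : e ∈ atlas (EuclideanHalfSpace (n + 1)) X)
    (he' : e' ∈ atlas (EuclideanHalfSpace (n + 1)) X) :
    PullOn univ (bdry (dom2 e e')) univ (bdry (dom2 e' e)) (fun z => tl (tr e e' (bd z)))
      (tang (g.G e)) (tang (g.G e')) where
  dom := dom_bdry (dom_chart2 e e')
  dom' := dom_bdry (dom_chart2 e' e)
  maps := fun z hz => by
    show bd (tl (tr e e' (bd z))) ∈ dom2 e' e
    rw [tr_bd he he' hz]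
    exact tr_mem e e' hz
  smooth := fun k => contDiffOn_bd (contDiffOn_tr he he' k.succ)
  met := (metOn_tang ((g.metOn2 he).mono (dom2_subset e e')))
  met' := (metOn_tang ((g.metOn2 he').mono (dom2_subset e' e)))
  pull := fun z hz => by
    have h1 : Jac univ (fun z => tl (tr e e' (bd z))) z = bjac e e' z := by
      ext k i
      simp only [Jac, bjac, Matrix.of_apply]
      exact pd_bd ((dom_chart2 e e').diffAt (diffOn_tr he he' k.succ) hz) i
    rw [h1]
    exact g.tang_compat he he' hz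

/-- Chart invariance of the scalar curvature of the boundary. -/
theorem bscal_inv (g : Metric n X) (he : e ∈ atlas (EuclideanHalfSpace (n + 1)) X)
    (he' : e' ∈ atlas (EuclideanHalfSpace (n + 1)) X) {z : V n} (hz : bd z ∈ dom2 e e') :
    scal univ (tang (g.G e)) z = scal univ (tang (g.G e')) (tl (tr e e' (bd z))) := by
  have hP := pullOn_bdry g he he'
  have hz' : z ∈ bdry (dom2 e e') := hz
  generalize tang (g.G e) = a at *
  generalize tang (g.G e') = b at *
  have h := scal_pull hP hz'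
  rw [h]

/-- The scalar curvature of the boundary in an arbitrary chart. -/
theorem bscalX_eq (g : Metric n X) (he : e ∈ atlas (EuclideanHalfSpace (n + 1)) X) {p : X}
    (hp : p ∈ e.source) (hb : p ∈ (𝓡∂ (n + 1)).boundary X) :
    bscalX g p = scal univ (tang (g.G e)) (tl (co e p)) := by
  have h0 : co (ch (n := n) p) p 0 = 0 := (mem_boundary_iff (ch_mem_atlas p) (mem_ch_source p)).1 hb
  have h2 : bd (tl (co (ch (n := n) p) p)) = co (ch (n := n) p) p := bd_tl h0
  have h3 : bd (tl (co (ch (n := n) p) p)) ∈ dom2 (ch p) e := by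
    rw [h2]; exact dom2_co (mem_ch_source p) hp
  rw [bscalX, bscal_inv g (ch_mem_atlas p) he h3, h2, tr_co (mem_ch_source p)]

theorem continuousOn_bscalX (g : Metric n X) : ContinuousOn (bscalX g) ((𝓡∂ (n + 1)).boundary X) :=
  continuousOn_of_bchart (fun e => scal univ (tang (g.G e)))
    (fun _ he _ hp hb => bscalX_eq g he hp hb)
    (fun e he => continuousOn_scal (dom_bdry (dom_chart e)) (metOn_tang (g.metOn2 he)))

end bscal

end Pool.Agent.CY
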