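import Pool.Agent.CY.S5.Mean
import Pool.Agent.CY.S5.Jac
import Pool.Agent.CY.S5.Div
import Pool.Agent.CY.S5.Rel
import Pool.Agent.CY.S5.C09Cont
import Pool.Agent.CY.S5.C13EinE
import Pool.Agent.CY.S5.C17Flux
import Pool.Agent.CY.S5.C18GWvf
import Pool.Agent.CY.S3.FinalA

/-!
Project CY, part S5: interface for the Key modules (results of the files `C*.lean` and `Rel.lean`).
-/

set_option autoImplicit false
set_option linter.unusedSectionVars false

open scoped Manifold ContDiff Topology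
open MeasureTheory Set Filter

namespace Pool.Agent.CY

export C (Ein GW EinOn CCEOn)

noncomputable section

variable {n : ℕ}

theorem div_GW_le {S U : Set (V (n + 1))} {g : MF (n + 1)} {ρ : V (n + 1) → ℝ} {y : V (n + 1)}
    (hn : 1 ≤ n) (hD : Dom S U) (hg : MetOn U g 3) (hρ : ContDiffOn ℝ 3 ρ U)
    (hE : EinOn S U g ρ) (hy : y ∈ U) :
    dvg S g (GW S g ρ) y ≤ -(((n : ℝ) - 1) / (2 * ((n : ℝ) + 1)) * (scal S g y * lap S g ρ y)) := by
  rw [← C.divV_eq_dvg hD hg (GW S g ρ) hy]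
  exact C.div_GW_le hn hD (hg.of_le (by norm_num)) hρ hE hy

variable {U : Set (V (n + 1))} {g : MF (n + 1)} {ρ : V (n + 1) → ℝ} {z : V n}

theorem nder_rho (hn : 1 ≤ n) (h : CCEOn U g ρ) (hz : bd z ∈ U) : nder g ρ z = -1 :=
  C.nder_rho hn h hz

theorem flux (hn : 2 ≤ n) (h : CCEOn U g ρ) (hz : bd z ∈ U) :
    -GW (Hs n) g ρ 0 (bd z) / Real.sqrt ((g (bd z))⁻¹ 0 0) =
      (1 / 2) * (scal univ (tang g) z - ((n : ℝ) - 1) / (n : ℝ) * meanCurv g z ^ 2) :=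
  C.flux hn h hz

variable {X : Type} [TopologicalSpace X] [ChartedSpace (EuclideanHalfSpace (n + 1)) X]
  [IsManifold (𝓡∂ (n + 1)) ∞ X]

theorem IsCCE.cceOn (hn : 2 ≤ n) {g : Metric n X} {ρ : X → ℝ} (h : IsCCE g ρ)
    {e : OpenPartialHomeomorph X (EuclideanHalfSpace (n + 1))}
    (he : e ∈ atlas (EuclideanHalfSpace (n + 1)) X) : CCEOn (dom e) (g.G e) (loc e ρ) :=
  C.cceOn h he

theorem isVF_GW (g : Metric n X) {f : X → ℝ}
    (hf : ContMDiff (𝓡∂ (n + 1)) 𝓘(ℝ) 2 f) :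
    IsVF (fun e i => GW (Hs n) (g.G e) (loc e f) i) :=
  C.isVF_GW g hf

end

end Pool.Agent.CY
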