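import Pool.Agent.CY.S3.FinalA

/-!
CY-S5-KeyYB (helper68).  The definition of the Yamabe constant gives a lower bound for the total boundary scalar
curvature.

PLAN.  `YB g = sInf T`, `0 < YB g`, so `T` is bounded below (`Real.sInf_of_not_bddBelow`) and
`YB g ≤ (∫ bscalX h ∂bvol h)/(bvol h univ)^{(n-2)/n}` (`csInf_le`); multiply by the positive number
`(bvol h univ)^{(n-2)/n}`.  Positivity: the boundary is nonempty (otherwise `bvol h' = 0` for all `h'` by `(bvol_spec h').1`,
all members of `T` are `0 / ..= 0`, and `YB g ≤ 0`, compare `boundary_nonempty` in S8/Fin1.lean), then `bvol_ne`,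
`bvol_lt_top` (S3/Fin).
-/

set_option autoImplicit false
set_option linter.unusedSectionVars false

open scoped Manifold ContDiff Topology
open MeasureTheory Set Filter

namespace Pool.Agent.CY

noncomputable section

variable {n : ℕ} {X : Type} [TopologicalSpace X] [ChartedSpace (EuclideanHalfSpace (n + 1)) X]
  [IsManifold (𝓡∂ (n + 1)) ∞ X] [CompactSpace X] [T2Space X] [MeasurableSpace X] [BorelSpace X]

private theorem bdry_ne (g : Metric n X) (hY : 0 < YB g) : ((𝓡∂ (n + 1)).boundary X).Nonempty := by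
  by_contra h
  rw [not_nonempty_iff_eq_empty] at h
  have h1 : ∀ h' : Metric n X, bvol h' = 0 := by
    intro h'
    have := bvol_compl_boundary h'
    rw [h, compl_empty] at this
    exact Measure.measure_univ_eq_zero.1 this
  have h2 : YB g ≤ 0 := by
    unfold YB
    refine Real.sInf_nonpos ?_
    rintro y ⟨u, h', hu, hc, rfl⟩
    rw [h1 h']
    simp
  linarith

theorem yb_le (hn : 3 ≤ n) (g : Metric n X) (hY : 0 < YB g) {v : X → ℝ} (hv : v ∈ PosSmooth n X)
    {h : Metric n X} (hh : IsConf v g h) :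
    YB g * (bvol h univ).toReal ^ (((n : ℝ) - 2) / (n : ℝ)) ≤ ∫ p, bscalX h p ∂(bvol h) := by
  have hpos : 0 < (bvol h univ).toReal ^ (((n : ℝ) - 2) / (n : ℝ)) :=
    Real.rpow_pos_of_pos (ENNReal.toReal_pos (bvol_ne h (bdry_ne g hY)) (bvol_lt_top h).ne) _
  rw [← le_div_iff₀ hpos]
  have hb : BddBelow {y : ℝ | ∃ (u : X → ℝ) (h : Metric n X), u ∈ PosSmooth n X ∧ IsConf u g h ∧
    y = (∫ p, bscalX h p ∂(bvol h)) / (bvol h univ).toReal ^ (((n : ℝ) - 2) / (n : ℝ))} := by
    by_contra hb
    have h1 : YB g = 0 := Real.sInf_of_not_bddBelow hb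
    exact hY.ne' h1
  exact csInf_le hb ⟨v, h, hv, hh, rfl⟩

end

end Pool.Agent.CY
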