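import Pool.Agent.CY.S5.ConfGam

/-!
Project CY, part S5: the algebra of the conformal change of the Ricci tensor.
-/

set_option autoImplicit false

namespace Pool.Agent.CY

section ricalg

variable {m : ℕ}

/-- The difference tensor of the Levi-Civita connections. -/
def TT (p q : Fin m → ℝ) (G : Fin m → Fin m → ℝ) (k i j : Fin m) : ℝ :=
  (if k = i then p j else 0) + (if k = j then p i else 0) - G i j * q k

variable (Γ : Fin m → Fin m → Fin m → ℝ) (p q : Fin m → ℝ) (G : Fin m → Fin m → ℝ)

theorem TT_tr1 (hG : ∀ i j, G i j = G j i) (hq : ∀ i, ∑ a, G i a * q a = p i) (l : Fin m) :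
    ∑ k, TT p q G k k l = m * p l := by
  have h : ∑ k, G k l * q k = p l := by
    rw [← hq l]; exact Finset.sum_congr rfl fun k _ => by rw [hG k l]
  simp only [TT, Finset.sum_add_distrib, Finset.sum_sub_distrib, h]
  simp

theorem TT_tr2 (hq : ∀ i, ∑ a, G i a * q a = p i) (i : Fin m) :
    ∑ k, TT p q G k i k = m * p i := by
  simp only [TT, Finset.sum_add_distrib, Finset.sum_sub_distrib, hq]
  simp

theorem TT_s1 (i j : Fin m) :
    ∑ k, ∑ l, Γ k k l * TT p q G l i j =
      ∑ k, Γ k k i * p j + ∑ k, Γ k k j * p i - G i j * ∑ k, ∑ l, Γ k k l * q l := by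
  have h : ∀ k, ∑ l, Γ k k l * TT p q G l i j =
      Γ k k i * p j + Γ k k j * p i - G i j * ∑ l, Γ k k l * q l := by
    intro k
    have : ∀ l, Γ k k l * TT p q G l i j = (if l = i then Γ k k l * p j else 0) +
        (if l = j then Γ k k l * p i else 0) - G i j * (Γ k k l * q l) := by
      intro l; simp only [TT]; split_ifs <;> ring
    simp only [this, Finset.sum_add_distrib, Finset.sum_sub_distrib, ← Finset.mul_sum]
    simp
  simp only [h, Finset.sum_add_distrib, Finset.sum_sub_distrib, ← Finset.mul_sum]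

theorem TT_s2 (hG : ∀ i j, G i j = G j i) (hq : ∀ i, ∑ a, G i a * q a = p i) (i j : Fin m) :
    ∑ k, ∑ l, TT p q G k k l * Γ l i j = m * ∑ l, p l * Γ l i j := by
  rw [Finset.sum_comm, Finset.mul_sum]
  refine Finset.sum_congr rfl fun l _ => ?_
  rw [← Finset.sum_mul, TT_tr1 p q G hG hq l]
  ring

theorem TT_s3 (i j : Fin m) :
    ∑ k, ∑ l, Γ k j l * TT p q G l i k =
      ∑ k, p k * Γ k j i + ∑ k, Γ k j k * p i - ∑ k, ∑ l, G i k * (Γ k j l * q l) := by
  have h : ∀ k, ∑ l, Γ k j l * TT p q G l i k =
      p k * Γ k j i + Γ k j k * p i - ∑ l, G i k * (Γ k j l * q l) := by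
    intro k
    have : ∀ l, Γ k j l * TT p q G l i k = (if l = i then Γ k j l * p k else 0) +
        (if l = k then Γ k j l * p i else 0) - G i k * (Γ k j l * q l) := by
      intro l; simp only [TT]; split_ifs <;> ring
    simp only [this, Finset.sum_add_distrib, Finset.sum_sub_distrib]
    simp [mul_comm]
  simp only [h, Finset.sum_add_distrib, Finset.sum_sub_distrib]

theorem TT_s4 (i j : Fin m) :
    ∑ k, ∑ l, TT p q G k j l * Γ l i k =
      ∑ l, p l * Γ l i j + ∑ k, Γ k i k * p j - ∑ k, ∑ l, G j l * (Γ l i k * q k) := by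
  have h : ∀ l, ∑ k, TT p q G k j l * Γ l i k =
      p l * Γ l i j + Γ l i l * p j - ∑ k, G j l * (Γ l i k * q k) := by
    intro l
    have : ∀ k, TT p q G k j l * Γ l i k = (if k = j then p l * Γ l i k else 0) +
        (if k = l then Γ l i k * p j else 0) - G j l * (Γ l i k * q k) := by
      intro k; simp only [TT]; split_ifs <;> ring
    simp only [this, Finset.sum_add_distrib, Finset.sum_sub_distrib]
    simp
  rw [Finset.sum_comm]
  simp only [h, Finset.sum_add_distrib, Finset.sum_sub_distrib]
  congr 1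
  exact Finset.sum_comm

theorem TT_s5 (hG : ∀ i j, G i j = G j i) (hq : ∀ i, ∑ a, G i a * q a = p i) (i j : Fin m) :
    ∑ k, ∑ l, TT p q G k k l * TT p q G l i j = m * (2 * (p i * p j) - G i j * ∑ l, p l * q l) := by
  rw [TT_s2 (TT p q G) p q G hG hq i j]
  congr 1
  have : ∀ l, p l * TT p q G l i j = (if l = i then p l * p j else 0) + (if l = j then p l * p i else 0)
      - G i j * (p l * q l) := by
    intro l; simp only [TT]; split_ifs <;> ring
  simp only [this, Finset.sum_add_distrib, Finset.sum_sub_distrib, ← Finset.mul_sum]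
  simp
  ring

theorem TT_s6 (hG : ∀ i j, G i j = G j i) (hq : ∀ i, ∑ a, G i a * q a = p i) (i j : Fin m) :
    ∑ k, ∑ l, TT p q G k j l * TT p q G l i k =
      (m + 2) * (p i * p j) - 2 * (G i j * ∑ l, p l * q l) := by
  rw [TT_s4 (TT p q G) p q G i j]
  have h1 : ∑ l, p l * TT p q G l i j = 2 * (p i * p j) - G i j * ∑ l, p l * q l := by
    have : ∀ l, p l * TT p q G l i j = (if l = i then p l * p j else 0) + (if l = j then p l * p i else 0)
        - G i j * (p l * q l) := by
      intro l; simp only [TT]; split_ifs <;> ring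
    simp only [this, Finset.sum_add_distrib, Finset.sum_sub_distrib, ← Finset.mul_sum]
    simp
    ring
  have h2 : ∑ k, TT p q G k i k * p j = m * (p i * p j) := by
    rw [← Finset.sum_mul, TT_tr2 p q G hq i]; ring
  have h3 : ∑ k, ∑ l, G j l * (TT p q G l i k * q k) = G i j * ∑ l, p l * q l := by
    have h4 : ∀ k, ∑ l, G j l * (TT p q G l i k * q k) =
        G j i * (p k * q k) + p i * (G j k * q k) - p j * (G i k * q k) := by
      intro k
      have : ∀ l, G j l * (TT p q G l i k * q k) = (if l = i then G j l * (p k * q k) else 0) +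
          (if l = k then p i * (G j l * q k) else 0) - (G i k * q k) * (G j l * q l) := by
        intro l; simp only [TT]; split_ifs <;> ring
      simp only [this, Finset.sum_add_distrib, Finset.sum_sub_distrib, ← Finset.mul_sum, hq]
      simp
      ring
    simp only [h4, Finset.sum_add_distrib, Finset.sum_sub_distrib, ← Finset.mul_sum, hq, hG j i]
    ring
  rw [h1, h2, h3]
  ring

end ricalg

end Pool.Agent.CY
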